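import Pool.Agent.Y943.SL.Abs

/-!
# The doubling criterion: an asymptotic relation for `c (2 n) / c n ^ 2` gives one for `c n`
-/

set_option autoImplicit false

namespace Pool.Agent.X204.DBL

open Filter Topology

/-- `h(2n) - 2h(n) → 0` along a set closed under doubling and `h(n) = o(n)` give `h(n) → 0` along it -/
theorem tend_zero (h : ℕ → ℝ) (hf : Tendsto (fun n : ℕ => h n / n) atTop (𝓝 0)) (S : Set ℕ)
    (hd : ∀ n ∈ S, 2 * n ∈ S)
    (h2 : Tendsto (fun n : ℕ => h (2 * n) - 2 * h n) (atTop ⊓ 𝓟 S) (𝓝 0)) :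
    Tendsto h (atTop ⊓ 𝓟 S) (𝓝 0) := by
  rw [Metric.tendsto_nhds] at h2 ⊢
  intro ε hε
  have h3 := h2 (ε / 2) (by positivity)
  rw [eventually_inf_principal, eventually_atTop] at h3
  obtain ⟨N, hN⟩ := h3
  rw [eventually_inf_principal, eventually_atTop]
  refine ⟨max N 1, fun n hn hnS => ?_⟩
  have hn1 : 1 ≤ n := (le_max_right _ _).trans hn
  have hnN : N ≤ n := (le_max_left _ _).trans hn
  have hJ : ∀ J : ℕ, 2 ^ J * n ∈ S ∧ N ≤ 2 ^ J * n := by
    intro J
    induction J with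
    | zero => simpa using ⟨hnS, hnN⟩
    | succ J ih =>
      rw [show 2 ^ (J + 1) * n = 2 * (2 ^ J * n) by ring]
      exact ⟨hd _ ih.1, by omega⟩
  have hk : ∀ J : ℕ, |h (2 * (2 ^ J * n)) - 2 * h (2 ^ J * n)| < ε / 2 := by
    intro J
    have := hN _ (hJ J).2 (hJ J).1
    rwa [Real.dist_eq, sub_zero] at this
  have hce : Tendsto (fun n : ℕ => (ε / 2) / (n : ℝ)) atTop (𝓝 0) :=
    tendsto_const_div_atTop_nhds_zero_nat (ε / 2)
  have a1 : h n - ε / 2 ≤ 0 := by
    refine Pool.Agent.Y943.SL.nonpos_of_double (fun n => h n - ε / 2) ?_ n hn1 (fun J => ?_)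
    · have := hf.sub hce
      rw [sub_zero] at this
      exact this.congr fun n => by rw [sub_div]
    · have := (abs_lt.1 (hk J)).1
      linarith
  have a2 : -h n - ε / 2 ≤ 0 := by
    refine Pool.Agent.Y943.SL.nonpos_of_double (fun n => -h n - ε / 2) ?_ n hn1 (fun J => ?_)
    · have := hf.neg.sub hce
      rw [neg_zero, sub_zero] at this
      exact this.congr fun n => by rw [sub_div, neg_div]
    · have := (abs_lt.1 (hk J)).2
      linarith
  rw [Real.dist_eq, sub_zero, abs_lt]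
  constructor <;> linarith

variable {c : ℕ → ℝ} {μ : ℝ}

theorem log_ratio (hμ : 0 < μ) (hc : ∀ n, 1 ≤ n → 0 < c n) (n : ℕ) (hn : 1 ≤ n) :
    Real.log (c (2 * n) / c n ^ 2) =
      Real.log (c (2 * n) / μ ^ (2 * n)) - 2 * Real.log (c n / μ ^ n) := by
  have h1 := hc n hn
  have h2 := hc (2 * n) (by omega)
  rw [Real.log_div h2.ne' (by positivity), Real.log_div h2.ne' (by positivity),
    Real.log_div h1.ne' (by positivity), Real.log_pow, Real.log_pow, Real.log_pow]
  push_cast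
  ring

/-- **The doubling criterion.** -/
theorem double (hμ : 0 < μ) (hc : ∀ n, 1 ≤ n → 0 < c n)
    (sub : Tendsto (fun n : ℕ => Real.log (c n / μ ^ n) / n) atTop (𝓝 0)) (S : Set ℕ)
    (hd : ∀ n ∈ S, 2 * n ∈ S) (β L : ℝ) (hL : 0 < L)
    (h : Tendsto (fun n : ℕ => c (2 * n) / c n ^ 2 * (n : ℝ) ^ β) (atTop ⊓ 𝓟 S) (𝓝 L)) :
    Tendsto (fun n : ℕ => c n / (μ ^ n * (n : ℝ) ^ β)) (atTop ⊓ 𝓟 S) (𝓝 (2 ^ β / L)) := by
  set κ : ℝ := Real.log L - β * Real.log 2 with hκ
  set g : ℕ → ℝ := fun n => Real.log (c n / μ ^ n) - β * Real.log n + κ with hg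
  have hgn : Tendsto (fun n : ℕ => g n / n) atTop (𝓝 0) := by
    have h1 := Pool.Agent.Y943.SL.log_over.const_mul β
    have h2 : Tendsto (fun n : ℕ => κ / (n : ℝ)) atTop (𝓝 0) :=
      tendsto_const_div_atTop_nhds_zero_nat κ
    have h3 := (sub.sub h1).add h2
    rw [mul_zero, sub_zero, add_zero] at h3
    refine h3.congr fun n => ?_
    simp only [hg]
    ring
  have hgev : ∀ᶠ n : ℕ in atTop ⊓ 𝓟 S, 1 ≤ n :=
    (eventually_ge_atTop 1).filter_mono inf_le_left
  have h2 : Tendsto (fun n : ℕ => g (2 * n) - 2 * g n) (atTop ⊓ 𝓟 S) (𝓝 0) := by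
    have h3 := (h.log hL.ne').sub_const (Real.log L)
    rw [sub_self] at h3
    refine h3.congr' ?_
    filter_upwards [hgev] with n hn
    have hn0 : (0 : ℝ) < n := by exact_mod_cast hn
    have h1 := hc n hn
    have h4 := hc (2 * n) (by omega)
    rw [Real.log_mul (div_pos h4 (by positivity)).ne' (Real.rpow_pos_of_pos hn0 β).ne',
      Real.log_rpow hn0, log_ratio hμ hc n hn]
    simp only [hg, hκ]
    push_cast
    rw [Real.log_mul (by norm_num) hn0.ne']
    ring
  have h5 := tend_zero g hgn S hd h2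
  have h6 := (h5.sub_const κ).rexp
  rw [zero_sub] at h6
  have e : Real.exp (-κ) = 2 ^ β / L := by
    rw [hκ, neg_sub, Real.exp_sub, Real.exp_log hL, Real.rpow_def_of_pos (by norm_num), mul_comm]
  rw [e] at h6
  refine h6.congr' ?_
  filter_upwards [hgev] with n hn
  have hn0 : (0 : ℝ) < n := by exact_mod_cast hn
  have h1 := hc n hn
  simp only [hg]
  rw [show Real.log (c n / μ ^ n) - β * Real.log n + κ - κ =
    Real.log (c n / μ ^ n) - Real.log ((n : ℝ) ^ β) by rw [Real.log_rpow hn0]; ring,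
    Real.exp_sub, Real.exp_log (by positivity), Real.exp_log (by positivity), div_div]

/-- the converse direction -/
theorem double_conv (hμ : 0 < μ) (S : Set ℕ)
    (hd : ∀ n ∈ S, 2 * n ∈ S) (β A : ℝ) (hA : 0 < A)
    (h : Tendsto (fun n : ℕ => c n / (μ ^ n * (n : ℝ) ^ β)) (atTop ⊓ 𝓟 S) (𝓝 A)) :
    Tendsto (fun n : ℕ => c (2 * n) / c n ^ 2 * (n : ℝ) ^ β) (atTop ⊓ 𝓟 S) (𝓝 (2 ^ β / A)) := by
  have h2 : Tendsto (fun n : ℕ => 2 * n) (atTop ⊓ 𝓟 S) (atTop ⊓ 𝓟 S) := by
    refine tendsto_inf.2 ⟨?_, ?_⟩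
    · exact (tendsto_atTop_mono (fun k => by simp only [id]; omega) tendsto_id).mono_left
        inf_le_left
    · rw [tendsto_principal, eventually_inf_principal]
      exact Eventually.of_forall fun n hn => hd n hn
  have h3 := (((h.comp h2).div (h.pow 2) (by positivity)).mul_const ((2 : ℝ) ^ β))
  have e : A / A ^ 2 * 2 ^ β = 2 ^ β / A := by
    have := hA.ne'
    field_simp
  rw [e] at h3
  refine h3.congr' ?_
  filter_upwards [(eventually_ge_atTop 1).filter_mono inf_le_left] with n hn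
  have hn0 : (0 : ℝ) < n := by exact_mod_cast (show 0 < n from hn)
  have hp : (0 : ℝ) < (n : ℝ) ^ β := Real.rpow_pos_of_pos hn0 β
  have hp2 : (0 : ℝ) < (2 : ℝ) ^ β := Real.rpow_pos_of_pos (by norm_num) β
  have hm : μ ^ (2 * n) = (μ ^ n) ^ 2 := by rw [← pow_mul]; ring_nf
  simp only [Function.comp_apply, Pi.div_apply]
  push_cast
  rw [Real.mul_rpow (by norm_num) hn0.le, hm]
  by_cases hz : c n = 0
  · simp [hz]
  · have hmn : μ ^ n ≠ 0 := by positivity
    field_simp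

end Pool.Agent.X204.DBL
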