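import Mathlib

/-! Bounded operators on `ℓ₁(I)` given by their values on the unit vectors. -/

namespace Pool.Agent.X204.L1

open Filter Topology
open scoped ENNReal

instance fact11 : Fact ((1 : ℝ≥0∞) ≤ 1) := ⟨le_rfl⟩

variable (𝕜 : Type*) [RCLike 𝕜] (I : Type*)

/-- The space `ℓ₁(I)`. -/
abbrev E := lp (fun _ : I => 𝕜) 1

variable {I}

/-- Unit vectors. -/
noncomputable def e [DecidableEq I] (a : I) : E 𝕜 I := lp.single 1 a (1 : 𝕜)

variable {𝕜}

theorem norm_e [DecidableEq I] (a : I) : ‖e 𝕜 a‖ = 1 := by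
  rw [e, lp.norm_single (by norm_num), norm_one]

theorem e_self [DecidableEq I] (a : I) : (e 𝕜 a) a = 1 := lp.single_apply_self _ _ _

theorem e_ne [DecidableEq I] {a b : I} (h : b ≠ a) : (e 𝕜 a) b = 0 := lp.single_apply_ne _ _ _ h

theorem single_eq [DecidableEq I] (a : I) (c : 𝕜) :
    (lp.single 1 a c : E 𝕜 I) = c • e 𝕜 a := by
  have := lp.single_smul (E := fun _ : I => 𝕜) 1 a c (1 : 𝕜)
  rw [smul_eq_mul, mul_one] at this
  exact this

theorem hasSum_norm (x : E 𝕜 I) : HasSum (fun a => ‖x a‖) ‖x‖ := by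
  have := lp.hasSum_norm (p := 1) (by norm_num) x
  simpa using this

theorem norm_coord_le (x : E 𝕜 I) (a : I) : ‖x a‖ ≤ ‖x‖ :=
  lp.norm_apply_le_norm one_ne_zero x a

theorem hasSum_e [DecidableEq I] (x : E 𝕜 I) : HasSum (fun a => x a • e 𝕜 a) x := by
  have h := lp.hasSum_single (p := 1) ENNReal.one_ne_top x
  have h2 : (fun a => x a • e 𝕜 a) = fun a => (lp.single 1 a (x a) : E 𝕜 I) := by
    funext a; rw [single_eq]
  rw [h2]; exact h

variable {Y : Type*} [NormedAddCommGroup Y] [NormedSpace 𝕜 Y]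

theorem norm_le_of_e [DecidableEq I] (S : E 𝕜 I →L[𝕜] Y) {C : ℝ} (hC : ∀ a, ‖S (e 𝕜 a)‖ ≤ C)
    (x : E 𝕜 I) : ‖S x‖ ≤ C * ‖x‖ := by
  have h1 := S.hasSum (hasSum_e x)
  have h2 : HasSum (fun a => C * ‖x a‖) (C * ‖x‖) := (hasSum_norm x).mul_left C
  refine h1.norm_le_of_bounded h2 fun a => ?_
  rw [map_smul, norm_smul, mul_comm]
  exact mul_le_mul_of_nonneg_right (hC a) (norm_nonneg _)

/-- Operators agreeing on the unit vectors are equal. -/
theorem ext_e [DecidableEq I] {S T : E 𝕜 I →L[𝕜] Y} (h : ∀ a, S (e 𝕜 a) = T (e 𝕜 a)) :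
    S = T := by
  ext x
  have h1 := S.hasSum (hasSum_e x)
  have h2 := T.hasSum (hasSum_e x)
  refine h1.unique ?_
  simpa [h] using h2

/-- A closed subspace containing the unit vectors is everything. -/
theorem mem_of_closed [DecidableEq I] (M : Submodule 𝕜 (E 𝕜 I)) (hM : IsClosed (M : Set (E 𝕜 I)))
    (h : ∀ a, e 𝕜 a ∈ M) (x : E 𝕜 I) : x ∈ M := by
  have h1 := hasSum_e x
  exact hM.mem_of_tendsto h1 (Eventually.of_forall fun s =>
    M.sum_mem fun a _ => M.smul_mem _ (h a))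

theorem dense_of_mem [DecidableEq I] (M : Submodule 𝕜 (E 𝕜 I)) (h : ∀ a, e 𝕜 a ∈ M) :
    Dense (M : Set (E 𝕜 I)) := by
  intro x
  have h1 := hasSum_e x
  exact mem_closure_of_tendsto h1 (Eventually.of_forall fun s =>
    M.sum_mem fun a _ => M.smul_mem _ (h a))

variable [CompleteSpace Y]

theorem summable_smul (x : E 𝕜 I) {v : I → Y} {C : ℝ} (hC : ∀ a, ‖v a‖ ≤ C) :
    Summable fun a => x a • v a := by
  refine Summable.of_norm_bounded ((hasSum_norm x).summable.mul_left C) fun a => ?_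
  rw [norm_smul, mul_comm]
  exact mul_le_mul_of_nonneg_right (hC a) (norm_nonneg _)

/-- The operator on `ℓ₁(I)` with prescribed values on the unit vectors. -/
noncomputable def lift (v : I → Y) (C : ℝ) (hC : ∀ a, ‖v a‖ ≤ C) : E 𝕜 I →L[𝕜] Y :=
  LinearMap.mkContinuous
    { toFun := fun x => ∑' a, x a • v a
      map_add' := fun x y => by
        rw [← (summable_smul x hC).tsum_add (summable_smul y hC)]
        refine tsum_congr fun a => ?_
        rw [lp.coeFn_add, Pi.add_apply, add_smul]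
      map_smul' := fun c x => by
        rw [RingHom.id_apply, ← (summable_smul x hC).tsum_const_smul]
        refine tsum_congr fun a => ?_
        rw [lp.coeFn_smul, Pi.smul_apply, smul_assoc] }
    C (fun x => by
      refine tsum_of_norm_bounded ((hasSum_norm x).mul_left C) fun a => ?_
      rw [norm_smul, mul_comm]
      exact mul_le_mul_of_nonneg_right (hC a) (norm_nonneg _))

theorem lift_apply (v : I → Y) (C : ℝ) (hC : ∀ a, ‖v a‖ ≤ C) (x : E 𝕜 I) :
    lift v C hC x = ∑' a, x a • v a := rfl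

theorem lift_e [DecidableEq I] (v : I → Y) (C : ℝ) (hC : ∀ a, ‖v a‖ ≤ C) (a : I) :
    lift v C hC (e 𝕜 a) = v a := by
  rw [lift_apply, tsum_eq_single a]
  · rw [e_self, one_smul]
  · intro b hb
    rw [e_ne hb, zero_smul]

theorem norm_lift_le (v : I → Y) (C : ℝ) (hC0 : 0 ≤ C) (hC : ∀ a, ‖v a‖ ≤ C) :
    ‖(lift v C hC : E 𝕜 I →L[𝕜] Y)‖ ≤ C := LinearMap.mkContinuous_norm_le _ hC0 _

end Pool.Agent.X204.L1
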