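import Pool.Agent.X204.DBL

/-!
# The doubling criterion for eventually positive sequences whose ratios converge
-/

set_option autoImplicit false

namespace Pool.Agent.X204.DBE

open Filter Topology

variable {c : ℕ → ℝ} {g : ℝ}

theorem sub_of_ratio (hg : 0 < g) (hc : ∀ᶠ n : ℕ in atTop, 0 < c n)
    (hr : Tendsto (fun n : ℕ => c (n + 1) / c n) atTop (𝓝 g)) :
    Tendsto (fun n : ℕ => Real.log (c n / g ^ n) / n) atTop (𝓝 0) := by
  have hc' : ∀ᶠ n : ℕ in atTop, 0 < c (n + 1) := (tendsto_add_atTop_nat 1).eventually hc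
  have h1 : Tendsto (fun n : ℕ => Real.log (c (n + 1) / g ^ (n + 1)) - Real.log (c n / g ^ n)) atTop
      (𝓝 0) := by
    have h2 := hr.div_const g
    rw [div_self hg.ne'] at h2
    have h3 := h2.log one_ne_zero
    rw [Real.log_one] at h3
    refine h3.congr' ?_
    filter_upwards [hc, hc'] with n p0 p1
    have q0 : 0 < c n / g ^ n := div_pos p0 (by positivity)
    have q1 : 0 < c (n + 1) / g ^ (n + 1) := div_pos p1 (by positivity)
    rw [← Real.log_div q1.ne' q0.ne']
    congr 1
    rw [pow_succ]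
    field_simp
  have h4 := h1.cesaro
  have h5 := h4.add (tendsto_const_div_atTop_nhds_zero_nat (Real.log (c 0 / g ^ 0)))
  rw [add_zero] at h5
  refine h5.congr' ?_
  filter_upwards [eventually_gt_atTop 0] with n hn
  rw [Finset.sum_range_sub (fun i => Real.log (c i / g ^ i)) n]
  have : (n : ℝ) ≠ 0 := by exact_mod_cast hn.ne'
  field_simp
  ring

/-- the doubling criterion, as an equivalence -/
theorem double_iff (hg : 0 < g) (hc : ∀ᶠ n : ℕ in atTop, 0 < c n)
    (sub : Tendsto (fun n : ℕ => Real.log (c n / g ^ n) / n) atTop (𝓝 0)) (S : Set ℕ)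
    (hd : ∀ n ∈ S, 2 * n ∈ S) (β A : ℝ) (hA : 0 < A) :
    Tendsto (fun n : ℕ => c n / (g ^ n * (n : ℝ) ^ β)) (atTop ⊓ 𝓟 S) (𝓝 A) ↔
      Tendsto (fun n : ℕ => c (2 * n) / c n ^ 2 * (n : ℝ) ^ β) (atTop ⊓ 𝓟 S) (𝓝 (2 ^ β / A)) := by
  constructor
  · intro h
    exact Pool.Agent.X204.DBL.double_conv hg S hd β A hA h
  · intro h
    obtain ⟨N, hN⟩ := eventually_atTop.1 hc
    obtain ⟨c', hc'⟩ : ∃ c' : ℕ → ℝ, c' = fun n => if n < N then 1 else c n := ⟨_, rfl⟩
    have hce : ∀ n, N ≤ n → c' n = c n := fun n hn => by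
      rw [hc']
      simp only
      rw [if_neg (by omega)]
    have hcp : ∀ n, 1 ≤ n → 0 < c' n := by
      intro n _
      rcases Nat.lt_or_ge n N with h1 | h1
      · rw [hc']
        simp only
        rw [if_pos h1]
        exact one_pos
      · rw [hce n h1]
        exact hN n h1
    have hmem : ∀ᶠ n : ℕ in atTop ⊓ 𝓟 S, N ≤ n := (eventually_ge_atTop N).filter_mono inf_le_left
    have h1 := Pool.Agent.X204.DBL.double (c := c') (μ := g) hg hcp (by
        refine sub.congr' ?_
        filter_upwards [eventually_ge_atTop N] with n hn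
        rw [hce n hn]) S hd β (2 ^ β / A) (div_pos (Real.rpow_pos_of_pos (by norm_num) _) hA) (by
        refine h.congr' ?_
        filter_upwards [hmem] with n hn
        rw [hce n hn, hce (2 * n) (by omega)])
    have e : (2 : ℝ) ^ β / (2 ^ β / A) = A := by
      have := (Real.rpow_pos_of_pos (show (0 : ℝ) < 2 by norm_num) β).ne'
      have := hA.ne'
      field_simp
    rw [e] at h1
    refine h1.congr' ?_
    filter_upwards [hmem] with n hn
    rw [hce n hn]

/-- the logarithmic form of the doubling criterion -/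
theorem along_log (hg : 0 < g) (hc : ∀ᶠ n : ℕ in atTop, 0 < c n)
    (sub : Tendsto (fun n : ℕ => Real.log (c n / g ^ n) / n) atTop (𝓝 0)) (S : Set ℕ)
    (hd : ∀ n ∈ S, 2 * n ∈ S) (β : ℝ)
    (h : Tendsto (fun n : ℕ => Real.log (c (2 * n) / c n ^ 2) / Real.log n) (atTop ⊓ 𝓟 S)
      (𝓝 (-β))) :
    Tendsto (fun n : ℕ => Real.log (c n / g ^ n) / Real.log n) (atTop ⊓ 𝓟 S) (𝓝 β) := by
  have hlo : Tendsto (fun n : ℕ => (Real.log (n : ℝ) + Real.log 2) / n) atTop (𝓝 0) := by
    have := Pool.Agent.Y943.SL.log_over.add (tendsto_const_div_atTop_nhds_zero_nat (Real.log 2))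
    rw [add_zero] at this
    exact this.congr fun n => by rw [add_div]
  have hup : ∀ b : ℝ, Tendsto (fun n : ℕ => (Real.log (c n / g ^ n) -
      b * (Real.log n + Real.log 2)) / n) atTop (𝓝 0) := by
    intro b
    have := sub.sub (hlo.const_mul b)
    rw [mul_zero, sub_zero] at this
    exact this.congr fun n => by ring
  rw [Metric.tendsto_nhds] at h ⊢
  intro ε hε
  have h1 := h (ε / 2) (by positivity)
  rw [eventually_inf_principal] at h1 ⊢
  obtain ⟨N, hN⟩ := eventually_atTop.1 (h1.and hc)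
  have hbig : ∀ᶠ n : ℕ in atTop, (|β| + ε) * 2 < ε / 2 * Real.log (n : ℝ) := by
    have h1 : Tendsto (fun k : ℕ => ε / 2 * Real.log (k : ℝ)) atTop atTop :=
      (Real.tendsto_log_atTop.comp tendsto_natCast_atTop_atTop).const_mul_atTop (by positivity)
    exact h1.eventually_gt_atTop _
  filter_upwards [hbig, eventually_ge_atTop (N + 2)] with n hnb hn hnS
  have hJ : ∀ J : ℕ, 2 ^ J * n ∈ S ∧ N + 2 ≤ 2 ^ J * n := by
    intro J
    induction J with
    | zero => simpa using ⟨hnS, hn⟩
    | succ J ih =>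
      rw [show 2 ^ (J + 1) * n = 2 * (2 ^ J * n) by ring]
      exact ⟨hd _ ih.1, by omega⟩
  have key : ∀ J : ℕ, -((β + ε / 2) * Real.log ((2 ^ J * n : ℕ) : ℝ)) ≤
      Real.log (c (2 * (2 ^ J * n)) / g ^ (2 * (2 ^ J * n))) -
        2 * Real.log (c (2 ^ J * n) / g ^ (2 ^ J * n)) ∧
      Real.log (c (2 * (2 ^ J * n)) / g ^ (2 * (2 ^ J * n))) -
        2 * Real.log (c (2 ^ J * n) / g ^ (2 ^ J * n)) ≤
        -((β - ε / 2) * Real.log ((2 ^ J * n : ℕ) : ℝ)) := by
    intro J
    obtain ⟨hS, hm⟩ := hJ J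
    obtain ⟨m, hmd⟩ : ∃ m, m = 2 ^ J * n := ⟨_, rfl⟩
    rw [← hmd] at hS hm ⊢
    obtain ⟨h2, p0⟩ := hN m (by omega)
    obtain ⟨-, p1⟩ := hN (2 * m) (by omega)
    have h3 := h2 hS
    have hm1 : (1 : ℝ) < m := by exact_mod_cast (show 1 < m by omega)
    have hln : 0 < Real.log (m : ℝ) := Real.log_pos hm1
    rw [Real.dist_eq, abs_lt] at h3
    obtain ⟨h4, h5⟩ := h3
    have e0 : Real.log (c (2 * m) / g ^ (2 * m)) - 2 * Real.log (c m / g ^ m) =
        Real.log (c (2 * m) / c m ^ 2) := by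
      rw [Real.log_div p1.ne' (by positivity), Real.log_div p0.ne' (by positivity),
        Real.log_div p1.ne' (by positivity), Real.log_pow, Real.log_pow, Real.log_pow]
      push_cast
      ring
    have e : Real.log (c (2 * m) / c m ^ 2) =
        Real.log (c (2 * m) / c m ^ 2) / Real.log m * Real.log m := by field_simp
    rw [e0, e]
    constructor
    · nlinarith
    · nlinarith
  have hlog2 : ∀ J : ℕ, Real.log ((2 * (2 ^ J * n) : ℕ) : ℝ) =
      Real.log 2 + Real.log ((2 ^ J * n : ℕ) : ℝ) := by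
    intro J
    have h0 : (0 : ℝ) < ((2 ^ J * n : ℕ) : ℝ) := by
      have := (hJ J).2
      exact_mod_cast (show 0 < 2 ^ J * n by omega)
    rw [Nat.cast_mul, Real.log_mul (by norm_num) h0.ne']
    norm_num
  have u1 : Real.log (c n / g ^ n) - (β + ε / 2) * (Real.log n + Real.log 2) ≤ 0 :=
    Pool.Agent.Y943.SL.nonpos_of_double (fun n : ℕ => Real.log (c n / g ^ n) -
      (β + ε / 2) * (Real.log n + Real.log 2)) (hup _) n (by omega) (fun J => by
      have h4 := (key J).1
      rw [hlog2]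
      linarith)
  have u2 : -(Real.log (c n / g ^ n) - (β - ε / 2) * (Real.log n + Real.log 2)) ≤ 0 :=
    Pool.Agent.Y943.SL.nonpos_of_double (fun n : ℕ => -(Real.log (c n / g ^ n) -
      (β - ε / 2) * (Real.log n + Real.log 2))) (by
        have := (hup (β - ε / 2)).neg
        rw [neg_zero] at this
        exact this.congr fun n => by rw [neg_div]) n (by omega) (fun J => by
      have h4 := (key J).2
      rw [hlog2]
      linarith)
  have hn1 : (1 : ℝ) < n := by exact_mod_cast (show 1 < n by omega)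
  have hln : 0 < Real.log (n : ℝ) := Real.log_pos hn1
  have h2a : 0 < Real.log 2 := Real.log_pos (by norm_num)
  have h2b : Real.log 2 ≤ 1 := by
    have := Real.log_two_lt_d9
    linarith
  have a1 := neg_abs_le β
  have a2 := le_abs_self β
  rw [Real.dist_eq, abs_lt]
  constructor
  · rw [lt_sub_iff_add_lt, lt_div_iff₀ hln]
    nlinarith
  · rw [sub_lt_iff_lt_add, div_lt_iff₀ hln]
    nlinarith

/-- the converse direction -/
theorem conv_log (hg : 0 < g) (hc : ∀ᶠ n : ℕ in atTop, 0 < c n) (S : Set ℕ)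
    (hd : ∀ n ∈ S, 2 * n ∈ S) (β : ℝ)
    (h : Tendsto (fun n : ℕ => Real.log (c n / g ^ n) / Real.log n) (atTop ⊓ 𝓟 S) (𝓝 β)) :
    Tendsto (fun n : ℕ => Real.log (c (2 * n) / c n ^ 2) / Real.log n) (atTop ⊓ 𝓟 S) (𝓝 (-β)) := by
  have ht : Tendsto (fun n : ℕ => 2 * n) (atTop ⊓ 𝓟 S) (atTop ⊓ 𝓟 S) := by
    refine tendsto_inf.2 ⟨?_, ?_⟩
    · exact (tendsto_atTop_mono (fun k => by simp only [id]; omega) tendsto_id).mono_left
        inf_le_left
    · rw [tendsto_principal, eventually_inf_principal]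
      exact Eventually.of_forall fun n hn => hd n hn
  have h1 := h.comp ht
  have h2 : Tendsto (fun n : ℕ => Real.log ((2 * n : ℕ) : ℝ) / Real.log n) (atTop ⊓ 𝓟 S) (𝓝 1) := by
    refine Tendsto.mono_left ?_ inf_le_left
    have h3 : Tendsto (fun n : ℕ => Real.log 2 / Real.log (n : ℝ)) atTop (𝓝 0) :=
      (tendsto_const_nhds).div_atTop (Real.tendsto_log_atTop.comp tendsto_natCast_atTop_atTop)
    have h4 := h3.add_const 1
    rw [zero_add] at h4
    refine h4.congr' ?_
    filter_upwards [eventually_gt_atTop 1] with n hn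
    have hn1 : (1 : ℝ) < n := by exact_mod_cast hn
    have hln : 0 < Real.log (n : ℝ) := Real.log_pos hn1
    push_cast
    rw [Real.log_mul (by norm_num) (by positivity), add_div, div_self hln.ne']
  have h5 := (h1.mul h2).sub (h.const_mul 2)
  rw [mul_one, show β - 2 * β = -β by ring] at h5
  refine h5.congr' ?_
  obtain ⟨N, hN⟩ := eventually_atTop.1 hc
  filter_upwards [(eventually_ge_atTop (N + 2)).filter_mono inf_le_left] with n hn
  have p0 := hN n (by omega)
  have p1 := hN (2 * n) (by omega)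
  have hn1 : (1 : ℝ) < n := by exact_mod_cast (show 1 < n by omega)
  have hln : 0 < Real.log (n : ℝ) := Real.log_pos hn1
  have hln2 : 0 < Real.log ((2 * n : ℕ) : ℝ) := Real.log_pos (by push_cast; linarith)
  have e0 : Real.log (c (2 * n) / c n ^ 2) =
      Real.log (c (2 * n) / g ^ (2 * n)) - 2 * Real.log (c n / g ^ n) := by
    rw [Real.log_div p1.ne' (by positivity), Real.log_div p1.ne' (by positivity),
      Real.log_div p0.ne' (by positivity), Real.log_pow, Real.log_pow, Real.log_pow]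
    push_cast
    ring
  rw [e0]
  simp only [Function.comp]
  field_simp

end Pool.Agent.X204.DBE
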