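import Pool.Agent.X204.AVG
import Pool.Agent.X77.RR.Ana
import Pool.Agent.Y943.SL.Abs

/-!
# Geometric means of the non-intersection probabilities: consequences
-/

set_option autoImplicit false

namespace Pool.Agent.X204.AVF

open Filter Topology Finset Pool.Agent.Y943.SL Pool.Agent.X204.AVG TH966.KS

/-- growth bounds -/
structure Gr (c : ℕ → ℝ) (μ : ℝ) (F : ℕ → ℝ) (A : ℝ) : Prop where
  one : ∀ m, 1 ≤ F m
  mono : Monotone F
  dbl : ∀ m, 1 ≤ m → F (8 * m) ≤ A * F m
  small : Tendsto (fun m : ℕ => F m / m) atTop (𝓝 0)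
  up : ∀ m, 1 ≤ m → Real.log (c m / μ ^ m) ≤ F m

variable {c : ℕ → ℝ} {μ A : ℝ} {F : ℕ → ℝ}

theorem Gr.A_pos (G : Gr c μ F A) : 1 ≤ A := by
  have h1 := G.dbl 1 le_rfl
  have h2 := G.mono (show 1 ≤ 8 * 1 by omega)
  have h3 := G.one 1
  by_contra hA
  push Not at hA
  have : A * F 1 < 1 * F 1 := mul_lt_mul_of_pos_right hA (by linarith)
  linarith

theorem mean_bound (W : Wk c μ) (H : Gr c μ F A) (M n : ℕ) (hn : 1 ≤ n) (hnM : n ≤ M) :
    |Real.log (G c M n) + Real.log (c n / μ ^ n)| ≤ A * (n / M * F M) := by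
  have hM : 1 ≤ M := hn.trans hnM
  have h1 := AVG.main W.hμ W.low M n hM (A * F M) (fun m hm1 hm2 => by
    refine (H.up m (by omega)).trans ((H.mono (show m ≤ 8 * M by omega)).trans (H.dbl M hM)))
  refine h1.trans (le_of_eq ?_)
  ring

/-- the two-step ratios are close to one -/
theorem steps (W : Wk c μ) (H : Gr c μ F A) : ∃ R : ℝ, 0 ≤ R ∧ ∀ᶠ M : ℕ in atTop, ∀ m : ℕ,
    M ≤ m → m ≤ 3 * M →
      |Real.log (c (m + 2) / μ ^ (m + 2)) - Real.log (c m / μ ^ m)| ≤ R * √(F M / M) := by
  obtain ⟨D, hD, hk⟩ := W.kes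
  have hA := H.A_pos
  have key : ∀ s : ℕ, s ≤ 1 → ∃ R : ℝ, 0 ≤ R ∧ ∀ᶠ k : ℕ in atTop,
      |Real.log (c (2 * (k + 1) + s) / μ ^ (2 * (k + 1) + s)) -
        Real.log (c (2 * k + s) / μ ^ (2 * k + s))| ≤ R * √(F k / k) := by
    intro s hs
    obtain ⟨k0, hK⟩ := hk s hs
    obtain ⟨R, δ, N, hR, hδ, h⟩ := X77.RR.local_rate hK (fun k => (W.pos _).le) hD
      (by norm_num) (by norm_num)
    have hs1 : Tendsto (fun k : ℕ => A * F k / k) atTop (𝓝 0) := by
      have := H.small.const_mul A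
      rw [mul_zero] at this
      exact this.congr fun k => by ring
    have hs2 : Tendsto (fun k : ℕ => R * √(A * F k / k)) atTop (𝓝 0) := by
      have := ((Real.continuous_sqrt.tendsto 0).comp hs1).const_mul R
      rw [Real.sqrt_zero, mul_zero] at this
      exact this
    refine ⟨2 * R * √A, by positivity, ?_⟩
    filter_upwards [hs1.eventually_lt_const hδ, hs2.eventually_lt_const (show (0 : ℝ) < 1 / 2 by
      norm_num), eventually_ge_atTop (N + 1)] with k h1 h2 h3
    have hk0 : (0 : ℝ) < k := by exact_mod_cast (show 0 < k by omega)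
    rw [div_lt_iff₀ hk0] at h1
    have h4 := h k (by omega) (A * F k) (by
        have := H.one k
        nlinarith) h1.le (by
        have h5 := W.one_le (2 * k + s)
        refine le_trans ?_ h5
        exact Real.exp_le_one_iff.2 (by nlinarith)) (by
        intro i hi1 hi2
        have h5 := H.up (2 * i + s) (by omega)
        have h6 := (H.mono (show 2 * i + s ≤ 8 * k by omega)).trans (H.dbl k (by omega))
        have h7 := (Real.log_le_iff_le_exp (W.pos _)).1 (h5.trans h6)
        refine h7.trans ?_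
        exact le_mul_of_one_le_right (Real.exp_pos _).le (W.one_le _))
    set y := c (2 * k + s) / μ ^ (2 * k + s)
    set y' := c (2 * (k + 1) + s) / μ ^ (2 * (k + 1) + s)
    have hy : 0 < y := W.pos _
    have hy' : 0 < y' := W.pos _
    change |y' / y - 1| ≤ _ at h4
    rw [← Real.log_div hy'.ne' hy.ne']
    obtain ⟨t, ht⟩ : ∃ t, t = y' / y := ⟨_, rfl⟩
    have ht0 : 0 < t := by rw [ht]; exact div_pos hy' hy
    rw [← ht] at h4 ⊢
    have h8 : |t - 1| ≤ 1 / 2 := h4.trans h2.le
    have h9 := abs_le.1 h8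
    have h10 : |Real.log t| ≤ 2 * |t - 1| := by
      rw [abs_le]
      constructor
      · have h11 := Real.log_le_sub_one_of_pos (inv_pos.2 ht0)
        rw [Real.log_inv] at h11
        have h12 : t⁻¹ - 1 ≤ 2 * |t - 1| := by
          have h13 : t⁻¹ - 1 = (1 - t) * t⁻¹ := by field_simp
          have h14 : t⁻¹ ≤ 2 := by
            rw [inv_le_comm₀ ht0 (by norm_num)]
            linarith
          rw [h13]
          calc (1 - t) * t⁻¹ ≤ |t - 1| * t⁻¹ := by
                refine mul_le_mul_of_nonneg_right ?_ (inv_pos.2 ht0).le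
                rw [abs_sub_comm]
                exact le_abs_self _
            _ ≤ |t - 1| * 2 := mul_le_mul_of_nonneg_left h14 (abs_nonneg _)
            _ = _ := by ring
        linarith
      · have h11 := Real.log_le_sub_one_of_pos ht0
        have := le_abs_self (t - 1)
        have := abs_nonneg (t - 1)
        linarith
    refine h10.trans ?_
    have e : √(A * F k / k) = √A * √(F k / k) := by
      rw [mul_div_assoc, Real.sqrt_mul (by linarith)]
    rw [e] at h4
    calc 2 * |t - 1| ≤ 2 * (R * (√A * √(F k / k))) := by linarith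
      _ = _ := by ring
  obtain ⟨R0, hR0, h0⟩ := key 0 (by norm_num)
  obtain ⟨R1, hR1, h1⟩ := key 1 le_rfl
  obtain ⟨N0, hN0⟩ := eventually_atTop.1 h0
  obtain ⟨N1, hN1⟩ := eventually_atTop.1 h1
  refine ⟨(R0 + R1) * √(3 * A), by positivity, ?_⟩
  filter_upwards [eventually_ge_atTop (2 * N0 + 2 * N1 + 4)] with M hM m hm1 hm2
  have hM0 : (0 : ℝ) < M := by exact_mod_cast (show 0 < M by omega)
  have hFk : ∀ k : ℕ, M ≤ 2 * k + 1 → 2 * k ≤ 3 * M → √(F k / k) ≤ √(3 * A) * √(F M / M) := by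
    intro k hk1 hk2
    have hk0 : (0 : ℝ) < k := by exact_mod_cast (show 0 < k by omega)
    rw [← Real.sqrt_mul (by linarith)]
    refine Real.sqrt_le_sqrt ?_
    have h5 : F k ≤ A * F M := (H.mono (show k ≤ 8 * M by omega)).trans (H.dbl M (by omega))
    have h6 : (M : ℝ) ≤ 3 * k := by exact_mod_cast (show M ≤ 3 * k by omega)
    have hFM := H.one M
    rw [div_le_iff₀ hk0]
    calc F k ≤ A * F M := h5
      _ = 3 * A * (F M / M) * (M / 3) := by field_simp
      _ ≤ 3 * A * (F M / M) * k := mul_le_mul_of_nonneg_left (by linarith) (by positivity)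
  rcases Nat.even_or_odd' m with ⟨k, hk | hk⟩
  · subst hk
    have h5 := hN0 k (by omega)
    have h6 := hFk k (by omega) (by omega)
    rw [show 2 * (k + 1) + 0 = 2 * k + 2 by ring, add_zero] at h5
    refine h5.trans ?_
    calc R0 * √(F k / k) ≤ (R0 + R1) * √(F k / k) :=
          mul_le_mul_of_nonneg_right (by linarith) (Real.sqrt_nonneg _)
      _ ≤ (R0 + R1) * (√(3 * A) * √(F M / M)) := mul_le_mul_of_nonneg_left h6 (by positivity)
      _ = _ := by ring
  · subst hk
    have h5 := hN1 k (by omega)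
    have h6 := hFk k (by omega) (by omega)
    rw [show 2 * (k + 1) + 1 = 2 * k + 1 + 2 by ring] at h5
    refine h5.trans ?_
    calc R1 * √(F k / k) ≤ (R0 + R1) * √(F k / k) :=
          mul_le_mul_of_nonneg_right (by linarith) (Real.sqrt_nonneg _)
      _ ≤ (R0 + R1) * (√(3 * A) * √(F M / M)) := mul_le_mul_of_nonneg_left h6 (by positivity)
      _ = _ := by ring

/-- the pointwise statement for even `n` -/
theorem point_bound (W : Wk c μ) (H : Gr c μ F A) : ∃ R : ℝ, 0 ≤ R ∧ ∀ᶠ M : ℕ in atTop,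
    ∀ n : ℕ, 1 ≤ n → n ≤ M → n % 2 = 0 → ∃ N : ℕ, M ≤ N ∧ N < 2 * M ∧
      |Real.log (P c N n) + Real.log (c n / μ ^ n)| ≤ R * (n / M * F M + √(F M / M)) := by
  obtain ⟨R, hR, h⟩ := steps W H
  have hA := H.A_pos
  refine ⟨R + A, by positivity, ?_⟩
  filter_upwards [h, eventually_ge_atTop 1] with M hM hM1 n hn1 hnM hn2
  have hFM := H.one M
  obtain ⟨N, a1, a2, a3⟩ := AVG.point W.hμ W.low M n hM1 hn2 (A * F M) (R * √(F M / M))
    (by positivity) (by positivity)
    (fun m hm1 hm2 => (H.up m (by omega)).trans ((H.mono (show m ≤ 8 * M by omega)).trans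
      (H.dbl M hM1)))
    (fun m hm1 hm2 => hM m hm1 (by omega))
  refine ⟨N, a1, a2, a3.trans ?_⟩
  have e1 : (n : ℝ) * (A * F M) / M = A * (n / M * F M) := by ring
  have e2 : 0 ≤ (n : ℝ) / M * F M := by positivity
  have e3 : 0 ≤ √(F M / M) := Real.sqrt_nonneg _
  rw [e1]
  nlinarith [mul_nonneg hR e2, mul_nonneg (show 0 ≤ A by linarith) e3]

/-- **The geometric mean is asymptotic to the reciprocal of the normalised count.** -/
theorem prod_tend (W : Wk c μ) (H : Gr c μ F A) (L : ℕ → ℕ)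
    (hL : ∀ᶠ n : ℕ in atTop, n ≤ L n)
    (hs : Tendsto (fun n : ℕ => (n : ℝ) / L n * F (L n)) atTop (𝓝 0)) :
    Tendsto (fun n : ℕ => G c (L n) n * (c n / μ ^ n)) atTop (𝓝 1) := by
  have h1 := hs.const_mul A
  rw [mul_zero] at h1
  have h2 : Tendsto (fun n : ℕ => Real.log (G c (L n) n) + Real.log (c n / μ ^ n)) atTop
      (𝓝 0) := by
    rw [tendsto_zero_iff_abs_tendsto_zero]
    refine squeeze_zero' (Eventually.of_forall fun _ => abs_nonneg _) ?_ h1
    filter_upwards [hL, eventually_ge_atTop 1] with n h3 h4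
    exact mean_bound W H (L n) n h4 h3
  have h3 := h2.rexp
  rw [Real.exp_zero] at h3
  refine h3.congr fun n => ?_
  rw [Real.exp_add, Real.exp_log (G_pos W.cpos _ _), Real.exp_log (W.pos n)]

theorem strong_iff (W : Wk c μ) (H : Gr c μ F A) (L : ℕ → ℕ)
    (hL : ∀ᶠ n : ℕ in atTop, n ≤ L n)
    (hs : Tendsto (fun n : ℕ => (n : ℝ) / L n * F (L n)) atTop (𝓝 0)) (β B : ℝ) (hB : 0 < B) :
    Tendsto (fun n : ℕ => G c (L n) n * (n : ℝ) ^ β) atTop (𝓝 (1 / B)) ↔
      Tendsto (fun n : ℕ => c n / (μ ^ n * (n : ℝ) ^ β)) atTop (𝓝 B) := by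
  have h1 := prod_tend W H L hL hs
  constructor
  · intro h
    have h2 := h1.div h (by positivity)
    rw [div_div_eq_mul_div, one_mul, div_one] at h2
    refine h2.congr' ?_
    filter_upwards [eventually_ge_atTop 1] with n hn
    have hn0 : (0 : ℝ) < n := by exact_mod_cast hn
    have h3 := (G_pos W.cpos (L n) n).ne'
    have h4 := (Real.rpow_pos_of_pos hn0 β).ne'
    have h5 := (pow_pos W.hμ n).ne'
    simp only [Pi.div_apply]
    field_simp
  · intro h
    have h2 := h1.div h hB.ne'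
    refine h2.congr' ?_
    filter_upwards [eventually_ge_atTop 1] with n hn
    have hn0 : (0 : ℝ) < n := by exact_mod_cast hn
    have h3 := (W.cpos n).ne'
    have h4 := (Real.rpow_pos_of_pos hn0 β).ne'
    have h5 := (pow_pos W.hμ n).ne'
    simp only [Pi.div_apply]
    field_simp

theorem log_iff (W : Wk c μ) (H : Gr c μ F A) (L : ℕ → ℕ)
    (hL : ∀ᶠ n : ℕ in atTop, n ≤ L n)
    (hs : Tendsto (fun n : ℕ => (n : ℝ) / L n * F (L n) / Real.log n) atTop (𝓝 0)) (β : ℝ) :
    Tendsto (fun n : ℕ => Real.log (G c (L n) n) / Real.log n) atTop (𝓝 (-β)) ↔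
      Tendsto (fun n : ℕ => Real.log (c n / μ ^ n) / Real.log n) atTop (𝓝 β) := by
  have h1 := hs.const_mul A
  rw [mul_zero] at h1
  have h2 : Tendsto (fun n : ℕ => Real.log (G c (L n) n) / Real.log n +
      Real.log (c n / μ ^ n) / Real.log n) atTop (𝓝 0) := by
    rw [tendsto_zero_iff_abs_tendsto_zero]
    refine squeeze_zero' (Eventually.of_forall fun _ => abs_nonneg _) ?_ h1
    filter_upwards [hL, eventually_ge_atTop 2] with n h3 h4
    have hln : 0 < Real.log (n : ℝ) := Real.log_pos (by exact_mod_cast (show 1 < n by omega))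
    have h5 := mean_bound W H (L n) n (by omega) h3
    simp only [Function.comp]
    rw [← add_div, abs_div, abs_of_pos hln, ← mul_div_assoc]
    exact div_le_div_of_nonneg_right h5 hln.le
  constructor
  · intro h
    have h3 := h2.sub h
    rw [zero_sub, neg_neg] at h3
    exact h3.congr fun n => by ring
  · intro h
    have h3 := h2.sub h
    rw [zero_sub] at h3
    exact h3.congr fun n => by ring

end Pool.Agent.X204.AVF
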