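import Mathlib

/-!
# Geometric means of the non-intersection probabilities
-/

set_option autoImplicit false

namespace Pool.Agent.X204.AVG

open Filter Topology Finset

/-- telescoping -/
theorem tele (a : ℕ → ℝ) (M n : ℕ) :
    ∑ N ∈ Finset.Ico M (2 * M), (a (N + n) - a N) =
      ∑ N ∈ Finset.Ico (2 * M) (2 * M + n), a N - ∑ N ∈ Finset.Ico M (M + n), a N := by
  induction n with
  | zero => simp
  | succ n ih =>
    have h1 : ∑ N ∈ Finset.Ico M (2 * M), (a (N + (n + 1)) - a N) =
        ∑ N ∈ Finset.Ico M (2 * M), (a (N + n) - a N) +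
          ∑ N ∈ Finset.Ico M (2 * M), (a (N + 1 + n) - a (N + n)) := by
      rw [← Finset.sum_add_distrib]
      refine Finset.sum_congr rfl fun N _ => ?_
      rw [show N + (n + 1) = N + 1 + n by ring]
      ring
    have h2 : ∑ N ∈ Finset.Ico M (2 * M), (a (N + 1 + n) - a (N + n)) =
        a (2 * M + n) - a (M + n) :=
      Finset.sum_Ico_sub (f := fun N => a (N + n)) (by omega)
    rw [h1, ih, h2, show 2 * M + (n + 1) = 2 * M + n + 1 by ring,
      show M + (n + 1) = M + n + 1 by ring, Finset.sum_Ico_succ_top (by omega),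
      Finset.sum_Ico_succ_top (by omega)]
    ring

theorem tele_abs (a : ℕ → ℝ) (M n : ℕ) (E : ℝ) (h0 : ∀ m, 0 ≤ a m)
    (hE : ∀ m, M ≤ m → m < 2 * M + n → a m ≤ E) :
    |∑ N ∈ Finset.Ico M (2 * M), (a (N + n) - a N)| ≤ n * E := by
  rw [tele]
  have h1 : ∑ N ∈ Finset.Ico (2 * M) (2 * M + n), a N ≤ n * E := by
    have := Finset.sum_le_card_nsmul (Finset.Ico (2 * M) (2 * M + n)) a E (fun m hm => by
      rw [Finset.mem_Ico] at hm
      exact hE m (by omega) (by omega))
    simpa using this
  have h2 : ∑ N ∈ Finset.Ico M (M + n), a N ≤ n * E := by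
    have := Finset.sum_le_card_nsmul (Finset.Ico M (M + n)) a E (fun m hm => by
      rw [Finset.mem_Ico] at hm
      exact hE m (by omega) (by omega))
    simpa using this
  have h3 : 0 ≤ ∑ N ∈ Finset.Ico (2 * M) (2 * M + n), a N := Finset.sum_nonneg fun m _ => h0 m
  have h4 : 0 ≤ ∑ N ∈ Finset.Ico M (M + n), a N := Finset.sum_nonneg fun m _ => h0 m
  rw [abs_le]
  constructor <;> linarith

/-- the non-intersection probability of a walk with `N` steps and one with `n` steps -/
noncomputable def P (c : ℕ → ℝ) (N n : ℕ) : ℝ := c (N + n) / (c N * c n)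

/-- the geometric mean of the non-intersection probabilities with walks of length in `[M, 2 M)` -/
noncomputable def G (c : ℕ → ℝ) (M n : ℕ) : ℝ :=
  (∏ N ∈ Finset.Ico M (2 * M), P c N n) ^ ((1 : ℝ) / M)

variable {c : ℕ → ℝ} {μ : ℝ}

theorem P_pos (hc : ∀ n, 0 < c n) (N n : ℕ) : 0 < P c N n := div_pos (hc _) (mul_pos (hc _) (hc _))

theorem G_pos (hc : ∀ n, 0 < c n) (M n : ℕ) : 0 < G c M n :=
  Real.rpow_pos_of_pos (Finset.prod_pos fun N _ => P_pos hc N n) _

theorem log_P (hμ : 0 < μ) (hc : ∀ n, 0 < c n) (N n : ℕ) : Real.log (P c N n) =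
    (Real.log (c (N + n) / μ ^ (N + n)) - Real.log (c N / μ ^ N)) - Real.log (c n / μ ^ n) := by
  have h1 := hc N
  have h2 := hc n
  have h3 := hc (N + n)
  unfold P
  rw [Real.log_div h3.ne' (by positivity), Real.log_mul h1.ne' h2.ne',
    Real.log_div h3.ne' (by positivity), Real.log_div h2.ne' (by positivity),
    Real.log_div h1.ne' (by positivity), Real.log_pow, Real.log_pow, Real.log_pow]
  push_cast
  ring

theorem log_G (hc : ∀ n, 0 < c n) (M n : ℕ) :
    Real.log (G c M n) = (∑ N ∈ Finset.Ico M (2 * M), Real.log (P c N n)) / M := by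
  unfold G
  rw [Real.log_rpow (Finset.prod_pos fun N _ => P_pos hc N n),
    Real.log_prod (fun N _ => (P_pos hc N n).ne')]
  ring

/-- **The geometric mean is the reciprocal of the normalised count, up to a small error.** -/
theorem main (hμ : 0 < μ) (low : ∀ n, μ ^ n ≤ c n) (M n : ℕ) (hM : 1 ≤ M) (E : ℝ)
    (hE : ∀ m, M ≤ m → m < 2 * M + n → Real.log (c m / μ ^ m) ≤ E) :
    |Real.log (G c M n) + Real.log (c n / μ ^ n)| ≤ n * E / M := by
  have hc : ∀ n, 0 < c n := fun n => lt_of_lt_of_le (pow_pos hμ n) (low n)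
  have hM0 : (0 : ℝ) < M := by exact_mod_cast hM
  have h0 : ∀ m, 0 ≤ Real.log (c m / μ ^ m) := fun m =>
    Real.log_nonneg ((one_le_div (pow_pos hμ m)).2 (low m))
  have h1 := tele_abs (fun m => Real.log (c m / μ ^ m)) M n E h0 hE
  have h2 : Real.log (G c M n) + Real.log (c n / μ ^ n) =
      (∑ N ∈ Finset.Ico M (2 * M),
        (Real.log (c (N + n) / μ ^ (N + n)) - Real.log (c N / μ ^ N))) / M := by
    rw [log_G hc, Finset.sum_congr rfl fun N _ => log_P hμ hc N n, Finset.sum_sub_distrib,
      Finset.sum_const, Nat.card_Ico, nsmul_eq_mul, show 2 * M - M = M by omega]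
    field_simp
    ring
  rw [h2, abs_div, abs_of_pos hM0]
  exact div_le_div_of_nonneg_right h1 hM0.le

/-- discrete intermediate values: a real sequence with small steps whose sum is small takes a small
value -/
theorem small_value (f : ℕ → ℝ) (J : ℕ) (hJ : 1 ≤ J) (η : ℝ) (hη : 0 ≤ η)
    (hs : ∀ j, j + 1 < J → |f (j + 1) - f j| ≤ 2 * η)
    (hsum : |∑ j ∈ Finset.range J, f j| ≤ J * η) : ∃ j < J, |f j| ≤ η := by
  by_contra hcon
  push Not at hcon
  have hJ0 : (0 : ℝ) < J := by exact_mod_cast hJ
  -- the sign is constant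
  rcases lt_or_ge 0 (f 0) with h0 | h0
  · have hall : ∀ j, j < J → η < f j := by
      intro j
      induction j with
      | zero =>
        intro h
        have := hcon 0 h
        rwa [abs_of_pos h0] at this
      | succ j ih =>
        intro h
        have h1 := ih (by omega)
        have h2 := abs_le.1 (hs j h)
        have h3 := hcon (j + 1) h
        rcases lt_abs.1 h3 with h4 | h4
        · exact h4
        · linarith
    have h1 : J * η < ∑ j ∈ Finset.range J, f j := by
      have h2 : ∑ _j ∈ Finset.range J, η < ∑ j ∈ Finset.range J, f j :=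
        Finset.sum_lt_sum_of_nonempty (Finset.nonempty_range_iff.2 (by omega))
          (fun j hj => hall j (Finset.mem_range.1 hj))
      rw [Finset.sum_const, Finset.card_range, nsmul_eq_mul] at h2
      exact h2
    have := le_abs_self (∑ j ∈ Finset.range J, f j)
    linarith
  · have hall : ∀ j, j < J → f j < -η := by
      intro j
      induction j with
      | zero =>
        intro h
        have := hcon 0 h
        rw [abs_of_nonpos h0] at this
        linarith
      | succ j ih =>
        intro h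
        have h1 := ih (by omega)
        have h2 := abs_le.1 (hs j h)
        have h3 := hcon (j + 1) h
        rcases lt_abs.1 h3 with h4 | h4
        · linarith
        · linarith
    have h1 : ∑ j ∈ Finset.range J, f j < -(J * η) := by
      have h2 : ∑ j ∈ Finset.range J, f j < ∑ _j ∈ Finset.range J, -η :=
        Finset.sum_lt_sum_of_nonempty (Finset.nonempty_range_iff.2 (by omega))
          (fun j hj => hall j (Finset.mem_range.1 hj))
      rw [Finset.sum_const, Finset.card_range, nsmul_eq_mul] at h2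
      linarith
    have := neg_abs_le (∑ j ∈ Finset.range J, f j)
    linarith

/-- the pointwise statement for even `n` -/
theorem point (hμ : 0 < μ) (low : ∀ n, μ ^ n ≤ c n) (M n : ℕ) (hM : 1 ≤ M) (hn : n % 2 = 0)
    (E s : ℝ) (hE0 : 0 ≤ E) (hs0 : 0 ≤ s)
    (hE : ∀ m, M ≤ m → m < 2 * M + n → Real.log (c m / μ ^ m) ≤ E)
    (hs : ∀ m, M ≤ m → m + 2 ≤ 2 * M + n →
      |Real.log (c (m + 2) / μ ^ (m + 2)) - Real.log (c m / μ ^ m)| ≤ s) :
    ∃ N, M ≤ N ∧ N < 2 * M ∧
      |Real.log (P c N n) + Real.log (c n / μ ^ n)| ≤ n * E / M + s := by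
  have hc : ∀ n, 0 < c n := fun n => lt_of_lt_of_le (pow_pos hμ n) (low n)
  have h0 : ∀ m, 0 ≤ Real.log (c m / μ ^ m) := fun m =>
    Real.log_nonneg ((one_le_div (pow_pos hμ m)).2 (low m))
  obtain ⟨k, rfl⟩ : ∃ k, n = 2 * k := ⟨n / 2, by omega⟩
  have hM0 : (0 : ℝ) < M := by exact_mod_cast hM
  obtain ⟨a, ha⟩ : ∃ a : ℕ → ℝ, a = fun m => Real.log (c m / μ ^ m) := ⟨_, rfl⟩
  obtain ⟨J, hJ1, hJ2, hJ3⟩ : ∃ J : ℕ, 1 ≤ J ∧ 2 * J ≤ M + 1 ∧ M ≤ 2 * J :=
    ⟨(M + 1) / 2, by omega, by omega, by omega⟩
  have htel : ∀ k : ℕ, ∑ j ∈ Finset.range J, (a (M + 2 * j + 2 * k) - a (M + 2 * j)) =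
      ∑ i ∈ Finset.range k, a (M + 2 * J + 2 * i) - ∑ i ∈ Finset.range k, a (M + 2 * i) := by
    intro k
    induction k with
    | zero => simp
    | succ k ih =>
      have h1 : ∑ j ∈ Finset.range J, (a (M + 2 * j + 2 * (k + 1)) - a (M + 2 * j)) =
          ∑ j ∈ Finset.range J, (a (M + 2 * j + 2 * k) - a (M + 2 * j)) +
          ∑ j ∈ Finset.range J, (a (M + 2 * (j + 1) + 2 * k) - a (M + 2 * j + 2 * k)) := by
        rw [← Finset.sum_add_distrib]
        refine Finset.sum_congr rfl fun j _ => ?_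
        rw [show M + 2 * j + 2 * (k + 1) = M + 2 * (j + 1) + 2 * k by ring]
        ring
      have h2 : ∑ j ∈ Finset.range J, (a (M + 2 * (j + 1) + 2 * k) - a (M + 2 * j + 2 * k)) =
          a (M + 2 * J + 2 * k) - a (M + 2 * k) := by
        have := Finset.sum_range_sub (f := fun j => a (M + 2 * j + 2 * k)) J
        simpa using this
      rw [h1, ih, h2, Finset.sum_range_succ, Finset.sum_range_succ]
      ring
  have hJM : (M : ℝ) / 2 ≤ J := by
    have : (M : ℝ) ≤ 2 * J := by exact_mod_cast hJ3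
    linarith
  have hJ0 : (0 : ℝ) < J := by exact_mod_cast hJ1
  obtain ⟨j, hj, hfj⟩ := small_value (fun j => a (M + 2 * j + 2 * k) - a (M + 2 * j)) J hJ1
    (((2 * k : ℕ) : ℝ) * E / M + s) (by positivity) (by
      intro j hj
      have e1 := hs (M + 2 * j + 2 * k) (by omega) (by omega)
      have e2 := hs (M + 2 * j) (by omega) (by omega)
      have e3 : M + 2 * (j + 1) + 2 * k = M + 2 * j + 2 * k + 2 := by ring
      have e4 : M + 2 * (j + 1) = M + 2 * j + 2 := by ring
      simp only [ha]
      rw [e3, e4]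
      have h5 : 0 ≤ ((2 * k : ℕ) : ℝ) * E / M := by positivity
      rw [abs_le] at e1 e2 ⊢
      constructor <;> linarith [e1.1, e1.2, e2.1, e2.2]) (by
      rw [htel]
      have b1 : ∑ i ∈ Finset.range k, a (M + 2 * J + 2 * i) ≤ k * E := by
        have := Finset.sum_le_card_nsmul (Finset.range k) (fun i => a (M + 2 * J + 2 * i)) E
          (fun i hi => by
            rw [Finset.mem_range] at hi
            simp only [ha]
            exact hE _ (by omega) (by omega))
        simpa using this
      have b2 : ∑ i ∈ Finset.range k, a (M + 2 * i) ≤ k * E := by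
        have := Finset.sum_le_card_nsmul (Finset.range k) (fun i => a (M + 2 * i)) E
          (fun i hi => by
            rw [Finset.mem_range] at hi
            simp only [ha]
            exact hE _ (by omega) (by omega))
        simpa using this
      have b3 : 0 ≤ ∑ i ∈ Finset.range k, a (M + 2 * J + 2 * i) :=
        Finset.sum_nonneg fun i _ => by simp only [ha]; exact h0 _
      have b4 : 0 ≤ ∑ i ∈ Finset.range k, a (M + 2 * i) :=
        Finset.sum_nonneg fun i _ => by simp only [ha]; exact h0 _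
      have b5 : (k : ℝ) * E ≤ J * (((2 * k : ℕ) : ℝ) * E / M + s) := by
        have b6 : (k : ℝ) * E = (M : ℝ) / 2 * (((2 * k : ℕ) : ℝ) * E / M) := by
          push_cast
          field_simp
        have b7 : 0 ≤ ((2 * k : ℕ) : ℝ) * E / M := by positivity
        rw [b6]
        nlinarith
      rw [abs_le]
      constructor <;> linarith)
  refine ⟨M + 2 * j, by omega, by omega, ?_⟩
  rw [log_P hμ hc]
  have e : Real.log (c (M + 2 * j + 2 * k) / μ ^ (M + 2 * j + 2 * k)) -
      Real.log (c (M + 2 * j) / μ ^ (M + 2 * j)) - Real.log (c (2 * k) / μ ^ (2 * k)) +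
      Real.log (c (2 * k) / μ ^ (2 * k)) = a (M + 2 * j + 2 * k) - a (M + 2 * j) := by
    simp only [ha]
    ring
  rw [e]
  exact hfj

end Pool.Agent.X204.AVG
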