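import Pool.Agent.X204.AVF

/-!
# Growth bounds with squared logarithms and with powers
-/

set_option autoImplicit false

namespace Pool.Agent.X204.AVL

open Filter Topology Finset Pool.Agent.Y943.SL Pool.Agent.X204.AVG Pool.Agent.X204.AVF

variable {c : ℕ → ℝ} {μ : ℝ}

theorem log_mono {m n : ℕ} (h : m ≤ n) : Real.log (m : ℝ) ≤ Real.log n := by
  rcases Nat.eq_zero_or_pos m with h0 | h0
  · subst h0
    simp only [Nat.cast_zero, Real.log_zero]
    exact Real.log_natCast_nonneg n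
  · exact Real.log_le_log (by exact_mod_cast h0) (by exact_mod_cast h)

theorem log_eight : Real.log 8 ≤ 3 := by
  rw [show (8 : ℝ) = 2 ^ 3 by norm_num, Real.log_pow]
  have := Real.log_two_lt_d9
  push_cast
  linarith

theorem gr_log (W : Wk c μ) {K : ℝ} (h : ∀ n : ℕ, 2 ≤ n → c n ≤ μ ^ n * Real.exp (K * Real.log n ^ 2)) :
    ∃ K' : ℝ, 1 ≤ K' ∧ Gr c μ (fun m => K' * (1 + Real.log m) ^ 2) 16 := by
  have hl : ∀ m : ℕ, 0 ≤ Real.log (m : ℝ) := fun m => Real.log_natCast_nonneg m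
  refine ⟨1 + |K| + |Real.log (c 1 / μ ^ 1)|, by
    have := abs_nonneg K
    have := abs_nonneg (Real.log (c 1 / μ ^ 1))
    linarith, ?_⟩
  set K' := 1 + |K| + |Real.log (c 1 / μ ^ 1)| with hK'
  have hK1 : 1 ≤ K' := by
    have := abs_nonneg K
    have := abs_nonneg (Real.log (c 1 / μ ^ 1))
    rw [hK']
    linarith
  refine ⟨fun m => ?_, fun m n hmn => ?_, fun m hm => ?_, ?_, fun m hm => ?_⟩
  · have h1 : 1 ≤ (1 + Real.log (m : ℝ)) ^ 2 := by nlinarith [hl m]
    nlinarith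
  · have h1 := log_mono hmn
    have h2 := hl m
    exact mul_le_mul_of_nonneg_left (pow_le_pow_left₀ (by linarith) (by linarith) 2)
      (by linarith)
  · have hm0 : (0 : ℝ) < m := by exact_mod_cast hm
    have h1 : Real.log ((8 * m : ℕ) : ℝ) = Real.log 8 + Real.log m := by
      push_cast
      rw [Real.log_mul (by norm_num) hm0.ne']
    have h2 : (1 + Real.log ((8 * m : ℕ) : ℝ)) ^ 2 ≤ 16 * (1 + Real.log m) ^ 2 := by
      rw [h1]
      have h3 := log_eight
      have h4 := hl m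
      have h5 : 0 ≤ Real.log (8 : ℝ) := Real.log_nonneg (by norm_num)
      calc (1 + (Real.log 8 + Real.log m)) ^ 2 ≤ (4 * (1 + Real.log m)) ^ 2 :=
            pow_le_pow_left₀ (by linarith) (by linarith) 2
        _ = _ := by ring
    calc K' * (1 + Real.log ((8 * m : ℕ) : ℝ)) ^ 2 ≤ K' * (16 * (1 + Real.log m) ^ 2) :=
          mul_le_mul_of_nonneg_left h2 (by linarith)
      _ = _ := by ring
  · have h1 : Tendsto (fun x : ℝ => Real.log x ^ 1 / x) atTop (𝓝 0) :=
      (Real.isLittleO_pow_log_id_atTop (n := 1)).tendsto_div_nhds_zero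
    have h2 : Tendsto (fun x : ℝ => Real.log x ^ 2 / x) atTop (𝓝 0) :=
      (Real.isLittleO_pow_log_id_atTop (n := 2)).tendsto_div_nhds_zero
    have h1' := h1.comp (tendsto_natCast_atTop_atTop (R := ℝ))
    have h2' := h2.comp (tendsto_natCast_atTop_atTop (R := ℝ))
    have h3 := ((one_div_tend.add (h1'.const_mul 2)).add h2').const_mul K'
    rw [mul_zero, add_zero, add_zero, mul_zero] at h3
    refine h3.congr fun m => ?_
    simp only [Function.comp_apply]
    ring
  · rcases Nat.lt_or_ge m 2 with h1 | h1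
    · obtain rfl : m = 1 := by omega
      have h2 := le_abs_self (Real.log (c 1 / μ ^ 1))
      have h3 := abs_nonneg K
      simp only [Nat.cast_one, Real.log_one, add_zero, one_pow, mul_one]
      rw [hK']
      simp only [pow_one] at h2 ⊢
      linarith
    · have h2 : Real.log (c m / μ ^ m) ≤ K * Real.log m ^ 2 := by
        rw [Real.log_le_iff_le_exp (W.pos m), div_le_iff₀ (pow_pos W.hμ m)]
        have := h m h1
        linarith
      have h3 : K * Real.log (m : ℝ) ^ 2 ≤ |K| * (1 + Real.log m) ^ 2 :=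
        (mul_le_mul_of_nonneg_right (le_abs_self K) (sq_nonneg _)).trans
          (mul_le_mul_of_nonneg_left (pow_le_pow_left₀ (hl m) (by linarith) 2) (abs_nonneg K))
      have h4 : |K| * (1 + Real.log (m : ℝ)) ^ 2 ≤ K' * (1 + Real.log m) ^ 2 := by
        refine mul_le_mul_of_nonneg_right ?_ (sq_nonneg _)
        have := abs_nonneg (Real.log (c 1 / μ ^ 1))
        rw [hK']
        linarith
      linarith

theorem gr_pow (W : Wk c μ) {K e : ℝ} (he0 : 0 < e) (he1 : e < 1)
    (h : ∀ n : ℕ, c n ≤ μ ^ n * Real.exp (K * (n : ℝ) ^ e)) :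
    ∃ K' : ℝ, 1 ≤ K' ∧ Gr c μ (fun m => K' * ((m : ℝ) + 1) ^ e) 8 := by
  refine ⟨1 + |K|, by linarith [abs_nonneg K], ?_⟩
  set K' := 1 + |K| with hK'
  have hK1 : 1 ≤ K' := by linarith [abs_nonneg K]
  refine ⟨fun m => ?_, fun m n hmn => ?_, fun m hm => ?_, ?_, fun m hm => ?_⟩
  · have h1 : 1 ≤ ((m : ℝ) + 1) ^ e :=
      Real.one_le_rpow (by linarith [show (0 : ℝ) ≤ m from Nat.cast_nonneg m]) he0.le
    nlinarith
  · have h1 : (m : ℝ) ≤ n := by exact_mod_cast hmn
    have h0 : (0 : ℝ) ≤ m := Nat.cast_nonneg m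
    exact mul_le_mul_of_nonneg_left (Real.rpow_le_rpow (by linarith) (by linarith) he0.le)
      (by linarith)
  · have h0 : (0 : ℝ) ≤ m := Nat.cast_nonneg m
    have h1 : (((8 * m : ℕ) : ℝ) + 1) ^ e ≤ 8 * ((m : ℝ) + 1) ^ e := by
      calc (((8 * m : ℕ) : ℝ) + 1) ^ e ≤ (8 * ((m : ℝ) + 1)) ^ e := by
            refine Real.rpow_le_rpow (by positivity) ?_ he0.le
            push_cast
            linarith
        _ = 8 ^ e * ((m : ℝ) + 1) ^ e := Real.mul_rpow (by norm_num) (by linarith)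
        _ ≤ 8 ^ (1 : ℝ) * ((m : ℝ) + 1) ^ e := by
            refine mul_le_mul_of_nonneg_right ?_ (by positivity)
            exact Real.rpow_le_rpow_of_exponent_le (by norm_num) he1.le
        _ = _ := by rw [Real.rpow_one]
    calc K' * (((8 * m : ℕ) : ℝ) + 1) ^ e ≤ K' * (8 * ((m : ℝ) + 1) ^ e) :=
          mul_le_mul_of_nonneg_left h1 (by linarith)
      _ = _ := by ring
  · have h1 : Tendsto (fun x : ℝ => x ^ (-(1 - e))) atTop (𝓝 0) :=
      tendsto_rpow_neg_atTop (by linarith)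
    have h2 : Tendsto (fun m : ℕ => ((m : ℝ) + 1)) atTop atTop :=
      tendsto_atTop_add_const_right _ _ tendsto_natCast_atTop_atTop
    have h3 := (h1.comp h2).const_mul (2 * K')
    rw [mul_zero] at h3
    refine squeeze_zero' (Eventually.of_forall fun m => by positivity) ?_ h3
    filter_upwards [eventually_ge_atTop 1] with m hm
    have hm0 : (1 : ℝ) ≤ m := by exact_mod_cast hm
    simp only [Function.comp_apply]
    have e1 : ((m : ℝ) + 1) ^ (-(1 - e)) = ((m : ℝ) + 1) ^ e / ((m : ℝ) + 1) := by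
      rw [show -(1 - e) = e - 1 by ring, Real.rpow_sub_one (by positivity)]
    rw [e1, div_le_iff₀ (by positivity)]
    have h4 : 0 ≤ ((m : ℝ) + 1) ^ e := by positivity
    have h5 : (1 : ℝ) ≤ 2 / ((m : ℝ) + 1) * m := by
      rw [div_mul_eq_mul_div, one_le_div (by positivity)]
      linarith
    calc K' * ((m : ℝ) + 1) ^ e = K' * ((m : ℝ) + 1) ^ e * 1 := by ring
      _ ≤ K' * ((m : ℝ) + 1) ^ e * (2 / ((m : ℝ) + 1) * m) :=
          mul_le_mul_of_nonneg_left h5 (by positivity)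
      _ = _ := by ring
  · have h2 : Real.log (c m / μ ^ m) ≤ K * (m : ℝ) ^ e := by
      rw [Real.log_le_iff_le_exp (W.pos m), div_le_iff₀ (pow_pos W.hμ m)]
      have := h m
      linarith
    have h0 : (0 : ℝ) ≤ m := Nat.cast_nonneg m
    have h3 : (m : ℝ) ^ e ≤ ((m : ℝ) + 1) ^ e := Real.rpow_le_rpow h0 (by linarith) he0.le
    have h4 : 0 ≤ (m : ℝ) ^ e := by positivity
    calc Real.log (c m / μ ^ m) ≤ K * (m : ℝ) ^ e := h2
      _ ≤ |K| * (m : ℝ) ^ e := mul_le_mul_of_nonneg_right (le_abs_self K) h4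
      _ ≤ K' * (m : ℝ) ^ e := mul_le_mul_of_nonneg_right (by rw [hK']; linarith) h4
      _ ≤ _ := mul_le_mul_of_nonneg_left h3 (by linarith)

/-- from `log² L` to `(1 + log L)²` -/
theorem small_of_log (L : ℕ → ℕ) (g : ℕ → ℝ) (hg : ∀ n, 0 ≤ g n) (K : ℝ) (hK : 0 ≤ K)
    (hL : ∀ᶠ n : ℕ in atTop, n ≤ L n)
    (h : Tendsto (fun n : ℕ => (n : ℝ) / L n * Real.log (L n) ^ 2 * g n) atTop (𝓝 0)) :
    Tendsto (fun n : ℕ => (n : ℝ) / L n * (K * (1 + Real.log (L n)) ^ 2) * g n) atTop (𝓝 0) := by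
  have h1 := h.const_mul (4 * K)
  rw [mul_zero] at h1
  refine squeeze_zero' (Eventually.of_forall fun n => by have := hg n; positivity) ?_ h1
  filter_upwards [hL, eventually_ge_atTop 3] with n h2 h3
  have h4 : (1 : ℝ) ≤ Real.log (L n) := by
    have h5 : (3 : ℝ) ≤ (L n : ℝ) := by exact_mod_cast h3.trans h2
    rw [Real.le_log_iff_exp_le (by linarith)]
    have := Real.exp_one_lt_d9
    linarith
  have h6 : (1 + Real.log (L n : ℝ)) ^ 2 ≤ 4 * Real.log (L n) ^ 2 := by nlinarith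
  calc (n : ℝ) / L n * (K * (1 + Real.log (L n)) ^ 2) * g n
      ≤ (n : ℝ) / L n * (K * (4 * Real.log (L n) ^ 2)) * g n := by
        have := hg n
        gcongr
    _ = _ := by ring

end Pool.Agent.X204.AVL
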