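import Pool.Agent.Y368.GG.Main
import Pool.Agent.TH80.CLX.Cor
import Pool.Agent.W564.SC.Lib

/-!
# The `C^r` closing lemma at limits of isolated nonwandering points
-/

set_option autoImplicit false
set_option linter.unusedSectionVars false

open scoped Manifold ContDiff Topology
open Filter Set Metric

universe u

namespace Pool.Agent.X204.CLN

open Pool.Agent.H718R2.G Pool.Agent.TH80.OMS Pool.Agent.W564.SC Pool.Agent.Y504.CO

/-- the isolated points of `Ω(f)` -/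
def Iso {N : Type u} [TopologicalSpace N] (f : N → N) : Set N :=
  {z | z ∈ Omega f ∧ ∃ O : Set N, IsOpen O ∧ z ∈ O ∧ ∀ y ∈ Omega f, y ∈ O → y = z}

variable {n : ℕ} {N : Type u} [TopologicalSpace N] [T2Space N] [CompactSpace N]
  [ChartedSpace (V n) N] [IsManifold (𝓡 n) ∞ N]

/-- The closing lemma at limits of isolated nonwandering points which are not periodic. -/
theorem closable_limit {r : ℕ∞} (hr : 1 ≤ r) (f : DiffM n N r) (z : N)
    (hz : z ∈ closure (Iso f \ Per f)) : Closable n N r f z := by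
  intro U hU hfU
  obtain ⟨χ, hχ⟩ := Pool.Agent.W699.SC.gc n N z
  have hfam : IsFam n N r (fun _ : ℝ => f) := by
    intro y
    exact ContMDiffAt.comp ((0 : ℝ), y) (f.contMDiff.contMDiffAt (x := y)) contMDiffAt_snd
  obtain ⟨k, hkr, κ, hκ, hcl⟩ := t_CL n N r hr ℝ (fun _ => f) hfam χ z hχ U hU hfU
  have hmet : TopologicalSpace.MetrizableSpace N := Manifold.metrizableSpace (𝓡 n) N
  -- a neighbourhood of `z`
  set B : Set N := χ.source ∩ χ ⁻¹' ball (0 : V n) κ with hB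
  have hBo : IsOpen B := χ.isOpen_inter_preimage isOpen_ball
  have hzB : z ∈ B := by
    refine ⟨hχ.src, ?_⟩
    show χ z ∈ ball (0 : V n) κ
    rw [hχ.zero]
    exact mem_ball_self hκ
  obtain ⟨z₁, hz₁B, ⟨hz₁Ω, hz₁iso⟩, hz₁P⟩ := mem_closure_iff.1 hz B hBo hzB
  obtain ⟨O, hO, hseg⟩ := C2.c1_top Final.hC1 f.toHomeomorph z₁ hz₁Ω hz₁P hz₁iso
  -- a ball in the chart around `z₁`
  have hO' : O ∩ B ∈ 𝓝 z₁ := inter_mem hO (hBo.mem_nhds hz₁B)
  have hO2 : χ.symm ⁻¹' (O ∩ B) ∈ 𝓝 (χ z₁) := by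
    have h1 : ContinuousAt χ.symm (χ z₁) := χ.continuousAt_symm (χ.map_source hz₁B.1)
    apply h1.preimage_mem_nhds
    rw [χ.left_inv hz₁B.1]
    exact hO'
  obtain ⟨ρ₀, hρ₀, hball⟩ := Metric.mem_nhds_iff.1 hO2
  obtain ⟨ρ, hρ0, hρκ, hρ4⟩ : ∃ ρ : ℝ, 0 < ρ ∧ ρ < κ ∧ 4 * ρ ≤ ρ₀ :=
    ⟨min (κ / 2) (ρ₀ / 4), lt_min (by linarith) (by linarith),
      (min_le_left _ _).trans_lt (by linarith),
      by linarith [min_le_right (κ / 2) (ρ₀ / 4)]⟩
  -- the neighbourhood of `z₁` in which the segments start and end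
  obtain ⟨δ, hδ0, hδρ, hδk⟩ : ∃ δ : ℝ, 0 < δ ∧ δ ≤ ρ ∧ 2 * δ ≤ κ * ρ ^ k :=
    ⟨min ρ (κ * ρ ^ k / 2), lt_min hρ0 (by positivity), min_le_left _ _,
      by linarith [min_le_right ρ (κ * ρ ^ k / 2)]⟩
  have hW : B ∩ χ ⁻¹' ball (χ z₁) δ ∈ 𝓝 z₁ := by
    refine inter_mem (hBo.mem_nhds hz₁B) ?_
    exact (χ.continuousAt hz₁B.1).preimage_mem_nhds (ball_mem_nhds _ hδ0)
  obtain ⟨a, ⟨haB, haδ⟩, m, hm, ⟨hmB, hmδ⟩, hint⟩ := hseg _ hW
  have haδ' : ‖χ a - χ z₁‖ < δ := by simpa [dist_eq_norm] using haδ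
  have hmδ' : ‖χ (f^[m] a) - χ z₁‖ < δ := by
    have : χ (f^[m] a) ∈ ball (χ z₁) δ := hmδ
    simpa [dist_eq_norm] using this
  have hmB' : f^[m] a ∈ B := hmB
  refine hcl 0 a ρ m (by simpa using hκ) haB.1 (by simpa using haB.2) hρ0 hρκ hm hmB'.1 ?_ ?_
  · calc ‖χ (f^[m] a) - χ a‖ = ‖(χ (f^[m] a) - χ z₁) - (χ a - χ z₁)‖ := by congr 1; abel
      _ ≤ ‖χ (f^[m] a) - χ z₁‖ + ‖χ a - χ z₁‖ := norm_sub_le _ _
      _ < δ + δ := add_lt_add hmδ' haδ'
      _ ≤ κ * ρ ^ k := by linarith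
  · intro i hi0 him his
    by_contra hlt
    push Not at hlt
    refine hint i hi0 him ?_
    have h1 : χ (f^[i] a) ∈ ball (χ z₁) ρ₀ := by
      rw [mem_ball, dist_eq_norm]
      calc ‖χ (f^[i] a) - χ z₁‖ = ‖(χ (f^[i] a) - χ a) + (χ a - χ z₁)‖ := by
            congr 1; abel
        _ ≤ ‖χ (f^[i] a) - χ a‖ + ‖χ a - χ z₁‖ := norm_add_le _ _
        _ < 2 * ρ + δ := add_lt_add hlt haδ'
        _ ≤ ρ₀ := by linarith
    have h2 : χ.symm (χ (f^[i] a)) ∈ O ∩ B := hball h1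
    rw [χ.left_inv his] at h2
    exact h2.1

/-- a periodic point lies on a homogeneous periodic submanifold -/
theorem isHomPer_of_per {r : ℕ∞} (f : DiffM n N r) (y : N) (hy : y ∈ Per f) :
    Pool.Agent.TH80.CLX.IsHomPer n N f y := by
  classical
  refine ⟨PUnit, inferInstance, inferInstance, inferInstance, 0, 1, univ, fun _ y => y, ?_,
    mem_univ _, ?_⟩
  · refine ⟨?_, fun a b _ => Subsingleton.elim a b, isOpen_univ, fun _ y _ => mem_univ _,
      fun _ _ => rfl, fun _ _ _ _ => rfl, ?_, ?_⟩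
    · exact continuous_const
    · exact continuous_snd.continuousOn
    · intro j c _
      exact contMDiffOn_snd
  · have hex : ∃ m : ℕ, 1 ≤ m ∧ f^[m] y = y := hy
    refine ⟨Nat.find hex, (Nat.find_spec hex).1, ⟨PUnit.unit, (Nat.find_spec hex).2⟩,
      fun _ => rfl, fun i hi him g h hh => ?_⟩
    exact Nat.find_min hex him ⟨hi, hh⟩

/-- limits of periodic points, of homogeneous periodic submanifolds, and of isolated points of
`Ω(f)` -/
def Core (n : ℕ) {N : Type u} [TopologicalSpace N] [ChartedSpace (V n) N] (f : N → N) : Set N :=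
  closure ({y | Pool.Agent.TH80.CLX.IsHomPer n N f y} ∪ Iso f)

theorem closable_core {r : ℕ∞} (hr : 1 ≤ r) (f : DiffM n N r) (z : N) (hz : z ∈ Core n f) :
    Closable n N r f z := by
  have h1 : {y | Pool.Agent.TH80.CLX.IsHomPer n N f y} ∪ Iso f ⊆
      {y | Pool.Agent.TH80.CLX.IsHomPer n N f y} ∪ (Iso f \ Per f) := by
    rintro y (hy | hy)
    · exact Or.inl hy
    · by_cases hp : y ∈ Per f
      · exact Or.inl (isHomPer_of_per f y hp)
      · exact Or.inr ⟨hy, hp⟩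
  have h2 := closure_mono h1 hz
  rw [closure_union] at h2
  rcases h2 with h | h
  · exact Pool.Agent.TH80.CLX.main r hr f z fun U hU hfU => ⟨f, hfU, h⟩
  · exact closable_limit hr f z h

theorem main {r : ℕ∞} (hr : 1 ≤ r) (f : DiffM n N r) :
    (∀ z ∈ Core n f, Closable n N r f z) ∧
    (∀ z ∈ Omega f, ∀ O : Set N, IsOpen O → z ∈ O → (O ∩ (Omega f \ Core n f)).Countable →
      Closable n N r f z) := by
  refine ⟨closable_core hr f, ?_⟩
  intro z hz O hO hzO hc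
  by_contra hcl
  have hzC : z ∉ Core n f := fun h => hcl (closable_core hr f z h)
  have : SecondCountableTopology N := ChartedSpace.secondCountable_of_sigmaCompact (V n) N
  obtain ⟨y, hy, hyC, -, W, hW, hyW, h'⟩ := Bad.exists_isolated (Cnt.omega_closed f)
    isClosed_closure hO ⟨z, hzO, hz, hzC⟩ hc
  exact hyC (subset_closure (Or.inr ⟨hy, W, hW, hyW, h'⟩))

end Pool.Agent.X204.CLN
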