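import Pool.Agent.Y943.SL.Abs

/-!
# Sequences with Kesten's inequality: reduction to sparse sets of indices
-/

set_option autoImplicit false

namespace Pool.Agent.X204.KF

open Filter Topology TH966.KS

theorem log_diff (β b : ℝ) (m n : ℕ) (hm : 1 ≤ m) (hmn : m ≤ n) :
    |(β * Real.log n + b) - (β * Real.log m + b)| ≤ |β| * ((n : ℝ) - m) / m := by
  have hm0 : (0 : ℝ) < m := by exact_mod_cast (show 0 < m by omega)
  have hmn' : (m : ℝ) ≤ n := by exact_mod_cast hmn
  have hn0 : (0 : ℝ) < n := by linarith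
  have h1 : (β * Real.log n + b) - (β * Real.log m + b) = β * Real.log ((n : ℝ) / m) := by
    rw [Real.log_div hn0.ne' hm0.ne']
    ring
  rw [h1, abs_mul, mul_div_assoc]
  refine mul_le_mul_of_nonneg_left ?_ (abs_nonneg _)
  have h2 : 0 ≤ Real.log ((n : ℝ) / m) := Real.log_nonneg ((one_le_div hm0).2 hmn')
  rw [abs_of_nonneg h2]
  refine (Real.log_le_sub_one_of_pos (div_pos hn0 hm0)).trans ?_
  rw [div_sub_one hm0.ne']

theorem psi_zero (β b : ℝ) :
    Tendsto (fun n : ℕ => (β * Real.log n + b) / n) atTop (𝓝 0) := by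
  have h4 := (Pool.Agent.Y943.SL.log_over.const_mul β).add
    (tendsto_const_div_atTop_nhds_zero_nat b)
  rw [mul_zero, add_zero] at h4
  refine h4.congr fun n => ?_
  ring

variable {y : ℕ → ℝ} {D : ℝ} {k0 : ℕ}

/-- two-sided bounds pass from a set with gaps `O(√n)` to all indices -/
theorem bounds (hK : Kes y D (1 / 2) k0) (hy : ∀ k, 0 ≤ y k) (hD : 0 ≤ D) (S : Set ℕ) (M : ℝ)
    (hS : ∀ᶠ n : ℕ in atTop, ∃ m ∈ S, n ≤ m ∧ (m : ℝ) ≤ n + M * √n) (β a b : ℝ) (ha : 0 < a)
    (h : ∀ᶠ n : ℕ in atTop, n ∈ S → a * (n : ℝ) ^ β ≤ y n ∧ y n ≤ b * (n : ℝ) ^ β) :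
    ∃ a' b' : ℝ, 0 < a' ∧ ∀ᶠ n : ℕ in atTop,
      a' * (n : ℝ) ^ β ≤ y n ∧ y n ≤ b' * (n : ℝ) ^ β := by
  set τ : ℝ := |Real.log a| + |Real.log b| + 1 with hτ
  set δ : ℝ := |M| + 1 with hδ
  have hτ0 : 0 < τ := by positivity
  have hδ0 : 0 < δ := by positivity
  have hst := step (E := fun _ => 1) (B := |β|) (τ := τ) (δ := δ)
      (ψ := fun k => β * Real.log (k : ℝ) + 0)
      (S := S) hK hy hD (by norm_num) (by norm_num)
      (fun _ _ => le_rfl) monotone_const (fun _ _ => by norm_num) Pool.Agent.Y943.SL.one_div_tend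
      hτ0 hδ0 (abs_nonneg β)
      (fun m n hm hmn => log_diff β _ m n hm hmn) (psi_zero β _)
      (by
        filter_upwards [hS] with n hn
        obtain ⟨m, hmS, h1, h2⟩ := hn
        refine ⟨m, hmS, h1, h2.trans ?_⟩
        rw [mul_one]
        have h3 : M ≤ δ := by rw [hδ]; linarith [le_abs_self M]
        have := mul_le_mul_of_nonneg_right h3 (Real.sqrt_nonneg (n : ℝ))
        linarith)
      (by
        filter_upwards [h, eventually_ge_atTop 1] with n hn hn1 hnS
        obtain ⟨h1, h2⟩ := hn hnS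
        have hn0 : (0 : ℝ) < n := by exact_mod_cast hn1
        have hp : 0 < (n : ℝ) ^ β := Real.rpow_pos_of_pos hn0 β
        have hyn : 0 < y n := lt_of_lt_of_le (mul_pos ha hp) h1
        have hb : 0 < b := by
          by_contra hb
          push Not at hb
          have := mul_nonpos_of_nonpos_of_nonneg hb hp.le
          linarith
        refine ⟨hyn, ?_⟩
        have h3 := Real.log_le_log (mul_pos ha hp) h1
        have h4 := Real.log_le_log hyn h2
        rw [Real.log_mul ha.ne' hp.ne', Real.log_rpow hn0] at h3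
        rw [Real.log_mul hb.ne' hp.ne', Real.log_rpow hn0] at h4
        rw [abs_le]
        have e1 := neg_abs_le (Real.log a)
        have e2 := le_abs_self (Real.log b)
        have e3 := abs_nonneg (Real.log a)
        have e4 := abs_nonneg (Real.log b)
        constructor <;> linarith)
  set R : ℝ := 9 * τ + 384 * D * δ ^ 2 with hR
  refine ⟨Real.exp (-R), Real.exp R, Real.exp_pos _, ?_⟩
  filter_upwards [hst, eventually_ge_atTop 1] with n hn hn1
  obtain ⟨h1, h2⟩ := hn
  have hn0 : (0 : ℝ) < n := by exact_mod_cast hn1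
  rw [add_zero, mul_one, abs_le] at h2
  have e : Real.exp (β * Real.log n) = (n : ℝ) ^ β := by
    rw [Real.rpow_def_of_pos hn0, mul_comm]
  rw [← e, ← Real.exp_add, ← Real.exp_add]
  constructor
  · rw [← Real.le_log_iff_exp_le h1]
    linarith
  · rw [← Real.log_le_iff_le_exp h1]
    linarith

/-- **The strong form.** -/
theorem form (hK : Kes y D (1 / 2) k0) (hy : ∀ k, 0 ≤ y k) (hD : 0 ≤ D)
    (hpos : ∀ᶠ k : ℕ in atTop, 0 < y k) (S : Set ℕ)
    (hS : ∀ δ : ℝ, 0 < δ → ∀ᶠ n : ℕ in atTop, ∃ m ∈ S, n ≤ m ∧ (m : ℝ) ≤ n + δ * √n)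
    (A β : ℝ) (hA : 0 < A)
    (h : Tendsto (fun n : ℕ => y n / (n : ℝ) ^ β) (atTop ⊓ 𝓟 S) (𝓝 A)) :
    Tendsto (fun n : ℕ => y n / (n : ℝ) ^ β) atTop (𝓝 A) := by
  have hform : ∀ n : ℕ, 1 ≤ n → 0 < y n → Real.log (y n / (n : ℝ) ^ β / A) =
      Real.log (y n) - (β * Real.log n + Real.log A) := by
    intro n hn hyn
    have hn0 : (0 : ℝ) < n := by exact_mod_cast hn
    have h1 : (0 : ℝ) < (n : ℝ) ^ β := Real.rpow_pos_of_pos hn0 _
    rw [Real.log_div (div_pos hyn h1).ne' hA.ne',
      Real.log_div hyn.ne' h1.ne', Real.log_rpow hn0]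
    ring
  have hlogS : ∀ τ : ℝ, 0 < τ → ∀ᶠ n : ℕ in atTop, n ∈ S →
      |Real.log (y n) - (β * Real.log n + Real.log A)| ≤ τ := by
    intro τ hτ
    have h2 : Tendsto (fun n : ℕ => Real.log (y n / (n : ℝ) ^ β / A)) (atTop ⊓ 𝓟 S)
        (𝓝 (Real.log (A / A))) := by
      refine Tendsto.log (h.div_const A) ?_
      rw [div_self hA.ne']; norm_num
    rw [div_self hA.ne', Real.log_one] at h2
    have h3 := h2.abs
    rw [abs_zero] at h3
    have h4 := h3.eventually_lt_const hτ
    rw [eventually_inf_principal] at h4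
    filter_upwards [h4, hpos, eventually_ge_atTop 1] with n h5 h5' h6 h7
    rw [← hform n h6 h5']
    exact (h5 h7).le
  have hall : ∀ ε : ℝ, 0 < ε → ∀ᶠ k : ℕ in atTop,
      |Real.log (y k) - (β * Real.log k + Real.log A)| ≤ ε := by
    intro ε hε
    have hδ : 0 < √(ε / (2 * (384 * D + 1))) := Real.sqrt_pos.2 (by positivity)
    set δ := √(ε / (2 * (384 * D + 1))) with hδd
    have hst := step (E := fun _ => 1) (B := |β|) (τ := ε / 18) (δ := δ)
      (ψ := fun k => β * Real.log (k : ℝ) + Real.log A)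
      (S := S) hK hy hD (by norm_num) (by norm_num)
      (fun _ _ => le_rfl) monotone_const (fun _ _ => by norm_num) Pool.Agent.Y943.SL.one_div_tend
      (by positivity) hδ (abs_nonneg β)
      (fun m n hm hmn => log_diff β _ m n hm hmn) (psi_zero β _)
      (by
        filter_upwards [hS δ hδ] with k hk
        rw [mul_one]
        exact hk)
      (by
        filter_upwards [hlogS (ε / 18) (by positivity), hpos] with k hk hk2 hkS
        rw [mul_one]
        exact ⟨hk2, hk hkS⟩)
    filter_upwards [hst] with k hk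
    refine hk.2.trans ?_
    rw [mul_one, hδd, Real.sq_sqrt (by positivity)]
    have h7 : 384 * D * (ε / (2 * (384 * D + 1))) ≤ ε / 2 := by
      rw [mul_div_assoc', div_le_div_iff₀ (by positivity) (by norm_num)]
      nlinarith
    linarith
  have h8 : Tendsto (fun n : ℕ => Real.log (y n) - (β * Real.log n + Real.log A)) atTop
      (𝓝 0) := by
    rw [Metric.tendsto_atTop']
    intro ε hε
    obtain ⟨N, hN⟩ := eventually_atTop.1 (hall (ε / 2) (by positivity))
    refine ⟨N, fun n hn => ?_⟩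
    rw [dist_zero_right, Real.norm_eq_abs]
    have := hN n hn.le
    linarith
  have h9 : Tendsto (fun n : ℕ => Real.exp (Real.log (y n) -
      (β * Real.log n + Real.log A)) * A) atTop (𝓝 (Real.exp 0 * A)) :=
    ((Real.continuous_exp.tendsto 0).comp h8).mul_const A
  rw [Real.exp_zero, one_mul] at h9
  refine h9.congr' ?_
  filter_upwards [eventually_ge_atTop 1, hpos] with n hn hyn
  have hn0 : (0 : ℝ) < n := by exact_mod_cast hn
  rw [← hform n hn hyn, Real.exp_log (div_pos (div_pos hyn (Real.rpow_pos_of_pos hn0 _)) hA),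
    div_mul_cancel₀ _ hA.ne']

/-- **The logarithmic form.** -/
theorem expo (hK : Kes y D (1 / 2) k0) (hy : ∀ k, 0 ≤ y k) (hD : 0 ≤ D)
    (hpos : ∀ᶠ k : ℕ in atTop, 0 < y k) (S : Set ℕ)
    (hS : ∀ δ : ℝ, 0 < δ → ∀ᶠ n : ℕ in atTop, ∃ m ∈ S, n ≤ m ∧
      (m : ℝ) ≤ n + δ * √(n * Real.log n))
    (β : ℝ)
    (h : Tendsto (fun n : ℕ => Real.log (y n) / Real.log n) (atTop ⊓ 𝓟 S) (𝓝 β)) :
    Tendsto (fun n : ℕ => Real.log (y n) / Real.log n) atTop (𝓝 β) := by
  have hlog0 : ∀ n : ℕ, 0 ≤ Real.log (n : ℝ) := fun n => Real.log_natCast_nonneg n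
  have hlog2 : Real.log 2 ≤ 1 := by
    have := Real.log_two_lt_d9
    linarith
  have hE1 : ∀ n : ℕ, 1 ≤ n → (1 : ℝ) ≤ 1 + Real.log n := fun n _ => by linarith [hlog0 n]
  have hEm : Monotone (fun n : ℕ => 1 + Real.log (n : ℝ)) := by
    intro m n hmn
    rcases Nat.eq_zero_or_pos m with h0 | h0
    · subst h0
      simp only [Nat.cast_zero, Real.log_zero, add_zero]
      linarith [hlog0 n]
    · have h1 : (0 : ℝ) < m := by exact_mod_cast h0
      have h2 : (m : ℝ) ≤ n := by exact_mod_cast hmn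
      have := Real.log_le_log h1 h2
      simp only
      linarith
  have hE2 : ∀ n : ℕ, 1 ≤ n → 1 + Real.log ((2 * n : ℕ) : ℝ) ≤ 2 * (1 + Real.log n) := by
    intro n hn
    have h1 : (0 : ℝ) < n := by exact_mod_cast (show 0 < n by omega)
    push_cast
    rw [Real.log_mul (by norm_num) h1.ne']
    linarith [hlog0 n]
  have hEn : Tendsto (fun n : ℕ => (1 + Real.log (n : ℝ)) / n) atTop (𝓝 0) := by
    have h1 := Pool.Agent.Y943.SL.one_div_tend.add Pool.Agent.Y943.SL.log_over
    rw [add_zero] at h1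
    refine h1.congr fun n => ?_
    rw [add_div]
  have hlogS : ∀ τ : ℝ, 0 < τ → ∀ᶠ n : ℕ in atTop, n ∈ S →
      |Real.log (y n) - β * Real.log n| ≤ τ * Real.log n := by
    intro τ hτ
    have h3 := (Metric.tendsto_nhds.1 h) τ hτ
    rw [eventually_inf_principal] at h3
    filter_upwards [h3, eventually_gt_atTop 1] with n h4 h5 h6
    have h51 : (1 : ℝ) < n := by exact_mod_cast h5
    have h52 : 0 < Real.log (n : ℝ) := Real.log_pos h51
    have h7 := h4 h6
    rw [Real.dist_eq] at h7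
    have h8 : Real.log (y n) - β * Real.log n =
        (Real.log (y n) / Real.log n - β) * Real.log n := by
      field_simp
    rw [h8, abs_mul, abs_of_pos h52]
    exact mul_le_mul_of_nonneg_right h7.le h52.le
  have hall : ∀ ε : ℝ, 0 < ε → ∀ᶠ k : ℕ in atTop,
      |Real.log (y k) - β * Real.log k| ≤ ε * (1 + Real.log k) := by
    intro ε hε
    have hδ : 0 < √(ε / (2 * (384 * D + 1))) := Real.sqrt_pos.2 (by positivity)
    set δ := √(ε / (2 * (384 * D + 1))) with hδd
    have hst := step (E := fun n => 1 + Real.log (n : ℝ)) (B := |β|) (τ := ε / 18) (δ := δ)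
      (ψ := fun k => β * Real.log (k : ℝ) + 0)
      (S := S) hK hy hD (by norm_num)
      (by norm_num) hE1 hEm hE2 hEn (by positivity) hδ (abs_nonneg β)
      (fun m n hm hmn => log_diff β 0 m n hm hmn) (psi_zero β 0)
      (by
        filter_upwards [hS δ hδ] with n hn
        obtain ⟨m, hmS, h1, h2⟩ := hn
        refine ⟨m, hmS, h1, h2.trans ?_⟩
        have h3 : √((n : ℝ) * Real.log n) ≤ √((n : ℝ) * (1 + Real.log n)) := by
          refine Real.sqrt_le_sqrt (mul_le_mul_of_nonneg_left ?_ (Nat.cast_nonneg n))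
          linarith
        have := mul_le_mul_of_nonneg_left h3 hδ.le
        linarith)
      (by
        filter_upwards [hlogS (ε / 18) (by positivity), hpos] with n hn hn2 hnS
        refine ⟨hn2, ?_⟩
        rw [add_zero]
        refine (hn hnS).trans (mul_le_mul_of_nonneg_left ?_ (by positivity))
        linarith)
    filter_upwards [hst] with k hk
    have h1 := hk.2
    rw [add_zero] at h1
    refine h1.trans (mul_le_mul_of_nonneg_right ?_ (by linarith [hlog0 k]))
    rw [hδd, Real.sq_sqrt (by positivity)]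
    have h7 : 384 * D * (ε / (2 * (384 * D + 1))) ≤ ε / 2 := by
      rw [mul_div_assoc', div_le_div_iff₀ (by positivity) (by norm_num)]
      nlinarith
    linarith
  rw [Metric.tendsto_atTop']
  intro ε hε
  have hbig : ∀ᶠ k : ℕ in atTop, (1 : ℝ) ≤ Real.log (k : ℝ) :=
    (Real.tendsto_log_atTop.comp tendsto_natCast_atTop_atTop).eventually_ge_atTop _
  obtain ⟨N, hN⟩ := eventually_atTop.1 ((hall (ε / 4) (by positivity)).and hbig)
  refine ⟨N, fun n hn => ?_⟩
  obtain ⟨h1, h2⟩ := hN n hn.le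
  have hl : 0 < Real.log (n : ℝ) := by linarith
  have e : Real.log (y n) / Real.log n - β = (Real.log (y n) - β * Real.log n) / Real.log n := by
    field_simp
  rw [Real.dist_eq, e, abs_div, abs_of_pos hl, div_lt_iff₀ hl]
  nlinarith

end Pool.Agent.X204.KF
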