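import Mathlib

/-!
# Unitary paths with small commutators (Cayley transforms)
-/

set_option autoImplicit false

namespace Pool.Agent.X204.NP

open Set

section Cay

variable {A : Type*} [CStarAlgebra A]

lemma norm_one_le : ‖(1 : A)‖ ≤ 1 := by
  rcases subsingleton_or_nontrivial A with h | h
  · rw [Subsingleton.elim (1 : A) 0, norm_zero]; exact zero_le_one
  · exact (CStarRing.norm_one (E := A)).le

lemma unit_norm_le {Z : A} (h : star Z * Z = 1) : ‖Z‖ ≤ 1 := by
  have h1 : ‖Z‖ * ‖Z‖ ≤ 1 := by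
    rw [← CStarRing.norm_star_mul_self, h]
    exact norm_one_le
  nlinarith [norm_nonneg Z]

/-- The inverse of `1` plus a skew element has norm at most one. -/
lemma norm_inv_le {N G : A} (h1 : G * N = 1) (h3 : N + star N = (2 : ℝ) • (1 : A)) : ‖G‖ ≤ 1 := by
  have h4 : star N * star G = 1 := by rw [← star_mul, h1, star_one]
  have h5 : G * (N + star N) * star G = star G + G := by
    calc G * (N + star N) * star G = (G * N) * star G + G * (star N * star G) := by noncomm_ring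
      _ = star G + G := by rw [h1, h4, one_mul, mul_one]
  have h7 : ‖G * star G‖ = ‖G‖ * ‖G‖ := CStarRing.norm_self_mul_star
  have h8 : (2 : ℝ) * ‖G * star G‖ ≤ ‖G‖ + ‖G‖ := by
    have h9 : (2 : ℝ) • (G * star G) = star G + G := by
      rw [← h5, h3, mul_smul_comm, mul_one, smul_mul_assoc]
    calc (2 : ℝ) * ‖G * star G‖ = ‖(2 : ℝ) • (G * star G)‖ := by rw [norm_smul]; norm_num
      _ = ‖star G + G‖ := by rw [h9]
      _ ≤ ‖star G‖ + ‖G‖ := norm_add_le _ _
      _ = ‖G‖ + ‖G‖ := by rw [norm_star]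
  rw [h7] at h8
  by_contra hc
  push Not at hc
  nlinarith [norm_nonneg G]

/-- Commutator of an inverse. -/
lemma comm_inv {N G B : A} (h1 : G * N = 1) (h2 : N * G = 1) :
    G * B - B * G = G * (B * N - N * B) * G := by
  calc G * B - B * G = G * B * (N * G) - (G * N) * B * G := by rw [h1, h2, mul_one, one_mul]
    _ = G * (B * N - N * B) * G := by noncomm_ring

lemma exists_inv {N : A} (h : IsUnit N) : ∃ G, G * N = 1 ∧ N * G = 1 := by
  obtain ⟨u, rfl⟩ := h
  exact ⟨↑u⁻¹, u.inv_mul, u.mul_inv⟩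

theorem cay_path (W B : A) (hW : star W * W = 1) (hW' : W * star W = 1) {δ : ℝ}
    (hδ : ‖W - 1‖ ≤ δ) (hδ1 : δ < 1) :
    ∃ γ : ℝ → A, γ 0 = B ∧ γ 1 = W * B * star W ∧
      (∀ t ∈ Icc (0 : ℝ) 1, ∃ Z, star Z * Z = 1 ∧ Z * star Z = 1 ∧ γ t = Z * B * star Z) ∧
      ∀ s ∈ Icc (0 : ℝ) 1, ∀ t ∈ Icc (0 : ℝ) 1,
        ‖γ t - γ s‖ ≤ 4 * (1 + 2 * (δ / (2 - δ))) / (2 - δ) ^ 2 * ‖W * B - B * W‖ * |t - s| := by
  have hδ0 : 0 ≤ δ := (norm_nonneg _).trans hδ
  have h2δ : 0 < 2 - δ := by linarith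
  -- the inverse of 1 + W
  obtain ⟨J, hJ1, hJ2⟩ : ∃ J, J * (1 + W) = 1 ∧ (1 + W) * J = 1 := by
    have h1 : IsUnit (1 - (1 / 2 : ℝ) • (1 - W)) := by
      apply isUnit_one_sub_of_norm_lt_one
      rw [norm_smul, norm_sub_rev]
      have : ‖(1 / 2 : ℝ)‖ = 1 / 2 := by norm_num
      rw [this]
      linarith
    obtain ⟨G, hG1, hG2⟩ := exists_inv h1
    have h2 : 1 + W = (2 : ℝ) • (1 - (1 / 2 : ℝ) • (1 - W)) := by
      rw [smul_sub, smul_smul]
      norm_num
      rw [two_smul]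
      abel
    refine ⟨(1 / 2 : ℝ) • G, ?_, ?_⟩
    · rw [h2, smul_mul_smul_comm, hG1]; norm_num
    · rw [h2, smul_mul_smul_comm, hG2]; norm_num
  have hJn : ‖J‖ ≤ 1 / (2 - δ) := by
    have h1 : (2 : ℝ) • J = 1 + J * (1 - W) := by
      calc (2 : ℝ) • J = J * (1 + W) + J * (1 - W) := by rw [two_smul]; noncomm_ring
        _ = 1 + J * (1 - W) := by rw [hJ1]
    have h2 : 2 * ‖J‖ ≤ 1 + ‖J‖ * δ := by
      calc 2 * ‖J‖ = ‖(2 : ℝ) • J‖ := by rw [norm_smul]; norm_num
        _ = ‖1 + J * (1 - W)‖ := by rw [h1]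
        _ ≤ ‖(1 : A)‖ + ‖J * (1 - W)‖ := norm_add_le _ _
        _ ≤ 1 + ‖J‖ * ‖1 - W‖ := add_le_add norm_one_le (norm_mul_le _ _)
        _ ≤ 1 + ‖J‖ * δ := by
            have := mul_le_mul_of_nonneg_left (show ‖1 - W‖ ≤ δ by rwa [norm_sub_rev])
              (norm_nonneg J)
            linarith
    rw [le_div_iff₀ h2δ]
    linarith
  set S : A := 1 - (2 : ℝ) • J with hS
  have hSJ : S = (W - 1) * J := by
    calc S = (1 + W) * J - (2 : ℝ) • J := by rw [hJ2]
      _ = (W - 1) * J := by rw [two_smul]; noncomm_ring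
  have hSn : ‖S‖ ≤ δ / (2 - δ) := by
    calc ‖S‖ ≤ ‖W - 1‖ * ‖J‖ := by rw [hSJ]; exact norm_mul_le _ _
      _ ≤ δ * (1 / (2 - δ)) := mul_le_mul hδ hJn (norm_nonneg _) hδ0
      _ = δ / (2 - δ) := by ring
  set σ : ℝ := δ / (2 - δ) with hσ
  have hσ0 : 0 ≤ σ := by positivity
  have hσ1 : σ < 1 := by rw [hσ, div_lt_one h2δ]; linarith
  have hJstar : star J = J * W := by
    have h1 : star J * (1 + star W) = 1 := by
      have := congrArg star hJ2
      rwa [star_mul, star_add, star_one] at this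
    -- (1 + W) = W (star W + 1)
    have h2 : (1 + star W) * (J * W) = 1 := by
      have h3 : (1 + star W) = star W * (1 + W) := by rw [mul_add, hW, mul_one, add_comm]
      rw [h3]
      calc star W * (1 + W) * (J * W) = star W * ((1 + W) * J) * W := by noncomm_ring
        _ = 1 := by rw [hJ2, mul_one, hW]
    calc star J = star J * ((1 + star W) * (J * W)) := by rw [h2, mul_one]
      _ = (star J * (1 + star W)) * (J * W) := by rw [mul_assoc]
      _ = J * W := by rw [h1, one_mul]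
  have hSstar : star S = -S := by
    have h1 : J + star J = 1 := by rw [hJstar]; rw [← hJ1]; noncomm_ring
    rw [hS, star_sub, star_one, star_smul, star_trivial, eq_sub_of_add_eq' h1, smul_sub]
    rw [two_smul]
    rw [two_smul]
    abel
  -- commutator of S
  set κ : ℝ := ‖W * B - B * W‖ with hκ
  have hSB : ‖S * B - B * S‖ ≤ 2 / (2 - δ) ^ 2 * κ := by
    have h1 := comm_inv (B := B) hJ1 hJ2
    have h2 : S * B - B * S = -((2 : ℝ) • (J * B - B * J)) := by
      rw [hS, sub_mul, mul_sub, one_mul, mul_one, smul_mul_assoc, mul_smul_comm, smul_sub]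
      abel
    have h3 : B * (1 + W) - (1 + W) * B = -(W * B - B * W) := by noncomm_ring
    rw [h2, norm_neg, norm_smul, h1, h3]
    have h4 : ‖J * -(W * B - B * W) * J‖ ≤ ‖J‖ * κ * ‖J‖ := by
      refine (norm_mul_le _ _).trans ?_
      refine mul_le_mul_of_nonneg_right ?_ (norm_nonneg _)
      refine (norm_mul_le _ _).trans ?_
      rw [norm_neg]
    have h5 : ‖J‖ * κ * ‖J‖ ≤ 1 / (2 - δ) * κ * (1 / (2 - δ)) := by
      have hk : 0 ≤ κ := norm_nonneg _
      exact mul_le_mul (mul_le_mul_of_nonneg_right hJn hk) hJn (norm_nonneg _) (by positivity)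
    have h6 : ‖(2 : ℝ)‖ = 2 := by norm_num
    rw [h6]
    calc 2 * ‖J * -(W * B - B * W) * J‖ ≤ 2 * (1 / (2 - δ) * κ * (1 / (2 - δ))) := by linarith
      _ = 2 / (2 - δ) ^ 2 * κ := by field_simp
  -- the inverses
  have hG : ∀ t ∈ Icc (0 : ℝ) 1, ∃ G, G * (1 - t • S) = 1 ∧ (1 - t • S) * G = 1 := by
    intro t ht
    apply exists_inv
    apply isUnit_one_sub_of_norm_lt_one
    rw [norm_smul, Real.norm_eq_abs, abs_of_nonneg ht.1]
    calc t * ‖S‖ ≤ 1 * ‖S‖ := mul_le_mul_of_nonneg_right ht.2 (norm_nonneg _)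
      _ < 1 := by rw [one_mul]; exact lt_of_le_of_lt hSn hσ1
  have hNs : ∀ t : ℝ, star (1 - t • S) = 1 + t • S := by
    intro t
    rw [star_sub, star_one, star_smul, star_trivial, hSstar, smul_neg, sub_neg_eq_add]
  classical
  let G : ℝ → A := fun t => if h : t ∈ Icc (0 : ℝ) 1 then (hG t h).choose else 0
  have hG1 : ∀ t ∈ Icc (0 : ℝ) 1, G t * (1 - t • S) = 1 := by
    intro t ht
    simp only [G, dif_pos ht]
    exact (hG t ht).choose_spec.1
  have hG2 : ∀ t ∈ Icc (0 : ℝ) 1, (1 - t • S) * G t = 1 := by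
    intro t ht
    simp only [G, dif_pos ht]
    exact (hG t ht).choose_spec.2
  have hH1 : ∀ t ∈ Icc (0 : ℝ) 1, star (G t) * (1 + t • S) = 1 := by
    intro t ht
    rw [← hNs, ← star_mul, hG2 t ht, star_one]
  have hH2 : ∀ t ∈ Icc (0 : ℝ) 1, (1 + t • S) * star (G t) = 1 := by
    intro t ht
    rw [← hNs, ← star_mul, hG1 t ht, star_one]
  have hGn : ∀ t ∈ Icc (0 : ℝ) 1, ‖G t‖ ≤ 1 := by
    intro t ht
    refine norm_inv_le (hG1 t ht) ?_
    rw [hNs, two_smul]
    abel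
  let Z : ℝ → A := fun t => (1 + t • S) * G t
  have hZs : ∀ t, star (Z t) = star (G t) * (1 - t • S) := by
    intro t
    show star ((1 + t • S) * G t) = _
    rw [star_mul, ← hNs, star_star]
  have hcom : ∀ s t : ℝ, (1 - s • S) * (1 + t • S) = (1 + t • S) * (1 - s • S) := by
    intro s t
    simp only [mul_add, add_mul, mul_sub, sub_mul, one_mul, mul_one, smul_mul_assoc,
      mul_smul_comm]
    module
  have hZ1 : ∀ t ∈ Icc (0 : ℝ) 1, star (Z t) * Z t = 1 := by
    intro t ht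
    rw [hZs]
    calc star (G t) * (1 - t • S) * ((1 + t • S) * G t)
        = star (G t) * ((1 - t • S) * (1 + t • S)) * G t := by noncomm_ring
      _ = (star (G t) * (1 + t • S)) * ((1 - t • S) * G t) := by rw [hcom]; noncomm_ring
      _ = 1 := by rw [hH1 t ht, hG2 t ht, one_mul]
  have hcom2 : ∀ s t : ℝ, (1 + s • S) * (1 - t • S) = (1 - t • S) * (1 + s • S) := fun s t =>
    (hcom t s).symm
  have hGc : ∀ t ∈ Icc (0 : ℝ) 1, ∀ s : ℝ, G t * (1 + s • S) = (1 + s • S) * G t := by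
    intro t ht s
    calc G t * (1 + s • S) = G t * (1 + s • S) * ((1 - t • S) * G t) := by
          rw [hG2 t ht, mul_one]
      _ = G t * ((1 + s • S) * (1 - t • S)) * G t := by noncomm_ring
      _ = (G t * (1 - t • S)) * ((1 + s • S) * G t) := by rw [hcom2]; noncomm_ring
      _ = (1 + s • S) * G t := by rw [hG1 t ht, one_mul]
  have hHc : ∀ t ∈ Icc (0 : ℝ) 1, ∀ s : ℝ,
      star (G t) * (1 - s • S) = (1 - s • S) * star (G t) := by
    intro t ht s
    have h := congrArg star (hGc t ht s)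
    rw [star_mul, star_mul, ← hNs, star_star] at h
    exact h.symm
  have hZ2 : ∀ t ∈ Icc (0 : ℝ) 1, Z t * star (Z t) = 1 := by
    intro t ht
    rw [hZs]
    show (1 + t • S) * G t * (star (G t) * (1 - t • S)) = 1
    rw [hHc t ht]
    calc (1 + t • S) * G t * ((1 - t • S) * star (G t))
        = (1 + t • S) * (G t * (1 - t • S)) * star (G t) := by noncomm_ring
      _ = 1 := by rw [hG1 t ht, mul_one, hH2 t ht]
  have h01 : (0 : ℝ) ∈ Icc (0 : ℝ) 1 := ⟨le_rfl, zero_le_one⟩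
  have h11 : (1 : ℝ) ∈ Icc (0 : ℝ) 1 := ⟨zero_le_one, le_rfl⟩
  have hZ0 : Z 0 = 1 := by
    have h := hG1 0 h01
    rw [zero_smul, sub_zero, mul_one] at h
    show (1 + (0 : ℝ) • S) * G 0 = 1
    rw [h, zero_smul, add_zero, mul_one]
  have hZW : Z 1 = W := by
    have h := hG1 1 h11
    have e1 : 1 - (1 : ℝ) • S = (2 : ℝ) • J := by rw [one_smul, hS]; abel
    rw [e1] at h
    have e2 : ((2 : ℝ) • J) * ((1 / 2 : ℝ) • (1 + W)) = 1 := by
      rw [smul_mul_smul_comm, hJ1]; norm_num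
    have e3 : G 1 = (1 / 2 : ℝ) • (1 + W) := by
      calc G 1 = G 1 * (((2 : ℝ) • J) * ((1 / 2 : ℝ) • (1 + W))) := by rw [e2, mul_one]
        _ = (G 1 * ((2 : ℝ) • J)) * ((1 / 2 : ℝ) • (1 + W)) := by rw [mul_assoc]
        _ = (1 / 2 : ℝ) • (1 + W) := by rw [h, one_mul]
    show (1 + (1 : ℝ) • S) * G 1 = W
    have e4 : 1 + (1 : ℝ) • S = (2 : ℝ) • (1 - J) := by
      rw [one_smul, hS, smul_sub, two_smul ℝ (1 : A)]; abel
    rw [e3, e4, smul_mul_smul_comm, sub_mul, hJ1, one_mul]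
    norm_num
  refine ⟨fun t => Z t * B * star (Z t), ?_, ?_, fun t ht => ⟨Z t, hZ1 t ht, hZ2 t ht, rfl⟩, ?_⟩
  · show Z 0 * B * star (Z 0) = B
    rw [hZ0, star_one, one_mul, mul_one]
  · show Z 1 * B * star (Z 1) = W * B * star W
    rw [hZW]
  intro s hs t ht
  show ‖Z t * B * star (Z t) - Z s * B * star (Z s)‖ ≤ _
  set K := star (Z s) * Z t with hK
  have e1 : Z t * B * star (Z t) - Z s * B * star (Z s) = Z s * (K * B - B * K) * star (Z t) := by
    have a1 : Z s * (K * B - B * K) * star (Z t) =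
        (Z s * star (Z s)) * Z t * B * star (Z t) - Z s * B * star (Z s) * (Z t * star (Z t)) := by
      rw [hK]; noncomm_ring
    rw [a1, hZ2 s hs, hZ2 t ht, one_mul, mul_one]
  have e2 : ‖Z s * (K * B - B * K) * star (Z t)‖ ≤ ‖K * B - B * K‖ := by
    have b1 : ‖Z s‖ ≤ 1 := unit_norm_le (hZ1 s hs)
    have b2 : ‖star (Z t)‖ ≤ 1 := by rw [norm_star]; exact unit_norm_le (hZ1 t ht)
    calc ‖Z s * (K * B - B * K) * star (Z t)‖ ≤ ‖Z s * (K * B - B * K)‖ * ‖star (Z t)‖ :=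
          norm_mul_le _ _
      _ ≤ ‖Z s * (K * B - B * K)‖ * 1 := mul_le_mul_of_nonneg_left b2 (norm_nonneg _)
      _ = ‖Z s * (K * B - B * K)‖ := mul_one _
      _ ≤ ‖Z s‖ * ‖K * B - B * K‖ := norm_mul_le _ _
      _ ≤ 1 * ‖K * B - B * K‖ := mul_le_mul_of_nonneg_right b1 (norm_nonneg _)
      _ = _ := one_mul _
  have e3 : K = 1 + (2 * (t - s)) • (star (G s) * S * G t) := by
    have c1 : K = star (G s) * ((1 - s • S) * (1 + t • S)) * G t := by
      rw [hK, hZs]
      show star (G s) * (1 - s • S) * ((1 + t • S) * G t) = _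
      noncomm_ring
    have c2 : star (G s) * ((1 + s • S) * (1 - t • S)) * G t = 1 := by
      calc star (G s) * ((1 + s • S) * (1 - t • S)) * G t
          = (star (G s) * (1 + s • S)) * ((1 - t • S) * G t) := by noncomm_ring
        _ = 1 := by rw [hH1 s hs, hG2 t ht, one_mul]
    have c3 : (1 - s • S) * (1 + t • S) =
        (1 + s • S) * (1 - t • S) + (2 * (t - s)) • S := by
      simp only [mul_add, add_mul, mul_sub, sub_mul, one_mul, mul_one, smul_mul_assoc,
        mul_smul_comm]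
      module
    rw [c1, c3, mul_add, add_mul, c2, mul_smul_comm, smul_mul_assoc]
  set H := star (G s) with hH
  have e4 : K * B - B * K = (2 * (t - s)) • ((H * B - B * H) * S * G t +
      H * (S * B - B * S) * G t + H * S * (G t * B - B * G t)) := by
    rw [e3, add_mul, mul_add, one_mul, mul_one, smul_mul_assoc, mul_smul_comm]
    have : (H * B - B * H) * S * G t + H * (S * B - B * S) * G t + H * S * (G t * B - B * G t) =
        H * S * G t * B - B * (H * S * G t) := by noncomm_ring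
    rw [this, smul_sub]
    abel
  have f1 : H * B - B * H = H * (-(s • (S * B - B * S))) * H := by
    rw [comm_inv (hH1 s hs) (hH2 s hs)]
    congr 2
    rw [mul_add, add_mul, one_mul, mul_one, mul_smul_comm, smul_mul_assoc, smul_sub]
    abel
  have f2 : G t * B - B * G t = G t * (t • (S * B - B * S)) * G t := by
    rw [comm_inv (hG1 t ht) (hG2 t ht)]
    congr 2
    rw [mul_sub, sub_mul, one_mul, mul_one, mul_smul_comm, smul_mul_assoc, smul_sub]
    abel
  set q := ‖S * B - B * S‖ with hq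
  have hq0 : 0 ≤ q := norm_nonneg _
  have hHn : ‖H‖ ≤ 1 := by rw [hH, norm_star]; exact hGn s hs
  have hGtn := hGn t ht
  have g1 : ‖H * B - B * H‖ ≤ q := by
    rw [f1]
    calc ‖H * (-(s • (S * B - B * S))) * H‖ ≤ ‖H * (-(s • (S * B - B * S)))‖ * ‖H‖ :=
          norm_mul_le _ _
      _ ≤ (‖H‖ * ‖(-(s • (S * B - B * S)))‖) * ‖H‖ :=
          mul_le_mul_of_nonneg_right (norm_mul_le _ _) (norm_nonneg _)
      _ = ‖H‖ * (s * q) * ‖H‖ := by
          rw [norm_neg, norm_smul, Real.norm_eq_abs, abs_of_nonneg hs.1]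
      _ ≤ 1 * (s * q) * 1 := by
          have : 0 ≤ s * q := mul_nonneg hs.1 hq0
          exact mul_le_mul (mul_le_mul_of_nonneg_right hHn this) hHn (norm_nonneg _) (by linarith)
      _ ≤ q := by
          have := mul_le_mul_of_nonneg_right hs.2 hq0
          linarith
  have g2 : ‖G t * B - B * G t‖ ≤ q := by
    rw [f2]
    calc ‖G t * (t • (S * B - B * S)) * G t‖ ≤ ‖G t * (t • (S * B - B * S))‖ * ‖G t‖ :=
          norm_mul_le _ _
      _ ≤ (‖G t‖ * ‖(t • (S * B - B * S))‖) * ‖G t‖ :=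
          mul_le_mul_of_nonneg_right (norm_mul_le _ _) (norm_nonneg _)
      _ = ‖G t‖ * (t * q) * ‖G t‖ := by
          rw [norm_smul, Real.norm_eq_abs, abs_of_nonneg ht.1]
      _ ≤ 1 * (t * q) * 1 := by
          have : 0 ≤ t * q := mul_nonneg ht.1 hq0
          exact mul_le_mul (mul_le_mul_of_nonneg_right hGtn this) hGtn (norm_nonneg _)
            (by linarith)
      _ ≤ q := by
          have := mul_le_mul_of_nonneg_right ht.2 hq0
          linarith
  have three : ∀ (x y z : A) (a b c : ℝ), ‖x‖ ≤ a → ‖y‖ ≤ b → ‖z‖ ≤ c → 0 ≤ a → 0 ≤ b →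
      ‖x * y * z‖ ≤ a * b * c := by
    intro x y z a b c h1 h2 h3 h4 h5
    refine (norm_mul_le _ _).trans ?_
    refine mul_le_mul ((norm_mul_le _ _).trans ?_) h3 (norm_nonneg _) (mul_nonneg h4 h5)
    exact mul_le_mul h1 h2 (norm_nonneg _) h4
  have k1 : ‖(H * B - B * H) * S * G t‖ ≤ q * σ * 1 := three _ _ _ _ _ _ g1 hSn hGtn hq0 hσ0
  have k2 : ‖H * (S * B - B * S) * G t‖ ≤ 1 * q * 1 :=
    three _ _ _ _ _ _ hHn le_rfl hGtn zero_le_one hq0
  have k3 : ‖H * S * (G t * B - B * G t)‖ ≤ 1 * σ * q :=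
    three _ _ _ _ _ _ hHn hSn g2 zero_le_one hσ0
  have k4 : ‖K * B - B * K‖ ≤ (2 * |t - s|) * ((1 + 2 * σ) * q) := by
    rw [e4, norm_smul, Real.norm_eq_abs, abs_mul, abs_of_pos (by norm_num : (0 : ℝ) < 2)]
    refine mul_le_mul_of_nonneg_left ?_ (by positivity)
    refine (norm_add_le _ _).trans ?_
    have := norm_add_le ((H * B - B * H) * S * G t) (H * (S * B - B * S) * G t)
    linarith
  rw [e1]
  refine e2.trans (k4.trans ?_)
  have hts : 0 ≤ |t - s| := abs_nonneg _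
  have k5 : (1 + 2 * σ) * q ≤ (1 + 2 * σ) * (2 / (2 - δ) ^ 2 * κ) :=
    mul_le_mul_of_nonneg_left hSB (by linarith)
  calc 2 * |t - s| * ((1 + 2 * σ) * q) ≤ 2 * |t - s| * ((1 + 2 * σ) * (2 / (2 - δ) ^ 2 * κ)) :=
        mul_le_mul_of_nonneg_left k5 (by positivity)
    _ = 4 * (1 + 2 * σ) / (2 - δ) ^ 2 * κ * |t - s| := by ring

end Cay

end Pool.Agent.X204.NP
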