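import Pool.Agent.X204.NPA
import Pool.Agent.H173R2.HWD

/-!
# Matrices: Frobenius norm, polar factors of intertwiners
-/

set_option autoImplicit false

namespace Pool.Agent.X204.NP

open Matrix Set
open scoped Matrix.Norms.L2Operator
open Pool.Agent.H173R2.HW (Us Us_right Us_star normal_diag)

variable {n : ℕ}

lemma opNorm_le_frob (A : Matrix (Fin n) (Fin n) ℂ) {C : ℝ} (hC : 0 ≤ C)
    (h : ∑ i, ∑ j, ‖A i j‖ ^ 2 ≤ C ^ 2) : ‖A‖ ≤ C := by
  rw [← Matrix.l2_opNorm_toEuclideanCLM (𝕜 := ℂ)]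
  apply ContinuousLinearMap.opNorm_le_bound _ hC
  intro x
  apply le_of_sq_le_sq _ (by positivity)
  rw [mul_pow, EuclideanSpace.norm_sq_eq, EuclideanSpace.norm_sq_eq]
  have h1 : ∀ i, ‖(Matrix.toEuclideanCLM (n := Fin n) (𝕜 := ℂ) A x) i‖ ^ 2 ≤
      (∑ j, ‖A i j‖ ^ 2) * ∑ j, ‖x j‖ ^ 2 := by
    intro i
    have h2 : (Matrix.toEuclideanCLM (n := Fin n) (𝕜 := ℂ) A x) i = ∑ j, A i j * x j := rfl
    rw [h2]
    have h3 : ‖∑ j, A i j * x j‖ ≤ ∑ j, ‖A i j‖ * ‖x j‖ := by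
      refine (norm_sum_le _ _).trans (le_of_eq ?_)
      apply Finset.sum_congr rfl
      intro j _
      rw [norm_mul]
    calc ‖∑ j, A i j * x j‖ ^ 2 ≤ (∑ j, ‖A i j‖ * ‖x j‖) ^ 2 := by gcongr
      _ ≤ _ := Finset.sum_mul_sq_le_sq_mul_sq _ _ _
  calc ∑ i, ‖(Matrix.toEuclideanCLM (n := Fin n) (𝕜 := ℂ) A x) i‖ ^ 2
      ≤ ∑ i, (∑ j, ‖A i j‖ ^ 2) * ∑ j, ‖x j‖ ^ 2 := Finset.sum_le_sum (fun i _ => h1 i)
    _ = (∑ i, ∑ j, ‖A i j‖ ^ 2) * ∑ j, ‖x j‖ ^ 2 := by rw [Finset.sum_mul]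
    _ ≤ C ^ 2 * ∑ j, ‖x j‖ ^ 2 := by gcongr

lemma frob_le (A : Matrix (Fin n) (Fin n) ℂ) : ∑ i, ∑ j, ‖A i j‖ ^ 2 ≤ n * ‖A‖ ^ 2 := by
  have h1 : ∀ j, ∑ i, ‖A i j‖ ^ 2 ≤ ‖A‖ ^ 2 := by
    intro j
    have h2 := (Matrix.toEuclideanCLM (n := Fin n) (𝕜 := ℂ) A).le_opNorm
      (EuclideanSpace.single j (1 : ℂ))
    rw [Matrix.l2_opNorm_toEuclideanCLM, PiLp.norm_single, norm_one, mul_one] at h2
    have h3 : ‖(Matrix.toEuclideanCLM (n := Fin n) (𝕜 := ℂ) A) (EuclideanSpace.single j 1)‖ ^ 2 =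
        ∑ i, ‖A i j‖ ^ 2 := by
      rw [EuclideanSpace.norm_sq_eq]
      refine Finset.sum_congr rfl fun i _ => ?_
      congr 2
      have h4 : (Matrix.toEuclideanCLM (n := Fin n) (𝕜 := ℂ) A (EuclideanSpace.single j 1)) i =
        ∑ k, A i k * (EuclideanSpace.single j (1 : ℂ) : EuclideanSpace ℂ (Fin n)) k := rfl
      rw [h4]
      simp
    rw [← h3]
    exact pow_le_pow_left₀ (norm_nonneg _) h2 2
  rw [Finset.sum_comm]
  calc ∑ j, ∑ i, ‖A i j‖ ^ 2 ≤ ∑ _j : Fin n, ‖A‖ ^ 2 := Finset.sum_le_sum fun j _ => h1 j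
    _ = n * ‖A‖ ^ 2 := by simp

lemma us_norm {U : Matrix (Fin n) (Fin n) ℂ} (hU : U ∈ Us n) : ‖U‖ ≤ 1 := unit_norm_le hU

lemma norm_mul_us {U : Matrix (Fin n) (Fin n) ℂ} (hU : U ∈ Us n) (A : Matrix (Fin n) (Fin n) ℂ) :
    ‖A * U‖ = ‖A‖ := by
  refine le_antisymm ((norm_mul_le _ _).trans ?_) ?_
  · exact mul_le_of_le_one_right (norm_nonneg _) (us_norm hU)
  · calc ‖A‖ = ‖(A * U) * Uᴴ‖ := by rw [Matrix.mul_assoc, Us_right hU, Matrix.mul_one]
      _ ≤ ‖A * U‖ * ‖Uᴴ‖ := norm_mul_le _ _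
      _ ≤ ‖A * U‖ := mul_le_of_le_one_right (norm_nonneg _) (us_norm (Us_star hU))

lemma norm_us_mul {U : Matrix (Fin n) (Fin n) ℂ} (hU : U ∈ Us n) (A : Matrix (Fin n) (Fin n) ℂ) :
    ‖U * A‖ = ‖A‖ := by
  refine le_antisymm ((norm_mul_le _ _).trans ?_) ?_
  · exact mul_le_of_le_one_left (norm_nonneg _) (us_norm hU)
  · calc ‖A‖ = ‖Uᴴ * (U * A)‖ := by
          rw [← Matrix.mul_assoc, show Uᴴ * U = 1 from hU, Matrix.one_mul]
      _ ≤ ‖Uᴴ‖ * ‖U * A‖ := norm_mul_le _ _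
      _ ≤ ‖U * A‖ := mul_le_of_le_one_left (norm_nonneg _) (us_norm (Us_star hU))

lemma norm_diag_le {v : Fin n → ℂ} {C : ℝ} (hC : 0 ≤ C) (h : ∀ i, ‖v i‖ ≤ C) :
    ‖(diagonal v : Matrix (Fin n) (Fin n) ℂ)‖ ≤ C := by
  rw [l2_opNorm_diagonal]
  exact (pi_norm_le_iff_of_nonneg hC).mpr h

/-- A matrix that commutes with `diagonal α` commutes with `diagonal (f α)`. -/
lemma comm_fun {α : Fin n → ℂ} {N : Matrix (Fin n) (Fin n) ℂ}
    (h : diagonal α * N = N * diagonal α) (f : ℂ → ℂ) :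
    diagonal (fun i => f (α i)) * N = N * diagonal (fun i => f (α i)) := by
  ext i j
  rw [diagonal_mul, mul_diagonal]
  have h1 := congrFun (congrFun h i) j
  rw [diagonal_mul, mul_diagonal] at h1
  by_cases h2 : N i j = 0
  · rw [h2, mul_zero, zero_mul]
  · have h3 : α i = α j := by
      rw [mul_comm] at h1
      exact mul_left_cancel₀ h2 h1
    rw [h3, mul_comm]

/-- The unitary factor of an intertwiner near a unitary matrix. -/
theorem polar (X T : Matrix (Fin n) (Fin n) ℂ) (a b : Fin n → ℂ) (hT : T ∈ Us n)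
    (h1 : diagonal a * X = X * diagonal b)
    (h2 : diagonal (star a) * X = X * diagonal (star b)) {ε : ℝ} (hε : ‖X - T‖ ≤ ε)
    (hε1 : 2 * ε + ε ^ 2 < 1) :
    ∃ W ∈ Us n, diagonal a * W = W * diagonal b ∧ ‖W - T‖ ≤ 3 * ε + ε ^ 2 := by
  have hε0 : 0 ≤ ε := (norm_nonneg _).trans hε
  set η : ℝ := 2 * ε + ε ^ 2 with hη
  have hη0 : 0 ≤ η := by positivity
  set P := Xᴴ * X with hP
  have hPH : Pᴴ = P := by rw [hP, conjTranspose_mul, conjTranspose_conjTranspose]
  have hPn : ‖P - 1‖ ≤ η := by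
    have e1 : P - 1 = (X - T)ᴴ * X + Tᴴ * (X - T) := by
      rw [hP, ← show Tᴴ * T = 1 from hT, conjTranspose_sub, Matrix.sub_mul, Matrix.mul_sub]
      abel
    have e2 : ‖X‖ ≤ ε + 1 := by
      calc ‖X‖ = ‖(X - T) + T‖ := by rw [sub_add_cancel]
        _ ≤ ‖X - T‖ + ‖T‖ := norm_add_le _ _
        _ ≤ ε + 1 := add_le_add hε (us_norm hT)
    rw [e1]
    calc ‖(X - T)ᴴ * X + Tᴴ * (X - T)‖ ≤ ‖(X - T)ᴴ * X‖ + ‖Tᴴ * (X - T)‖ := norm_add_le _ _
      _ ≤ ‖(X - T)ᴴ‖ * ‖X‖ + ‖X - T‖ := by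
          refine add_le_add (norm_mul_le _ _) ?_
          rw [norm_us_mul (Us_star hT)]
      _ ≤ ε * (ε + 1) + ε := by
          rw [l2_opNorm_conjTranspose]
          exact add_le_add (mul_le_mul hε e2 (norm_nonneg _) hε0) hε
      _ = η := by rw [hη]; ring
  have hPb : P * diagonal b = diagonal b * P := by
    have e1 : Xᴴ * diagonal a = diagonal b * Xᴴ := by
      have := congrArg conjTranspose h2
      rw [conjTranspose_mul, conjTranspose_mul, diagonal_conjTranspose, diagonal_conjTranspose,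
        star_star, star_star] at this
      exact this
    calc P * diagonal b = Xᴴ * (X * diagonal b) := by rw [hP, Matrix.mul_assoc]
      _ = (Xᴴ * diagonal a) * X := by rw [← h1, Matrix.mul_assoc]
      _ = diagonal b * P := by rw [e1, hP, Matrix.mul_assoc]
  obtain ⟨Z, hZ, α, hα⟩ := normal_diag P (by rw [hPH])
  have hZ1 : Zᴴ * Z = 1 := hZ
  have hZ2 : Z * Zᴴ = 1 := Us_right hZ
  have hdα : diagonal α = Zᴴ * P * Z := by
    rw [hα]
    calc diagonal α = (Zᴴ * Z) * diagonal α * (Zᴴ * Z) := by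
          rw [hZ1, Matrix.one_mul, Matrix.mul_one]
      _ = Zᴴ * (Z * diagonal α * Zᴴ) * Z := by simp only [Matrix.mul_assoc]
  have hre : ∀ i, α i = ((α i).re : ℂ) := by
    intro i
    have e1 : (diagonal α)ᴴ = diagonal α := by
      rw [hdα, conjTranspose_mul, conjTranspose_mul, conjTranspose_conjTranspose, hPH]
      exact (Matrix.mul_assoc _ _ _).symm
    rw [diagonal_conjTranspose] at e1
    have e2 := congrFun (diagonal_injective e1) i
    exact (Complex.conj_eq_iff_re.1 e2).symm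
  have hα1 : ∀ i, |(α i).re - 1| ≤ η := by
    intro i
    have e1 : diagonal (fun i => α i - 1) = Zᴴ * (P - 1) * Z := by
      rw [Matrix.mul_sub, Matrix.sub_mul, ← hdα, Matrix.mul_one, hZ1, ← diagonal_one,
        diagonal_sub]
    have e2 : ‖(diagonal (fun i => α i - 1) : Matrix (Fin n) (Fin n) ℂ)‖ ≤ η := by
      rw [e1, norm_mul_us hZ, norm_us_mul (Us_star hZ)]
      exact hPn
    rw [l2_opNorm_diagonal] at e2
    have e3 := (norm_le_pi_norm (fun i => α i - 1) i).trans e2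
    rw [hre i] at e3
    rw [← Complex.ofReal_one, ← Complex.ofReal_sub, Complex.norm_real] at e3
    simpa using e3
  have hpos : ∀ i, 0 < (α i).re := by
    intro i
    have := (abs_le.1 (hα1 i)).1
    linarith
  set Q := Z * diagonal (fun i => ((1 / Real.sqrt ((α i).re) : ℝ) : ℂ)) * Zᴴ with hQ
  set D := Z * diagonal (fun i => ((Real.sqrt ((α i).re) : ℝ) : ℂ)) * Zᴴ with hD
  have hQH : Qᴴ = Q := by
    rw [hQ, conjTranspose_mul, conjTranspose_mul, conjTranspose_conjTranspose,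
      diagonal_conjTranspose, Matrix.mul_assoc]
    congr 3
    funext i
    simp
  have hQPQ : Q * P * Q = 1 := by
    rw [hQ, hα]
    calc Z * diagonal (fun i => ((1 / Real.sqrt ((α i).re) : ℝ) : ℂ)) * Zᴴ *
          (Z * diagonal α * Zᴴ) * (Z * diagonal (fun i => ((1 / Real.sqrt ((α i).re) : ℝ) : ℂ)) * Zᴴ)
        = Z * diagonal (fun i => ((1 / Real.sqrt ((α i).re) : ℝ) : ℂ)) * (Zᴴ * Z) * diagonal α *
          (Zᴴ * Z) * diagonal (fun i => ((1 / Real.sqrt ((α i).re) : ℝ) : ℂ)) * Zᴴ := by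
            simp only [Matrix.mul_assoc]
      _ = Z * (diagonal (fun i => ((1 / Real.sqrt ((α i).re) : ℝ) : ℂ)) * diagonal α *
          diagonal (fun i => ((1 / Real.sqrt ((α i).re) : ℝ) : ℂ))) * Zᴴ := by
            rw [hZ1]; simp only [Matrix.mul_assoc, Matrix.mul_one, Matrix.one_mul]
      _ = 1 := by
            rw [diagonal_mul_diagonal, diagonal_mul_diagonal]
            have : (fun i => ((1 / Real.sqrt ((α i).re) : ℝ) : ℂ) * α i *
                ((1 / Real.sqrt ((α i).re) : ℝ) : ℂ)) = fun _ => 1 := by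
              funext i
              have e1 := hpos i
              have e2 : (1 / Real.sqrt ((α i).re)) * (α i).re * (1 / Real.sqrt ((α i).re)) = 1 := by
                have e3 := Real.sqrt_pos.2 e1
                have e4 := Real.mul_self_sqrt e1.le
                field_simp
                rw [sq, e4]
              calc ((1 / Real.sqrt ((α i).re) : ℝ) : ℂ) * α i *
                    ((1 / Real.sqrt ((α i).re) : ℝ) : ℂ)
                  = ((1 / Real.sqrt ((α i).re) : ℝ) : ℂ) * (((α i).re : ℝ) : ℂ) *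
                    ((1 / Real.sqrt ((α i).re) : ℝ) : ℂ) := by rw [← hre i]
                _ = (((1 / Real.sqrt ((α i).re)) * (α i).re * (1 / Real.sqrt ((α i).re)) : ℝ) : ℂ) := by
                    push_cast; ring
                _ = 1 := by rw [e2]; simp
            rw [this, diagonal_one, Matrix.mul_one, hZ2]
  have hQD : Q * D = 1 := by
    rw [hQ, hD]
    calc Z * diagonal (fun i => ((1 / Real.sqrt ((α i).re) : ℝ) : ℂ)) * Zᴴ *
          (Z * diagonal (fun i => ((Real.sqrt ((α i).re) : ℝ) : ℂ)) * Zᴴ)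
        = Z * diagonal (fun i => ((1 / Real.sqrt ((α i).re) : ℝ) : ℂ)) * (Zᴴ * Z) *
          diagonal (fun i => ((Real.sqrt ((α i).re) : ℝ) : ℂ)) * Zᴴ := by
            simp only [Matrix.mul_assoc]
      _ = Z * (diagonal (fun i => ((1 / Real.sqrt ((α i).re) : ℝ) : ℂ)) *
          diagonal (fun i => ((Real.sqrt ((α i).re) : ℝ) : ℂ))) * Zᴴ := by
            rw [hZ1]; simp only [Matrix.mul_assoc, Matrix.mul_one]
      _ = 1 := by
            rw [diagonal_mul_diagonal]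
            have : (fun i => ((1 / Real.sqrt ((α i).re) : ℝ) : ℂ) *
                ((Real.sqrt ((α i).re) : ℝ) : ℂ)) = fun _ => 1 := by
              funext i
              have e3 := Real.sqrt_pos.2 (hpos i)
              rw [← Complex.ofReal_mul, one_div, inv_mul_cancel₀ e3.ne', Complex.ofReal_one]
            rw [this, diagonal_one, Matrix.mul_one, hZ2]
  have hQb : Q * diagonal b = diagonal b * Q := by
    set N := Zᴴ * diagonal b * Z with hN
    have e1 : diagonal α * N = N * diagonal α := by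
      rw [hdα, hN]
      calc Zᴴ * P * Z * (Zᴴ * diagonal b * Z) = Zᴴ * P * (Z * Zᴴ) * diagonal b * Z := by
            simp only [Matrix.mul_assoc]
        _ = Zᴴ * (P * diagonal b) * Z := by
            rw [hZ2]; simp only [Matrix.mul_assoc, Matrix.mul_one]
        _ = Zᴴ * (diagonal b * P) * Z := by rw [hPb]
        _ = Zᴴ * diagonal b * (Z * Zᴴ) * P * Z := by
            rw [hZ2]; simp only [Matrix.mul_assoc, Matrix.one_mul]
        _ = Zᴴ * diagonal b * Z * (Zᴴ * P * Z) := by simp only [Matrix.mul_assoc]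
    have e2 := comm_fun e1 (fun z => ((1 / Real.sqrt (z.re) : ℝ) : ℂ))
    have e3 : diagonal b = Z * N * Zᴴ := by
      rw [hN]
      calc diagonal b = (Z * Zᴴ) * diagonal b * (Z * Zᴴ) := by
            rw [hZ2, Matrix.one_mul, Matrix.mul_one]
        _ = Z * (Zᴴ * diagonal b * Z) * Zᴴ := by simp only [Matrix.mul_assoc]
    rw [e3, hQ]
    calc Z * diagonal (fun i => ((1 / Real.sqrt ((α i).re) : ℝ) : ℂ)) * Zᴴ * (Z * N * Zᴴ)
        = Z * diagonal (fun i => ((1 / Real.sqrt ((α i).re) : ℝ) : ℂ)) * (Zᴴ * Z) * N * Zᴴ := by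
          simp only [Matrix.mul_assoc]
      _ = Z * (diagonal (fun i => ((1 / Real.sqrt ((α i).re) : ℝ) : ℂ)) * N) * Zᴴ := by
          rw [hZ1]; simp only [Matrix.mul_assoc, Matrix.mul_one]
      _ = Z * (N * diagonal (fun i => ((1 / Real.sqrt ((α i).re) : ℝ) : ℂ))) * Zᴴ := by rw [e2]
      _ = Z * N * (Zᴴ * Z) * diagonal (fun i => ((1 / Real.sqrt ((α i).re) : ℝ) : ℂ)) * Zᴴ := by
          rw [hZ1]; simp only [Matrix.mul_assoc, Matrix.one_mul]
      _ = Z * N * Zᴴ * (Z * diagonal (fun i => ((1 / Real.sqrt ((α i).re) : ℝ) : ℂ)) * Zᴴ) := by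
          simp only [Matrix.mul_assoc]
  have hW : X * Q ∈ Us n := by
    show (X * Q)ᴴ * (X * Q) = 1
    rw [conjTranspose_mul, hQH]
    calc Q * Xᴴ * (X * Q) = Q * P * Q := by rw [hP]; simp only [Matrix.mul_assoc]
      _ = 1 := hQPQ
  refine ⟨X * Q, hW, ?_, ?_⟩
  · calc diagonal a * (X * Q) = (diagonal a * X) * Q := by rw [Matrix.mul_assoc]
      _ = X * (diagonal b * Q) := by rw [h1, Matrix.mul_assoc]
      _ = X * Q * diagonal b := by rw [← hQb]; exact (Matrix.mul_assoc _ _ _).symm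
  · have e1 : X * Q - X = (X * Q) * (1 - D) := by
      rw [Matrix.mul_sub, Matrix.mul_one, Matrix.mul_assoc X Q D, hQD, Matrix.mul_one]
    have e2 : ‖1 - D‖ ≤ η := by
      have e3 : 1 - D = Z * diagonal (fun i => 1 - ((Real.sqrt ((α i).re) : ℝ) : ℂ)) * Zᴴ := by
        rw [hD, ← hZ2]
        have : diagonal (fun i => 1 - ((Real.sqrt ((α i).re) : ℝ) : ℂ)) =
            (1 : Matrix (Fin n) (Fin n) ℂ) -
              diagonal (fun i => ((Real.sqrt ((α i).re) : ℝ) : ℂ)) := by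
          rw [← diagonal_one, diagonal_sub]
        rw [this, Matrix.mul_sub, Matrix.sub_mul, Matrix.mul_one]
      rw [e3, norm_mul_us (Us_star hZ), norm_us_mul hZ]
      refine norm_diag_le hη0 fun i => ?_
      rw [← Complex.ofReal_one, ← Complex.ofReal_sub, Complex.norm_real, Real.norm_eq_abs]
      have e4 := hα1 i
      have e5 := (hpos i).le
      set r := (α i).re
      have e6 : (1 - Real.sqrt r) * (1 + Real.sqrt r) = 1 - r := by
        have := Real.mul_self_sqrt e5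
        nlinarith
      have e7 : 0 ≤ Real.sqrt r := Real.sqrt_nonneg _
      calc |1 - Real.sqrt r| ≤ |1 - Real.sqrt r| * (1 + Real.sqrt r) :=
            le_mul_of_one_le_right (abs_nonneg _) (by linarith)
        _ = |(1 - Real.sqrt r) * (1 + Real.sqrt r)| := by
            rw [abs_mul, abs_of_nonneg (by linarith : (0 : ℝ) ≤ 1 + Real.sqrt r)]
        _ = |r - 1| := by rw [e6, abs_sub_comm]
        _ ≤ η := e4
    calc ‖X * Q - T‖ = ‖(X * Q - X) + (X - T)‖ := by rw [sub_add_sub_cancel]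
      _ ≤ ‖X * Q - X‖ + ‖X - T‖ := norm_add_le _ _
      _ ≤ η + ε := by
          rw [e1, norm_us_mul hW]
          exact add_le_add e2 hε
      _ = 3 * ε + ε ^ 2 := by rw [hη]; ring

end Pool.Agent.X204.NP
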