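import Pool.Agent.X204.NPB

/-!
# Clusters of points; the collapsed matrices
-/

set_option autoImplicit false

namespace Pool.Agent.X204.NP

open Matrix Set
open scoped Matrix.Norms.L2Operator
open Pool.Agent.H173R2.HW (Us Us_right Us_star normal_diag)

/-- Points at distance at most `R` are moved to the same point, at small cost. -/
lemma clusters {ι : Type} [Fintype ι] (p : ι → ℂ) {R : ℝ} (hR : 0 ≤ R) :
    ∃ c : ι → ℂ, (∀ i j, dist (p i) (p j) ≤ R → c i = c j) ∧
      ∀ i, dist (p i) (c i) ≤ ((Fintype.card ι : ℝ) - 1) * R := by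
  classical
  let G : SimpleGraph ι :=
    { Adj := fun i j => i ≠ j ∧ dist (p i) (p j) ≤ R
      symm := ⟨fun i j h => ⟨h.1.symm, by rw [dist_comm]; exact h.2⟩⟩
      loopless := ⟨fun i h => h.1 rfl⟩ }
  have hwalk : ∀ (i j : ι) (w : G.Walk i j), dist (p i) (p j) ≤ w.length * R := by
    intro i j w
    induction w with
    | nil => simp
    | cons h w ih =>
      rename_i u v x
      rw [SimpleGraph.Walk.length_cons]
      push_cast
      have h1 : dist (p u) (p v) ≤ R := h.2
      have h2 := dist_triangle (p u) (p v) (p x)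
      linarith
  refine ⟨fun i => p (Quot.out (G.connectedComponentMk i)), ?_, ?_⟩
  · intro i j h
    have : G.connectedComponentMk i = G.connectedComponentMk j := by
      by_cases hij : i = j
      · rw [hij]
      · apply SimpleGraph.ConnectedComponent.sound
        exact SimpleGraph.Adj.reachable ⟨hij, h⟩
    show p _ = p _
    rw [this]
  · intro i
    have h1 : G.connectedComponentMk (Quot.out (G.connectedComponentMk i)) =
        G.connectedComponentMk i := Quot.out_eq _
    have h2 : G.Reachable i (Quot.out (G.connectedComponentMk i)) :=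
      SimpleGraph.ConnectedComponent.exact h1.symm
    obtain ⟨w, hw⟩ := h2.exists_isPath
    have h3 := hw.length_lt
    have h4 : (w.length : ℝ) ≤ (Fintype.card ι : ℝ) - 1 := by
      have : w.length + 1 ≤ Fintype.card ι := h3
      have h5 : ((w.length + 1 : ℕ) : ℝ) ≤ (Fintype.card ι : ℝ) := by exact_mod_cast this
      push_cast at h5
      linarith
    exact (hwalk _ _ w).trans (mul_le_mul_of_nonneg_right h4 hR)

variable {n : ℕ}

/-- If the matrix `X` is near `Uᴴ V` and vanishes at the pairs of distant eigenvalues, then `A` and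
`B` are near normal matrices `A'` and `B' = Wᴴ A' W` with `W` near `1`. -/
theorem collapse (U V X : Matrix (Fin n) (Fin n) ℂ) (a b : Fin n → ℂ) (hU : U ∈ Us n)
    (hV : V ∈ Us n) {R : ℝ} (hR : 0 ≤ R) (hX : ∀ k l, X k l ≠ 0 → dist (a k) (b l) ≤ R)
    (hT : ‖X - Uᴴ * V‖ ≤ 1 / 6) :
    ∃ (a' b' : Fin n → ℂ) (W : Matrix (Fin n) (Fin n) ℂ), W ∈ Us n ∧ ‖W - 1‖ ≤ 19 / 36 ∧
      (∀ i, dist (a i) (a' i) ≤ (2 * n - 1) * R) ∧ (∀ i, dist (b i) (b' i) ≤ (2 * n - 1) * R) ∧
      U * diagonal a' * Uᴴ = W * (V * diagonal b' * Vᴴ) * Wᴴ := by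
  obtain ⟨c, hc1, hc2⟩ := clusters (Sum.elim a b) hR
  have hcard : (Fintype.card (Fin n ⊕ Fin n) : ℝ) = 2 * n := by
    rw [Fintype.card_sum, Fintype.card_fin]
    push_cast
    ring
  rw [hcard] at hc2
  set a' : Fin n → ℂ := fun i => c (Sum.inl i) with ha'
  set b' : Fin n → ℂ := fun i => c (Sum.inr i) with hb'
  have hTu : Uᴴ * V ∈ Us n := by
    show (Uᴴ * V)ᴴ * (Uᴴ * V) = 1
    rw [conjTranspose_mul, conjTranspose_conjTranspose]
    calc Vᴴ * U * (Uᴴ * V) = Vᴴ * (U * Uᴴ) * V := by simp only [Matrix.mul_assoc]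
      _ = 1 := by rw [Us_right hU, Matrix.mul_one]; exact hV
  have h1 : diagonal a' * X = X * diagonal b' := by
    ext k l
    rw [diagonal_mul, mul_diagonal]
    by_cases h : X k l = 0
    · rw [h, mul_zero, zero_mul]
    · have := hc1 (Sum.inl k) (Sum.inr l) (hX k l h)
      rw [ha', hb']
      show c (Sum.inl k) * X k l = X k l * c (Sum.inr l)
      rw [this, mul_comm]
  have h2 : diagonal (star a') * X = X * diagonal (star b') := by
    ext k l
    rw [diagonal_mul, mul_diagonal]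
    by_cases h : X k l = 0
    · rw [h, mul_zero, zero_mul]
    · have := hc1 (Sum.inl k) (Sum.inr l) (hX k l h)
      rw [ha', hb']
      show star (c (Sum.inl k)) * X k l = X k l * star (c (Sum.inr l))
      rw [this, mul_comm]
  obtain ⟨W', hW', hW1, hW2⟩ := polar X (Uᴴ * V) a' b' hTu h1 h2 hT (by norm_num)
  have hWW : U * W' * Vᴴ ∈ Us n := by
    show (U * W' * Vᴴ)ᴴ * (U * W' * Vᴴ) = 1
    rw [conjTranspose_mul, conjTranspose_mul, conjTranspose_conjTranspose]
    calc V * (W'ᴴ * Uᴴ) * (U * W' * Vᴴ) = V * W'ᴴ * (Uᴴ * U) * W' * Vᴴ := by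
          simp only [Matrix.mul_assoc]
      _ = V * (W'ᴴ * W') * Vᴴ := by
          rw [show Uᴴ * U = 1 from hU]; simp only [Matrix.mul_assoc, Matrix.one_mul]
      _ = 1 := by rw [show W'ᴴ * W' = 1 from hW', Matrix.mul_one, Us_right hV]
  refine ⟨a', b', U * W' * Vᴴ, hWW, ?_, fun i => hc2 (Sum.inl i), fun i => hc2 (Sum.inr i), ?_⟩
  · have e1 : U * W' * Vᴴ - 1 = U * (W' - Uᴴ * V) * Vᴴ := by
      rw [Matrix.mul_sub, Matrix.sub_mul]
      congr 1
      calc (1 : Matrix (Fin n) (Fin n) ℂ) = (U * Uᴴ) * (V * Vᴴ) := by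
            rw [Us_right hU, Us_right hV, Matrix.mul_one]
        _ = U * (Uᴴ * V) * Vᴴ := by simp only [Matrix.mul_assoc]
    rw [e1, norm_mul_us (Us_star hV), norm_us_mul hU]
    refine hW2.trans (by norm_num)
  · have e2 : (U * W' * Vᴴ)ᴴ = V * W'ᴴ * Uᴴ := by
      rw [conjTranspose_mul, conjTranspose_mul, conjTranspose_conjTranspose, Matrix.mul_assoc]
    rw [e2]
    calc U * diagonal a' * Uᴴ = U * diagonal a' * (W' * W'ᴴ) * Uᴴ := by
          rw [Us_right hW', Matrix.mul_one]
      _ = U * (diagonal a' * W') * W'ᴴ * Uᴴ := by simp only [Matrix.mul_assoc]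
      _ = U * (W' * diagonal b') * W'ᴴ * Uᴴ := by rw [hW1]
      _ = U * W' * (Vᴴ * V) * diagonal b' * (Vᴴ * V) * W'ᴴ * Uᴴ := by
          rw [show Vᴴ * V = 1 from hV]
          simp only [Matrix.mul_assoc, Matrix.one_mul]
      _ = U * W' * Vᴴ * (V * diagonal b' * Vᴴ) * (V * W'ᴴ * Uᴴ) := by
          simp only [Matrix.mul_assoc]

end Pool.Agent.X204.NP
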