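import Mathlib

/-!
# Paths of bounded length with values in a set
-/

set_option autoImplicit false

namespace Pool.Agent.X204.NP

open Set

variable {E : Type*} [NormedAddCommGroup E]

/-- `x` and `y` are joined by a path of length at most `ℓ` whose points satisfy `P`. -/
def Join (P : E → Prop) (x y : E) (l : ℝ) : Prop :=
  ∃ γ : ℝ → E, ContinuousOn γ (Icc 0 1) ∧ γ 0 = x ∧ γ 1 = y ∧ (∀ t ∈ Icc (0 : ℝ) 1, P (γ t)) ∧
    eVariationOn γ (Icc 0 1) ≤ ENNReal.ofReal l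

lemma join_of_lip {P : E → Prop} {x y : E} {C : ℝ} (hC : 0 ≤ C) (γ : ℝ → E) (h0 : γ 0 = x)
    (h1 : γ 1 = y) (hP : ∀ t ∈ Icc (0 : ℝ) 1, P (γ t))
    (hL : ∀ s ∈ Icc (0 : ℝ) 1, ∀ t ∈ Icc (0 : ℝ) 1, ‖γ t - γ s‖ ≤ C * |t - s|) :
    Join P x y C := by
  have hlip : LipschitzOnWith C.toNNReal γ (Icc 0 1) := by
    refine LipschitzOnWith.of_dist_le_mul fun s hs t ht => ?_
    rw [Real.coe_toNNReal _ hC, dist_eq_norm, dist_eq_norm, Real.norm_eq_abs]
    exact hL t ht s hs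
  refine ⟨γ, hlip.continuousOn, h0, h1, hP, ?_⟩
  have h2 := hlip.comp_eVariationOn_le (g := fun t : ℝ => t) (s := Icc 0 1) (fun t ht => ht)
  have h3 : eVariationOn (fun t : ℝ => t) (Icc (0 : ℝ) 1) ≤ ENNReal.ofReal (1 - 0) := by
    have h4 : MonotoneOn (fun t : ℝ => t) (Icc (0 : ℝ) 1) := fun a _ b _ h => h
    have := h4.eVariationOn_le (a := 0) (b := 1) ⟨le_rfl, zero_le_one⟩ ⟨zero_le_one, le_rfl⟩
    rwa [inter_self] at this
  have h5 : γ ∘ (fun t : ℝ => t) = γ := rfl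
  rw [h5] at h2
  refine h2.trans ((mul_le_mul_right h3 _).trans ?_)
  rw [sub_zero, ENNReal.ofReal_one, mul_one]
  rfl

lemma Join.symm {P : E → Prop} {x y : E} {l : ℝ} (h : Join P x y l) : Join P y x l := by
  obtain ⟨γ, hc, h0, h1, hP, hl⟩ := h
  have hm : MapsTo (fun t : ℝ => 1 - t) (Icc 0 1) (Icc 0 1) := fun t ht =>
    ⟨by linarith [ht.2], by linarith [ht.1]⟩
  refine ⟨γ ∘ fun t => 1 - t, hc.comp (by fun_prop) hm, ?_, ?_, fun t ht => hP _ (hm ht), ?_⟩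
  · show γ (1 - 0) = y
    rw [sub_zero, h1]
  · show γ (1 - 1) = x
    rw [sub_self, h0]
  · refine (eVariationOn.comp_le_of_antitoneOn γ (fun t => 1 - t) (fun a _ b _ h => ?_) hm).trans hl
    show 1 - b ≤ 1 - a
    linarith

lemma Join.trans {P : E → Prop} {x y z : E} {l m : ℝ} (hl0 : 0 ≤ l) (hm0 : 0 ≤ m)
    (h : Join P x y l) (h' : Join P y z m) : Join P x z (l + m) := by
  obtain ⟨γ, hc, h0, h1, hP, hl⟩ := h
  obtain ⟨δ, hc', h0', h1', hP', hl'⟩ := h'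
  set η : ℝ → E := fun t => if t ≤ 1 / 2 then γ (2 * t) else δ (2 * t - 1) with hη
  have e1 : EqOn η (γ ∘ fun t => 2 * t) (Icc 0 (1 / 2)) := by
    intro t ht
    show (if t ≤ 1 / 2 then γ (2 * t) else δ (2 * t - 1)) = γ (2 * t)
    rw [if_pos ht.2]
  have e2 : EqOn η (δ ∘ fun t => 2 * t - 1) (Icc (1 / 2) 1) := by
    intro t ht
    show (if t ≤ 1 / 2 then γ (2 * t) else δ (2 * t - 1)) = δ (2 * t - 1)
    by_cases h : t ≤ 1 / 2
    · have : t = 1 / 2 := le_antisymm h ht.1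
      rw [if_pos h, this]
      norm_num
      rw [h1, h0']
    · rw [if_neg h]
  have m1 : MapsTo (fun t : ℝ => 2 * t) (Icc 0 (1 / 2)) (Icc 0 1) := fun t ht =>
    ⟨by linarith [ht.1], by linarith [ht.2]⟩
  have m2 : MapsTo (fun t : ℝ => 2 * t - 1) (Icc (1 / 2) 1) (Icc 0 1) := fun t ht =>
    ⟨by linarith [ht.1], by linarith [ht.2]⟩
  have hun : Icc (0 : ℝ) (1 / 2) ∪ Icc (1 / 2) 1 = Icc 0 1 :=
    Icc_union_Icc_eq_Icc (by norm_num) (by norm_num)
  refine ⟨η, ?_, ?_, ?_, ?_, ?_⟩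
  · rw [← hun]
    refine ContinuousOn.union_of_isClosed ?_ ?_ isClosed_Icc isClosed_Icc
    · exact (hc.comp (by fun_prop) m1).congr e1
    · exact (hc'.comp (by fun_prop) m2).congr e2
  · show (if (0 : ℝ) ≤ 1 / 2 then γ (2 * 0) else δ (2 * 0 - 1)) = x
    norm_num [h0]
  · show (if (1 : ℝ) ≤ 1 / 2 then γ (2 * 1) else δ (2 * 1 - 1)) = z
    norm_num [h1']
  · intro t ht
    by_cases h : t ≤ 1 / 2
    · rw [e1 ⟨ht.1, h⟩]
      exact hP _ (m1 ⟨ht.1, h⟩)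
    · rw [e2 ⟨(not_le.1 h).le, ht.2⟩]
      exact hP' _ (m2 ⟨(not_le.1 h).le, ht.2⟩)
  · have h3 := eVariationOn.Icc_add_Icc η (s := univ) (a := (0 : ℝ)) (b := 1 / 2) (c := 1)
      (by norm_num) (by norm_num) (mem_univ _)
    rw [univ_inter, univ_inter, univ_inter] at h3
    rw [← h3, ENNReal.ofReal_add hl0 hm0]
    refine add_le_add ?_ ?_
    · rw [eVariationOn.congr e1]
      refine (eVariationOn.comp_le_of_monotoneOn γ (fun t => 2 * t) (fun a _ b _ h => ?_) m1).trans hl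
      show 2 * a ≤ 2 * b
      linarith
    · rw [eVariationOn.congr e2]
      refine (eVariationOn.comp_le_of_monotoneOn δ (fun t => 2 * t - 1)
        (fun a _ b _ h => ?_) m2).trans hl'
      show 2 * a - 1 ≤ 2 * b - 1
      linarith

lemma Join.mono {P : E → Prop} {x y : E} {l m : ℝ} (h : Join P x y l) (hlm : l ≤ m) :
    Join P x y m := by
  obtain ⟨γ, hc, h0, h1, hP, hl⟩ := h
  exact ⟨γ, hc, h0, h1, hP, hl.trans (ENNReal.ofReal_le_ofReal hlm)⟩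

end Pool.Agent.X204.NP
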