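import Pool.Agent.X204.NPC
import Pool.Agent.X204.NPD

/-!
# The normal path, given the collapsed matrices
-/

set_option autoImplicit false

namespace Pool.Agent.X204.NP

open Matrix Set
open scoped Matrix.Norms.L2Operator
open Pool.Agent.H173R2.HW (Us Us_right Us_star normal_diag)

variable {n : ℕ}

lemma normal_conj {N Z : Matrix (Fin n) (Fin n) ℂ} (hN : IsStarNormal N) (hZ : star Z * Z = 1) :
    IsStarNormal (Z * N * star Z) := by
  refine ⟨?_⟩
  show star (Z * N * star Z) * (Z * N * star Z) = (Z * N * star Z) * star (Z * N * star Z)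
  have h : star N * N = N * star N := hN.star_comm_self
  rw [star_mul, star_mul, star_star]
  calc Z * (star N * star Z) * (Z * N * star Z) = Z * star N * (star Z * Z) * N * star Z := by
        simp only [Matrix.mul_assoc]
    _ = Z * (star N * N) * star Z := by rw [hZ]; simp only [Matrix.mul_assoc, Matrix.one_mul]
    _ = Z * (N * star N) * star Z := by rw [h]
    _ = Z * N * (star Z * Z) * star N * star Z := by
        rw [hZ]; simp only [Matrix.mul_assoc, Matrix.one_mul]
    _ = Z * N * star Z * (Z * (star N * star Z)) := by simp only [Matrix.mul_assoc]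

lemma normal_diagonal (v : Fin n → ℂ) : IsStarNormal (diagonal v : Matrix (Fin n) (Fin n) ℂ) := by
  refine ⟨?_⟩
  show star (diagonal v) * diagonal v = diagonal v * star (diagonal v)
  rw [star_eq_conjTranspose, diagonal_conjTranspose, diagonal_mul_diagonal, diagonal_mul_diagonal]
  congr 1
  funext i
  exact mul_comm _ _

lemma normal_us {U : Matrix (Fin n) (Fin n) ℂ} (hU : U ∈ Us n) (v : Fin n → ℂ) :
    IsStarNormal (U * diagonal v * Uᴴ) := normal_conj (normal_diagonal v) hU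

lemma norm_us_diag {U : Matrix (Fin n) (Fin n) ℂ} (hU : U ∈ Us n) {v : Fin n → ℂ} {d : ℝ}
    (hd : 0 ≤ d) (h : ∀ i, ‖v i‖ ≤ d) : ‖U * diagonal v * Uᴴ‖ ≤ d := by
  rw [norm_mul_us (Us_star hU), norm_us_mul hU]
  exact norm_diag_le hd h

/-- The linear path between normal matrices with the same eigenvectors. -/
lemma join_linear {U : Matrix (Fin n) (Fin n) ℂ} (hU : U ∈ Us n) (a a' : Fin n → ℂ) {d : ℝ}
    (hd : 0 ≤ d) (h : ∀ i, dist (a i) (a' i) ≤ d) :
    Join IsStarNormal (U * diagonal a * Uᴴ) (U * diagonal a' * Uᴴ) d := by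
  refine join_of_lip hd (fun t => U * diagonal (fun i => a i + (t : ℂ) * (a' i - a i)) * Uᴴ)
    ?_ ?_ (fun t _ => normal_us hU _) ?_
  · simp
  · simp
  · intro s _ t _
    have e1 : U * diagonal (fun i => a i + (t : ℂ) * (a' i - a i)) * Uᴴ -
        U * diagonal (fun i => a i + (s : ℂ) * (a' i - a i)) * Uᴴ =
        U * diagonal (fun i => ((t - s : ℝ) : ℂ) * (a' i - a i)) * Uᴴ := by
      rw [← Matrix.sub_mul, ← Matrix.mul_sub, diagonal_sub]
      congr 3
      funext i
      push_cast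
      ring
    show ‖U * diagonal (fun i => a i + (t : ℂ) * (a' i - a i)) * Uᴴ -
      U * diagonal (fun i => a i + (s : ℂ) * (a' i - a i)) * Uᴴ‖ ≤ d * |t - s|
    rw [e1]
    refine norm_us_diag hU (by positivity) fun i => ?_
    rw [norm_mul, Complex.norm_real, Real.norm_eq_abs, mul_comm]
    refine mul_le_mul_of_nonneg_right ?_ (abs_nonneg _)
    have := h i
    rw [dist_comm, dist_eq_norm] at this
    exact this

theorem core (hn : 1 ≤ n) (U V X : Matrix (Fin n) (Fin n) ℂ) (a b : Fin n → ℂ) (hU : U ∈ Us n)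
    (hV : V ∈ Us n) {R : ℝ} (hR : 0 ≤ R) (hX : ∀ k l, X k l ≠ 0 → dist (a k) (b l) ≤ R)
    (hT : ‖X - Uᴴ * V‖ ≤ 1 / 6) :
    Join IsStarNormal (U * diagonal a * Uᴴ) (V * diagonal b * Vᴴ)
      (2 * (2 * n - 1) * R * (1 + 317 / 100) +
        317 / 100 * ‖U * diagonal a * Uᴴ - V * diagonal b * Vᴴ‖) := by
  obtain ⟨a', b', W, hW, hW1, ha, hb, hAB⟩ := collapse U V X a b hU hV hR hX hT
  have hn1 : (1 : ℝ) ≤ n := by exact_mod_cast hn
  set d : ℝ := (2 * n - 1) * R with hd
  have hd0 : 0 ≤ d := mul_nonneg (by linarith) hR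
  set A := U * diagonal a * Uᴴ with hA
  set B := V * diagonal b * Vᴴ with hB
  set A' := U * diagonal a' * Uᴴ with hA'
  set B' := V * diagonal b' * Vᴴ with hB'
  have j1 : Join IsStarNormal A A' d := join_linear hU a a' hd0 ha
  have j3 : Join IsStarNormal B' B d := (join_linear hV b b' hd0 hb).symm
  have n1 : ‖A' - A‖ ≤ d := by
    have : A' - A = U * diagonal (fun i => a' i - a i) * Uᴴ := by
      rw [hA', hA, ← Matrix.sub_mul, ← Matrix.mul_sub, diagonal_sub]
    rw [this]
    refine norm_us_diag hU hd0 fun i => ?_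
    have := ha i
    rwa [dist_comm, dist_eq_norm] at this
  have n2 : ‖B - B'‖ ≤ d := by
    have : B - B' = V * diagonal (fun i => b i - b' i) * Vᴴ := by
      rw [hB', hB, ← Matrix.sub_mul, ← Matrix.mul_sub, diagonal_sub]
    rw [this]
    refine norm_us_diag hV hd0 fun i => ?_
    have := hb i
    rwa [dist_eq_norm] at this
  have n3 : ‖A' - B'‖ ≤ ‖A - B‖ + 2 * d := by
    have e1 : A' - B' = (A' - A) + (A - B) + (B - B') := by abel
    rw [e1]
    have e2 := norm_add_le ((A' - A) + (A - B)) (B - B')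
    have e3 := norm_add_le (A' - A) (A - B)
    linarith
  have hW2 : W * star W = 1 := Us_right hW
  obtain ⟨γ, g0, g1, gP, gL⟩ := cay_path W B' hW hW2 hW1 (by norm_num)
  have g1' : γ 1 = A' := g1.trans hAB.symm
  have hcomm : ‖W * B' - B' * W‖ = ‖A' - B'‖ := by
    rw [hAB, ← norm_mul_us hW (W * B' * Wᴴ - B')]
    congr 1
    rw [Matrix.sub_mul, Matrix.mul_assoc (W * B') Wᴴ W, show Wᴴ * W = 1 from hW, Matrix.mul_one]
  have hC : (4 : ℝ) * (1 + 2 * ((19 / 36) / (2 - 19 / 36))) / (2 - 19 / 36) ^ 2 ≤ 317 / 100 := by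
    norm_num
  have hp0 : 0 ≤ 317 / 100 * (‖A - B‖ + 2 * d) := by
    have := norm_nonneg (A - B)
    linarith
  have j2 : Join IsStarNormal B' A' (317 / 100 * (‖A - B‖ + 2 * d)) := by
    have q1 : ∀ t ∈ Icc (0 : ℝ) 1, IsStarNormal (γ t) := by
      intro t ht
      obtain ⟨Z, hZ1, hZ2, hZ⟩ := gP t ht
      rw [hZ]
      exact normal_conj (normal_us hV _) hZ1
    have q2 : ∀ s ∈ Icc (0 : ℝ) 1, ∀ t ∈ Icc (0 : ℝ) 1,
        ‖γ t - γ s‖ ≤ 317 / 100 * (‖A - B‖ + 2 * d) * |t - s| := by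
      intro s hs t ht
      refine (gL s hs t ht).trans ?_
      refine mul_le_mul_of_nonneg_right ?_ (abs_nonneg _)
      rw [hcomm]
      exact mul_le_mul hC n3 (norm_nonneg _) (by norm_num)
    exact join_of_lip hp0 γ g0 g1' q1 q2
  have j2' : Join IsStarNormal A' B' (317 / 100 * (‖A - B‖ + 2 * d)) := j2.symm
  have j12 : Join IsStarNormal A B' (d + 317 / 100 * (‖A - B‖ + 2 * d)) :=
    Join.trans hd0 hp0 j1 j2'
  have hp1 : 0 ≤ d + 317 / 100 * (‖A - B‖ + 2 * d) := by linarith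
  have j4 : Join IsStarNormal A B (d + 317 / 100 * (‖A - B‖ + 2 * d) + d) :=
    Join.trans hp1 hd0 j12 j3
  have he : d + 317 / 100 * (‖A - B‖ + 2 * d) + d =
      2 * (2 * n - 1) * R * (1 + 317 / 100) + 317 / 100 * ‖A - B‖ := by
    rw [hd]; ring
  rw [← he]
  exact j4

/-- The explicit bound of order `n ^ (3 / 2)`. -/
theorem explicit (hn : 1 ≤ n) (A B : Matrix (Fin n) (Fin n) ℂ) (hA : IsStarNormal A)
    (hB : IsStarNormal B) (hAB : ‖A - B‖ = 1) :
    Join IsStarNormal A B (101 * ((n : ℝ) * Real.sqrt n)) := by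
  obtain ⟨U, hU, a, ha⟩ := normal_diag A hA.star_comm_self
  obtain ⟨V, hV, b, hb⟩ := normal_diag B hB.star_comm_self
  have hn1 : (1 : ℝ) ≤ n := by exact_mod_cast hn
  set r := Real.sqrt n with hr
  have hr1 : 1 ≤ r := by rw [hr]; exact Real.one_le_sqrt.2 hn1
  have hrr : r * r = n := Real.mul_self_sqrt (by linarith)
  set T := Uᴴ * V with hT
  classical
  let X : Matrix (Fin n) (Fin n) ℂ := fun k l => if dist (a k) (b l) ≤ 6 * r then T k l else 0
  have hX : ∀ k l, X k l ≠ 0 → dist (a k) (b l) ≤ 6 * r := by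
    intro k l h
    by_contra hc
    exact h (if_neg hc)
  have hE : Uᴴ * (A - B) * V = fun k l => (a k - b l) * T k l := by
    have e1 : Uᴴ * (A - B) * V = diagonal a * T - T * diagonal b := by
      rw [ha, hb, hT, Matrix.mul_sub, Matrix.sub_mul]
      congr 1
      · calc Uᴴ * (U * diagonal a * Uᴴ) * V = (Uᴴ * U) * diagonal a * (Uᴴ * V) := by
              simp only [Matrix.mul_assoc]
          _ = diagonal a * (Uᴴ * V) := by rw [show Uᴴ * U = 1 from hU, Matrix.one_mul]
      · calc Uᴴ * (V * diagonal b * Vᴴ) * V = (Uᴴ * V) * diagonal b * (Vᴴ * V) := by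
              simp only [Matrix.mul_assoc]
          _ = Uᴴ * V * diagonal b := by rw [show Vᴴ * V = 1 from hV, Matrix.mul_one]
    rw [e1]
    ext k l
    rw [Matrix.sub_apply, diagonal_mul, mul_diagonal]
    ring
  have hTn : ‖X - Uᴴ * V‖ ≤ 1 / 6 := by
    have h1 : ∀ k l, ‖(X - T) k l‖ ≤ 1 / (6 * r) * ‖(Uᴴ * (A - B) * V) k l‖ := by
      intro k l
      rw [Matrix.sub_apply, hE]
      show ‖(if dist (a k) (b l) ≤ 6 * r then T k l else 0) - T k l‖ ≤
        1 / (6 * r) * ‖(a k - b l) * T k l‖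
      split_ifs with h
      · rw [sub_self, norm_zero]
        positivity
      · push Not at h
        rw [zero_sub, norm_neg, norm_mul, ← dist_eq_norm]
        have h6 : 0 < 6 * r := by linarith
        calc ‖T k l‖ = 1 / (6 * r) * ((6 * r) * ‖T k l‖) := by field_simp
          _ ≤ 1 / (6 * r) * (dist (a k) (b l) * ‖T k l‖) := by gcongr
    have h2 : ‖Uᴴ * (A - B) * V‖ = 1 := by
      rw [norm_mul_us hV, norm_us_mul (Us_star hU), hAB]
    refine opNorm_le_frob _ (by norm_num) ?_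
    calc ∑ i, ∑ j, ‖(X - T) i j‖ ^ 2
        ≤ ∑ i, ∑ j, (1 / (6 * r)) ^ 2 * ‖(Uᴴ * (A - B) * V) i j‖ ^ 2 := by
          refine Finset.sum_le_sum fun i _ => Finset.sum_le_sum fun j _ => ?_
          rw [← mul_pow]
          exact pow_le_pow_left₀ (norm_nonneg _) (h1 i j) 2
      _ = (1 / (6 * r)) ^ 2 * ∑ i, ∑ j, ‖(Uᴴ * (A - B) * V) i j‖ ^ 2 := by
          simp only [Finset.mul_sum]
      _ ≤ (1 / (6 * r)) ^ 2 * (n * 1 ^ 2) := by
          refine mul_le_mul_of_nonneg_left ?_ (by positivity)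
          have := frob_le (Uᴴ * (A - B) * V)
          rwa [h2] at this
      _ = (1 / 6) ^ 2 := by
          rw [← hrr]
          field_simp
  have h := core hn U V X a b hU hV (R := 6 * r) (by positivity) hX hTn
  rw [← ha, ← hb, hAB] at h
  refine h.mono ?_
  have h3 : 0 ≤ (n : ℝ) * r - r := by nlinarith
  nlinarith

end Pool.Agent.X204.NP
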