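import Pool.Agent.X204.NPE

/-!
# Schur multipliers
-/

set_option autoImplicit false

namespace Pool.Agent.X204.NP

open Matrix Set MeasureTheory FourierTransform
open scoped Matrix.Norms.L2Operator
open Pool.Agent.H173R2.HW (Us Us_right Us_star normal_diag)

/-- A function with compact support and an integrable Fourier transform with a first moment. -/
lemma exists_kernel : ∃ (ψ k : ℝ → ℂ), Continuous k ∧ Integrable k ∧
    Integrable (fun t => |t| * ‖k t‖) ∧
    (∀ x, ψ x = ∫ t, Complex.exp (((-2 * Real.pi * t * x : ℝ) : ℂ) * Complex.I) * k t) ∧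
    ψ 0 = 1 ∧ ∀ x, 1 ≤ |x| → ψ x = 0 := by
  let f : ContDiffBump (0 : ℝ) := ⟨1 / 2, 1, by norm_num, by norm_num⟩
  have h1 : HasCompactSupport (fun x : ℝ => ((f x : ℝ) : ℂ)) :=
    f.hasCompactSupport.comp_left (g := fun r : ℝ => (r : ℂ)) Complex.ofReal_zero
  have h2 : ContDiff ℝ (⊤ : ℕ∞) (fun x : ℝ => ((f x : ℝ) : ℂ)) :=
    Complex.ofRealCLM.contDiff.comp f.contDiff
  let g : SchwartzMap ℝ ℂ := h1.toSchwartzMap h2
  let k : SchwartzMap ℝ ℂ := 𝓕⁻ g
  have hk : 𝓕 k = g := FourierTransform.fourier_fourierInv_eq g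
  refine ⟨g, k, k.continuous, k.integrable, ?_, ?_, ?_, ?_⟩
  · have := k.integrable_pow_mul volume 1
    simpa using this
  · intro x
    rw [← hk, SchwartzMap.fourier_coe, Real.fourier_real_eq_integral_exp_smul]
    rfl
  · show ((f 0 : ℝ) : ℂ) = 1
    rw [f.one_of_mem_closedBall (by simp [f.rIn_pos.le])]
    simp
  · intro x hx
    show ((f x : ℝ) : ℂ) = 0
    rw [f.zero_of_le_dist (by rw [Real.dist_eq, sub_zero]; exact hx)]
    simp

variable {n : ℕ}

/-- Entry as a continuous linear map. -/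
noncomputable def entry (k l : Fin n) : Matrix (Fin n) (Fin n) ℂ →L[ℂ] ℂ :=
  LinearMap.toContinuousLinearMap (Matrix.entryLinearMap ℂ ℂ k l)

lemma entry_apply (k l : Fin n) (M : Matrix (Fin n) (Fin n) ℂ) : entry k l M = M k l := rfl

/-- The Schur product of `T` with the matrix `f (x i - y j)`. -/
noncomputable def had (f : ℝ → ℂ) (x y : Fin n → ℝ) (T : Matrix (Fin n) (Fin n) ℂ) :
    Matrix (Fin n) (Fin n) ℂ := Matrix.of fun i j => f (x i - y j) * T i j

lemma had_apply (f : ℝ → ℂ) (x y : Fin n → ℝ) (T : Matrix (Fin n) (Fin n) ℂ) (i j : Fin n) :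
    had f x y T i j = f (x i - y j) * T i j := rfl

/-- The conjugation by unitary diagonal matrices. -/
noncomputable def rot (x y : Fin n → ℝ) (M : Matrix (Fin n) (Fin n) ℂ) (t : ℝ) :
    Matrix (Fin n) (Fin n) ℂ := fun k l =>
  Complex.exp (((-2 * Real.pi * t * (x k - y l) : ℝ) : ℂ) * Complex.I) * M k l

lemma rot_eq (x y : Fin n → ℝ) (M : Matrix (Fin n) (Fin n) ℂ) (t : ℝ) :
    rot x y M t = diagonal (fun k => Complex.exp (((-2 * Real.pi * t * x k : ℝ) : ℂ) * Complex.I)) *
      M * diagonal (fun l => Complex.exp (((2 * Real.pi * t * y l : ℝ) : ℂ) * Complex.I)) := by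
  ext k l
  rw [mul_diagonal, diagonal_mul]
  show Complex.exp (((-2 * Real.pi * t * (x k - y l) : ℝ) : ℂ) * Complex.I) * M k l = _
  have : Complex.exp (((-2 * Real.pi * t * (x k - y l) : ℝ) : ℂ) * Complex.I) =
      Complex.exp (((-2 * Real.pi * t * x k : ℝ) : ℂ) * Complex.I) *
        Complex.exp (((2 * Real.pi * t * y l : ℝ) : ℂ) * Complex.I) := by
    rw [← Complex.exp_add]
    congr 1
    push_cast
    ring
  rw [this]
  ring

lemma norm_rot (x y : Fin n → ℝ) (M : Matrix (Fin n) (Fin n) ℂ) (t : ℝ) :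
    ‖rot x y M t‖ ≤ ‖M‖ := by
  rw [rot_eq]
  have h1 : ∀ v : Fin n → ℝ, ‖(diagonal (fun k => Complex.exp ((v k : ℂ) * Complex.I)) :
      Matrix (Fin n) (Fin n) ℂ)‖ ≤ 1 := fun v =>
    norm_diag_le zero_le_one fun i => by rw [Complex.norm_exp_ofReal_mul_I]
  refine (norm_mul_le _ _).trans ?_
  calc _ ≤ ‖diagonal (fun k => Complex.exp (((-2 * Real.pi * t * x k : ℝ) : ℂ) * Complex.I)) * M‖ *
        1 := mul_le_mul_of_nonneg_left (h1 _) (norm_nonneg _)
    _ ≤ ‖M‖ := by
        rw [mul_one]
        refine (norm_mul_le _ _).trans ?_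
        exact mul_le_of_le_one_left (norm_nonneg _) (h1 _)

lemma continuous_rot (x y : Fin n → ℝ) (M : Matrix (Fin n) (Fin n) ℂ) :
    Continuous (rot x y M) := by
  refine continuous_matrix fun k l => ?_
  show Continuous fun t : ℝ => Complex.exp (((-2 * Real.pi * t * (x k - y l) : ℝ) : ℂ) *
    Complex.I) * M k l
  fun_prop

/-- The Schur multiplier of a Fourier transform. -/
lemma schur_bound (x y : Fin n → ℝ) (M : Matrix (Fin n) (Fin n) ℂ) {ψ k : ℝ → ℂ}
    (hk : Continuous k) (hki : Integrable k)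
    (hψ : ∀ x, ψ x = ∫ t, Complex.exp (((-2 * Real.pi * t * x : ℝ) : ℂ) * Complex.I) * k t) :
    ‖had ψ x y M‖ ≤ (∫ t, ‖k t‖) * ‖M‖ := by
  have hint : Integrable (fun t => k t • rot x y M t) := by
    refine Integrable.mono' (g := fun t => ‖k t‖ * ‖M‖) (hki.norm.mul_const _)
      (hk.smul (continuous_rot x y M)).aestronglyMeasurable ?_
    refine Filter.Eventually.of_forall fun t => ?_
    rw [norm_smul]
    exact mul_le_mul_of_nonneg_left (norm_rot x y M t) (norm_nonneg _)
  have he : had ψ x y M = ∫ t, k t • rot x y M t := by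
    ext i j
    rw [had_apply, ← entry_apply i j (∫ t, k t • rot x y M t), ← (entry i j).integral_comp_comm hint, hψ,
      ← integral_mul_const]
    refine integral_congr_ae (Filter.Eventually.of_forall fun t => ?_)
    show Complex.exp (((-2 * Real.pi * t * (x i - y j) : ℝ) : ℂ) * Complex.I) * k t * M i j =
      entry i j (k t • rot x y M t)
    rw [map_smul, entry_apply]
    show _ = k t * (Complex.exp (((-2 * Real.pi * t * (x i - y j) : ℝ) : ℂ) * Complex.I) * M i j)
    ring
  rw [he]
  calc ‖∫ t, k t • rot x y M t‖ ≤ ∫ t, ‖k t‖ * ‖M‖ := by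
        refine norm_integral_le_of_norm_le (hki.norm.mul_const _)
          (Filter.Eventually.of_forall fun t => ?_)
        rw [norm_smul]
        exact mul_le_mul_of_nonneg_left (norm_rot x y M t) (norm_nonneg _)
    _ = (∫ t, ‖k t‖) * ‖M‖ := integral_mul_const _ _

/-- The rotated matrix is near the original one. -/
lemma sub_rot (x y : Fin n → ℝ) (T : Matrix (Fin n) (Fin n) ℂ) (t : ℝ) :
    ‖T - rot x y T t‖ ≤ |t| * (2 * Real.pi * ‖had (fun r => (r : ℂ)) x y T‖) := by
  set D : Matrix (Fin n) (Fin n) ℂ := had (fun r => (r : ℂ)) x y T with hD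
  set G : ℝ → Matrix (Fin n) (Fin n) ℂ := fun s =>
    ((2 * Real.pi : ℝ) * Complex.I) • rot x y D s with hG
  have hGc : Continuous G := by
    exact Continuous.smul (continuous_const (y := (((2 * Real.pi : ℝ) : ℂ) * Complex.I)))
      (continuous_rot x y D)
  have he : T - rot x y T t = ∫ s in (0 : ℝ)..t, G s := by
    ext i j
    rw [← entry_apply i j (∫ s in (0 : ℝ)..t, G s),
      ← (entry i j).intervalIntegral_comp_comm (hGc.intervalIntegrable 0 t)]
    have h1 : ∀ s : ℝ, entry i j (G s) = ((2 * Real.pi : ℝ) * Complex.I) *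
        (Complex.exp (((-2 * Real.pi * s * (x i - y j) : ℝ) : ℂ) * Complex.I) *
          (((x i - y j : ℝ) : ℂ) * T i j)) := fun s => rfl
    have h2 : ∀ s : ℝ, HasDerivAt (fun s : ℝ => -(Complex.exp (((-2 * Real.pi * s *
        (x i - y j) : ℝ) : ℂ) * Complex.I) * T i j)) (entry i j (G s)) s := by
      intro s
      have e1 : HasDerivAt (fun s : ℝ => (((-2 * Real.pi * s * (x i - y j) : ℝ) : ℂ) *
          Complex.I)) (((-2 * Real.pi * (x i - y j) : ℝ) : ℂ) * Complex.I) s := by
        have e2 : HasDerivAt (fun s : ℝ => (-2 * Real.pi * s * (x i - y j) : ℝ))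
            (-2 * Real.pi * (x i - y j)) s := by
          have := ((hasDerivAt_id s).const_mul (-2 * Real.pi)).mul_const (x i - y j)
          simpa using this
        exact e2.ofReal_comp.mul_const _
      have e3 := (e1.cexp.mul_const (T i j)).neg
      have e4 : entry i j (G s) = -(Complex.exp (((-2 * Real.pi * s * (x i - y j) : ℝ) : ℂ) *
          Complex.I) * (((-2 * Real.pi * (x i - y j) : ℝ) : ℂ) * Complex.I) * T i j) := by
        rw [h1]
        push_cast
        ring
      rw [e4]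
      exact e3
    have h3 := intervalIntegral.integral_eq_sub_of_hasDerivAt (fun s _ => h2 s)
      (((entry i j).continuous.comp hGc).intervalIntegrable 0 t)
    rw [h3, Matrix.sub_apply]
    show T i j - Complex.exp (((-2 * Real.pi * t * (x i - y j) : ℝ) : ℂ) * Complex.I) * T i j = _
    simp
    ring
  rw [he]
  have hb : ∀ s ∈ Set.uIoc 0 t, ‖G s‖ ≤ 2 * Real.pi * ‖D‖ := by
    intro s _
    rw [hG]
    show ‖((2 * Real.pi : ℝ) * Complex.I) • rot x y D s‖ ≤ _
    rw [norm_smul, norm_mul, Complex.norm_I, mul_one, Complex.norm_real, Real.norm_eq_abs,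
      abs_of_nonneg (by positivity)]
    exact mul_le_mul_of_nonneg_left (norm_rot x y D s) (by positivity)
  have := intervalIntegral.norm_integral_le_of_norm_le_const hb
  rw [sub_zero] at this
  linarith

lemma schur_sub (x y : Fin n → ℝ) (T : Matrix (Fin n) (Fin n) ℂ) {ψ k : ℝ → ℂ}
    (hk : Continuous k) (hki : Integrable k) (hk1 : Integrable (fun t => |t| * ‖k t‖))
    (hψ : ∀ x, ψ x = ∫ t, Complex.exp (((-2 * Real.pi * t * x : ℝ) : ℂ) * Complex.I) * k t)
    (hψ0 : ψ 0 = 1) :
    ‖T - had ψ x y T‖ ≤ (2 * Real.pi * ∫ t, |t| * ‖k t‖) * ‖had (fun r => (r : ℂ)) x y T‖ := by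
  set D : Matrix (Fin n) (Fin n) ℂ := had (fun r => (r : ℂ)) x y T with hD
  have hk0 : ∫ t, k t = 1 := by
    rw [← hψ0, hψ]
    refine integral_congr_ae (Filter.Eventually.of_forall fun t => ?_)
    simp
  have hb : ∀ t, ‖k t • (T - rot x y T t)‖ ≤ (|t| * ‖k t‖) * (2 * Real.pi * ‖D‖) := by
    intro t
    rw [norm_smul]
    calc ‖k t‖ * ‖T - rot x y T t‖ ≤ ‖k t‖ * (|t| * (2 * Real.pi * ‖D‖)) :=
          mul_le_mul_of_nonneg_left (sub_rot x y T t) (norm_nonneg _)
      _ = _ := by ring
  have hint : Integrable (fun t => k t • (T - rot x y T t)) := by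
    refine Integrable.mono' (g := fun t => (|t| * ‖k t‖) * (2 * Real.pi * ‖D‖))
      (hk1.mul_const _)
      (hk.smul (continuous_const.sub (continuous_rot x y T))).aestronglyMeasurable ?_
    exact Filter.Eventually.of_forall hb
  have he : T - had ψ x y T = ∫ t, k t • (T - rot x y T t) := by
    ext i j
    rw [Matrix.sub_apply, had_apply, ← entry_apply i j (∫ t, k t • (T - rot x y T t)), ← (entry i j).integral_comp_comm hint]
    have h1 : ∀ t, entry i j (k t • (T - rot x y T t)) = k t * T i j -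
        Complex.exp (((-2 * Real.pi * t * (x i - y j) : ℝ) : ℂ) * Complex.I) * k t * T i j := by
      intro t
      rw [map_smul, map_sub, entry_apply, entry_apply]
      show k t * (T i j - Complex.exp (((-2 * Real.pi * t * (x i - y j) : ℝ) : ℂ) *
        Complex.I) * T i j) = _
      ring
    have h2 : Integrable (fun t => Complex.exp (((-2 * Real.pi * t * (x i - y j) : ℝ) : ℂ) *
        Complex.I) * k t * T i j) := by
      refine Integrable.mul_const ?_ _
      refine Integrable.mono' hki.norm (Continuous.aestronglyMeasurable ?_)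
        (Filter.Eventually.of_forall fun t => ?_)
      · exact (by fun_prop : Continuous fun t : ℝ => Complex.exp (((-2 * Real.pi * t *
          (x i - y j) : ℝ) : ℂ) * Complex.I)).mul hk
      · rw [norm_mul, Complex.norm_exp_ofReal_mul_I, one_mul]
    simp_rw [h1]
    rw [integral_sub (hki.mul_const _) h2, integral_mul_const, integral_mul_const, hk0, ← hψ,
      one_mul]
  rw [he]
  calc ‖∫ t, k t • (T - rot x y T t)‖ ≤ ∫ t, (|t| * ‖k t‖) * (2 * Real.pi * ‖D‖) :=
        norm_integral_le_of_norm_le (hk1.mul_const _) (Filter.Eventually.of_forall hb)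
    _ = (∫ t, |t| * ‖k t‖) * (2 * Real.pi * ‖D‖) := integral_mul_const _ _
    _ = _ := by ring

end Pool.Agent.X204.NP
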