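import Pool.Agent.X204.NPF

/-!
# The linear bound
-/

set_option autoImplicit false

namespace Pool.Agent.X204.NP

open Matrix Set MeasureTheory
open scoped Matrix.Norms.L2Operator
open Pool.Agent.H173R2.HW (Us Us_right Us_star normal_diag)

variable {n : ℕ}

lemma E_eq {U V : Matrix (Fin n) (Fin n) ℂ} (hU : U ∈ Us n) (hV : V ∈ Us n) (a b : Fin n → ℂ)
    (k l : Fin n) :
    (Uᴴ * (U * diagonal a * Uᴴ - V * diagonal b * Vᴴ) * V) k l = (a k - b l) * (Uᴴ * V) k l := by
  have e1 : Uᴴ * (U * diagonal a * Uᴴ - V * diagonal b * Vᴴ) * V =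
      diagonal a * (Uᴴ * V) - (Uᴴ * V) * diagonal b := by
    rw [Matrix.mul_sub, Matrix.sub_mul]
    congr 1
    · calc Uᴴ * (U * diagonal a * Uᴴ) * V = (Uᴴ * U) * diagonal a * (Uᴴ * V) := by
            simp only [Matrix.mul_assoc]
        _ = diagonal a * (Uᴴ * V) := by rw [show Uᴴ * U = 1 from hU, Matrix.one_mul]
    · calc Uᴴ * (V * diagonal b * Vᴴ) * V = (Uᴴ * V) * diagonal b * (Vᴴ * V) := by
            simp only [Matrix.mul_assoc]
        _ = Uᴴ * V * diagonal b := by rw [show Vᴴ * V = 1 from hV, Matrix.mul_one]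
  rw [e1, Matrix.sub_apply, diagonal_mul, mul_diagonal]
  ring

lemma had_sub (f : ℝ → ℂ) (x y : Fin n → ℝ) (S T : Matrix (Fin n) (Fin n) ℂ) :
    had f x y (S - T) = had f x y S - had f x y T := by
  ext i j
  rw [Matrix.sub_apply, had_apply, had_apply, had_apply, Matrix.sub_apply, mul_sub]

theorem linear_bound : ∃ C : ℝ, ∀ (n : ℕ), 1 ≤ n → ∀ A B : Matrix (Fin n) (Fin n) ℂ,
    IsStarNormal A → IsStarNormal B → ‖A - B‖ = 1 → Join IsStarNormal A B (C * n) := by
  obtain ⟨ψ, k, hk, hki, hk1, hψ, hψ0, hψ1⟩ := exists_kernel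
  set κ : ℝ := ∫ t, ‖k t‖ with hκ
  set c : ℝ := 2 * Real.pi * ∫ t, |t| * ‖k t‖ with hc
  have hκ0 : 0 ≤ κ := integral_nonneg fun t => norm_nonneg _
  have hc0 : 0 ≤ c := by
    have : 0 ≤ ∫ t, |t| * ‖k t‖ := integral_nonneg fun t => by positivity
    positivity
  set R : ℝ := 6 * (1 + κ) * c + 1 with hR
  have hR1 : 1 ≤ R := by
    have : 0 ≤ 6 * (1 + κ) * c := by positivity
    linarith
  have hR0 : 0 < R := by linarith
  refine ⟨4 * (2 * R) * (1 + 317 / 100) + 317 / 100, ?_⟩
  intro n hn A B hA hB hAB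
  obtain ⟨U, hU, a, ha⟩ := normal_diag A hA.star_comm_self
  obtain ⟨V, hV, b, hb⟩ := normal_diag B hB.star_comm_self
  have hn1 : (1 : ℝ) ≤ n := by exact_mod_cast hn
  set T := Uᴴ * V with hT
  have hTn : ‖Uᴴ * (A - B) * V‖ = 1 := by rw [norm_mul_us hV, norm_us_mul (Us_star hU), hAB]
  have hTn' : ‖Uᴴ * (A - B)ᴴ * V‖ = 1 := by
    rw [norm_mul_us hV, norm_us_mul (Us_star hU), l2_opNorm_conjTranspose, hAB]
  have hE : ∀ i j, (Uᴴ * (A - B) * V) i j = (a i - b j) * T i j := by
    intro i j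
    rw [ha, hb]
    exact E_eq hU hV a b i j
  have hE' : ∀ i j, (Uᴴ * (A - B)ᴴ * V) i j = (star (a i) - star (b j)) * T i j := by
    intro i j
    have : (A - B)ᴴ = U * diagonal (star a) * Uᴴ - V * diagonal (star b) * Vᴴ := by
      rw [ha, hb, conjTranspose_sub, conjTranspose_mul, conjTranspose_mul, conjTranspose_mul,
        conjTranspose_mul, conjTranspose_conjTranspose, conjTranspose_conjTranspose,
        diagonal_conjTranspose, diagonal_conjTranspose, Matrix.mul_assoc, Matrix.mul_assoc]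
    rw [this]
    exact E_eq hU hV (star a) (star b) i j
  -- the real and imaginary parts
  have hre : ‖had (fun r => (r : ℂ)) (fun i => (a i).re / R) (fun j => (b j).re / R) T‖ ≤ 1 / R := by
    have e1 : had (fun r => (r : ℂ)) (fun i => (a i).re / R) (fun j => (b j).re / R) T =
        (((1 / R : ℝ) : ℂ) * (1 / 2)) • (Uᴴ * (A - B) * V + Uᴴ * (A - B)ᴴ * V) := by
      ext i j
      rw [had_apply, Matrix.smul_apply, Matrix.add_apply, hE, hE', smul_eq_mul, ← add_mul,
        ← mul_assoc]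
      congr 1
      apply Complex.ext
      · simp; field_simp; ring
      · simp
    rw [e1, norm_smul, norm_mul, Complex.norm_real, Real.norm_eq_abs,
      abs_of_pos (by positivity : (0 : ℝ) < 1 / R)]
    have e2 := norm_add_le (Uᴴ * (A - B) * V) (Uᴴ * (A - B)ᴴ * V)
    rw [hTn, hTn'] at e2
    have e3 : ‖(1 / 2 : ℂ)‖ = 1 / 2 := by norm_num
    rw [e3]
    have e4 : 0 < 1 / R := by positivity
    nlinarith
  have him : ‖had (fun r => (r : ℂ)) (fun i => (a i).im / R) (fun j => (b j).im / R) T‖ ≤ 1 / R := by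
    have e1 : had (fun r => (r : ℂ)) (fun i => (a i).im / R) (fun j => (b j).im / R) T =
        (((1 / R : ℝ) : ℂ) * (-(Complex.I / 2))) •
          (Uᴴ * (A - B) * V - Uᴴ * (A - B)ᴴ * V) := by
      ext i j
      rw [had_apply, Matrix.smul_apply, Matrix.sub_apply, hE, hE', smul_eq_mul, ← sub_mul,
        ← mul_assoc]
      congr 1
      apply Complex.ext
      · simp; field_simp; ring
      · simp
    rw [e1, norm_smul, norm_mul, Complex.norm_real, Real.norm_eq_abs,
      abs_of_pos (by positivity : (0 : ℝ) < 1 / R)]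
    have e2 := norm_sub_le (Uᴴ * (A - B) * V) (Uᴴ * (A - B)ᴴ * V)
    rw [hTn, hTn'] at e2
    have e3 : ‖-(Complex.I / 2)‖ = 1 / 2 := by
      rw [norm_neg, norm_div, Complex.norm_I]; norm_num
    rw [e3]
    have e4 : 0 < 1 / R := by positivity
    nlinarith
  set X := had ψ (fun i => (a i).re / R) (fun j => (b j).re / R)
    (had ψ (fun i => (a i).im / R) (fun j => (b j).im / R) T) with hX
  have hXT : ‖X - T‖ ≤ 1 / 6 := by
    have s1 := schur_sub (fun i => (a i).re / R) (fun j => (b j).re / R) T hk hki hk1 hψ hψ0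
    have s2 := schur_sub (fun i => (a i).im / R) (fun j => (b j).im / R) T hk hki hk1 hψ hψ0
    have s3 := schur_bound (fun i => (a i).re / R) (fun j => (b j).re / R)
      (T - had ψ (fun i => (a i).im / R) (fun j => (b j).im / R) T) hk hki hψ
    rw [had_sub] at s3
    have e1 : T - X = (T - had ψ (fun i => (a i).re / R) (fun j => (b j).re / R) T) +
        (had ψ (fun i => (a i).re / R) (fun j => (b j).re / R) T - X) := by abel
    rw [norm_sub_rev, e1]
    refine (norm_add_le _ _).trans ?_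
    have t1 : c * ‖had (fun r => (r : ℂ)) (fun i => (a i).re / R) (fun j => (b j).re / R) T‖ ≤
        c * (1 / R) := mul_le_mul_of_nonneg_left hre hc0
    have t2 : c * ‖had (fun r => (r : ℂ)) (fun i => (a i).im / R) (fun j => (b j).im / R) T‖ ≤
        c * (1 / R) := mul_le_mul_of_nonneg_left him hc0
    have t3 : κ * ‖T - had ψ (fun i => (a i).im / R) (fun j => (b j).im / R) T‖ ≤
        κ * (c * (1 / R)) := mul_le_mul_of_nonneg_left (s2.trans t2) hκ0
    have t4 : c * (1 / R) + κ * (c * (1 / R)) ≤ 1 / 6 := by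
      have : c * (1 / R) + κ * (c * (1 / R)) = (1 + κ) * c / R := by field_simp
      rw [this, div_le_iff₀ hR0]
      linarith
    linarith [s1.trans t1, s3.trans t3]
  have hX1 : ∀ i j, X i j ≠ 0 → dist (a i) (b j) ≤ 2 * R := by
    intro i j h
    rw [hX, had_apply, had_apply] at h
    have h1 : ψ ((a i).re / R - (b j).re / R) ≠ 0 := fun h0 => h (by rw [h0, zero_mul])
    have h2 : ψ ((a i).im / R - (b j).im / R) ≠ 0 := fun h0 => h (by rw [h0, zero_mul, mul_zero])
    have h3 : |(a i).re / R - (b j).re / R| < 1 := by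
      by_contra hc
      exact h1 (hψ1 _ (not_lt.1 hc))
    have h4 : |(a i).im / R - (b j).im / R| < 1 := by
      by_contra hc
      exact h2 (hψ1 _ (not_lt.1 hc))
    rw [← sub_div, abs_div, abs_of_pos hR0, div_lt_one hR0] at h3 h4
    rw [dist_eq_norm]
    have h5 := Complex.norm_le_abs_re_add_abs_im (a i - b j)
    rw [Complex.sub_re, Complex.sub_im] at h5
    linarith
  have h := core hn U V X a b hU hV (R := 2 * R) (by positivity) hX1 hXT
  rw [← ha, ← hb, hAB] at h
  refine h.mono ?_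
  nlinarith

end Pool.Agent.X204.NP
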