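import Mathlib

/-!
# Extremal systems of vectors and functionals: rigidity and packing
-/

set_option autoImplicit false

open Finset Module

namespace Pool.Agent.X204.NQ

variable {X : Type*} [NormedAddCommGroup X] [NormedSpace ℝ X]

/-- Vectors and functionals of norm at most one with `g i (x i) = 1`, `g i (x j) = -1`. -/
structure Sys (n : ℕ) (x : Fin n → X) (g : Fin n → X →L[ℝ] ℝ) : Prop where
  hx : ∀ j, ‖x j‖ ≤ 1
  hg : ∀ i, ‖g i‖ ≤ 1
  hgx : ∀ i j, g i (x j) = if i = j then 1 else -1

variable {n : ℕ}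

lemma Sys.apply_sum {x : Fin n → X} {g : Fin n → X →L[ℝ] ℝ} (h : Sys n x g) (c : Fin n → ℝ)
    (i : Fin n) : g i (∑ k, c k • x k) = 2 * c i - ∑ k, c k := by
  rw [map_sum]
  have h1 : ∀ k, g i (c k • x k) = (if i = k then 2 * c k else 0) - c k := by
    intro k
    rw [map_smul, h.hgx, smul_eq_mul]
    split_ifs <;> ring
  simp_rw [h1]
  rw [sum_sub_distrib, sum_ite_eq]
  simp

lemma Sys.linInd {x : Fin n → X} {g : Fin n → X →L[ℝ] ℝ} (h : Sys n x g) (hn : 3 ≤ n) :
    LinearIndependent ℝ x := by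
  rw [Fintype.linearIndependent_iff]
  intro c hc i
  have h1 : ∀ i, 2 * c i - ∑ k, c k = 0 := by
    intro i
    rw [← h.apply_sum c i, hc, map_zero]
  have h2 : ∑ i, (2 * c i - ∑ k, c k) = 0 := sum_eq_zero fun i _ => h1 i
  rw [sum_sub_distrib, ← mul_sum, sum_const, card_univ, Fintype.card_fin, nsmul_eq_mul] at h2
  have hn3 : (3 : ℝ) ≤ n := by exact_mod_cast hn
  have h3 : (2 - (n : ℝ)) * ∑ k, c k = 0 := by linarith
  have h4 : ∑ k, c k = 0 := by
    rcases mul_eq_zero.1 h3 with h | h
    · linarith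
    · exact h
  have := h1 i
  linarith

lemma Sys.exists_coeff {x : Fin n → X} {g : Fin n → X →L[ℝ] ℝ} (h : Sys n x g) (hn : 3 ≤ n)
    (hX : finrank ℝ X = n) (v : X) : ∃ c : Fin n → ℝ, ∑ k, c k • x k = v := by
  haveI : FiniteDimensional ℝ X := Module.finite_of_finrank_pos (by omega)
  have h1 : Submodule.span ℝ (Set.range x) = ⊤ :=
    (h.linInd hn).span_eq_top_of_card_eq_finrank' (by rw [Fintype.card_fin, hX])
  have h2 : v ∈ Submodule.span ℝ (Set.range x) := by rw [h1]; trivial
  exact (Submodule.mem_span_range_iff_exists_fun ℝ).1 h2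

lemma abs_le_one_of {g : X →L[ℝ] ℝ} {x : X} (hg : ‖g‖ ≤ 1) (hx : ‖x‖ ≤ 1) : |g x| ≤ 1 := by
  have h1 := g.le_opNorm x
  rw [Real.norm_eq_abs] at h1
  calc |g x| ≤ ‖g‖ * ‖x‖ := h1
    _ ≤ 1 * 1 := mul_le_mul hg hx (norm_nonneg _) zero_le_one
    _ = 1 := one_mul 1

/-- Two systems whose vectors are close have the same functionals. -/
theorem rigid {x x' : Fin n → X} {g g' : Fin n → X →L[ℝ] ℝ} (h : Sys n x g) (h' : Sys n x' g')
    (hn : 3 ≤ n) (hX : finrank ℝ X = n) {δ : ℝ} (hδ : n * δ < 1)
    (hd : ∀ j, ‖x' j - x j‖ ≤ δ) : g' = g := by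
  have hn3 : (3 : ℝ) ≤ n := by exact_mod_cast hn
  have hA := fun j => h.exists_coeff hn hX (x' j)
  choose A hA using hA
  -- A j k : coefficient of x k in x' j
  set G : Fin n → Fin n → ℝ := fun i j => if i = j then 1 else -1 with hG
  have hGabs : ∀ i j, G i j = 1 ∨ G i j = -1 := by
    intro i j
    show (if i = j then (1 : ℝ) else -1) = 1 ∨ (if i = j then (1 : ℝ) else -1) = -1
    split_ifs <;> simp
  set H : Fin n → Fin n → ℝ := fun i j => g i (x' j) - G i j with hH
  set H' : Fin n → Fin n → ℝ := fun i j => g' i (x j) - G i j with hH'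
  set e : Fin n → Fin n → ℝ := fun k j => A j k - (if k = j then 1 else 0) with he
  have hM : ∀ i j, g i (x' j) = 2 * A j i - ∑ k, A j k := by
    intro i j
    rw [← hA j, h.apply_sum]
  have hHe : ∀ i j, H i j = 2 * e i j - ∑ k, e k j := by
    intro i j
    show g i (x' j) - (if i = j then (1 : ℝ) else -1) =
      2 * (A j i - (if i = j then 1 else 0)) - ∑ k, (A j k - (if k = j then 1 else 0))
    rw [hM, sum_sub_distrib]
    have : ∑ k : Fin n, (if k = j then (1 : ℝ) else 0) = 1 := by simp
    rw [this]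
    split_ifs <;> ring
  have hsumH : ∀ j, ∑ l, H l j = (2 - n) * ∑ k, e k j := by
    intro j
    simp_rw [hHe]
    rw [sum_sub_distrib, ← mul_sum, sum_const, card_univ, Fintype.card_fin, nsmul_eq_mul]
    ring
  have hHδ : ∀ i j, |H i j| ≤ δ := by
    intro i j
    have h1 : H i j = g i (x' j - x j) := by
      show g i (x' j) - (if i = j then (1 : ℝ) else -1) = _
      rw [map_sub, h.hgx]
    rw [h1]
    have h2 := (g i).le_opNorm (x' j - x j)
    rw [Real.norm_eq_abs] at h2
    calc |g i (x' j - x j)| ≤ ‖g i‖ * ‖x' j - x j‖ := h2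
      _ ≤ 1 * δ := mul_le_mul (h.hg i) (hd j) (norm_nonneg _) zero_le_one
      _ = δ := one_mul _
  have hed : ∀ k j, |e k j| ≤ δ := by
    intro k j
    have hn2 : (0 : ℝ) < n - 2 := by linarith
    have h1 : (n - 2) * (2 * e k j) = (n - 3) * H k j - ∑ l ∈ univ.erase k, H l j := by
      have h2 := hHe k j
      have h3 := hsumH j
      have h4 : ∑ l, H l j = H k j + ∑ l ∈ univ.erase k, H l j :=
        (add_sum_erase univ (fun l => H l j) (mem_univ k)).symm
      have h5 : 2 * e k j = H k j + ∑ l, e l j := by linarith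
      rw [h5]
      have h6 : (n - 2) * ∑ l, e l j = -(H k j + ∑ l ∈ univ.erase k, H l j) := by
        rw [← h4, h3]; ring
      linarith
    have h7 : |∑ l ∈ univ.erase k, H l j| ≤ (n - 1) * δ := by
      refine (abs_sum_le_sum_abs _ _).trans ?_
      calc ∑ l ∈ univ.erase k, |H l j| ≤ ∑ _l ∈ univ.erase k, δ := sum_le_sum fun l _ => hHδ l j
        _ = (n - 1) * δ := by
            rw [sum_const, card_erase_of_mem (mem_univ k), card_univ, Fintype.card_fin,
              nsmul_eq_mul, Nat.cast_sub (by omega)]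
            simp
    have h8 : |(n - 3) * H k j| ≤ (n - 3) * δ := by
      rw [abs_mul, abs_of_nonneg (by linarith : (0 : ℝ) ≤ n - 3)]
      exact mul_le_mul_of_nonneg_left (hHδ k j) (by linarith)
    have h9 : |(n - 2) * (2 * e k j)| ≤ (n - 2) * (2 * δ) := by
      rw [h1]
      refine (abs_sub _ _).trans ?_
      linarith
    rw [abs_mul, abs_of_pos hn2, abs_mul, abs_of_pos (by norm_num : (0 : ℝ) < 2)] at h9
    have := le_of_mul_le_mul_left h9 hn2
    linarith
  have hkey : ∀ i j, H i j + H' i j = -∑ k, H' i k * e k j := by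
    intro i j
    have h1 : g' i (x' j) = ∑ k, A j k * g' i (x k) := by
      rw [← hA j, map_sum]
      refine sum_congr rfl fun k _ => ?_
      rw [map_smul, smul_eq_mul]
    have h2 : g' i (x' j) = G i j := h'.hgx i j
    have h3 : ∀ k, A j k * g' i (x k) = (if k = j then 1 else 0) * g' i (x k) +
        (e k j * G i k + H' i k * e k j) := by
      intro k
      have e1 : A j k = (if k = j then 1 else 0) + e k j := by
        show A j k = (if k = j then 1 else 0) + (A j k - (if k = j then 1 else 0))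
        ring
      have e2 : g' i (x k) = G i k + H' i k := by
        show g' i (x k) = G i k + (g' i (x k) - G i k)
        ring
      rw [e1, add_mul]
      congr 1
      rw [e2]
      ring
    rw [h1] at h2
    simp_rw [h3] at h2
    rw [sum_add_distrib, sum_add_distrib] at h2
    have h4 : ∑ k, (if k = j then (1 : ℝ) else 0) * g' i (x k) = g' i (x j) := by simp
    have h5 : ∑ k, e k j * G i k = H i j := by
      rw [hHe]
      have : ∀ k, e k j * G i k = (if i = k then 2 * e k j else 0) - e k j := by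
        intro k
        show e k j * (if i = k then (1 : ℝ) else -1) = _
        split_ifs <;> ring
      simp_rw [this]
      rw [sum_sub_distrib, sum_ite_eq]
      simp
    rw [h4, h5] at h2
    show H i j + (g' i (x j) - G i j) = _
    linarith
  have habs : ∀ i j, |H i j| + |H' i j| ≤ |H i j + H' i j| := by
    intro i j
    have b1 : |g i (x' j)| ≤ 1 := abs_le_one_of (h.hg i) (h'.hx j)
    have b2 : |g' i (x j)| ≤ 1 := abs_le_one_of (h'.hg i) (h.hx j)
    have c1 := abs_le.1 b1
    have c2 := abs_le.1 b2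
    rcases hGabs i j with hc | hc
    · have d1 : H i j ≤ 0 := by show g i (x' j) - G i j ≤ 0; rw [hc]; linarith
      have d2 : H' i j ≤ 0 := by show g' i (x j) - G i j ≤ 0; rw [hc]; linarith
      rw [abs_of_nonpos d1, abs_of_nonpos d2, abs_of_nonpos (by linarith)]
      linarith
    · have d1 : 0 ≤ H i j := by show 0 ≤ g i (x' j) - G i j; rw [hc]; linarith
      have d2 : 0 ≤ H' i j := by show 0 ≤ g' i (x j) - G i j; rw [hc]; linarith
      rw [abs_of_nonneg d1, abs_of_nonneg d2, abs_of_nonneg (by linarith)]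
  have hzero : ∀ i j, H' i j = 0 := by
    intro i
    set s : ℝ := ∑ k, |H' i k| with hs
    have hs0 : 0 ≤ s := sum_nonneg fun k _ => abs_nonneg _
    have h1 : ∀ j, |H' i j| ≤ δ * s := by
      intro j
      have h2 := habs i j
      rw [hkey, abs_neg] at h2
      have h3 : |∑ k, H' i k * e k j| ≤ δ * s := by
        refine (abs_sum_le_sum_abs _ _).trans ?_
        rw [hs, mul_sum]
        refine sum_le_sum fun k _ => ?_
        rw [abs_mul, mul_comm]
        exact mul_le_mul_of_nonneg_right (hed k j) (abs_nonneg _)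
      have := abs_nonneg (H i j)
      linarith
    have h4 : s ≤ n * (δ * s) := by
      calc s = ∑ j, |H' i j| := hs
        _ ≤ ∑ _j : Fin n, δ * s := sum_le_sum fun j _ => h1 j
        _ = n * (δ * s) := by rw [sum_const, card_univ, Fintype.card_fin, nsmul_eq_mul]
    have h5 : s = 0 := by
      by_contra hne
      have hpos : 0 < s := lt_of_le_of_ne hs0 (Ne.symm hne)
      have : n * (δ * s) < s := by
        calc n * (δ * s) = (n * δ) * s := by ring
          _ < 1 * s := mul_lt_mul_of_pos_right hδ hpos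
          _ = s := one_mul s
      linarith
    intro j
    have h6 : |H' i j| ≤ 0 := by
      calc |H' i j| ≤ s := single_le_sum (f := fun k => |H' i k|) (fun k _ => abs_nonneg _) (mem_univ j)
        _ = 0 := h5
    exact abs_eq_zero.1 (le_antisymm h6 (abs_nonneg _))
  funext i
  ext v
  obtain ⟨c, rfl⟩ := h.exists_coeff hn hX v
  rw [map_sum, map_sum]
  refine sum_congr rfl fun k _ => ?_
  rw [map_smul, map_smul]
  congr 1
  have h1 := hzero i k
  have h2 : g' i (x k) - G i k = 0 := h1
  have h3 : g i (x k) = G i k := h.hgx i k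
  rw [h3]
  linarith

section Packing

open MeasureTheory Metric
open scoped ENNReal

variable {E : Type*} [NormedAddCommGroup E] [NormedSpace ℝ E] [FiniteDimensional ℝ E]

/-- A `1`-separated set in the ball of radius `r` has at most `(2 r + 1) ^ dim` points. -/
theorem card_le_of_separated (s : Finset E) {r : ℝ} (hr : 0 ≤ r) (hs : ∀ c ∈ s, ‖c‖ ≤ r)
    (h : ∀ c ∈ s, ∀ d ∈ s, c ≠ d → 1 ≤ ‖c - d‖) : (s.card : ℝ) ≤ (2 * r + 1) ^ finrank ℝ E := by
  borelize E
  let μ : Measure E := Measure.addHaar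
  let δ : ℝ := (1 : ℝ) / 2
  let ρ : ℝ := r + (1 : ℝ) / 2
  have ρpos : 0 < ρ := by positivity
  set A := ⋃ c ∈ s, ball (c : E) δ with hA
  have D : Set.Pairwise (s : Set E) (Function.onFun Disjoint fun c => ball (c : E) δ) := by
    rintro c hc d hd hcd
    apply ball_disjoint_ball
    rw [dist_eq_norm]
    have := h c hc d hd hcd
    show (1 : ℝ) / 2 + 1 / 2 ≤ _
    linarith
  have A_subset : A ⊆ ball (0 : E) ρ := by
    refine Set.iUnion₂_subset fun x hx => ?_
    apply ball_subset_ball'
    calc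
      δ + dist x 0 ≤ δ + r := by rw [dist_zero_right]; exact add_le_add le_rfl (hs x hx)
      _ = ρ := by show (1 : ℝ) / 2 + r = r + 1 / 2; ring
  have I :
    (s.card : ℝ≥0∞) * ENNReal.ofReal (δ ^ finrank ℝ E) * μ (ball 0 1) ≤
      ENNReal.ofReal (ρ ^ finrank ℝ E) * μ (ball 0 1) :=
    calc
      (s.card : ℝ≥0∞) * ENNReal.ofReal (δ ^ finrank ℝ E) * μ (ball 0 1) = μ A := by
        rw [hA, measure_biUnion_finset D fun c _ => measurableSet_ball]
        have I : 0 < δ := by norm_num [δ]
        simp only [μ.addHaar_ball_of_pos _ I]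
        simp only [Finset.sum_const, nsmul_eq_mul, mul_assoc]
      _ ≤ μ (ball (0 : E) ρ) := measure_mono A_subset
      _ = ENNReal.ofReal (ρ ^ finrank ℝ E) * μ (ball 0 1) := by
        simp only [μ.addHaar_ball_of_pos _ ρpos]
  have J : (s.card : ℝ≥0∞) * ENNReal.ofReal (δ ^ finrank ℝ E) ≤ ENNReal.ofReal (ρ ^ finrank ℝ E) :=
    (ENNReal.mul_le_mul_iff_left (measure_ball_pos _ _ zero_lt_one).ne' measure_ball_lt_top.ne).1 I
  have K := ENNReal.toReal_le_of_le_ofReal (pow_nonneg ρpos.le _) J
  rw [ENNReal.toReal_mul, ENNReal.toReal_natCast, ENNReal.toReal_ofReal (by positivity)] at K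
  have L : (2 * r + 1) ^ finrank ℝ E = ρ ^ finrank ℝ E / δ ^ finrank ℝ E := by
    rw [← div_pow]
    congr 1
    show 2 * r + 1 = (r + 1 / 2) / (1 / 2)
    ring
  rw [L, le_div_iff₀ (by positivity)]
  exact K

end Packing

end Pool.Agent.X204.NQ
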