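import Mathlib

/-!
# The convex hull of a compact set in finite dimension
-/

set_option autoImplicit false

open Finset Module

namespace Pool.Agent.X204.NQ

theorem compact_hull {E : Type*} [NormedAddCommGroup E] [NormedSpace ℝ E]
    [FiniteDimensional ℝ E] {S : Set E} (hS : IsCompact S) : IsCompact (convexHull ℝ S) := by
  classical
  rcases S.eq_empty_or_nonempty with rfl | ⟨s0, hs0⟩
  · rw [convexHull_empty]; exact isCompact_empty
  set N := finrank ℝ E + 1 with hN
  let K : Set ((Fin N → ℝ) × (Fin N → E)) := stdSimplex ℝ (Fin N) ×ˢ (Set.univ.pi fun _ => S)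
  have hK : IsCompact K := (isCompact_stdSimplex ℝ _).prod (isCompact_univ_pi fun _ => hS)
  let F : (Fin N → ℝ) × (Fin N → E) → E := fun q => ∑ i, q.1 i • q.2 i
  have hF : Continuous F := by
    show Continuous fun q : (Fin N → ℝ) × (Fin N → E) => ∑ i, q.1 i • q.2 i
    fun_prop
  have himg : F '' K = convexHull ℝ S := by
    apply Set.Subset.antisymm
    · rintro _ ⟨⟨w, p⟩, ⟨hw, hp⟩, rfl⟩
      refine (convex_convexHull ℝ S).sum_mem (fun i _ => hw.1 i) hw.2 fun i _ => ?_
      exact subset_convexHull ℝ S (hp i (Set.mem_univ i))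
    · intro x hx
      obtain ⟨ι, hι, z, w, hz, haff, hw0, hw1, hwz⟩ := eq_pos_convex_span_of_mem_convexHull hx
      have hcard : Fintype.card ι ≤ N :=
        haff.card_le_finrank_succ.trans (Nat.succ_le_succ (Submodule.finrank_le _))
      obtain ⟨e⟩ : Nonempty (ι ↪ Fin N) :=
        Function.Embedding.nonempty_of_card_le (by rw [Fintype.card_fin]; exact hcard)
      let w' : Fin N → ℝ := fun k => ∑ i, if e i = k then w i else 0
      let p' : Fin N → E := fun k => if h : ∃ i, e i = k then z h.choose else s0
      have hp' : ∀ i, p' (e i) = z i := by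
        intro i
        have h : ∃ j, e j = e i := ⟨i, rfl⟩
        show (if h : ∃ j, e j = e i then z h.choose else s0) = z i
        rw [dif_pos h]
        congr 1
        exact e.injective h.choose_spec
      refine ⟨(w', p'), ⟨⟨fun k => ?_, ?_⟩, fun k _ => ?_⟩, ?_⟩
      · exact sum_nonneg fun i _ => by split_ifs; exacts [(hw0 i).le, le_rfl]
      · show ∑ k, ∑ i, (if e i = k then w i else 0) = 1
        rw [sum_comm]
        simp_rw [sum_ite_eq]
        simpa using hw1
      · show (if h : ∃ i, e i = k then z h.choose else s0) ∈ S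
        split_ifs with h
        · exact hz ⟨_, rfl⟩
        · exact hs0
      · show ∑ k, (∑ i, (if e i = k then w i else 0)) • p' k = x
        simp_rw [sum_smul]
        rw [sum_comm]
        rw [← hwz]
        refine sum_congr rfl fun i _ => ?_
        rw [sum_eq_single (e i)]
        · rw [if_pos rfl, hp']
        · intro k _ hk
          rw [if_neg (Ne.symm hk), zero_smul]
        · intro h
          exact absurd (mem_univ _) h
  rw [← himg]
  exact hK.image hF

end Pool.Agent.X204.NQ
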