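import Pool.Agent.X204.NQB

/-!
# Minimal projections onto a hyperplane: the extremal pairs
-/

set_option autoImplicit false

open Finset Module

namespace Pool.Agent.X204.NQ

variable {X : Type*} [NormedAddCommGroup X] [NormedSpace ℝ X] [FiniteDimensional ℝ X]

/-- The projection onto the kernel of `f` along `z`, if `f z = 1`. -/
noncomputable def Q (f : X →L[ℝ] ℝ) (z : X) : X →L[ℝ] X :=
  ContinuousLinearMap.id ℝ X - f.smulRight z

lemma Q_apply (f : X →L[ℝ] ℝ) (z x : X) : Q f z x = x - f x • z := rfl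

lemma pair_le (f : X →L[ℝ] ℝ) (z : X) {g : X →L[ℝ] ℝ} {x : X} (hg : ‖g‖ ≤ 1) (hx : ‖x‖ ≤ 1) :
    g x - f x * g z ≤ ‖Q f z‖ := by
  have h1 : g x - f x * g z = g (Q f z x) := by
    rw [Q_apply, map_sub, map_smul, smul_eq_mul]
  rw [h1]
  calc g (Q f z x) ≤ ‖g (Q f z x)‖ := le_abs_self _
    _ ≤ ‖g‖ * ‖Q f z x‖ := g.le_opNorm _
    _ ≤ 1 * (‖Q f z‖ * ‖x‖) := mul_le_mul hg ((Q f z).le_opNorm x) (norm_nonneg _) zero_le_one
    _ ≤ 1 * (‖Q f z‖ * 1) := by gcongr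
    _ = ‖Q f z‖ := by ring

lemma exists_min (f : X →L[ℝ] ℝ) (u : X) (hu : f u = 1) :
    ∃ z, f z = 1 ∧ ∀ z', f z' = 1 → ‖Q f z‖ ≤ ‖Q f z'‖ := by
  have hf : f ≠ 0 := by rintro rfl; simp at hu
  have hf0 : 0 < ‖f‖ := norm_pos_iff.2 hf
  set ρ : ℝ := (1 + ‖Q f u‖) / ‖f‖ with hρ
  have hb : ∀ z, ‖Q f z‖ ≤ ‖Q f u‖ → ‖z‖ ≤ ρ := by
    intro z hz
    rw [hρ, le_div_iff₀ hf0]
    have h1 : f.smulRight z = ContinuousLinearMap.id ℝ X - Q f z := by
      rw [Q]; abel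
    have h2 : ‖f.smulRight z‖ = ‖f‖ * ‖z‖ := ContinuousLinearMap.norm_smulRight_apply f z
    have h3 : ‖f.smulRight z‖ ≤ 1 + ‖Q f z‖ := by
      rw [h1]
      refine (norm_sub_le _ _).trans ?_
      exact add_le_add ContinuousLinearMap.norm_id_le le_rfl
    rw [h2] at h3
    linarith
  have hc : Continuous fun z => ‖Q f z‖ := by
    have : Continuous fun z : X => f.smulRight z :=
      (ContinuousLinearMap.smulRightL ℝ X X f).continuous
    exact (continuous_const.sub this).norm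
  have hK : IsCompact (Metric.closedBall (0 : X) ρ ∩ {z | f z = 1}) :=
    (isCompact_closedBall _ _).inter_right (isClosed_eq f.continuous continuous_const)
  obtain ⟨z, hz, hmin⟩ := hK.exists_isMinOn ⟨u, by
    refine ⟨?_, hu⟩
    rw [mem_closedBall_zero_iff]
    exact hb u le_rfl⟩ hc.continuousOn
  refine ⟨z, hz.2, fun z' hz' => ?_⟩
  by_cases h : ‖Q f z'‖ ≤ ‖Q f u‖
  · exact hmin ⟨by rw [mem_closedBall_zero_iff]; exact hb z' h, hz'⟩
  · have h1 : ‖Q f z‖ ≤ ‖Q f u‖ := hmin ⟨by rw [mem_closedBall_zero_iff]; exact hb u le_rfl, hu⟩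
    exact h1.trans (not_le.1 h).le

/-- Continuous functionals on the dual are evaluations. -/
lemma exists_eval (L : (X →L[ℝ] ℝ) →L[ℝ] ℝ) : ∃ v : X, ∀ φ, L φ = φ v := by
  let L' : Dual ℝ (Dual ℝ X) :=
    (L : (X →L[ℝ] ℝ) →ₗ[ℝ] ℝ).comp (LinearMap.toContinuousLinearMap (𝕜 := ℝ) (E := X) (F' := ℝ)).toLinearMap
  refine ⟨(Module.evalEquiv ℝ X).symm L', fun φ => ?_⟩
  have h1 : Module.evalEquiv ℝ X ((Module.evalEquiv ℝ X).symm L') = L' :=
    (Module.evalEquiv ℝ X).apply_symm_apply L'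
  have h2 : L' (φ : X →ₗ[ℝ] ℝ) = (φ : X →ₗ[ℝ] ℝ) ((Module.evalEquiv ℝ X).symm L') := by
    conv_lhs => rw [← h1]
    rfl
  exact h2

/-- The set of the pairs. -/
def pairs (f : X →L[ℝ] ℝ) : Set (ℝ × (X →L[ℝ] ℝ)) :=
  {q | ∃ (g : X →L[ℝ] ℝ) (x : X), ‖g‖ ≤ 1 ∧ ‖x‖ ≤ 1 ∧ q = (g x, f x • g)}

lemma compact_pairs (f : X →L[ℝ] ℝ) : IsCompact (pairs f) := by
  have h1 : pairs f = (fun p : (X →L[ℝ] ℝ) × X => (p.1 p.2, f p.2 • p.1)) ''
      (Metric.closedBall 0 1 ×ˢ Metric.closedBall 0 1) := by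
    ext q
    constructor
    · rintro ⟨g, x, hg, hx, rfl⟩
      exact ⟨(g, x), ⟨by rwa [mem_closedBall_zero_iff], by rwa [mem_closedBall_zero_iff]⟩, rfl⟩
    · rintro ⟨⟨g, x⟩, ⟨hg, hx⟩, rfl⟩
      exact ⟨g, x, by rwa [mem_closedBall_zero_iff] at hg, by rwa [mem_closedBall_zero_iff] at hx,
        rfl⟩
  rw [h1]
  haveI : ProperSpace (X →L[ℝ] ℝ) := FiniteDimensional.proper ℝ _
  haveI : ProperSpace X := FiniteDimensional.proper ℝ _
  refine ((isCompact_closedBall _ _).prod (isCompact_closedBall _ _)).image ?_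
  have a1 : Continuous fun p : (X →L[ℝ] ℝ) × X => p.1 p.2 := by fun_prop
  have a2 : Continuous fun p : (X →L[ℝ] ℝ) × X => f p.2 • p.1 := by fun_prop
  exact a1.prodMk a2

/-- The duality: the minimal norm is attained by a measure on the pairs. -/
theorem duality (f : X →L[ℝ] ℝ) {z : X} (hz : f z = 1)
    (hmin : ∀ z', f z' = 1 → ‖Q f z‖ ≤ ‖Q f z'‖) :
    ∃ q ∈ convexHull ℝ (pairs f), (∀ y, f y = 0 → q.2 y = 0) ∧ ‖Q f z‖ ≤ q.1 - q.2 z := by
  by_contra hcon
  push Not at hcon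
  set D : Set (ℝ × (X →L[ℝ] ℝ)) := {q | (∀ y, f y = 0 → q.2 y = 0) ∧ ‖Q f z‖ ≤ q.1 - q.2 z}
    with hD
  have hDc : Convex ℝ D := by
    intro p hp q hq a b ha hb hab
    refine ⟨fun y hy => ?_, ?_⟩
    · show (a • p.2 + b • q.2) y = 0
      rw [ContinuousLinearMap.add_apply, ContinuousLinearMap.smul_apply,
        ContinuousLinearMap.smul_apply, hp.1 y hy, hq.1 y hy, smul_zero, smul_zero, add_zero]
    · show ‖Q f z‖ ≤ (a * p.1 + b * q.1) - (a • p.2 + b • q.2) z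
      rw [ContinuousLinearMap.add_apply, ContinuousLinearMap.smul_apply,
        ContinuousLinearMap.smul_apply, smul_eq_mul, smul_eq_mul]
      have h1 := mul_le_mul_of_nonneg_left hp.2 ha
      have h2 := mul_le_mul_of_nonneg_left hq.2 hb
      have h3 : ‖Q f z‖ = a * ‖Q f z‖ + b * ‖Q f z‖ := by rw [← add_mul, hab, one_mul]
      linarith
  have hDcl : IsClosed D := by
    have e1 : D = (⋂ (y : X) (_ : f y = 0), {q | q.2 y = 0}) ∩ {q | ‖Q f z‖ ≤ q.1 - q.2 z} := by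
      ext q
      simp [hD]
    rw [e1]
    refine IsClosed.inter ?_ ?_
    · refine isClosed_iInter fun y => isClosed_iInter fun _ => ?_
      exact isClosed_eq (by fun_prop) continuous_const
    · exact isClosed_le continuous_const (by fun_prop)
  have hdisj : Disjoint (convexHull ℝ (pairs f)) D := by
    rw [Set.disjoint_left]
    intro q hq hqD
    exact absurd hqD.2 (not_le.2 (hcon q hq hqD.1))
  obtain ⟨F, a, b, hFa, hab, hFb⟩ := geometric_hahn_banach_compact_closed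
    (convex_convexHull ℝ _) (compact_hull (compact_pairs f)) hDc hDcl hdisj
  set α : ℝ := F (1, 0) with hα
  obtain ⟨v0, hv0⟩ := exists_eval (F.comp (ContinuousLinearMap.inr ℝ ℝ (X →L[ℝ] ℝ)))
  have hF : ∀ (r : ℝ) (φ : X →L[ℝ] ℝ), F (r, φ) = α * r + φ v0 := by
    intro r φ
    have e1 : ((r, φ) : ℝ × (X →L[ℝ] ℝ)) = r • (1, 0) + (0, φ) := by simp
    rw [e1, map_add, map_smul, smul_eq_mul, mul_comm]
    have := hv0 φ
    rw [← this]
    rfl
  have hDm : ∀ c s : ℝ, 0 ≤ s → ((‖Q f z‖ + c + s, c • f) : ℝ × (X →L[ℝ] ℝ)) ∈ D := by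
    intro c s hs
    refine ⟨fun y hy => ?_, ?_⟩
    · show (c • f) y = 0
      rw [ContinuousLinearMap.smul_apply, hy, smul_zero]
    · show ‖Q f z‖ ≤ (‖Q f z‖ + c + s) - (c • f) z
      rw [ContinuousLinearMap.smul_apply, hz, smul_eq_mul]
      linarith
  have hDv : ∀ c s : ℝ, 0 ≤ s → b < α * ‖Q f z‖ + c * (α + f v0) + α * s := by
    intro c s hs
    have := hFb _ (hDm c s hs)
    rw [hF, ContinuousLinearMap.smul_apply, smul_eq_mul] at this
    linarith
  have h00 : ((0 : ℝ), (0 : X →L[ℝ] ℝ)) ∈ convexHull ℝ (pairs f) := by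
    refine subset_convexHull ℝ _ ⟨0, 0, by simp, by simp, ?_⟩
    simp
  have ha0 : 0 < a := by
    have := hFa _ h00
    rw [hF] at this
    simpa using this
  have hsum : α + f v0 = 0 := by
    by_contra hne
    have h1 := hDv ((b - α * ‖Q f z‖ - 1) / (α + f v0)) 0 le_rfl
    rw [div_mul_cancel₀ _ hne] at h1
    linarith
  have hα0 : 0 ≤ α := by
    by_contra hne
    push Not at hne
    have hlt : 0 < -α := by linarith
    have h1 := hDv 0 ((|b| + |α * ‖Q f z‖| + 1) / (-α)) (by positivity)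
    have hαne : α ≠ 0 := hne.ne
    have h2 : α * ((|b| + |α * ‖Q f z‖| + 1) / (-α)) = -(|b| + |α * ‖Q f z‖| + 1) := by
      generalize |b| + |α * ‖Q f z‖| + 1 = r
      rw [div_neg, mul_neg, mul_div_cancel₀ _ hαne]
    rw [h2] at h1
    have h3 := neg_abs_le b
    have h4 := le_abs_self (α * ‖Q f z‖)
    linarith
  have hα1 : 0 < α := by
    rcases hα0.eq_or_lt with h | h
    · exfalso
      have h1 := hDv 0 0 le_rfl
      rw [← h] at h1
      linarith
    · exact h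
  set z' : X := -(1 / α) • v0 with hz'
  have hfz' : f z' = 1 := by
    rw [hz', map_smul, smul_eq_mul]
    have : f v0 = -α := by linarith
    rw [this]
    field_simp
  have hbound : ∀ (g : X →L[ℝ] ℝ) (x : X), ‖g‖ ≤ 1 → ‖x‖ ≤ 1 → g x - f x * g z' ≤ a / α := by
    intro g x hg hx
    have h1 := hFa _ (subset_convexHull ℝ _ ⟨g, x, hg, hx, rfl⟩)
    rw [hF, ContinuousLinearMap.smul_apply, smul_eq_mul] at h1
    rw [le_div_iff₀ hα1, hz', map_smul, smul_eq_mul]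
    have h2 : (g x - f x * (-(1 / α) * g v0)) * α = α * g x + f x * g v0 := by
      field_simp
      ring
    rw [h2]
    exact h1.le
  have hQ : ‖Q f z'‖ ≤ a / α := by
    refine ContinuousLinearMap.opNorm_le_of_unit_norm (by positivity) fun x hx => ?_
    obtain ⟨g, hg, hgx⟩ := exists_dual_vector'' ℝ (Q f z' x)
    have h1 := hbound g x hg hx.le
    have h2 : g (Q f z' x) = g x - f x * g z' := by
      rw [Q_apply, map_sub, map_smul, smul_eq_mul]
    rw [← h2, hgx] at h1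
    exact h1
  have h1 := hDv 0 0 le_rfl
  have h2 : a / α < ‖Q f z‖ := by
    rw [div_lt_iff₀ hα1]
    linarith
  exact absurd (hmin z' hfz') (not_le.2 (lt_of_le_of_lt hQ h2))

end Pool.Agent.X204.NQ
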