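import Pool.Agent.X204.NQC

/-!
# The representation with at most `n` pairs
-/

set_option autoImplicit false

open Finset Module

namespace Pool.Agent.X204.NQ

variable {X : Type*} [NormedAddCommGroup X] [NormedSpace ℝ X] [FiniteDimensional ℝ X]

/-- The restrictions of the extremal pairs to the hyperplane. -/
def restr (f : X →L[ℝ] ℝ) (z : X) : Set (LinearMap.ker (f : X →ₗ[ℝ] ℝ) →L[ℝ] ℝ) :=
  {ψ | ∃ (g : X →L[ℝ] ℝ) (x : X), ‖g‖ ≤ 1 ∧ ‖x‖ ≤ 1 ∧ g x - f x * g z = ‖Q f z‖ ∧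
    ψ = (f x • g).comp (LinearMap.ker (f : X →ₗ[ℝ] ℝ)).subtypeL}

lemma zero_mem_restr (f : X →L[ℝ] ℝ) {z : X} (hz : f z = 1)
    (hmin : ∀ z', f z' = 1 → ‖Q f z‖ ≤ ‖Q f z'‖) : 0 ∈ convexHull ℝ (restr f z) := by
  obtain ⟨q, hq, hq1, hq2⟩ := duality f hz hmin
  obtain ⟨ι, hι, p, w, hp, -, hw0, hw1, hwp⟩ := eq_pos_convex_span_of_mem_convexHull hq
  have hp' : ∀ i, ∃ (g : X →L[ℝ] ℝ) (x : X), ‖g‖ ≤ 1 ∧ ‖x‖ ≤ 1 ∧ p i = (g x, f x • g) :=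
    fun i => hp ⟨i, rfl⟩
  choose g x hg hx hpi using hp'
  have e1 : q.1 = ∑ i, w i * g i (x i) := by
    rw [← hwp, Prod.fst_sum]
    refine sum_congr rfl fun i _ => ?_
    rw [hpi i]
    rfl
  have e2 : q.2 = ∑ i, w i • (f (x i) • g i) := by
    rw [← hwp, Prod.snd_sum]
    refine sum_congr rfl fun i _ => ?_
    rw [hpi i]
    rfl
  have e3 : q.2 z = ∑ i, w i * (f (x i) * g i z) := by
    rw [e2]
    simp
  have hv : ∀ i, g i (x i) - f (x i) * g i z ≤ ‖Q f z‖ := fun i => pair_le f z (hg i) (hx i)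
  have hsum : ∑ i, w i * (‖Q f z‖ - (g i (x i) - f (x i) * g i z)) ≤ 0 := by
    have e4 : ∑ i, w i * (‖Q f z‖ - (g i (x i) - f (x i) * g i z)) =
        ‖Q f z‖ - (q.1 - q.2 z) := by
      rw [e1, e3, ← sum_sub_distrib]
      simp_rw [mul_sub]
      rw [sum_sub_distrib, ← sum_mul, hw1, one_mul]
    rw [e4]
    linarith
  have hnn : ∀ i ∈ univ, 0 ≤ w i * (‖Q f z‖ - (g i (x i) - f (x i) * g i z)) := fun i _ =>
    mul_nonneg (hw0 i).le (by linarith [hv i])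
  have hz0 : ∀ i, w i * (‖Q f z‖ - (g i (x i) - f (x i) * g i z)) = 0 := fun i =>
    (sum_eq_zero_iff_of_nonneg hnn).1 (le_antisymm hsum (sum_nonneg hnn)) i (mem_univ i)
  have heq : ∀ i, g i (x i) - f (x i) * g i z = ‖Q f z‖ := by
    intro i
    rcases mul_eq_zero.1 (hz0 i) with h | h
    · exact absurd h (hw0 i).ne'
    · linarith
  have hzero : (0 : LinearMap.ker (f : X →ₗ[ℝ] ℝ) →L[ℝ] ℝ) =
      ∑ i, w i • ((f (x i) • g i).comp (LinearMap.ker (f : X →ₗ[ℝ] ℝ)).subtypeL) := by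
    ext y
    have h1 := hq1 y (LinearMap.mem_ker.1 y.2)
    rw [e2] at h1
    simp at h1 ⊢
    exact h1.symm
  rw [hzero]
  refine (convex_convexHull ℝ _).sum_mem (fun i _ => (hw0 i).le) hw1 fun i _ => ?_
  exact subset_convexHull ℝ _ ⟨g i, x i, hg i, hx i, heq i, rfl⟩

lemma finrank_dual_ker {n : ℕ} (hX : finrank ℝ X = n) (f : X →L[ℝ] ℝ) {z : X} (hz : f z = 1) :
    finrank ℝ (LinearMap.ker (f : X →ₗ[ℝ] ℝ) →L[ℝ] ℝ) + 1 = n := by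
  have h1 : finrank ℝ (LinearMap.ker (f : X →ₗ[ℝ] ℝ) →L[ℝ] ℝ) =
      finrank ℝ (LinearMap.ker (f : X →ₗ[ℝ] ℝ)) := by
    rw [← (LinearMap.toContinuousLinearMap (𝕜 := ℝ) (E := LinearMap.ker (f : X →ₗ[ℝ] ℝ))
      (F' := ℝ)).finrank_eq]
    exact Subspace.dual_finrank_eq
  have h2 := LinearMap.finrank_range_add_finrank_ker (f : X →ₗ[ℝ] ℝ)
  have h3 : LinearMap.range (f : X →ₗ[ℝ] ℝ) = ⊤ := by
    rw [LinearMap.range_eq_top]
    intro r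
    refine ⟨r • z, ?_⟩
    show f (r • z) = r
    rw [map_smul, hz, smul_eq_mul, mul_one]
  rw [h3, finrank_top, finrank_self, hX] at h2
  rw [h1]
  omega

theorem repr {n : ℕ} (hX : finrank ℝ X = n) (f : X →L[ℝ] ℝ) {z : X} (hz : f z = 1)
    (hmin : ∀ z', f z' = 1 → ‖Q f z‖ ≤ ‖Q f z'‖) :
    ∃ (m : ℕ) (w : Fin m → ℝ) (x : Fin m → X) (g : Fin m → X →L[ℝ] ℝ), m ≤ n ∧
      (∀ i, 0 < w i) ∧ ∑ i, w i = 1 ∧ (∀ i, ‖x i‖ ≤ 1) ∧ (∀ i, ‖g i‖ ≤ 1) ∧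
      (∀ i, 0 ≤ f (x i)) ∧ (∀ i, g i (x i) - f (x i) * g i z = ‖Q f z‖) ∧
      ∀ y, f y = 0 → ∑ i, w i * (f (x i) * g i y) = 0 := by
  classical
  obtain ⟨ι, hι, p, w, hp, haff, hw0, hw1, hwp⟩ :=
    eq_pos_convex_span_of_mem_convexHull (zero_mem_restr f hz hmin)
  have hcard : Fintype.card ι ≤ n := by
    rw [← finrank_dual_ker hX f hz]
    exact haff.card_le_finrank_succ.trans (Nat.succ_le_succ (Submodule.finrank_le _))
  have hp' : ∀ i, ∃ (g : X →L[ℝ] ℝ) (x : X), ‖g‖ ≤ 1 ∧ ‖x‖ ≤ 1 ∧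
      g x - f x * g z = ‖Q f z‖ ∧
      p i = (f x • g).comp (LinearMap.ker (f : X →ₗ[ℝ] ℝ)).subtypeL := fun i => hp ⟨i, rfl⟩
  choose g x hg hx hv hpi using hp'
  have hs : ∀ i, ∃ (g' : X →L[ℝ] ℝ) (x' : X), ‖g'‖ ≤ 1 ∧ ‖x'‖ ≤ 1 ∧ 0 ≤ f x' ∧
      g' x' - f x' * g' z = ‖Q f z‖ ∧ ∀ y, f x' * g' y = f (x i) * g i y := by
    intro i
    by_cases h : 0 ≤ f (x i)
    · exact ⟨g i, x i, hg i, hx i, h, hv i, fun _ => rfl⟩
    · refine ⟨-g i, -x i, by rw [norm_neg]; exact hg i, by rw [norm_neg]; exact hx i, ?_, ?_,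
        fun y => ?_⟩
      · rw [map_neg]; linarith
      · rw [← hv i]; simp
      · simp
  choose g' x' hg' hx' hf' hv' hy' using hs
  let e := Fintype.equivFin ι
  refine ⟨Fintype.card ι, fun k => w (e.symm k), fun k => x' (e.symm k), fun k => g' (e.symm k),
    hcard, fun k => hw0 _, ?_, fun k => hx' _, fun k => hg' _, fun k => hf' _, fun k => hv' _, ?_⟩
  · rw [← hw1]
    exact Equiv.sum_comp e.symm w
  · intro y hy
    have h1 : ∑ k, w (e.symm k) * (f (x' (e.symm k)) * g' (e.symm k) y) =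
        ∑ i, w i * (f (x' i) * g' i y) := Equiv.sum_comp e.symm
          (fun i => w i * (f (x' i) * g' i y))
    rw [h1]
    simp_rw [hy']
    have h2 : (∑ i, w i • p i) ⟨y, LinearMap.mem_ker.2 hy⟩ = 0 := by rw [hwp]; rfl
    simp_rw [hpi] at h2
    simpa using h2

end Pool.Agent.X204.NQ
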