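import Pool.Agent.X204.NQA
import Pool.Agent.X204.NQD

/-!
# The equality case of the bound `2 - 2 / n`
-/

set_option autoImplicit false

open Finset Module

namespace Pool.Agent.X204.NQ

/-- The scalar inequality behind the bound. -/
lemma scalar_le {n : ℝ} (hn : 3 ≤ n) {w : ℝ} (hw : 0 < w) :
    w / ((1 - 2 / n) + 2 * w) ≤ 1 / n + (1 - 2 / n) * (w - 1 / n) -
      2 * (1 - 2 / n) * (w - 1 / n) ^ 2 / ((1 - 2 / n) + 2 * w) := by
  have hn0 : 0 < n := by linarith
  have hγ : 0 < 1 - 2 / n := by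
    rw [sub_pos, div_lt_one hn0]; linarith
  have hd : 0 < (1 - 2 / n) + 2 * w := by linarith
  rw [div_le_iff₀ hd, sub_mul, div_mul_cancel₀ _ hd.ne']
  have : 1 / n * n = 1 := by field_simp
  set i : ℝ := 1 / n with hi
  have h2 : 2 / n = 2 * i := by rw [hi]; ring
  rw [h2]
  have : (i + (1 - 2 * i) * (w - i)) * (1 - 2 * i + 2 * w) - 2 * (1 - 2 * i) * (w - i) ^ 2 = w := by
    ring
  rw [this]

variable {X : Type*} [NormedAddCommGroup X] [NormedSpace ℝ X]

theorem equality_case {n : ℕ} (hn : 3 ≤ n) (f : X →L[ℝ] ℝ) {z : X} (hz : f z = 1)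
    (hΛ : 2 - 2 / (n : ℝ) ≤ ‖Q f z‖) {m : ℕ} (hmn : m ≤ n) (w : Fin m → ℝ) (x : Fin m → X)
    (g : Fin m → X →L[ℝ] ℝ) (hw0 : ∀ i, 0 < w i) (hw1 : ∑ i, w i = 1) (hx : ∀ i, ‖x i‖ ≤ 1)
    (hg : ∀ i, ‖g i‖ ≤ 1) (hf : ∀ i, 0 ≤ f (x i))
    (hv : ∀ i, g i (x i) - f (x i) * g i z = ‖Q f z‖)
    (hs : ∀ y, f y = 0 → ∑ i, w i * (f (x i) * g i y) = 0) :
    m = n ∧ (∀ i j, g i (x j) = if i = j then 1 else -1) ∧
      ∀ y, f y = 0 ↔ ∑ i, g i y = 0 := by
  have hn3 : (3 : ℝ) ≤ n := by exact_mod_cast hn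
  have hn0 : (0 : ℝ) < n := by linarith
  set γ : ℝ := 1 - 2 / (n : ℝ) with hγd
  have hγ : 0 < γ := by
    rw [hγd, sub_pos, div_lt_one hn0]; linarith
  set t : Fin m → ℝ := fun j => f (x j) with ht
  set p : Fin m → ℝ := fun j => g j (x j) with hp
  have hp1 : ∀ j, p j ≤ 1 := fun j => (abs_le.1 (abs_le_one_of (hg j) (hx j))).2
  set S : ℝ := ∑ j, w j * t j with hS
  set c : ℝ := ∑ i, w i * (t i * g i z) with hc
  set q : ℝ := ∑ i, w i * (1 - p i) with hq
  have hq0 : 0 ≤ q := sum_nonneg fun i _ => mul_nonneg (hw0 i).le (by linarith [hp1 i])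
  -- the functional
  have hfun : ∀ y, ∑ i, w i * (t i * g i y) = c * f y := by
    intro y
    have h1 := hs (y - f y • z) (by rw [map_sub, map_smul, hz, smul_eq_mul, mul_one, sub_self])
    have h2 : ∀ i, w i * (f (x i) * g i (y - f y • z)) =
        w i * (t i * g i y) - f y * (w i * (t i * g i z)) := by
      intro i
      show w i * (t i * g i (y - f y • z)) = _
      rw [map_sub, map_smul, smul_eq_mul]
      ring
    simp_rw [h2] at h1
    rw [sum_sub_distrib, ← mul_sum] at h1
    linarith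
  -- the norm
  have hΛeq : ‖Q f z‖ = (1 - q) - c := by
    have h1 : ‖Q f z‖ = ∑ i, w i * ‖Q f z‖ := by rw [← sum_mul, hw1, one_mul]
    rw [h1]
    have h2 : ∀ i, w i * ‖Q f z‖ = (w i - w i * (1 - p i)) - w i * (t i * g i z) := by
      intro i
      rw [← hv i]
      show w i * (p i - t i * g i z) = _
      ring
    simp_rw [h2]
    rw [sum_sub_distrib, sum_sub_distrib, hw1]
  have hcγ : γ + q ≤ -c := by
    have : (2 : ℝ) - 2 / n = 1 + γ := by rw [hγd]; ring
    linarith
  have hc0 : 0 < -c := by linarith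
  have ht0 : ∀ j, 0 ≤ t j := hf
  have hS0' : 0 ≤ S := sum_nonneg fun j _ => mul_nonneg (hw0 j).le (ht0 j)
  -- key inequality
  have hkey : ∀ j, t j * (-c + w j * (1 + p j)) ≤ S := by
    intro j
    have h1 := hfun (x j)
    have h2 : -(∑ i, w i * (t i * g i (x j))) ≤ S - w j * t j * (1 + p j) := by
      rw [hS, ← add_sum_erase univ (fun i => w i * (t i * g i (x j))) (mem_univ j),
        ← add_sum_erase univ (fun i => w i * t i) (mem_univ j)]
      have h3 : -(∑ i ∈ univ.erase j, w i * (t i * g i (x j))) ≤ ∑ i ∈ univ.erase j, w i * t i := by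
        rw [← sum_neg_distrib]
        refine sum_le_sum fun i _ => ?_
        have h4 := (abs_le.1 (abs_le_one_of (hg i) (hx j))).1
        have h5 : 0 ≤ w i * t i := mul_nonneg (hw0 i).le (ht0 i)
        nlinarith
      have h6 : w j * (t j * g j (x j)) = w j * t j * p j := by
        show w j * (t j * g j (x j)) = w j * t j * g j (x j)
        ring
      rw [h6]
      linarith
    have h7 : -(c * f (x j)) = t j * (-c) := by
      show -(c * t j) = _
      ring
    rw [h1, h7] at h2
    nlinarith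
  have hwq : ∀ j, w j * (1 - p j) ≤ q := fun j =>
    single_le_sum (f := fun i => w i * (1 - p i))
      (fun i _ => mul_nonneg (hw0 i).le (by linarith [hp1 i])) (mem_univ j)
  have hkey2 : ∀ j, t j * (γ + 2 * w j) ≤ S := by
    intro j
    have h1 := hkey j
    have h2 := hwq j
    have h3 : γ + 2 * w j ≤ -c + w j * (1 + p j) := by nlinarith
    exact (mul_le_mul_of_nonneg_left h3 (ht0 j)).trans h1
  have hS0 : 0 < S := by
    rcases hS0'.eq_or_lt with h | h
    · exfalso
      have h1 : ∀ j, w j * t j = 0 := fun j =>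
        (sum_eq_zero_iff_of_nonneg (fun j _ => mul_nonneg (hw0 j).le (ht0 j))).1 h.symm j (mem_univ j)
      have h2 : c = 0 := by
        rw [hc]
        refine sum_eq_zero fun i _ => ?_
        rw [← mul_assoc, h1 i, zero_mul]
      linarith
    · exact h
  have hd0 : ∀ j, 0 < γ + 2 * w j := fun j => by linarith [hw0 j]
  have htd : ∀ j, t j ≤ S / (γ + 2 * w j) := fun j => by
    rw [le_div_iff₀ (hd0 j)]; exact hkey2 j
  -- the sum
  have h1le : 1 ≤ ∑ j, w j / (γ + 2 * w j) := by
    have h1 : S ≤ ∑ j, w j * (S / (γ + 2 * w j)) := by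
      conv_lhs => rw [hS]
      exact sum_le_sum fun j _ => mul_le_mul_of_nonneg_left (htd j) (hw0 j).le
    have h2 : ∑ j, w j * (S / (γ + 2 * w j)) = S * ∑ j, w j / (γ + 2 * w j) := by
      rw [mul_sum]
      refine sum_congr rfl fun j _ => ?_
      ring
    rw [h2] at h1
    by_contra hcon
    push Not at hcon
    have := mul_lt_mul_of_pos_left hcon hS0
    linarith
  have hsc : ∀ j, w j / (γ + 2 * w j) ≤ 1 / n + γ * (w j - 1 / n) -
      2 * γ * (w j - 1 / n) ^ 2 / (γ + 2 * w j) := fun j => scalar_le hn3 (hw0 j)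
  have hmn' : (m : ℝ) ≤ n := by exact_mod_cast hmn
  have hsum2 : ∑ j, (1 / (n : ℝ) + γ * (w j - 1 / n) -
      2 * γ * (w j - 1 / n) ^ 2 / (γ + 2 * w j)) =
      m / n + γ * (1 - m / n) - ∑ j, 2 * γ * (w j - 1 / n) ^ 2 / (γ + 2 * w j) := by
    rw [sum_sub_distrib, sum_add_distrib, ← mul_sum, sum_sub_distrib, hw1, sum_const, card_univ,
      Fintype.card_fin, nsmul_eq_mul]
    ring
  have hR0 : ∀ j, 0 ≤ 2 * γ * (w j - 1 / n) ^ 2 / (γ + 2 * w j) := fun j =>
    div_nonneg (by positivity) (hd0 j).le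
  have hmain : 1 ≤ m / n + γ * (1 - m / n) - ∑ j, 2 * γ * (w j - 1 / n) ^ 2 / (γ + 2 * w j) := by
    rw [← hsum2]
    exact h1le.trans (sum_le_sum fun j _ => hsc j)
  have hR0s : 0 ≤ ∑ j, 2 * γ * (w j - 1 / n) ^ 2 / (γ + 2 * w j) := sum_nonneg fun j _ => hR0 j
  have hmn1 : (m : ℝ) / n ≤ 1 := by rw [div_le_one hn0]; exact hmn'
  have hγ1 : γ < 1 := by
    rw [hγd]
    have : 0 < 2 / (n : ℝ) := by positivity
    linarith
  have hmn2 : (m : ℝ) / n = 1 := by
    refine le_antisymm hmn1 ?_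
    by_contra hcon
    push Not at hcon
    nlinarith
  have hm : m = n := by
    have : (m : ℝ) = n := by
      rw [div_eq_one_iff_eq hn0.ne'] at hmn2
      exact hmn2
    exact_mod_cast this
  subst hm
  have hRs : ∑ j, 2 * γ * (w j - 1 / m) ^ 2 / (γ + 2 * w j) = 0 := by
    refine le_antisymm ?_ hR0s
    rw [hmn2] at hmain
    linarith
  have hw : ∀ j, w j = 1 / m := by
    intro j
    have h1 := (sum_eq_zero_iff_of_nonneg (fun j _ => hR0 j)).1 hRs j (mem_univ j)
    have h2 := (div_eq_zero_iff.1 h1).resolve_right (hd0 j).ne'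
    have h3 : (w j - 1 / m) ^ 2 = 0 := by
      rcases mul_eq_zero.1 h2 with h | h
      · linarith
      · exact h
    have h4 := pow_eq_zero_iff (two_ne_zero) |>.1 h3
    linarith
  have hγw : ∀ j, γ + 2 * w j = 1 := by
    intro j
    rw [hw j, hγd]
    ring
  have htS : ∀ j, t j ≤ S := fun j => by
    have := hkey2 j
    rwa [hγw j, mul_one] at this
  have htS' : ∀ j, t j = S := by
    have h1 : ∑ j, w j * (S - t j) = 0 := by
      simp_rw [mul_sub]
      rw [sum_sub_distrib, ← sum_mul, hw1, one_mul]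
      exact sub_self _
    intro j
    have h2 := (sum_eq_zero_iff_of_nonneg (fun j _ =>
      mul_nonneg (hw0 j).le (by linarith [htS j] : 0 ≤ S - t j))).1 h1 j (mem_univ j)
    rcases mul_eq_zero.1 h2 with h | h
    · exact absurd h (hw0 j).ne'
    · linarith
  have hm0 : (0 : ℝ) < 1 / m := by positivity
  have hqj : ∀ j, q ≤ 1 / m * (1 - p j) := by
    intro j
    have h1 := hkey j
    rw [htS' j] at h1
    have h2 : -c + w j * (1 + p j) ≤ 1 := by
      by_contra hcon
      push Not at hcon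
      have := mul_lt_mul_of_pos_left hcon hS0
      linarith
    rw [hw j] at h2
    have h3 : γ + 2 * (1 / (m : ℝ)) = 1 := by rw [← hw j]; exact hγw j
    linarith
  have hqsum : q = ∑ i, 1 / (m : ℝ) * (1 - p i) := by
    rw [hq]
    exact sum_congr rfl fun i _ => by rw [hw i]
  have hcard : ∑ _i : Fin m, q = m * q := by
    rw [sum_const, card_univ, Fintype.card_fin, nsmul_eq_mul]
  have hqz : q = 0 := by
    have h1 : m * q ≤ q := by
      rw [← hcard]
      conv_rhs => rw [hqsum]
      exact sum_le_sum fun j _ => hqj j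
    nlinarith
  have hp' : ∀ j, p j = 1 := by
    intro j
    have h1 := hqj j
    have h2 : w j * (1 - p j) ≤ 0 := by rw [← hqz]; exact hwq j
    rw [hw j] at h2
    have h3 : 1 - p j ≤ 0 := by
      by_contra hcon
      push Not at hcon
      have := mul_pos hm0 hcon
      linarith
    linarith [hp1 j]
  have hsumg : ∀ y, S * (1 / m * ∑ i, g i y) = c * f y := by
    intro y
    rw [← hfun y, mul_sum, mul_sum]
    refine sum_congr rfl fun i _ => ?_
    rw [hw i, htS' i]
    ring
  have hgs : ∀ j, 1 / (m : ℝ) * ∑ i, g i (x j) = c := by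
    intro j
    have h1 := hsumg (x j)
    have h2 : c * f (x j) = S * c := by
      show c * t j = _
      rw [htS' j, mul_comm]
    rw [h2] at h1
    exact mul_left_cancel₀ hS0.ne' h1
  have hgle : ∀ j, ∑ i, g i (x j) ≤ 2 - m := by
    intro j
    have h1 := hgs j
    have h2 : c ≤ -γ := by linarith
    rw [← h1, hγd] at h2
    have h3 : (m : ℝ) * (1 / m * ∑ i, g i (x j)) = ∑ i, g i (x j) := by
      field_simp
    have h4 : (m : ℝ) * (-(1 - 2 / m)) = 2 - m := by
      field_simp
      ring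
    rw [← h3, ← h4]
    exact mul_le_mul_of_nonneg_left h2 hn0.le
  have hoff : ∀ i j, i ≠ j → g i (x j) = -1 := by
    intro i j hij
    have h1 := hgle j
    rw [← add_sum_erase univ (fun i => g i (x j)) (mem_univ j)] at h1
    have h2 : g j (x j) = 1 := hp' j
    rw [h2] at h1
    have h3 : ∑ i ∈ univ.erase j, (g i (x j) + 1) ≤ 0 := by
      rw [sum_add_distrib, sum_const, card_erase_of_mem (mem_univ j), card_univ, Fintype.card_fin,
        nsmul_eq_mul, Nat.cast_sub (by omega)]
      push_cast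
      linarith
    have h4 : ∀ i ∈ univ.erase j, 0 ≤ g i (x j) + 1 := fun i _ => by
      linarith [(abs_le.1 (abs_le_one_of (hg i) (hx j))).1]
    have h5 := (sum_eq_zero_iff_of_nonneg h4).1 (le_antisymm h3 (sum_nonneg h4)) i
      (mem_erase.2 ⟨hij, mem_univ i⟩)
    linarith
  refine ⟨rfl, fun i j => ?_, fun y => ?_⟩
  · split_ifs with h
    · subst h
      exact hp' i
    · exact hoff i j h
  · have h1 := hsumg y
    constructor
    · intro h
      rw [h, mul_zero] at h1
      rcases mul_eq_zero.1 h1 with h2 | h2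
      · exact absurd h2 hS0.ne'
      · exact (mul_eq_zero.1 h2).resolve_left hm0.ne'
    · intro h
      rw [h, mul_zero, mul_zero] at h1
      rcases mul_eq_zero.1 h1.symm with h2 | h2
      · linarith
      · exact h2

end Pool.Agent.X204.NQ
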