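import Pool.Agent.X204.NQA

/-!
# Separation of the functionals of two extremal systems
-/

set_option autoImplicit false

open Finset Module

namespace Pool.Agent.X204.NQ

section Matrices

variable {n : ℕ}

lemma half (hn : 3 ≤ n) (H H' : Fin n → Fin n → ℝ) (α β : Fin n → ℝ)
    (hH : ∀ i j, |H i j| ≤ 1) (hH' : ∀ i j, |H' i j| ≤ 1)
    (hα : ∀ j, ∑ k, H k j = -((n : ℝ) - 2) * α j) (hβ : ∀ j, ∑ k, H' k j = -((n : ℝ) - 2) * β j)
    (h1 : ∀ i j, ∑ k, H' i k * H k j + α j * ∑ k, H' i k = if i = j then 2 else -2)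
    (ha : ∀ j, |α j - 1| < 2 / n) (hb : ∀ j, |β j - 1| < 2 / n) :
    (∀ i, 0 ≤ ((n : ℝ) - 2) + ∑ k, H' i k) ∧ ∀ j, α j ≤ 1 := by
  have hn3 : (3 : ℝ) ≤ n := by exact_mod_cast hn
  have hn0 : (0 : ℝ) < n := by linarith
  have h2n : 2 / (n : ℝ) < 1 := by rw [div_lt_one hn0]; linarith
  have hα0 : ∀ j, 0 < 1 + α j := fun j => by
    have := (abs_lt.1 (ha j)).1
    linarith
  have e : ∀ (s t : ℝ) (i j : Fin n), ∑ k, (1 + s * H k j) * (1 + t * H' i k) =
      n + t * ∑ k, H' i k + s * ∑ k, H k j + s * t * ∑ k, H' i k * H k j := by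
    intro s t i j
    have : ∀ k, (1 + s * H k j) * (1 + t * H' i k) =
        1 + t * H' i k + s * H k j + s * t * (H' i k * H k j) := fun k => by ring
    simp_rw [this]
    rw [sum_add_distrib, sum_add_distrib, sum_add_distrib, ← mul_sum, ← mul_sum, ← mul_sum]
    simp
  have p1 : ∀ (i j : Fin n) (s t : ℝ), |s| ≤ 1 → |t| ≤ 1 →
      0 ≤ ∑ k, (1 + s * H k j) * (1 + t * H' i k) := by
    intro i j s t hs ht
    refine sum_nonneg fun k _ => mul_nonneg ?_ ?_
    · have : |s * H k j| ≤ 1 := by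
        rw [abs_mul]
        exact mul_le_one₀ hs (abs_nonneg _) (hH k j)
      linarith [(abs_le.1 this).1]
    · have : |t * H' i k| ≤ 1 := by
        rw [abs_mul]
        exact mul_le_one₀ ht (abs_nonneg _) (hH' i k)
      linarith [(abs_le.1 this).1]
  have hm1 : |(-1 : ℝ)| ≤ 1 := by norm_num
  have h11 : |(1 : ℝ)| ≤ 1 := by norm_num
  have A1 : ∀ i, 0 ≤ (1 + α i) * (((n : ℝ) - 2) + ∑ k, H' i k) := by
    intro i
    have q := p1 i i (-1) 1 hm1 h11
    rw [e, hα] at q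
    have r := h1 i i
    rw [if_pos rfl] at r
    have r' : ∑ k, H' i k * H k i = 2 - α i * ∑ k, H' i k := by linarith
    rw [r'] at q
    have : (n : ℝ) + 1 * ∑ k, H' i k + -1 * (-((n : ℝ) - 2) * α i) +
        -1 * 1 * (2 - α i * ∑ k, H' i k) = (1 + α i) * (((n : ℝ) - 2) + ∑ k, H' i k) := by ring
    rwa [this] at q
  have A2 : ∀ i, 0 ≤ (1 - α i) * (((n : ℝ) - 2) - ∑ k, H' i k) := by
    intro i
    have q := p1 i i 1 (-1) h11 hm1
    rw [e, hα] at q
    have r := h1 i i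
    rw [if_pos rfl] at r
    have r' : ∑ k, H' i k * H k i = 2 - α i * ∑ k, H' i k := by linarith
    rw [r'] at q
    have : (n : ℝ) + -1 * ∑ k, H' i k + 1 * (-((n : ℝ) - 2) * α i) +
        1 * -1 * (2 - α i * ∑ k, H' i k) = (1 - α i) * (((n : ℝ) - 2) - ∑ k, H' i k) := by ring
    rwa [this] at q
  have A3 : ∀ i j, i ≠ j → 0 ≤ (1 - α j) * (((n : ℝ) - 2) + ∑ k, H' i k) := by
    intro i j hij
    have q := p1 i j 1 1 h11 h11
    rw [e, hα] at q
    have r := h1 i j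
    rw [if_neg hij] at r
    have r' : ∑ k, H' i k * H k j = -2 - α j * ∑ k, H' i k := by linarith
    rw [r'] at q
    have : (n : ℝ) + 1 * ∑ k, H' i k + 1 * (-((n : ℝ) - 2) * α j) +
        1 * 1 * (-2 - α j * ∑ k, H' i k) = (1 - α j) * (((n : ℝ) - 2) + ∑ k, H' i k) := by ring
    rwa [this] at q
  have B1 : ∀ i, 0 ≤ ((n : ℝ) - 2) + ∑ k, H' i k := fun i =>
    (mul_nonneg_iff_of_pos_left (hα0 i)).1 (A1 i)
  refine ⟨B1, fun j => ?_⟩
  by_contra hcon
  push Not at hcon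
  have B2 : ((n : ℝ) - 2) ≤ ∑ k, H' j k := by
    by_contra hc
    push Not at hc
    have := A2 j
    have h3 : (1 - α j) * (((n : ℝ) - 2) - ∑ k, H' j k) < 0 :=
      mul_neg_of_neg_of_pos (by linarith) (by linarith)
    linarith
  have B3 : ((n : ℝ) - 2) + ∑ k, H' j k ≤ ∑ i, (((n : ℝ) - 2) + ∑ k, H' i k) :=
    single_le_sum (f := fun i => ((n : ℝ) - 2) + ∑ k, H' i k) (fun i _ => B1 i) (mem_univ j)
  have B4 : ∑ i, (((n : ℝ) - 2) + ∑ k, H' i k) = ((n : ℝ) - 2) * ∑ j, (1 - β j) := by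
    have hbs : ∑ j, (1 - β j) = n - ∑ j, β j := by
      rw [sum_sub_distrib, sum_const, card_univ, Fintype.card_fin, nsmul_eq_mul, mul_one]
    rw [sum_add_distrib, sum_comm, hbs]
    simp_rw [hβ]
    rw [← mul_sum, sum_const, card_univ, Fintype.card_fin, nsmul_eq_mul]
    ring
  have B5 : ∑ j, (1 - β j) < ∑ _j : Fin n, 2 / (n : ℝ) := by
    refine sum_lt_sum_of_nonempty ⟨j, mem_univ j⟩ fun k _ => ?_
    have := (abs_lt.1 (hb k)).1
    linarith
  have B6 : ∑ _j : Fin n, 2 / (n : ℝ) = 2 := by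
    rw [sum_const, card_univ, Fintype.card_fin, nsmul_eq_mul]
    field_simp
  rw [B6] at B5
  have B7 : ((n : ℝ) - 2) * ∑ j, (1 - β j) < ((n : ℝ) - 2) * 2 :=
    mul_lt_mul_of_pos_left B5 (by linarith)
  linarith

theorem matrix_rigid (hn : 3 ≤ n) (H H' : Fin n → Fin n → ℝ) (α β : Fin n → ℝ)
    (hH : ∀ i j, |H i j| ≤ 1) (hH' : ∀ i j, |H' i j| ≤ 1)
    (hα : ∀ j, ∑ k, H k j = -((n : ℝ) - 2) * α j) (hβ : ∀ j, ∑ k, H' k j = -((n : ℝ) - 2) * β j)
    (h1 : ∀ i j, ∑ k, H' i k * H k j + α j * ∑ k, H' i k = if i = j then 2 else -2)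
    (h2 : ∀ i j, ∑ k, H i k * H' k j + β j * ∑ k, H i k = if i = j then 2 else -2)
    (ha : ∀ j, |α j - 1| < 2 / n) (hb : ∀ j, |β j - 1| < 2 / n) : ∀ j, α j = 1 := by
  have hn3 : (3 : ℝ) ≤ n := by exact_mod_cast hn
  have hn0 : (0 : ℝ) < n := by linarith
  obtain ⟨-, c2⟩ := half hn H H' α β hH hH' hα hβ h1 ha hb
  obtain ⟨c3, c4⟩ := half hn H' H β α hH' hH hβ hα h2 hb ha
  -- the total sum
  have T : ∑ k, β k * ∑ j, H k j + (∑ j, α j) * ∑ j, β j = 2 * n := by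
    have t1 : ∑ i, ∑ j, (∑ k, H' i k * H k j + α j * ∑ k, H' i k) =
        ∑ i : Fin n, ∑ j : Fin n, (if i = j then (2 : ℝ) else -2) :=
      sum_congr rfl fun i _ => sum_congr rfl fun j _ => h1 i j
    have t2 : ∑ i : Fin n, ∑ j : Fin n, (if i = j then (2 : ℝ) else -2) = -2 * n * (n - 2) := by
      have : ∀ i j : Fin n, (if i = j then (2 : ℝ) else -2) = (if i = j then 4 else 0) - 2 := by
        intro i j; split_ifs <;> norm_num
      simp_rw [this]
      simp_rw [sum_sub_distrib, sum_ite_eq]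
      simp
      ring
    have t3 : ∑ i, ∑ j, (∑ k, H' i k * H k j + α j * ∑ k, H' i k) =
        ∑ k, (∑ i, H' i k) * (∑ j, H k j) + (∑ j, α j) * ∑ k, ∑ i, H' i k := by
      have u1 : ∀ i, ∑ j, (∑ k, H' i k * H k j + α j * ∑ k, H' i k) =
          ∑ k, H' i k * (∑ j, H k j) + (∑ j, α j) * ∑ k, H' i k := by
        intro i
        rw [sum_add_distrib, sum_comm, ← sum_mul]
        simp_rw [mul_sum]
      simp_rw [u1]
      rw [sum_add_distrib, sum_comm, ← mul_sum]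
      congr 1
      · refine sum_congr rfl fun k _ => ?_
        rw [sum_mul]
      · rw [sum_comm]
    rw [t3, t2] at t1
    simp_rw [hβ] at t1
    have t4 : ∑ k, -((n : ℝ) - 2) * β k * ∑ j, H k j = -((n : ℝ) - 2) * ∑ k, β k * ∑ j, H k j := by
      rw [mul_sum]
      exact sum_congr rfl fun k _ => by ring
    rw [t4, ← mul_sum] at t1
    have t5 : -((n : ℝ) - 2) * (∑ k, β k * ∑ j, H k j + (∑ j, α j) * ∑ j, β j) =
        -((n : ℝ) - 2) * (2 * n) := by linarith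
    have t6 : -((n : ℝ) - 2) ≠ 0 := by
      have : (0 : ℝ) < n - 2 := by linarith
      linarith
    exact mul_left_cancel₀ t6 t5
  have hsumR : ∑ k, ∑ j, H k j = -((n : ℝ) - 2) * ∑ j, α j := by
    rw [sum_comm]
    simp_rw [hα]
    rw [← mul_sum]
  set a : ℝ := ∑ j, (1 - α j) with hadef
  set b : ℝ := ∑ j, (1 - β j) with hbdef
  have ea : ∑ j, α j = n - a := by
    rw [hadef, sum_sub_distrib, sum_const, card_univ, Fintype.card_fin, nsmul_eq_mul]
    ring
  have eb : ∑ j, β j = n - b := by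
    rw [hbdef, sum_sub_distrib, sum_const, card_univ, Fintype.card_fin, nsmul_eq_mul]
    ring
  have ha0 : 0 ≤ a := sum_nonneg fun j _ => by linarith [c2 j]
  have hb0 : 0 ≤ b := sum_nonneg fun j _ => by linarith [c4 j]
  have hb2 : b < 2 := by
    have B5 : ∑ j, (1 - β j) < ∑ _j : Fin n, 2 / (n : ℝ) := by
      refine sum_lt_sum_of_nonempty ⟨⟨0, by omega⟩, mem_univ _⟩ fun k _ => ?_
      have := (abs_lt.1 (hb k)).1
      linarith
    have B6 : ∑ _j : Fin n, 2 / (n : ℝ) = 2 := by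
      rw [sum_const, card_univ, Fintype.card_fin, nsmul_eq_mul]
      field_simp
    rwa [B6] at B5
  have hρ : 0 ≤ ∑ k, (1 - β k) * (((n : ℝ) - 2) + ∑ j, H k j) :=
    sum_nonneg fun k _ => mul_nonneg (by linarith [c4 k]) (c3 k)
  have hρe : ∑ k, (1 - β k) * (((n : ℝ) - 2) + ∑ j, H k j) =
      (n - 2) * b + ∑ k, ∑ j, H k j - ∑ k, β k * ∑ j, H k j := by
    have : ∀ k, (1 - β k) * (((n : ℝ) - 2) + ∑ j, H k j) =
        (n - 2) * (1 - β k) + ∑ j, H k j - β k * ∑ j, H k j := fun k => by ring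
    simp_rw [this]
    rw [sum_sub_distrib, sum_add_distrib, ← mul_sum]
  have hfin : 2 * a + 2 * b ≤ a * b := by
    rw [hρe, hsumR, ea] at hρ
    rw [ea, eb] at T
    nlinarith
  have haz : a = 0 := by
    rcases ha0.eq_or_lt with h | h
    · exact h.symm
    · exfalso
      have : a * b < a * 2 := mul_lt_mul_of_pos_left hb2 h
      linarith
  intro j
  have h3 := (sum_eq_zero_iff_of_nonneg (fun j _ => by linarith [c2 j] : ∀ j ∈ univ,
    0 ≤ 1 - α j)).1 haz j (mem_univ j)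
  linarith

end Matrices

variable {X : Type*} [NormedAddCommGroup X] [NormedSpace ℝ X] {n : ℕ}

/-- The functional of a system, normalized to be `1` at the vectors. -/
noncomputable def sf (g : Fin n → X →L[ℝ] ℝ) : X →L[ℝ] ℝ := (-(1 / ((n : ℝ) - 2))) • ∑ i, g i

lemma sum_eq_sf (hn : 3 ≤ n) (g : Fin n → X →L[ℝ] ℝ) (v : X) :
    ∑ i, g i v = -((n : ℝ) - 2) * sf g v := by
  have hn3 : (3 : ℝ) ≤ n := by exact_mod_cast hn
  have h2 : (n : ℝ) - 2 ≠ 0 := by
    have : (0 : ℝ) < n - 2 := by linarith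
    exact this.ne'
  have h1 : sf g v = (-(1 / ((n : ℝ) - 2))) * ∑ i, g i v := by
    rw [sf, ContinuousLinearMap.smul_apply, smul_eq_mul, ContinuousLinearMap.sum_apply]
  rw [h1]
  field_simp

lemma Sys.sf_x {x : Fin n → X} {g : Fin n → X →L[ℝ] ℝ} (h : Sys n x g) (hn : 3 ≤ n)
    (j : Fin n) : sf g (x j) = 1 := by
  have hn3 : (3 : ℝ) ≤ n := by exact_mod_cast hn
  have h2 : -((n : ℝ) - 2) ≠ 0 := by
    have : (0 : ℝ) < n - 2 := by linarith
    linarith
  have h1 := sum_eq_sf hn g (x j)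
  have h3 : ∑ i, g i (x j) = -((n : ℝ) - 2) := by
    simp_rw [h.hgx]
    have : ∀ i : Fin n, (if i = j then (1 : ℝ) else -1) = (if i = j then 2 else 0) - 1 := by
      intro i; split_ifs <;> norm_num
    simp_rw [this]
    rw [sum_sub_distrib, sum_ite_eq']
    simp
  rw [h3] at h1
  exact mul_left_cancel₀ h2 (by rw [← h1, mul_one])

lemma Sys.expand {x : Fin n → X} {g : Fin n → X →L[ℝ] ℝ} (h : Sys n x g) (hn : 3 ≤ n)
    (hX : finrank ℝ X = n) (v : X) : ∑ k, ((g k v + sf g v) / 2) • x k = v := by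
  obtain ⟨c, hc⟩ := h.exists_coeff hn hX v
  have h1 : sf g v = ∑ k, c k := by
    rw [← hc, map_sum]
    refine sum_congr rfl fun k _ => ?_
    rw [map_smul, h.sf_x hn, smul_eq_mul, mul_one]
  conv_rhs => rw [← hc]
  refine sum_congr rfl fun k _ => ?_
  congr 1
  have h2 : g k v = 2 * c k - ∑ l, c l := by rw [← hc]; exact h.apply_sum c k
  rw [h1, h2]
  ring

lemma Sys.norm_sf {x : Fin n → X} {g : Fin n → X →L[ℝ] ℝ} (h : Sys n x g) (hn : 3 ≤ n) :
    ‖sf g‖ ≤ n / (n - 2) := by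
  have hn3 : (3 : ℝ) ≤ n := by exact_mod_cast hn
  have h2 : (0 : ℝ) < n - 2 := by linarith
  rw [sf, norm_smul, norm_neg, Real.norm_eq_abs, abs_of_pos (by positivity)]
  have h3 : ‖∑ i, g i‖ ≤ n := by
    refine (norm_sum_le _ _).trans ?_
    calc ∑ i, ‖g i‖ ≤ ∑ _i : Fin n, (1 : ℝ) := sum_le_sum fun i _ => h.hg i
      _ = n := by simp
  calc 1 / ((n : ℝ) - 2) * ‖∑ i, g i‖ ≤ 1 / ((n : ℝ) - 2) * n :=
        mul_le_mul_of_nonneg_left h3 (by positivity)
    _ = n / (n - 2) := by ring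

lemma pair_identity {x x' : Fin n → X} {g g' : Fin n → X →L[ℝ] ℝ} (h : Sys n x g)
    (h' : Sys n x' g') (hn : 3 ≤ n) (hX : finrank ℝ X = n) (i j : Fin n) :
    ∑ k, g' i (x k) * g k (x' j) + sf g (x' j) * ∑ k, g' i (x k) = if i = j then 2 else -2 := by
  have h1 : g' i (x' j) = ∑ k, (g k (x' j) + sf g (x' j)) / 2 * g' i (x k) := by
    conv_lhs => rw [← h.expand hn hX (x' j)]
    rw [map_sum]
    exact sum_congr rfl fun k _ => by rw [map_smul, smul_eq_mul]
  rw [h'.hgx] at h1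
  have h2 : ∑ k, g' i (x k) * g k (x' j) + sf g (x' j) * ∑ k, g' i (x k) =
      2 * ∑ k, (g k (x' j) + sf g (x' j)) / 2 * g' i (x k) := by
    rw [mul_sum, mul_sum, ← sum_add_distrib]
    exact sum_congr rfl fun k _ => by ring
  rw [h2, ← h1]
  split_ifs <;> norm_num

/-- The functionals of two systems coincide if they are closer than `2 / n`. -/
theorem sf_eq_of_close {x x' : Fin n → X} {g g' : Fin n → X →L[ℝ] ℝ} (h : Sys n x g)
    (h' : Sys n x' g') (hn : 3 ≤ n) (hX : finrank ℝ X = n) (hd : ‖sf g - sf g'‖ < 2 / n) :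
    sf g = sf g' := by
  have key : ∀ {y : X}, ‖y‖ ≤ 1 → |(sf g - sf g') y| < 2 / n := by
    intro y hy
    have h1 := (sf g - sf g').le_opNorm y
    rw [Real.norm_eq_abs] at h1
    refine h1.trans_lt (lt_of_le_of_lt ?_ hd)
    calc ‖sf g - sf g'‖ * ‖y‖ ≤ ‖sf g - sf g'‖ * 1 := mul_le_mul_of_nonneg_left hy (norm_nonneg _)
      _ = ‖sf g - sf g'‖ := mul_one _
  have ha : ∀ j, |sf g (x' j) - 1| < 2 / n := by
    intro j
    have h1 := key (h'.hx j)
    rwa [ContinuousLinearMap.sub_apply, h'.sf_x hn] at h1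
  have hb : ∀ j, |sf g' (x j) - 1| < 2 / n := by
    intro j
    have h1 := key (h.hx j)
    rw [ContinuousLinearMap.sub_apply, h.sf_x hn] at h1
    rwa [abs_sub_comm]
  have h1 : ∀ j, sf g (x' j) = 1 :=
    matrix_rigid hn (fun i j => g i (x' j)) (fun i j => g' i (x j)) (fun j => sf g (x' j))
      (fun j => sf g' (x j)) (fun i j => abs_le_one_of (h.hg i) (h'.hx j))
      (fun i j => abs_le_one_of (h'.hg i) (h.hx j)) (fun j => sum_eq_sf hn g (x' j))
      (fun j => sum_eq_sf hn g' (x j)) (fun i j => pair_identity h h' hn hX i j)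
      (fun i j => pair_identity h' h hn hX i j) ha hb
  ext v
  obtain ⟨c, rfl⟩ := h'.exists_coeff hn hX v
  rw [map_sum, map_sum]
  refine sum_congr rfl fun k _ => ?_
  rw [map_smul, map_smul, h1, h'.sf_x hn]

lemma Sys.neg {x : Fin n → X} {g : Fin n → X →L[ℝ] ℝ} (h : Sys n x g) :
    Sys n (fun i => -x i) (fun i => -g i) where
  hx j := by rw [norm_neg]; exact h.hx j
  hg i := by rw [norm_neg]; exact h.hg i
  hgx i j := by
    rw [ContinuousLinearMap.neg_apply, map_neg, neg_neg]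
    exact h.hgx i j

lemma sf_neg (g : Fin n → X →L[ℝ] ℝ) : sf (fun i => -g i) = -sf g := by
  rw [sf, sf, sum_neg_distrib, smul_neg]

end Pool.Agent.X204.NQ
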