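import Pool.Agent.X204.NQE
import Pool.Agent.X204.NQF

/-!
# The number of the hyperplanes with the maximal projection constant
-/

set_option autoImplicit false

open Finset Module

namespace Pool.Agent.X204.NQ

/-- The relative projection constant of the subspace `Y`. -/
noncomputable def projConst {X : Type*} [NormedAddCommGroup X] [NormedSpace ℝ X]
    (Y : Submodule ℝ X) : ℝ :=
  sInf {r : ℝ | ∃ P : X →L[ℝ] Y, (∀ y : Y, P y = y) ∧ r = ‖P‖}

/-- The subspaces of dimension `n - 1` with relative projection constant `2 - 2 / n`. -/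
def maxHyperplanes (n : ℕ) (X : Type*) [NormedAddCommGroup X] [NormedSpace ℝ X] :
    Set (Submodule ℝ X) :=
  {Y | finrank ℝ Y + 1 = n ∧ projConst Y = 2 - 2 / (n : ℝ)}

variable {X : Type*} [NormedAddCommGroup X] [NormedSpace ℝ X] {n : ℕ}

lemma projConst_le {Y : Submodule ℝ X} (P : X →L[ℝ] Y) (hP : ∀ y : Y, P y = y) :
    projConst Y ≤ ‖P‖ := by
  refine csInf_le ⟨0, ?_⟩ ⟨P, hP, rfl⟩
  rintro r ⟨P', -, rfl⟩
  exact norm_nonneg P'

lemma exists_functional [FiniteDimensional ℝ X] (hX : finrank ℝ X = n) {Y : Submodule ℝ X}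
    (hY : finrank ℝ Y + 1 = n) :
    ∃ (f : X →L[ℝ] ℝ) (u : X), f u = 1 ∧ Y = LinearMap.ker (f : X →ₗ[ℝ] ℝ) := by
  have hlt : Y < ⊤ := by
    rw [lt_top_iff_ne_top]
    rintro rfl
    rw [finrank_top, hX] at hY
    omega
  obtain ⟨f, hf0, hf⟩ := Submodule.exists_le_ker_of_lt_top Y hlt
  obtain ⟨v, hv⟩ : ∃ v, f v ≠ 0 := by
    by_contra hcon
    push Not at hcon
    exact hf0 (LinearMap.ext hcon)
  have hu : f ((f v)⁻¹ • v) = 1 := by
    rw [map_smul, smul_eq_mul, inv_mul_cancel₀ hv]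
  refine ⟨LinearMap.toContinuousLinearMap f, (f v)⁻¹ • v, hu, ?_⟩
  have h1 : (((LinearMap.toContinuousLinearMap f : X →L[ℝ] ℝ)) : X →ₗ[ℝ] ℝ) = f := by
    ext; rfl
  rw [h1]
  refine Submodule.eq_of_le_of_finrank_eq hf ?_
  have h2 := LinearMap.finrank_range_add_finrank_ker f
  have h3 : LinearMap.range f = ⊤ := by
    rw [LinearMap.range_eq_top]
    intro r
    refine ⟨r • ((f v)⁻¹ • v), ?_⟩
    rw [map_smul, hu, smul_eq_mul, mul_one]
  rw [h3, finrank_top, finrank_self, hX] at h2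
  omega

theorem exists_sys (hn : 3 ≤ n) (hX : finrank ℝ X = n) {Y : Submodule ℝ X}
    (hY : Y ∈ maxHyperplanes n X) :
    ∃ (x : Fin n → X) (g : Fin n → X →L[ℝ] ℝ), Sys n x g ∧
      Y = LinearMap.ker (sf g : X →ₗ[ℝ] ℝ) := by
  haveI : FiniteDimensional ℝ X := Module.finite_of_finrank_pos (by omega)
  obtain ⟨hY1, hY2⟩ := hY
  obtain ⟨f, u, hu, rfl⟩ := exists_functional hX hY1
  obtain ⟨z, hz, hmin⟩ := exists_min f u hu
  have hΛ : 2 - 2 / (n : ℝ) ≤ ‖Q f z‖ := by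
    rw [← hY2]
    have hmem : ∀ x, Q f z x ∈ LinearMap.ker (f : X →ₗ[ℝ] ℝ) := by
      intro x
      rw [LinearMap.mem_ker]
      show f (Q f z x) = 0
      rw [Q_apply, map_sub, map_smul, hz, smul_eq_mul, mul_one, sub_self]
    refine (projConst_le ((Q f z).codRestrict _ hmem) ?_).trans ?_
    · intro y
      have hy : f (y : X) = 0 := LinearMap.mem_ker.1 y.2
      refine Subtype.ext ?_
      show Q f z (y : X) = y
      rw [Q_apply, hy, zero_smul, sub_zero]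
    · refine ContinuousLinearMap.opNorm_le_bound _ (norm_nonneg _) fun x => ?_
      exact (Q f z).le_opNorm x
  obtain ⟨m, w, x, g, hm, hw0, hw1, hx, hg, hf, hv, hs⟩ := repr hX f hz hmin
  obtain ⟨rfl, h1, h2⟩ := equality_case hn f hz hΛ hm w x g hw0 hw1 hx hg hf hv hs
  refine ⟨x, g, ⟨hx, hg, h1⟩, ?_⟩
  ext y
  rw [LinearMap.mem_ker, LinearMap.mem_ker]
  show f y = 0 ↔ sf g y = 0
  rw [h2 y, sum_eq_sf hn g y]
  have hn3 : (3 : ℝ) ≤ m := by exact_mod_cast hn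
  constructor
  · intro h
    rcases mul_eq_zero.1 h with h | h
    · linarith
    · exact h
  · intro h
    rw [h, mul_zero]

/-- The set of the functionals of all systems. -/
def Φ (n : ℕ) (X : Type*) [NormedAddCommGroup X] [NormedSpace ℝ X] : Set (X →L[ℝ] ℝ) :=
  {φ | ∃ (x : Fin n → X) (g : Fin n → X →L[ℝ] ℝ), Sys n x g ∧ φ = sf g}

lemma finrank_dual [FiniteDimensional ℝ X] : finrank ℝ (X →L[ℝ] ℝ) = finrank ℝ X := by
  rw [← (LinearMap.toContinuousLinearMap (𝕜 := ℝ) (E := X) (F' := ℝ)).finrank_eq]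
  exact Subspace.dual_finrank_eq

theorem card_functionals (hn : 3 ≤ n) (hX : finrank ℝ X = n) (T : Finset (X →L[ℝ] ℝ))
    (hT : ∀ φ ∈ T, φ ∈ Φ n X) : (T.card : ℝ) ≤ (1 + (n : ℝ) ^ 2 / (n - 2)) ^ n := by
  classical
  haveI : FiniteDimensional ℝ X := Module.finite_of_finrank_pos (by omega)
  have hn3 : (3 : ℝ) ≤ n := by exact_mod_cast hn
  have hn0 : (0 : ℝ) < n := by linarith
  have h2 : (0 : ℝ) < n - 2 := by linarith
  have hn2 : (0 : ℝ) < n / 2 := by positivity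
  set s : Finset (X →L[ℝ] ℝ) := T.image fun φ => ((n : ℝ) / 2) • φ with hs
  have hinj : Function.Injective fun φ : X →L[ℝ] ℝ => ((n : ℝ) / 2) • φ :=
    smul_right_injective _ hn2.ne'
  have hcard : s.card = T.card := card_image_of_injective _ hinj
  have hr : (0 : ℝ) ≤ n ^ 2 / (n - 2) / 2 := by positivity
  have hb : ∀ c ∈ s, ‖c‖ ≤ (n : ℝ) ^ 2 / (n - 2) / 2 := by
    intro c hc
    obtain ⟨φ, hφ, rfl⟩ := mem_image.1 hc
    obtain ⟨x, g, hsys, rfl⟩ := hT φ hφ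
    rw [norm_smul, Real.norm_eq_abs, abs_of_pos hn2]
    calc (n : ℝ) / 2 * ‖sf g‖ ≤ n / 2 * (n / (n - 2)) :=
          mul_le_mul_of_nonneg_left (hsys.norm_sf hn) hn2.le
      _ = n ^ 2 / (n - 2) / 2 := by ring
  have hsep : ∀ c ∈ s, ∀ d ∈ s, c ≠ d → 1 ≤ ‖c - d‖ := by
    intro c hc d hd hcd
    obtain ⟨φ, hφ, rfl⟩ := mem_image.1 hc
    obtain ⟨ψ, hψ, rfl⟩ := mem_image.1 hd
    obtain ⟨x, g, hsys, rfl⟩ := hT φ hφ
    obtain ⟨x', g', hsys', rfl⟩ := hT ψ hψ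
    by_contra hcon
    push Not at hcon
    refine hcd ?_
    replace hcon : ‖((n : ℝ) / 2) • (sf g - sf g')‖ < 1 := by
      rw [smul_sub]
      exact hcon
    rw [norm_smul, Real.norm_eq_abs, abs_of_pos hn2] at hcon
    have h3 : ‖sf g - sf g'‖ < 2 / n := by
      rw [lt_div_iff₀ hn0]
      linarith
    show ((n : ℝ) / 2) • sf g = ((n : ℝ) / 2) • sf g'
    rw [sf_eq_of_close hsys hsys' hn hX h3]
  have h3 := card_le_of_separated s hr hb hsep
  rw [hcard, finrank_dual, hX] at h3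
  have h4 : 2 * ((n : ℝ) ^ 2 / (n - 2) / 2) + 1 = 1 + (n : ℝ) ^ 2 / (n - 2) := by ring
  rwa [h4] at h3

theorem card_hyperplanes (hn : 3 ≤ n) (hX : finrank ℝ X = n) (s : Finset (Submodule ℝ X))
    (hs : ∀ Y ∈ s, Y ∈ maxHyperplanes n X) :
    2 * (s.card : ℝ) ≤ (1 + (n : ℝ) ^ 2 / (n - 2)) ^ n := by
  classical
  have hex : ∀ Y : Submodule ℝ X, ∃ φ : X →L[ℝ] ℝ, Y ∈ s → φ ∈ Φ n X ∧
      Y = LinearMap.ker (φ : X →ₗ[ℝ] ℝ) := by
    intro Y
    by_cases hY : Y ∈ s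
    · obtain ⟨x, g, h1, h2⟩ := exists_sys hn hX (hs Y hY)
      exact ⟨sf g, fun _ => ⟨⟨x, g, h1, rfl⟩, h2⟩⟩
    · exact ⟨0, fun h => absurd h hY⟩
  choose φ hφ using hex
  have hneg : ∀ ψ ∈ Φ n X, -ψ ∈ Φ n X := by
    rintro ψ ⟨x, g, h1, rfl⟩
    exact ⟨_, _, h1.neg, (sf_neg g).symm⟩
  have hne : ∀ ψ ∈ Φ n X, ψ ≠ 0 := by
    rintro ψ ⟨x, g, h1, rfl⟩ h0
    have := h1.sf_x hn ⟨0, by omega⟩
    rw [h0] at this
    simp at this
  have hker : ∀ ψ : X →L[ℝ] ℝ, LinearMap.ker ((-ψ : X →L[ℝ] ℝ) : X →ₗ[ℝ] ℝ) =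
      LinearMap.ker (ψ : X →ₗ[ℝ] ℝ) := by
    intro ψ
    ext y
    rw [LinearMap.mem_ker, LinearMap.mem_ker]
    show -(ψ y) = 0 ↔ ψ y = 0
    exact neg_eq_zero
  set A : Finset (X →L[ℝ] ℝ) := s.image φ with hA
  set B : Finset (X →L[ℝ] ℝ) := s.image fun Y => -φ Y with hB
  have hAc : A.card = s.card := by
    refine card_image_of_injOn fun Y hY Z hZ h => ?_
    have h1 := (hφ Y hY).2
    have h2 := (hφ Z hZ).2
    rw [h1, h2]
    exact congrArg (fun ψ : X →L[ℝ] ℝ => LinearMap.ker (ψ : X →ₗ[ℝ] ℝ)) h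
  have hBc : B.card = s.card := by
    refine card_image_of_injOn fun Y hY Z hZ h => ?_
    have h1 := (hφ Y hY).2
    have h2 := (hφ Z hZ).2
    rw [h1, h2]
    exact congrArg (fun ψ : X →L[ℝ] ℝ => LinearMap.ker (ψ : X →ₗ[ℝ] ℝ)) (neg_injective h)
  have hAB : Disjoint A B := by
    rw [Finset.disjoint_left]
    intro ψ h1 h2
    obtain ⟨Y, hY, rfl⟩ := mem_image.1 h1
    obtain ⟨Z, hZ, h3⟩ := mem_image.1 h2
    have h4 : Z = Y := by
      have e1 := (hφ Y hY).2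
      have e2 := (hφ Z hZ).2
      rw [← hker, h3] at e2
      exact e2.trans e1.symm
    subst h4
    have h5 : (2 : ℝ) • φ Z = 0 := by
      rw [two_smul]
      nth_rewrite 1 [← h3]
      exact neg_add_cancel _
    exact hne _ (hφ Z hZ).1 ((smul_eq_zero.1 h5).resolve_left two_ne_zero)
  have h6 := card_functionals hn hX (A ∪ B) (by
    intro ψ hψ
    rcases mem_union.1 hψ with h | h
    · obtain ⟨Y, hY, rfl⟩ := mem_image.1 h
      exact (hφ Y hY).1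
    · obtain ⟨Y, hY, rfl⟩ := mem_image.1 h
      exact hneg _ (hφ Y hY).1)
  rw [card_union_of_disjoint hAB, hAc, hBc] at h6
  push_cast at h6
  linarith

theorem upper (hn : 3 ≤ n) (hX : finrank ℝ X = n) : (maxHyperplanes n X).Finite ∧
    2 * ((maxHyperplanes n X).ncard : ℝ) ≤ (1 + (n : ℝ) ^ 2 / (n - 2)) ^ n := by
  classical
  have hfin : (maxHyperplanes n X).Finite := by
    by_contra hinf
    obtain ⟨s, hs, hc⟩ := Set.Infinite.exists_subset_card_eq hinf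
      (⌈(1 + (n : ℝ) ^ 2 / (n - 2)) ^ n⌉₊ + 1)
    have h1 := card_hyperplanes hn hX s fun Y hY => hs hY
    rw [hc] at h1
    push_cast at h1
    have h2 := Nat.le_ceil ((1 + (n : ℝ) ^ 2 / (n - 2)) ^ n)
    have h3 : (0 : ℝ) ≤ (⌈(1 + (n : ℝ) ^ 2 / (n - 2)) ^ n⌉₊ : ℝ) := Nat.cast_nonneg _
    linarith
  refine ⟨hfin, ?_⟩
  have h1 := card_hyperplanes hn hX hfin.toFinset fun Y hY => (Set.Finite.mem_toFinset _).1 hY
  rwa [Set.ncard_eq_toFinset_card _ hfin]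

end Pool.Agent.X204.NQ
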