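import Pool.Agent.X204.NQG

/-!
# The hyperplanes of the cube
-/

set_option autoImplicit false

open Finset Module

namespace Pool.Agent.X204.NQ

variable {n : ℕ}

/-- The signed sum of the coordinates. -/
noncomputable def sg (ε : Fin n → ℝ) : (Fin n → ℝ) →L[ℝ] ℝ :=
  ∑ i, ε i • ContinuousLinearMap.proj (R := ℝ) (φ := fun _ : Fin n => ℝ) i

lemma sg_apply (ε y : Fin n → ℝ) : sg ε y = ∑ i, ε i * y i := by
  simp [sg]

/-- Every projection has the form `Q`. -/
lemma proj_eq {X : Type*} [NormedAddCommGroup X] [NormedSpace ℝ X] (f : X →L[ℝ] ℝ) {u : X}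
    (hu : f u = 1) (P : X →L[ℝ] LinearMap.ker (f : X →ₗ[ℝ] ℝ))
    (hP : ∀ y : LinearMap.ker (f : X →ₗ[ℝ] ℝ), P y = y) (x : X) :
    (P x : X) = x - f x • (u - P u) := by
  have hmem : x - f x • u ∈ LinearMap.ker (f : X →ₗ[ℝ] ℝ) := by
    rw [LinearMap.mem_ker]
    show f (x - f x • u) = 0
    rw [map_sub, map_smul, hu, smul_eq_mul, mul_one, sub_self]
  have h1 : (P (x - f x • u) : X) = x - f x • u := congrArg Subtype.val (hP ⟨_, hmem⟩)
  rw [map_sub, map_smul] at h1
  have h2 : (P x : X) - f x • (P u : X) = x - f x • u := h1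
  rw [smul_sub]
  rw [sub_eq_iff_eq_add] at h2
  rw [h2]
  abel

theorem sg_mem (hn : 3 ≤ n) (ε : Fin n → ℝ) (hε : ∀ i, ε i * ε i = 1) :
    LinearMap.ker (sg ε : (Fin n → ℝ) →ₗ[ℝ] ℝ) ∈ maxHyperplanes n (Fin n → ℝ) := by
  have hn3 : (3 : ℝ) ≤ n := by exact_mod_cast hn
  have hn0 : (0 : ℝ) < n := by linarith
  have hεabs : ∀ i, |ε i| = 1 := by
    intro i
    have h1 : |ε i| * |ε i| = 1 := by rw [← abs_mul, hε, abs_one]
    nlinarith [abs_nonneg (ε i)]
  set u : Fin n → ℝ := fun i => 1 / n * ε i with hu'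
  have hu : sg ε u = 1 := by
    rw [sg_apply]
    have : ∀ i, ε i * u i = 1 / n := by
      intro i
      show ε i * (1 / n * ε i) = 1 / n
      linear_combination (1 / (n : ℝ)) * hε i
    simp_rw [this]
    rw [sum_const, card_univ, Fintype.card_fin, nsmul_eq_mul]
    field_simp
  refine ⟨?_, ?_⟩
  · have h2 := LinearMap.finrank_range_add_finrank_ker (sg ε : (Fin n → ℝ) →ₗ[ℝ] ℝ)
    have h3 : LinearMap.range (sg ε : (Fin n → ℝ) →ₗ[ℝ] ℝ) = ⊤ := by
      rw [LinearMap.range_eq_top]
      intro r
      refine ⟨r • u, ?_⟩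
      show sg ε (r • u) = r
      rw [map_smul, hu, smul_eq_mul, mul_one]
    rw [h3, finrank_top, finrank_self, finrank_pi, Fintype.card_fin] at h2
    omega
  · have hγ : (0 : ℝ) ≤ 2 - 2 / n := by
      have : 2 / (n : ℝ) ≤ 1 := by rw [div_le_one hn0]; linarith
      linarith
    have hmem : ∀ x, Q (sg ε) u x ∈ LinearMap.ker (sg ε : (Fin n → ℝ) →ₗ[ℝ] ℝ) := by
      intro x
      rw [LinearMap.mem_ker]
      show sg ε (Q (sg ε) u x) = 0
      rw [Q_apply, map_sub, map_smul, hu, smul_eq_mul, mul_one, sub_self]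
    have hP : ∀ y : LinearMap.ker (sg ε : (Fin n → ℝ) →ₗ[ℝ] ℝ),
        (Q (sg ε) u).codRestrict _ hmem y = y := by
      intro y
      have hy : sg ε (y : Fin n → ℝ) = 0 := LinearMap.mem_ker.1 y.2
      refine Subtype.ext ?_
      show Q (sg ε) u (y : Fin n → ℝ) = y
      rw [Q_apply, hy, zero_smul, sub_zero]
    refine le_antisymm ((projConst_le _ hP).trans ?_) ?_
    · refine ContinuousLinearMap.opNorm_le_bound _ hγ fun y => ?_
      show ‖Q (sg ε) u y‖ ≤ (2 - 2 / n) * ‖y‖
      rw [pi_norm_le_iff_of_nonneg (mul_nonneg hγ (norm_nonneg _))]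
      intro i
      have h1 : Q (sg ε) u y i = (1 - 1 / n) * y i -
          (1 / n) * ∑ k ∈ univ.erase i, ε i * ε k * y k := by
        have h2 : Q (sg ε) u y i = y i - (∑ k, ε k * y k) * (1 / n * ε i) := by
          rw [Q_apply, sg_apply]
          rfl
        rw [h2, ← add_sum_erase univ (fun k => ε k * y k) (mem_univ i)]
        have h3 : ∑ k ∈ univ.erase i, ε i * ε k * y k = ε i * ∑ k ∈ univ.erase i, ε k * y k := by
          rw [mul_sum]
          exact sum_congr rfl fun k _ => by ring
        rw [h3]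
        linear_combination (-(1 / (n : ℝ)) * y i) * hε i
      have hy : ∀ k, |y k| ≤ ‖y‖ := fun k => norm_le_pi_norm y k
      have h4 : |∑ k ∈ univ.erase i, ε i * ε k * y k| ≤ (n - 1) * ‖y‖ := by
        refine (abs_sum_le_sum_abs _ _).trans ?_
        calc ∑ k ∈ univ.erase i, |ε i * ε k * y k| ≤ ∑ _k ∈ univ.erase i, ‖y‖ := by
              refine sum_le_sum fun k _ => ?_
              rw [abs_mul, abs_mul, hεabs, hεabs, one_mul, one_mul]
              exact hy k
          _ = (n - 1) * ‖y‖ := by
              rw [sum_const, card_erase_of_mem (mem_univ i), card_univ, Fintype.card_fin,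
                nsmul_eq_mul, Nat.cast_sub (by omega)]
              simp
      rw [Real.norm_eq_abs, h1]
      have h5 : (0 : ℝ) ≤ 1 - 1 / n := by
        have : 1 / (n : ℝ) ≤ 1 := by rw [div_le_one hn0]; linarith
        linarith
      calc |(1 - 1 / (n : ℝ)) * y i - (1 / n) * ∑ k ∈ univ.erase i, ε i * ε k * y k|
          ≤ |(1 - 1 / (n : ℝ)) * y i| + |(1 / (n : ℝ)) * ∑ k ∈ univ.erase i, ε i * ε k * y k| :=
            abs_sub _ _
        _ ≤ (1 - 1 / n) * ‖y‖ + 1 / n * ((n - 1) * ‖y‖) := by
            rw [abs_mul, abs_mul, abs_of_nonneg h5, abs_of_pos (by positivity : (0 : ℝ) < 1 / n)]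
            exact add_le_add (mul_le_mul_of_nonneg_left (hy i) h5)
              (mul_le_mul_of_nonneg_left h4 (by positivity))
        _ = (2 - 2 / n) * ‖y‖ := by
            field_simp
            ring
    · refine le_csInf ⟨_, _, hP, rfl⟩ ?_
      rintro r ⟨P, hPr, rfl⟩
      -- the test vectors
      set z : Fin n → ℝ := u - P u with hz
      have hzs : ∑ j, ε j * z j = 1 := by
        rw [← sg_apply, hz, map_sub, hu]
        have : sg ε (P u : Fin n → ℝ) = 0 := LinearMap.mem_ker.1 (P u).2
        rw [this, sub_zero]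
      set X : Fin n → Fin n → ℝ := fun j k => ε k * (if j = k then 1 else -1) with hX
      have hXn : ∀ j, ‖X j‖ ≤ 1 := by
        intro j
        rw [pi_norm_le_iff_of_nonneg zero_le_one]
        intro k
        show ‖ε k * (if j = k then 1 else -1)‖ ≤ 1
        rw [norm_mul, Real.norm_eq_abs, hεabs, one_mul]
        split_ifs <;> simp
      have hXs : ∀ j, sg ε (X j) = 2 - n := by
        intro j
        rw [sg_apply]
        have : ∀ k, ε k * X j k = (if j = k then 2 else 0) - 1 := by
          intro k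
          show ε k * (ε k * (if j = k then 1 else -1)) = _
          rw [← mul_assoc, hε, one_mul]
          split_ifs <;> norm_num
        simp_rw [this]
        rw [sum_sub_distrib, sum_ite_eq]
        simp
      have hbd : ∀ j, 1 + (n - 2) * (ε j * z j) ≤ ‖P‖ := by
        intro j
        have h1 : (P (X j) : Fin n → ℝ) j = X j j - (2 - n) * z j := by
          rw [proj_eq (sg ε) hu P hPr (X j), hXs]
          rfl
        have h2 : |(P (X j) : Fin n → ℝ) j| ≤ ‖P‖ := by
          calc |(P (X j) : Fin n → ℝ) j| ≤ ‖(P (X j) : Fin n → ℝ)‖ :=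
                norm_le_pi_norm (P (X j) : Fin n → ℝ) j
            _ ≤ ‖P‖ * ‖X j‖ := P.le_opNorm (X j)
            _ ≤ ‖P‖ * 1 := mul_le_mul_of_nonneg_left (hXn j) (norm_nonneg P)
            _ = ‖P‖ := mul_one _
        have h3 : 1 + (n - 2) * (ε j * z j) = ε j * (P (X j) : Fin n → ℝ) j := by
          have h4 : X j j = ε j := by
            show ε j * (if j = j then 1 else -1) = ε j
            rw [if_pos rfl, mul_one]
          rw [h1, h4]
          linear_combination -hε j
        rw [h3]
        calc ε j * (P (X j) : Fin n → ℝ) j ≤ |ε j * (P (X j) : Fin n → ℝ) j| := le_abs_self _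
          _ = |(P (X j) : Fin n → ℝ) j| := by rw [abs_mul, hεabs, one_mul]
          _ ≤ ‖P‖ := h2
      have hsum : ∑ j, (1 + ((n : ℝ) - 2) * (ε j * z j)) ≤ ∑ _j : Fin n, ‖P‖ :=
        sum_le_sum fun j _ => hbd j
      rw [sum_add_distrib, ← mul_sum, hzs, sum_const, sum_const, card_univ, Fintype.card_fin,
        nsmul_eq_mul, nsmul_eq_mul] at hsum
      have : (2 : ℝ) - 2 / n = (2 * n - 2) / n := by
        field_simp
      rw [this, div_le_iff₀ hn0]
      linarith

/-- The sign vectors with first coordinate `1`. -/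
noncomputable def sv (m : ℕ) (s : Finset (Fin m)) : Fin (m + 1) → ℝ :=
  Fin.cons 1 fun i => if i ∈ s then 1 else -1

theorem lower (hn : 3 ≤ n) : 2 ^ (n - 1) ≤ (maxHyperplanes n (Fin n → ℝ)).ncard := by
  classical
  obtain ⟨m, rfl⟩ : ∃ m, n = m + 1 := ⟨n - 1, by omega⟩
  have hfin := (upper (X := Fin (m + 1) → ℝ) hn (by rw [finrank_pi, Fintype.card_fin])).1
  have hsv : ∀ s i, sv m s i * sv m s i = 1 := by
    intro s i
    refine Fin.cases ?_ (fun i => ?_) i
    · show (1 : ℝ) * 1 = 1
      norm_num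
    · show (if i ∈ s then (1 : ℝ) else -1) * (if i ∈ s then (1 : ℝ) else -1) = 1
      split_ifs <;> norm_num
  set F : Finset (Fin m) → Submodule ℝ (Fin (m + 1) → ℝ) := fun s =>
    LinearMap.ker (sg (sv m s) : (Fin (m + 1) → ℝ) →ₗ[ℝ] ℝ) with hF
  have hinj : Function.Injective F := by
    intro s t hst
    have key : ∀ i, sv m s (Fin.succ i) = sv m t (Fin.succ i) := by
      intro i
      set v : Fin (m + 1) → ℝ := Fin.cons 1 (fun k => if k = i then -sv m s (Fin.succ i) else 0)
        with hv
      have hval : ∀ r : Finset (Fin m), sg (sv m r) v = 1 - sv m r (Fin.succ i) *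
          sv m s (Fin.succ i) := by
        intro r
        rw [sg_apply, Fin.sum_univ_succ]
        have h1 : sv m r 0 * v 0 = 1 := by
          show (1 : ℝ) * 1 = 1
          norm_num
        have h2 : ∀ k : Fin m, sv m r k.succ * v k.succ =
            if k = i then -(sv m r (Fin.succ i) * sv m s (Fin.succ i)) else 0 := by
          intro k
          show sv m r k.succ * (if k = i then -sv m s (Fin.succ i) else 0) = _
          split_ifs with h
          · subst h
            ring
          · ring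
        rw [h1]
        simp_rw [h2]
        rw [sum_ite_eq']
        simp
        ring
      have h3 : v ∈ F s := by
        show v ∈ LinearMap.ker _
        rw [LinearMap.mem_ker]
        show sg (sv m s) v = 0
        rw [hval, hsv, sub_self]
      rw [hst] at h3
      have h4 : sg (sv m t) v = 0 := LinearMap.mem_ker.1 h3
      rw [hval] at h4
      have h5 := hsv s (Fin.succ i)
      have h6 : sv m t (Fin.succ i) * sv m s (Fin.succ i) = sv m s (Fin.succ i) *
          sv m s (Fin.succ i) := by linarith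
      have h7 : sv m s (Fin.succ i) ≠ 0 := by
        intro h0
        rw [h0] at h5
        norm_num at h5
      exact (mul_right_cancel₀ h7 h6).symm
    ext i
    have h1 := key i
    have h2 : (if i ∈ s then (1 : ℝ) else -1) = if i ∈ t then (1 : ℝ) else -1 := h1
    by_cases hs : i ∈ s <;> by_cases ht : i ∈ t
    · exact ⟨fun _ => ht, fun _ => hs⟩
    · rw [if_pos hs, if_neg ht] at h2
      norm_num at h2
    · rw [if_neg hs, if_pos ht] at h2
      norm_num at h2
    · exact ⟨fun h => absurd h hs, fun h => absurd h ht⟩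
  have hsub : ((univ.image F : Finset _) : Set (Submodule ℝ (Fin (m + 1) → ℝ))) ⊆
      maxHyperplanes (m + 1) (Fin (m + 1) → ℝ) := by
    intro Y hY
    obtain ⟨s, -, rfl⟩ := mem_image.1 hY
    exact sg_mem hn _ (hsv s)
  have h1 := Set.ncard_le_ncard hsub hfin
  rw [Set.ncard_coe_finset, card_image_of_injective _ hinj, card_univ, Fintype.card_finset,
    Fintype.card_fin] at h1
  simpa using h1

end Pool.Agent.X204.NQ
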