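import Pool.Agent.X204.NQF

/-!
# Two extremal systems in dimension three
-/

set_option autoImplicit false

open Finset Module

namespace Pool.Agent.X204.NQ

lemma total3 (H H' : Fin 3 → Fin 3 → ℝ) (α β : Fin 3 → ℝ)
    (hβ : ∀ j, ∑ k, H' k j = -β j)
    (h1 : ∀ i j, ∑ k, H' i k * H k j + α j * ∑ k, H' i k = if i = j then 2 else -2) :
    ∑ k, β k * ∑ j, H k j + (∑ j, α j) * ∑ j, β j = 6 := by
  have t1 : ∑ i, ∑ j, (∑ k, H' i k * H k j + α j * ∑ k, H' i k) =
      ∑ i : Fin 3, ∑ j : Fin 3, (if i = j then (2 : ℝ) else -2) :=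
    sum_congr rfl fun i _ => sum_congr rfl fun j _ => h1 i j
  have t2 : ∑ i : Fin 3, ∑ j : Fin 3, (if i = j then (2 : ℝ) else -2) = -6 := by
    simp [Fin.sum_univ_three]
    norm_num
  have t3 : ∑ i, ∑ j, (∑ k, H' i k * H k j + α j * ∑ k, H' i k) =
      ∑ k, (∑ i, H' i k) * (∑ j, H k j) + (∑ j, α j) * ∑ k, ∑ i, H' i k := by
    have u1 : ∀ i, ∑ j, (∑ k, H' i k * H k j + α j * ∑ k, H' i k) =
        ∑ k, H' i k * (∑ j, H k j) + (∑ j, α j) * ∑ k, H' i k := by
      intro i
      rw [sum_add_distrib, sum_comm, ← sum_mul]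
      simp_rw [mul_sum]
    simp_rw [u1]
    rw [sum_add_distrib, sum_comm, ← mul_sum]
    congr 1
    · refine sum_congr rfl fun k _ => ?_
      rw [sum_mul]
    · rw [sum_comm]
  rw [t3, t2] at t1
  simp_rw [hβ] at t1
  simp_rw [neg_mul] at t1
  rw [sum_neg_distrib, sum_neg_distrib] at t1
  linarith

lemma third : ∀ i : Fin 3, ∃ j l : Fin 3, j ≠ i ∧ l ≠ i ∧ j ≠ l := by decide

lemma sum3 : ∀ (i j l : Fin 3), j ≠ i → l ≠ i → j ≠ l → ∀ u : Fin 3 → ℝ,
    ∑ k, u k = u i + u j + u l := by
  intro i j l h1 h2 h3 u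
  have : (univ : Finset (Fin 3)) = {i, j, l} := by
    revert i j l
    decide
  rw [this, sum_insert, sum_insert, sum_singleton]
  · ring
  · simpa using h3
  · simp only [mem_insert, mem_singleton, not_or]
    exact ⟨h1.symm, h2.symm⟩

theorem three_aux (H H' : Fin 3 → Fin 3 → ℝ) (α β : Fin 3 → ℝ)
    (hH : ∀ i j, |H i j| ≤ 1) (hH' : ∀ i j, |H' i j| ≤ 1)
    (hα : ∀ j, ∑ k, H k j = -α j) (hβ : ∀ j, ∑ k, H' k j = -β j)
    (h1 : ∀ i j, ∑ k, H' i k * H k j + α j * ∑ k, H' i k = if i = j then 2 else -2)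
    (h2 : ∀ i j, ∑ k, H i k * H' k j + β j * ∑ k, H i k = if i = j then 2 else -2)
    (hσ : 1 < ∑ j, α j) : ∀ j, β j = 1 := by
  have T := total3 H H' α β hβ h1
  have hsR : ∑ i, ∑ k, H i k = -∑ j, α j := by
    rw [sum_comm]
    simp_rw [hα]
    rw [sum_neg_distrib]
  set R : Fin 3 → ℝ := fun i => ∑ k, H i k with hR
  have hHl : ∀ i k, -1 ≤ H i k := fun i k => (abs_le.1 (hH i k)).1
  have hHu : ∀ i k, H i k ≤ 1 := fun i k => (abs_le.1 (hH i k)).2
  have hHl' : ∀ i k, -1 ≤ H' i k := fun i k => (abs_le.1 (hH' i k)).1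
  have hHu' : ∀ i k, H' i k ≤ 1 := fun i k => (abs_le.1 (hH' i k)).2
  have e : ∀ (s t : ℝ) (i j : Fin 3), ∑ k, (1 + s * H i k) * (1 + t * H' k j) =
      3 + s * R i + t * ∑ k, H' k j + s * t * ∑ k, H i k * H' k j := by
    intro s t i j
    simp only [hR, Fin.sum_univ_three]
    ring
  have e1 : ∀ i j, i ≠ j → ∑ k, (1 + 1 * H i k) * (1 + 1 * H' k j) = (1 - β j) * (1 + R i) := by
    intro i j hij
    have r := h2 i j
    rw [if_neg hij] at r
    have r' : ∑ k, H i k * H' k j = -2 - β j * R i := by linarith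
    rw [e, hβ, r']
    ring
  have e2 : ∀ i j, i ≠ j → ∑ k, (1 + -1 * H i k) * (1 + -1 * H' k j) =
      (1 + β j) * (1 - R i) := by
    intro i j hij
    have r := h2 i j
    rw [if_neg hij] at r
    have r' : ∑ k, H i k * H' k j = -2 - β j * R i := by linarith
    rw [e, hβ, r']
    ring
  have e3 : ∀ i, ∑ k, (1 + 1 * H i k) * (1 + -1 * H' k i) = (1 + β i) * (1 + R i) := by
    intro i
    have r := h2 i i
    rw [if_pos rfl] at r
    have r' : ∑ k, H i k * H' k i = 2 - β i * R i := by linarith
    rw [e, hβ, r']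
    ring
  have e4 : ∀ i, ∑ k, (1 + -1 * H i k) * (1 + 1 * H' k i) = (1 - β i) * (1 - R i) := by
    intro i
    have r := h2 i i
    rw [if_pos rfl] at r
    have r' : ∑ k, H i k * H' k i = 2 - β i * R i := by linarith
    rw [e, hβ, r']
    ring
  have n1 : ∀ i j k, 0 ≤ (1 + 1 * H i k) * (1 + 1 * H' k j) := fun i j k =>
    mul_nonneg (by linarith [hHl i k]) (by linarith [hHl' k j])
  have n2 : ∀ i j k, 0 ≤ (1 + -1 * H i k) * (1 + -1 * H' k j) := fun i j k =>
    mul_nonneg (by linarith [hHu i k]) (by linarith [hHu' k j])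
  have n3 : ∀ i k, 0 ≤ (1 + 1 * H i k) * (1 + -1 * H' k i) := fun i k =>
    mul_nonneg (by linarith [hHl i k]) (by linarith [hHu' k i])
  have n4 : ∀ i k, 0 ≤ (1 + -1 * H i k) * (1 + 1 * H' k i) := fun i k =>
    mul_nonneg (by linarith [hHu i k]) (by linarith [hHl' k i])
  have P1 : ∀ i j, i ≠ j → 0 ≤ (1 - β j) * (1 + R i) := fun i j hij => by
    rw [← e1 i j hij]; exact sum_nonneg fun k _ => n1 i j k
  have P2 : ∀ i j, i ≠ j → 0 ≤ (1 + β j) * (1 - R i) := fun i j hij => by
    rw [← e2 i j hij]; exact sum_nonneg fun k _ => n2 i j k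
  have P3 : ∀ i, 0 ≤ (1 + β i) * (1 + R i) := fun i => by
    rw [← e3 i]; exact sum_nonneg fun k _ => n3 i k
  have P4 : ∀ i, 0 ≤ (1 - β i) * (1 - R i) := fun i => by
    rw [← e4 i]; exact sum_nonneg fun k _ => n4 i k
  have Z1 : ∀ i j, i ≠ j → (1 - β j) * (1 + R i) = 0 → ∀ k,
      (1 + H i k) * (1 + H' k j) = 0 := fun i j hij h0 k => by
    rw [← e1 i j hij] at h0
    have := (sum_eq_zero_iff_of_nonneg fun k _ => n1 i j k).1 h0 k (mem_univ k)
    linarith
  have Z2 : ∀ i j, i ≠ j → (1 + β j) * (1 - R i) = 0 → ∀ k,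
      (1 - H i k) * (1 - H' k j) = 0 := fun i j hij h0 k => by
    rw [← e2 i j hij] at h0
    have := (sum_eq_zero_iff_of_nonneg fun k _ => n2 i j k).1 h0 k (mem_univ k)
    linarith
  have Z3 : ∀ i, (1 + β i) * (1 + R i) = 0 → ∀ k,
      (1 + H i k) * (1 - H' k i) = 0 := fun i h0 k => by
    rw [← e3 i] at h0
    have := (sum_eq_zero_iff_of_nonneg fun k _ => n3 i k).1 h0 k (mem_univ k)
    linarith
  have Z4 : ∀ i, (1 - β i) * (1 - R i) = 0 → ∀ k,
      (1 - H i k) * (1 + H' k i) = 0 := fun i h0 k => by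
    rw [← e4 i] at h0
    have := (sum_eq_zero_iff_of_nonneg fun k _ => n4 i k).1 h0 k (mem_univ k)
    linarith
  -- sign lemmas
  have sg1 : ∀ a b : ℝ, 0 ≤ a * b → b < 0 → a ≤ 0 := fun a b h hb => by
    by_contra hc
    push Not at hc
    have := mul_neg_of_pos_of_neg hc hb
    linarith
  have sg2 : ∀ a b : ℝ, 0 ≤ a * b → a < 0 → b ≤ 0 := fun a b h ha => by
    by_contra hc
    push Not at hc
    have := mul_neg_of_neg_of_pos ha hc
    linarith
  have sg3 : ∀ a b : ℝ, 0 ≤ a * b → 0 < b → 0 ≤ a := fun a b h hb => by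
    by_contra hc
    push Not at hc
    have := mul_neg_of_neg_of_pos hc hb
    linarith
  have hσR : ∑ i, R i < -1 := by rw [hsR]; linarith
  -- Step 1: all `R i ≤ 1`
  have S1 : ∀ i, R i ≤ 1 := by
    intro i
    by_contra hc
    push Not at hc
    obtain ⟨j, l, hji, hli, hjl⟩ := third i
    have a1 : 1 + β j ≤ 0 := sg1 _ _ (P2 i j hji.symm) (by linarith)
    have a2 : 1 + β l ≤ 0 := sg1 _ _ (P2 i l hli.symm) (by linarith)
    have a3 : -1 ≤ R j := by
      by_contra hc2
      push Not at hc2
      have := sg1 _ _ (P1 j l hjl) (by linarith)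
      linarith
    have a4 : -1 ≤ R l := by
      by_contra hc2
      push Not at hc2
      have := sg1 _ _ (P1 l j hjl.symm) (by linarith)
      linarith
    rw [sum3 i j l hji hli hjl] at hσR
    linarith
  by_cases hA : ∀ i, -1 ≤ R i
  · -- Case A
    have hb1 : ∀ k, β k ≤ 1 := by
      intro k
      by_contra hc
      push Not at hc
      obtain ⟨j, l, hj, hl, hjl⟩ := third k
      have b3 := sg2 _ _ (P4 k) (by linarith)
      rw [sum3 k j l hj hl hjl] at hσR
      have := hA j
      have := hA l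
      linarith
    have hb2 : ∀ k, -1 ≤ β k := by
      intro k
      by_contra hc
      push Not at hc
      obtain ⟨j, l, hj, hl, hjl⟩ := third k
      have b1 := sg2 _ _ (P2 j k hj) (by linarith)
      have b2 := sg2 _ _ (P2 l k hl) (by linarith)
      rw [sum3 k j l hj hl hjl] at hσR
      have := hA k
      linarith
    have hs : 0 ≤ ∑ k, (1 - β k) * (1 + R k) :=
      sum_nonneg fun k _ => mul_nonneg (by linarith [hb1 k]) (by linarith [hA k])
    have hse : ∑ k, (1 - β k) * (1 + R k) = 3 - ∑ k, β k + ∑ k, R k - ∑ k, β k * R k := by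
      simp only [Fin.sum_univ_three]
      ring
    have hσ3 : -3 ≤ ∑ k, R k := by
      rw [Fin.sum_univ_three]
      have := hA 0
      have := hA 1
      have := hA 2
      linarith
    have hτ3 : ∑ k, β k ≤ 3 := by
      rw [Fin.sum_univ_three]
      have := hb1 0
      have := hb1 1
      have := hb1 2
      linarith
    have hτ : ∑ k, β k = 3 := by
      refine le_antisymm hτ3 ?_
      by_contra hc
      push Not at hc
      rw [hse, hsR] at hs
      rw [hsR] at hσ3
      generalize ∑ j, α j = a at *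
      generalize ∑ k, β k = b at *
      generalize ∑ k, β k * R k = c at *
      nlinarith
    intro j
    have h0 : ∑ k, (1 - β k) = 0 := by
      rw [sum_sub_distrib, hτ]
      simp
    have := (sum_eq_zero_iff_of_nonneg (fun k _ => by linarith [hb1 k] : ∀ k ∈ univ,
      0 ≤ 1 - β k)).1 h0 j (mem_univ j)
    linarith
  · -- Case B
    exfalso
    push Not at hA
    obtain ⟨i, hi⟩ := hA
    obtain ⟨j0, l0, hj0, hl0, hjl0⟩ := third i
    have key : ∀ j l, j ≠ i → l ≠ i → j ≠ l → β j ≤ 1 := by
      intro j l hji hli hjl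
      by_contra hc
      push Not at hc
      have c3 : 1 + β i ≤ 0 := sg1 _ _ (P3 i) (by linarith)
      have c1 : 1 - β l ≤ 0 := sg1 _ _ (P1 i l hli.symm) (by linarith)
      have c4 : -1 ≤ R l := by
        by_contra hc2
        push Not at hc2
        have := sg1 _ _ (P1 l i hli) (by linarith)
        linarith
      have d1 := sg2 _ _ (P1 l j hjl.symm) (by linarith)
      have d2 := sg2 _ _ (P4 j) (by linarith)
      have hRl : R l = -1 := by linarith
      have hRj : R j = 1 := le_antisymm (S1 j) (by linarith)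
      have hβl : β l = 1 := by
        have := sg3 _ _ (P1 j l hjl) (by linarith)
        linarith
      -- an index k with H' k l > -1
      obtain ⟨k, hk⟩ : ∃ k, -1 < H' k l := by
        by_contra hcon
        push Not at hcon
        have := hβ l
        rw [Fin.sum_univ_three] at this
        have := hcon 0
        have := hcon 1
        have := hcon 2
        linarith
      have f1 : H j k = -1 := by
        have := Z1 j l hjl (by rw [hβl]; ring) k
        rcases mul_eq_zero.1 this with h | h <;> linarith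
      have f2 : H l k = 1 := by
        have := Z4 l (by rw [hβl]; ring) k
        rcases mul_eq_zero.1 this with h | h <;> linarith
      have f3 : H' k i = -1 := by
        have := Z1 l i hli (by rw [hRl]; ring) k
        rcases mul_eq_zero.1 this with h | h <;> linarith
      have f4 : H' k i = 1 := by
        have := Z2 j i hji (by rw [hRj]; ring) k
        rcases mul_eq_zero.1 this with h | h <;> linarith
      linarith
    have c3 : 1 + β i ≤ 0 := sg1 _ _ (P3 i) (by linarith)
    have hge : ∀ j, j ≠ i → 1 ≤ β j := fun j hj => by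
      have := sg1 _ _ (P1 i j hj.symm) (by linarith)
      linarith
    have hβj : β j0 = 1 := le_antisymm (key j0 l0 hj0 hl0 hjl0) (hge j0 hj0)
    have hβl : β l0 = 1 := le_antisymm (key l0 j0 hl0 hj0 hjl0.symm) (hge l0 hl0)
    have hRi3 : -3 ≤ R i := by
      show -3 ≤ ∑ k, H i k
      rw [Fin.sum_univ_three]
      have := hHl i 0
      have := hHl i 1
      have := hHl i 2
      linarith
    rcases (by linarith : β i ≤ -1).lt_or_eq with hlt | heq
    · have b1 := sg2 _ _ (P2 j0 i hj0) (by linarith)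
      have b2 := sg2 _ _ (P2 l0 i hl0) (by linarith)
      rw [sum3 i j0 l0 hj0 hl0 hjl0] at hσR
      linarith
    · have g1 : ∀ k, -1 < H' k j0 → H l0 k = -1 ∧ H j0 k = 1 := by
        intro k hk
        constructor
        · have := Z1 l0 j0 hjl0.symm (by rw [hβj]; ring) k
          rcases mul_eq_zero.1 this with h | h <;> linarith
        · have := Z4 j0 (by rw [hβj]; ring) k
          rcases mul_eq_zero.1 this with h | h <;> linarith
      have g2 : ∀ k, -1 < H' k l0 → H j0 k = -1 ∧ H l0 k = 1 := by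
        intro k hk
        constructor
        · have := Z1 j0 l0 hjl0 (by rw [hβl]; ring) k
          rcases mul_eq_zero.1 this with h | h <;> linarith
        · have := Z4 l0 (by rw [hβl]; ring) k
          rcases mul_eq_zero.1 this with h | h <;> linarith
      have g3 : ∀ k, H' k i < 1 → H j0 k = 1 ∧ H l0 k = 1 := by
        intro k hk
        constructor
        · have := Z2 j0 i hj0 (by rw [heq]; ring) k
          rcases mul_eq_zero.1 this with h | h <;> linarith
        · have := Z2 l0 i hl0 (by rw [heq]; ring) k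
          rcases mul_eq_zero.1 this with h | h <;> linarith
      obtain ⟨k1, hk1⟩ : ∃ k, -1 < H' k j0 := by
        by_contra hcon
        push Not at hcon
        have := hβ j0
        rw [Fin.sum_univ_three] at this
        have := hcon 0
        have := hcon 1
        have := hcon 2
        linarith
      obtain ⟨k2, hk2⟩ : ∃ k, -1 < H' k l0 := by
        by_contra hcon
        push Not at hcon
        have := hβ l0
        rw [Fin.sum_univ_three] at this
        have := hcon 0
        have := hcon 1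
        have := hcon 2
        linarith
      obtain ⟨k3, hk3⟩ : ∃ k, H' k i < 1 := by
        by_contra hcon
        push Not at hcon
        have := hβ i
        rw [Fin.sum_univ_three] at this
        have := hcon 0
        have := hcon 1
        have := hcon 2
        linarith
      obtain ⟨u1, u2⟩ := g1 k1 hk1
      obtain ⟨v1, v2⟩ := g2 k2 hk2
      obtain ⟨w1, w2⟩ := g3 k3 hk3
      have q12 : k2 ≠ k1 := by rintro rfl; linarith
      have q13 : k3 ≠ k1 := by rintro rfl; linarith
      have q23 : k2 ≠ k3 := by rintro rfl; linarith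
      have r1 : R j0 = 1 := by
        show ∑ k, H j0 k = 1
        rw [sum3 k1 k2 k3 q12 q13 q23]
        linarith
      have r2 : R l0 = 1 := by
        show ∑ k, H l0 k = 1
        rw [sum3 k1 k2 k3 q12 q13 q23]
        linarith
      rw [sum3 i j0 l0 hj0 hl0 hjl0] at hσR
      linarith

end Pool.Agent.X204.NQ
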