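import Pool.Agent.X204.NQH
import Pool.Agent.X204.NQI

/-!
# Dimension three: at most four hyperplanes
-/

set_option autoImplicit false

open Finset Module
open scoped RealInnerProductSpace

namespace Pool.Agent.X204.NQ

section Rank

variable {X : Type*} [AddCommGroup X] [Module ℝ X] [FiniteDimensional ℝ X]

/-- There are no five pairs with `f a (z a) = 1` and `|f a (z b)| ≤ 1 / 3` in dimension three. -/
theorem no_five (hX : finrank ℝ X = 3) (f : Fin 5 → X →ₗ[ℝ] ℝ) (z : Fin 5 → X)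
    (h1 : ∀ a, f a (z a) = 1) (h2 : ∀ a b, a ≠ b → |f a (z b)| ≤ 1 / 3) : False := by
  let L : X →ₗ[ℝ] EuclideanSpace ℝ (Fin 5) :=
    { toFun := fun v => WithLp.toLp 2 fun a => f a v
      map_add' := fun v w => by
        ext a
        simp
      map_smul' := fun c v => by
        ext a
        simp }
  have hL : ∀ v a, (L v) a = f a v := fun v a => rfl
  set W := LinearMap.range L with hW
  have hWr : finrank ℝ W ≤ 3 := by
    rw [← hX]
    exact LinearMap.finrank_range_le L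
  let b := stdOrthonormalBasis ℝ W
  let v : Fin 5 → W := fun k => ⟨L (z k), LinearMap.mem_range_self L (z k)⟩
  have hv : ∀ k, ((v k : W) : EuclideanSpace ℝ (Fin 5)) = L (z k) := fun k => rfl
  -- the norms
  have hn : ∀ k, ‖v k‖ ^ 2 ≤ 13 / 9 := by
    intro k
    have e1 : ‖v k‖ ^ 2 = ∑ a, (f a (z k)) ^ 2 := by
      have : ‖v k‖ = ‖L (z k)‖ := rfl
      rw [this, EuclideanSpace.real_norm_sq_eq]
      exact sum_congr rfl fun a _ => by rw [hL]
    rw [e1, ← add_sum_erase univ (fun a => (f a (z k)) ^ 2) (mem_univ k), h1]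
    have e2 : ∑ a ∈ univ.erase k, (f a (z k)) ^ 2 ≤ ∑ _a ∈ univ.erase k, (1 / 9 : ℝ) := by
      refine sum_le_sum fun a ha => ?_
      have h3 := h2 a k (ne_of_mem_erase ha)
      rw [← sq_abs]
      nlinarith [abs_nonneg (f a (z k))]
    have e3 : ∑ _a ∈ univ.erase k, (1 / 9 : ℝ) = 4 / 9 := by
      rw [sum_const, card_erase_of_mem (mem_univ k), card_univ, Fintype.card_fin, nsmul_eq_mul]
      norm_num
    linarith
  -- the diagonal
  have hd : ∀ k, (1 : ℝ) = ∑ i, ⟪b i, v k⟫ * ((b i : W) : EuclideanSpace ℝ (Fin 5)) k := by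
    intro k
    have e1 := b.sum_repr' (v k)
    have e2 : ((v k : W) : EuclideanSpace ℝ (Fin 5)) k = 1 := by
      rw [hv, hL, h1]
    have e3 : ((∑ i, ⟪b i, v k⟫ • b i : W) : EuclideanSpace ℝ (Fin 5)) k =
        ∑ i, ⟪b i, v k⟫ * ((b i : W) : EuclideanSpace ℝ (Fin 5)) k := by
      simp
    rw [← e3, e1, e2]
  have hb : ∀ i, ∑ k, (((b i : W) : EuclideanSpace ℝ (Fin 5)) k) ^ 2 = 1 := by
    intro i
    rw [← EuclideanSpace.real_norm_sq_eq]
    have : ‖((b i : W) : EuclideanSpace ℝ (Fin 5))‖ = 1 := by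
      have h := b.orthonormal.1 i
      exact h
    rw [this, one_pow]
  have hs : ∀ k, ∑ i, ⟪b i, v k⟫ ^ 2 = ‖v k‖ ^ 2 := by
    intro k
    rw [← b.sum_sq_norm_inner_right (v k)]
    exact sum_congr rfl fun i _ => by rw [Real.norm_eq_abs, sq_abs]
  -- sum over k
  have key : ∀ k, (1 : ℝ) ≤ 1 / 3 * ‖v k‖ ^ 2 +
      3 / 4 * ∑ i, (((b i : W) : EuclideanSpace ℝ (Fin 5)) k) ^ 2 := by
    intro k
    rw [← hs k, mul_sum, mul_sum, ← sum_add_distrib]
    conv_lhs => rw [hd k]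
    refine sum_le_sum fun i _ => ?_
    generalize ⟪b i, v k⟫ = s
    generalize ((b i : W) : EuclideanSpace ℝ (Fin 5)) k = t
    nlinarith [sq_nonneg (2 * s - 3 * t)]
  have tot : ∑ _k : Fin 5, (1 : ℝ) ≤ ∑ k, (1 / 3 * ‖v k‖ ^ 2 +
      3 / 4 * ∑ i, (((b i : W) : EuclideanSpace ℝ (Fin 5)) k) ^ 2) := sum_le_sum fun k _ => key k
  rw [sum_add_distrib, ← mul_sum, ← mul_sum, sum_comm] at tot
  simp_rw [hb] at tot
  have t1 : ∑ k, ‖v k‖ ^ 2 ≤ ∑ _k : Fin 5, (13 / 9 : ℝ) := sum_le_sum fun k _ => hn k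
  rw [sum_const, card_univ, Fintype.card_fin, nsmul_eq_mul] at t1
  rw [sum_const, sum_const, card_univ, card_univ, Fintype.card_fin, Fintype.card_fin,
    nsmul_eq_mul, nsmul_eq_mul] at tot
  have t2 : ((finrank ℝ W : ℕ) : ℝ) ≤ 3 := by exact_mod_cast hWr
  push_cast at tot t1
  linarith

end Rank

variable {X : Type*} [NormedAddCommGroup X] [NormedSpace ℝ X]

theorem three_pair {x x' : Fin 3 → X} {g g' : Fin 3 → X →L[ℝ] ℝ} (h : Sys 3 x g)
    (h' : Sys 3 x' g') (hX : finrank ℝ X = 3) (hσ : 1 < ∑ j, sf g (x' j)) : sf g' = sf g := by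
  have hc : ∀ (g : Fin 3 → X →L[ℝ] ℝ) (v : X), ∑ i, g i v = -sf g v := by
    intro g v
    have := sum_eq_sf (n := 3) le_rfl g v
    rw [this]
    push_cast
    ring
  have h1 : ∀ j, sf g' (x j) = 1 :=
    three_aux (fun i j => g i (x' j)) (fun i j => g' i (x j)) (fun j => sf g (x' j))
      (fun j => sf g' (x j)) (fun i j => abs_le_one_of (h.hg i) (h'.hx j))
      (fun i j => abs_le_one_of (h'.hg i) (h.hx j)) (fun j => hc g (x' j))
      (fun j => hc g' (x j)) (fun i j => pair_identity h h' le_rfl hX i j)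
      (fun i j => pair_identity h' h le_rfl hX i j) hσ
  ext v
  obtain ⟨c, rfl⟩ := h.exists_coeff le_rfl hX v
  rw [map_sum, map_sum]
  refine sum_congr rfl fun k _ => ?_
  rw [map_smul, map_smul, h1, h.sf_x le_rfl]

theorem three_pair_abs {x x' : Fin 3 → X} {g g' : Fin 3 → X →L[ℝ] ℝ} (h : Sys 3 x g)
    (h' : Sys 3 x' g') (hX : finrank ℝ X = 3)
    (hk : LinearMap.ker (sf g : X →ₗ[ℝ] ℝ) ≠ LinearMap.ker (sf g' : X →ₗ[ℝ] ℝ)) :
    |∑ j, sf g (x' j)| ≤ 1 := by
  rw [abs_le]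
  constructor
  · by_contra hcon
    push Not at hcon
    have h1 : 1 < ∑ j, sf g (-x' j) := by
      simp_rw [map_neg]
      rw [sum_neg_distrib]
      linarith
    have h2 := three_pair h h'.neg hX h1
    rw [sf_neg] at h2
    refine hk ?_
    ext y
    rw [LinearMap.mem_ker, LinearMap.mem_ker]
    show sf g y = 0 ↔ sf g' y = 0
    rw [← h2]
    show -(sf g' y) = 0 ↔ sf g' y = 0
    exact neg_eq_zero
  · by_contra hcon
    push Not at hcon
    exact hk (by rw [three_pair h h' hX hcon])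

theorem card_le_four (hX : finrank ℝ X = 3) (s : Finset (Submodule ℝ X))
    (hs : ∀ Y ∈ s, Y ∈ maxHyperplanes 3 X) : s.card ≤ 4 := by
  classical
  have : FiniteDimensional ℝ X := Module.finite_of_finrank_pos (by omega)
  by_contra hcon
  push Not at hcon
  obtain ⟨t, hts, ht⟩ := Finset.exists_subset_card_eq (by omega : 5 ≤ s.card)
  let e := t.equivFinOfCardEq ht
  have hY : ∀ a : Fin 5, ∃ (x : Fin 3 → X) (g : Fin 3 → X →L[ℝ] ℝ), Sys 3 x g ∧
      ((e.symm a : t) : Submodule ℝ X) = LinearMap.ker (sf g : X →ₗ[ℝ] ℝ) := fun a =>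
    exists_sys le_rfl hX (hs _ (hts (e.symm a).2))
  choose x g hsys hker using hY
  have hne : ∀ a b, a ≠ b → LinearMap.ker (sf (g a) : X →ₗ[ℝ] ℝ) ≠
      LinearMap.ker (sf (g b) : X →ₗ[ℝ] ℝ) := by
    intro a b hab h
    rw [← hker, ← hker] at h
    exact hab (e.symm.injective (Subtype.ext h))
  refine no_five hX (fun a => (sf (g a) : X →ₗ[ℝ] ℝ)) (fun a => (1 / 3 : ℝ) • ∑ j, x a j) ?_ ?_
  · intro a
    show sf (g a) ((1 / 3 : ℝ) • ∑ j, x a j) = 1
    rw [map_smul, map_sum]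
    simp_rw [(hsys a).sf_x le_rfl]
    simp
  · intro a b hab
    show |sf (g a) ((1 / 3 : ℝ) • ∑ j, x b j)| ≤ 1 / 3
    rw [map_smul, map_sum, smul_eq_mul, abs_mul, abs_of_pos (by norm_num : (0 : ℝ) < 1 / 3)]
    have := three_pair_abs (hsys a) (hsys b) hX (hne a b hab)
    linarith

theorem three_upper (hX : finrank ℝ X = 3) : (maxHyperplanes 3 X).Finite ∧
    (maxHyperplanes 3 X).ncard ≤ 4 := by
  classical
  have hfin := (upper (n := 3) le_rfl hX).1
  refine ⟨hfin, ?_⟩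
  rw [Set.ncard_eq_toFinset_card _ hfin]
  exact card_le_four hX _ fun Y hY => (Set.Finite.mem_toFinset _).1 hY

theorem three_cube : (maxHyperplanes 3 (Fin 3 → ℝ)).ncard = 4 :=
  le_antisymm (three_upper (by rw [finrank_pi, Fintype.card_fin])).2
    (lower (n := 3) le_rfl)

end Pool.Agent.X204.NQ
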