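import Pool.Agent.X204.NQF

/-!
# Dimension four: the matrices of two systems are Hadamard matrices
-/

set_option autoImplicit false

open Finset Module

namespace Pool.Agent.X204.NQ

/-- The matrix of a system in dimension four. -/
def GG : Matrix (Fin 4) (Fin 4) ℝ := Matrix.of fun i j => if i = j then 1 else -1

lemma GG_apply (i j : Fin 4) : GG i j = if i = j then 1 else -1 := rfl

lemma GG_t : GG.transpose = GG := by
  ext i j
  rw [Matrix.transpose_apply, GG_apply, GG_apply]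
  simp only [eq_comm]

lemma GG_mul : GG * GG = (4 : ℝ) • (1 : Matrix (Fin 4) (Fin 4) ℝ) := by
  ext i j
  rw [Matrix.mul_apply, Fin.sum_univ_four, Matrix.smul_apply]
  simp only [GG_apply]
  fin_cases i <;> fin_cases j <;> simp <;> norm_num

lemma trace_sq (E : Matrix (Fin 4) (Fin 4) ℝ) :
    (E * E.transpose).trace = ∑ i, ∑ j, E i j ^ 2 := by
  rw [Matrix.trace]
  refine sum_congr rfl fun i _ => ?_
  rw [Matrix.diag_apply, Matrix.mul_apply]
  refine sum_congr rfl fun j _ => ?_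
  rw [Matrix.transpose_apply, sq]

lemma trace_le (H : Matrix (Fin 4) (Fin 4) ℝ) (hH : ∀ i j, |H i j| ≤ 1) :
    (H * H.transpose).trace ≤ 16 := by
  rw [trace_sq]
  calc ∑ i, ∑ j, H i j ^ 2 ≤ ∑ _i : Fin 4, ∑ _j : Fin 4, (1 : ℝ) :=
        sum_le_sum fun i _ => sum_le_sum fun j _ => by
          rw [sq_le_one_iff_abs_le_one]; exact hH i j
    _ = 16 := by simp; norm_num

theorem four_rigid (H H' : Matrix (Fin 4) (Fin 4) ℝ) (hH : ∀ i j, |H i j| ≤ 1)
    (hH' : ∀ i j, |H' i j| ≤ 1) (h : H * GG * H' = (4 : ℝ) • GG) :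
    (∀ i j, H i j = 1 ∨ H i j = -1) ∧
      H * H.transpose = (4 : ℝ) • (1 : Matrix (Fin 4) (Fin 4) ℝ) ∧
      H.transpose * H = (4 : ℝ) • (1 : Matrix (Fin 4) (Fin 4) ℝ) := by
  set P := H * GG with hP
  set P' := H' * GG with hP'
  have e1 : P * P.transpose = (4 : ℝ) • (H * H.transpose) := by
    rw [hP, Matrix.transpose_mul, GG_t, Matrix.mul_assoc, ← Matrix.mul_assoc GG GG, GG_mul,
      Matrix.smul_mul, Matrix.one_mul, Matrix.mul_smul]
  have e1' : P' * P'.transpose = (4 : ℝ) • (H' * H'.transpose) := by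
    rw [hP', Matrix.transpose_mul, GG_t, Matrix.mul_assoc, ← Matrix.mul_assoc GG GG, GG_mul,
      Matrix.smul_mul, Matrix.one_mul, Matrix.mul_smul]
  have e2 : P * P' = (16 : ℝ) • (1 : Matrix (Fin 4) (Fin 4) ℝ) := by
    rw [hP', ← Matrix.mul_assoc, h, Matrix.smul_mul, GG_mul, smul_smul]
    norm_num
  have e3 : P'.transpose * P.transpose = (16 : ℝ) • (1 : Matrix (Fin 4) (Fin 4) ℝ) := by
    rw [← Matrix.transpose_mul, e2, Matrix.transpose_smul, Matrix.transpose_one]
  set E := P - P'.transpose with hE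
  have e4 : (E * E.transpose).trace = 4 * (H * H.transpose).trace +
      4 * (H' * H'.transpose).trace - 128 := by
    have : E * E.transpose = P * P.transpose - P * P' - P'.transpose * P.transpose +
        P'.transpose * P' := by
      rw [hE, Matrix.transpose_sub, Matrix.transpose_transpose]
      noncomm_ring
    rw [this, Matrix.trace_add, Matrix.trace_sub, Matrix.trace_sub, e1, e2, e3,
      Matrix.trace_mul_comm P'.transpose P', e1']
    rw [Matrix.trace_smul, Matrix.trace_smul, Matrix.trace_smul, Matrix.trace_one]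
    simp only [Fintype.card_fin, smul_eq_mul]
    norm_num
    ring
  have t1 := trace_le H hH
  have t2 := trace_le H' hH'
  have t3 : 0 ≤ (E * E.transpose).trace := by
    rw [trace_sq]
    exact sum_nonneg fun i _ => sum_nonneg fun j _ => sq_nonneg _
  have t4 : (E * E.transpose).trace = 0 := by linarith
  have t5 : (H * H.transpose).trace = 16 := by linarith
  have hE0 : E = 0 := by
    ext i j
    rw [trace_sq] at t4
    have h1 := (sum_eq_zero_iff_of_nonneg fun i _ =>
      sum_nonneg fun j _ => sq_nonneg (E i j)).1 t4 i (mem_univ i)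
    have h2 := (sum_eq_zero_iff_of_nonneg fun j _ => sq_nonneg (E i j)).1 h1 j (mem_univ j)
    exact pow_eq_zero_iff two_ne_zero |>.1 h2
  have hPP : P = P'.transpose := sub_eq_zero.1 hE0
  have hPt : P.transpose = P' := by rw [hPP, Matrix.transpose_transpose]
  have hHH : H * H.transpose = (4 : ℝ) • (1 : Matrix (Fin 4) (Fin 4) ℝ) := by
    have : (4 : ℝ) • (H * H.transpose) = (4 : ℝ) • ((4 : ℝ) • (1 : Matrix (Fin 4) (Fin 4) ℝ)) := by
      rw [← e1, hPt, e2, smul_smul]
      norm_num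
    exact smul_right_injective _ (by norm_num : (4 : ℝ) ≠ 0) this
  refine ⟨fun i j => ?_, hHH, ?_⟩
  · rw [trace_sq] at t5
    have h0 : ∑ i, ∑ j, (1 - H i j ^ 2) = 0 := by
      simp_rw [sum_sub_distrib]
      rw [t5]
      simp
      norm_num
    have hn : ∀ i j, 0 ≤ 1 - H i j ^ 2 := fun i j => by
      have : H i j ^ 2 ≤ 1 := by rw [sq_le_one_iff_abs_le_one]; exact hH i j
      linarith
    have h1 := (sum_eq_zero_iff_of_nonneg fun i _ =>
      sum_nonneg fun j _ => hn i j).1 h0 i (mem_univ i)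
    have h2 := (sum_eq_zero_iff_of_nonneg fun j _ => hn i j).1 h1 j (mem_univ j)
    have h3 : H i j ^ 2 = 1 := by linarith
    have h4 : (H i j - 1) * (H i j + 1) = 0 := by linear_combination h3
    rcases mul_eq_zero.1 h4 with h5 | h5
    · left; linarith
    · right; linarith
  · have h1 : ((1 / 4 : ℝ) • H) * H.transpose = 1 := by
      rw [Matrix.smul_mul, hHH, smul_smul]
      norm_num
    have h2 : H.transpose * ((1 / 4 : ℝ) • H) = 1 := mul_eq_one_comm.1 h1
    rw [Matrix.mul_smul] at h2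
    calc H.transpose * H = (4 : ℝ) • ((1 / 4 : ℝ) • (H.transpose * H)) := by
          rw [smul_smul]; norm_num
      _ = (4 : ℝ) • (1 : Matrix (Fin 4) (Fin 4) ℝ) := by rw [h2]

/-- The sign of a Boolean. -/
def sZ (b : Bool) : ℤ := if b then 1 else -1

lemma sign_odd : ∀ u : Fin 4 → Bool, ∏ i, sZ (u i) = -1 →
    (∃ j, (∀ i, sZ (u i) = if i = j then 1 else -1) ∨
      ∀ i, sZ (u i) = -(if i = j then 1 else -1)) ∧
    (∑ i, sZ (u i) = 2 ∨ ∑ i, sZ (u i) = -2) := by decide +kernel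

lemma sign_even : ∀ u v : Fin 4 → Bool, ∏ i, sZ (u i) = 1 → ∏ i, sZ (v i) = 1 →
    (∀ i, sZ (u i) = sZ (v i)) ∨ (∀ i, sZ (u i) = -sZ (v i)) ∨ ∑ i, sZ (u i) * sZ (v i) = 0 := by
  decide +kernel

lemma sign_mixed : ∀ u v : Fin 4 → Bool, ∏ i, sZ (u i) = 1 → ∏ i, sZ (v i) = -1 →
    ∑ i, sZ (u i) * sZ (v i) ≠ 0 := by decide +kernel

lemma sign_par : ∀ u : Fin 4 → Bool, ∏ i, sZ (u i) = 1 ∨ ∏ i, sZ (u i) = -1 := by decide +kernel

lemma exists_bool (u : Fin 4 → ℝ) (hu : ∀ i, u i = 1 ∨ u i = -1) :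
    ∃ b : Fin 4 → Bool, ∀ i, u i = (sZ (b i) : ℤ) := by
  classical
  refine ⟨fun i => decide (u i = 1), fun i => ?_⟩
  rcases hu i with h | h
  · simp [sZ, h]
  · simp [sZ, h]

end Pool.Agent.X204.NQ
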