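import Pool.Agent.X204.NQH
import Pool.Agent.X204.NQK

/-!
# Dimension four: at most eight hyperplanes
-/

set_option autoImplicit false

open Finset Module

namespace Pool.Agent.X204.NQ

variable {X : Type*} [NormedAddCommGroup X] [NormedSpace ℝ X]

/-- The matrix of two systems. -/
def MM (g : Fin 4 → X →L[ℝ] ℝ) (x : Fin 4 → X) : Matrix (Fin 4) (Fin 4) ℝ :=
  Matrix.of fun i j => g i (x j)

lemma MM_apply (g : Fin 4 → X →L[ℝ] ℝ) (x : Fin 4 → X) (i j : Fin 4) : MM g x i j = g i (x j) :=
  rfl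

lemma MM_eq {x x' : Fin 4 → X} {g g' : Fin 4 → X →L[ℝ] ℝ} (h : Sys 4 x g) (h' : Sys 4 x' g')
    (hX : finrank ℝ X = 4) : MM g x' * GG * MM g' x = (4 : ℝ) • GG := by
  ext i j
  have h1 := pair_identity h' h (by norm_num : 3 ≤ 4) hX i j
  have h2 := sum_eq_sf (n := 4) (by norm_num) g' (x j)
  rw [Matrix.mul_apply, Matrix.smul_apply, smul_eq_mul, GG_apply]
  simp only [Matrix.mul_apply, Fin.sum_univ_four, GG_apply, MM_apply] at h1 h2 ⊢
  have e : (if i = j then (2 : ℝ) else -2) = 2 * (if i = j then 1 else -1) := by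
    split_ifs <;> norm_num
  rw [e] at h1
  have h3 : sf g' (x j) = -(1 / 2) * (g' 0 (x j) + g' 1 (x j) + g' 2 (x j) + g' 3 (x j)) := by
    rw [h2]
    push_cast
    ring
  rw [h3] at h1
  clear e
  generalize (if i = j then (1 : ℝ) else -1) = G at h1 ⊢
  simp
  linear_combination 2 * h1

theorem MM_rigid {x x' : Fin 4 → X} {g g' : Fin 4 → X →L[ℝ] ℝ} (h : Sys 4 x g) (h' : Sys 4 x' g')
    (hX : finrank ℝ X = 4) :
    (∀ i j, g i (x' j) = 1 ∨ g i (x' j) = -1) ∧
      MM g x' * (MM g x').transpose = (4 : ℝ) • (1 : Matrix (Fin 4) (Fin 4) ℝ) ∧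
      (MM g x').transpose * MM g x' = (4 : ℝ) • (1 : Matrix (Fin 4) (Fin 4) ℝ) :=
  four_rigid (MM g x') (MM g' x) (fun i j => abs_le_one_of (h.hg i) (h'.hx j))
    (fun i j => abs_le_one_of (h'.hg i) (h.hx j)) (MM_eq h h' hX)

/-- A vector is determined by the values of the functionals of a system. -/
lemma Sys.ext4 {x : Fin 4 → X} {g : Fin 4 → X →L[ℝ] ℝ} (h : Sys 4 x g) (hX : finrank ℝ X = 4)
    {v w : X} (hvw : ∀ i, g i v = g i w) : v = w := by
  have e1 : sf g v = sf g w := by
    have a := sum_eq_sf (n := 4) (by norm_num) g v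
    have b := sum_eq_sf (n := 4) (by norm_num) g w
    have c : ∑ i, g i v = ∑ i, g i w := sum_congr rfl fun i _ => hvw i
    rw [a, b] at c
    push_cast at c
    linarith
  rw [← h.expand (by norm_num) hX v, ← h.expand (by norm_num) hX w]
  refine sum_congr rfl fun k _ => ?_
  rw [hvw, e1]

/-- The vector with given values. -/
noncomputable def vec (x : Fin 4 → X) (c : Fin 4 → ℝ) : X :=
  ∑ k, ((c k - (∑ i, c i) / 2) / 2) • x k

lemma Sys.vec_apply {x : Fin 4 → X} {g : Fin 4 → X →L[ℝ] ℝ} (h : Sys 4 x g) (c : Fin 4 → ℝ)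
    (i : Fin 4) : g i (vec x c) = c i := by
  rw [vec, h.apply_sum, ← sum_div, sum_sub_distrib, sum_const, card_univ, Fintype.card_fin,
    nsmul_eq_mul]
  push_cast
  ring

/-- all vertices of the cube of `g'` are in the unit ball -/
theorem vertices {x x' : Fin 4 → X} {g g' : Fin 4 → X →L[ℝ] ℝ} (h : Sys 4 x g) (h' : Sys 4 x' g')
    (hX : finrank ℝ X = 4) {k0 : Fin 4} (hk0 : sf g' (x k0) ≠ 1 ∧ sf g' (x k0) ≠ -1)
    (c : Fin 4 → ℝ) (hc : ∀ i, c i = 1 ∨ c i = -1) : ‖vec x' c‖ ≤ 1 := by
  obtain ⟨r1, r2, r3⟩ := MM_rigid h' h hX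
  choose b hb using fun k => exists_bool (fun i => g' i (x k)) (fun i => r1 i k)
  obtain ⟨cb, hcb⟩ := exists_bool c hc
  -- the column `k0` is even
  have hev0 : ∏ i, sZ (b k0 i) = 1 := by
    rcases sign_par (b k0) with h1 | h1
    · exact h1
    · exfalso
      have h2 := sum_eq_sf (n := 4) (by norm_num) g' (x k0)
      have h3 : ∑ i, g' i (x k0) = ((∑ i, sZ (b k0 i) : ℤ) : ℝ) := by
        push_cast
        exact sum_congr rfl fun i _ => hb k0 i
      rw [h3] at h2
      rcases (sign_odd (b k0) h1).2 with h4 | h4 <;> rw [h4] at h2 <;> push_cast at h2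
      · exact hk0.2 (by linarith)
      · exact hk0.1 (by linarith)
  have horth : ∀ k l, k ≠ l → ∑ i, sZ (b k i) * sZ (b l i) = 0 := by
    intro k l hkl
    have h1 := congrFun (congrFun r3 k) l
    rw [Matrix.mul_apply, Matrix.smul_apply, Matrix.one_apply_ne hkl, smul_zero] at h1
    have h2 : ∑ i, (MM g' x).transpose k i * MM g' x i l =
        ((∑ i, sZ (b k i) * sZ (b l i) : ℤ) : ℝ) := by
      push_cast
      refine sum_congr rfl fun i _ => ?_
      rw [Matrix.transpose_apply, MM_apply, MM_apply, ← hb k i, ← hb l i]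
    rw [h2] at h1
    exact_mod_cast h1
  have hev : ∀ k, ∏ i, sZ (b k i) = 1 := by
    intro k
    by_cases hk : k = k0
    · rw [hk]; exact hev0
    · rcases sign_par (b k) with h1 | h1
      · exact h1
      · exact absurd (horth k0 k (Ne.symm hk)) (sign_mixed _ _ hev0 h1)
  rcases sign_par cb with h1 | h1
  · -- even
    by_cases hex : ∃ k, (∀ i, sZ (cb i) = sZ (b k i)) ∨ ∀ i, sZ (cb i) = -sZ (b k i)
    · obtain ⟨k, hk | hk⟩ := hex
      · have : vec x' c = x k := by
          refine h'.ext4 hX fun i => ?_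
          rw [h'.vec_apply, hcb, hk, ← hb k i]
        rw [this]
        exact h.hx k
      · have : vec x' c = -x k := by
          refine h'.ext4 hX fun i => ?_
          rw [h'.vec_apply, map_neg, hcb, hk]
          push_cast
          rw [← hb k i]
        rw [this, norm_neg]
        exact h.hx k
    · exfalso
      push Not at hex
      have hz : ∀ k, ∑ i, sZ (cb i) * sZ (b k i) = 0 := by
        intro k
        rcases sign_even cb (b k) h1 (hev k) with h2 | h2 | h2
        · obtain ⟨i, hi⟩ := (hex k).1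
          exact absurd (h2 i) hi
        · obtain ⟨i, hi⟩ := (hex k).2
          exact absurd (h2 i) hi
        · exact h2
      have hz' : ∀ k, ∑ i, c i * MM g' x i k = 0 := by
        intro k
        have : ∑ i, c i * MM g' x i k = ((∑ i, sZ (cb i) * sZ (b k i) : ℤ) : ℝ) := by
          push_cast
          refine sum_congr rfl fun i _ => ?_
          rw [MM_apply, hcb, ← hb k i]
        rw [this, hz k]
        norm_num
      have h3 : Matrix.vecMul c (MM g' x) = 0 := by
        ext k
        exact hz' k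
      have h4 : Matrix.vecMul c (MM g' x * (MM g' x).transpose) = 0 := by
        rw [← Matrix.vecMul_vecMul, h3, Matrix.zero_vecMul]
      rw [r2, Matrix.vecMul_smul, Matrix.vecMul_one] at h4
      have h5 := congrFun h4 0
      rw [Pi.smul_apply, smul_eq_mul] at h5
      rcases hc 0 with h6 | h6 <;> rw [h6] at h5 <;> norm_num at h5
  · -- odd
    obtain ⟨j, hj | hj⟩ := (sign_odd cb h1).1
    · have : vec x' c = x' j := by
        refine h'.ext4 hX fun i => ?_
        rw [h'.vec_apply, hcb, hj, h'.hgx]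
        split_ifs <;> norm_num
      rw [this]
      exact h'.hx j
    · have : vec x' c = -x' j := by
        refine h'.ext4 hX fun i => ?_
        rw [h'.vec_apply, map_neg, hcb, hj, h'.hgx]
        split_ifs <;> norm_num
      rw [this, norm_neg]
      exact h'.hx j

/-- coordinate vectors -/
noncomputable def cv (x : Fin 4 → X) (k : Fin 4) : X := vec x fun i => if i = k then 1 else 0

/-- If all vertices are in the unit ball, the other systems have signed permuted functionals. -/
theorem case_two {x x' : Fin 4 → X} {g g' : Fin 4 → X →L[ℝ] ℝ} (h : Sys 4 x g) (h' : Sys 4 x' g')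
    (hX : finrank ℝ X = 4)
    (hball : ∀ c : Fin 4 → ℝ, (∀ i, c i = 1 ∨ c i = -1) → ‖vec x c‖ ≤ 1) (k : Fin 4) :
    sf g' (cv x k) = 1 / 2 ∨ sf g' (cv x k) = -(1 / 2) := by
  obtain ⟨r1, r2, r3⟩ := MM_rigid h h' hX
  set K := MM g x' with hK
  set C : Matrix (Fin 4) (Fin 4) ℝ := MM g' (cv x) with hC
  have hcv : ∀ i k, g i (cv x k) = if i = k then 1 else 0 := fun i k => by
    rw [cv, h.vec_apply]
  have hexp : ∀ v, v = ∑ k, g k v • cv x k := by
    intro v
    refine h.ext4 hX fun i => ?_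
    rw [map_sum]
    simp_rw [map_smul, hcv, smul_eq_mul]
    simp
  have hCK : C * K = GG := by
    ext i j
    rw [Matrix.mul_apply, GG_apply]
    have h1 : g' i (x' j) = ∑ k, C i k * K k j := by
      conv_lhs => rw [hexp (x' j)]
      rw [map_sum]
      refine sum_congr rfl fun k _ => ?_
      rw [map_smul, smul_eq_mul, mul_comm]
      rfl
    rw [← h1, h'.hgx]
  have hC4 : (4 : ℝ) • C = GG * K.transpose := by
    rw [← hCK, Matrix.mul_assoc, r2, Matrix.mul_smul, Matrix.mul_one]
  have hCC : (16 : ℝ) • (C * C.transpose) = (16 : ℝ) • (1 : Matrix (Fin 4) (Fin 4) ℝ) := by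
    have e1 : ((4 : ℝ) • C) * ((4 : ℝ) • C).transpose = (16 : ℝ) • (C * C.transpose) := by
      rw [Matrix.transpose_smul, Matrix.smul_mul, Matrix.mul_smul, smul_smul]
      norm_num
    rw [← e1, hC4, Matrix.transpose_mul, Matrix.transpose_transpose, GG_t, Matrix.mul_assoc,
      ← Matrix.mul_assoc K.transpose, r3, Matrix.smul_mul, Matrix.one_mul, Matrix.mul_smul,
      GG_mul, smul_smul]
    norm_num
  have hCC1 : C * C.transpose = 1 := smul_right_injective _ (by norm_num : (16 : ℝ) ≠ 0) hCC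
  have hCC2 : C.transpose * C = 1 := mul_eq_one_comm.1 hCC1
  -- rows
  have hrow : ∀ i, ∑ k, |C i k| ≤ 1 := by
    intro i
    set c : Fin 4 → ℝ := fun k => if 0 ≤ C i k then 1 else -1 with hc
    have hcpm : ∀ k, c k = 1 ∨ c k = -1 := fun k => by
      simp only [hc]
      split_ifs <;> simp
    have h1 : vec x c = ∑ k, c k • cv x k := by
      refine h.ext4 hX fun i => ?_
      rw [h.vec_apply, map_sum]
      simp_rw [map_smul, hcv, smul_eq_mul]
      simp
    have h2 : g' i (vec x c) = ∑ k, |C i k| := by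
      rw [h1, map_sum]
      refine sum_congr rfl fun k _ => ?_
      rw [map_smul, smul_eq_mul]
      show c k * C i k = |C i k|
      simp only [hc]
      split_ifs with h3
      · rw [abs_of_nonneg h3, one_mul]
      · rw [abs_of_neg (not_le.1 h3)]; ring
    rw [← h2]
    exact (abs_le.1 (abs_le_one_of (h'.hg i) (hball c hcpm))).2
  have hrow2 : ∀ i, ∑ k, C i k ^ 2 = 1 := by
    intro i
    have h1 := congrFun (congrFun hCC1 i) i
    rw [Matrix.mul_apply, Matrix.one_apply_eq] at h1
    rw [← h1]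
    exact sum_congr rfl fun k _ => by rw [Matrix.transpose_apply, sq]
  have habs : ∀ i k, |C i k| ≤ 1 := fun i k =>
    (single_le_sum (f := fun k => |C i k|) (fun k _ => abs_nonneg _) (mem_univ k)).trans (hrow i)
  have hent : ∀ i k, |C i k| - C i k ^ 2 = 0 := by
    intro i k
    have hn : ∀ k, 0 ≤ |C i k| - C i k ^ 2 := fun k => by
      rw [← sq_abs]
      nlinarith [abs_nonneg (C i k), habs i k]
    have h1 : ∑ k, (|C i k| - C i k ^ 2) = 0 := by
      refine le_antisymm ?_ (sum_nonneg fun k _ => hn k)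
      rw [sum_sub_distrib, hrow2]
      linarith [hrow i]
    exact (sum_eq_zero_iff_of_nonneg fun k _ => hn k).1 h1 k (mem_univ k)
  have hent2 : ∀ i k, C i k = 0 ∨ C i k = 1 ∨ C i k = -1 := by
    intro i k
    have h1 := hent i k
    rw [← sq_abs] at h1
    have h2 : |C i k| * (1 - |C i k|) = 0 := by linear_combination h1
    rcases mul_eq_zero.1 h2 with h3 | h3
    · left; exact abs_eq_zero.1 h3
    · right
      have : |C i k| = 1 := by linarith
      rcases abs_eq (zero_le_one) |>.1 this with h4 | h4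
      · left; exact h4
      · right; exact h4
  have hcol : ∑ i, C i k ^ 2 = 1 := by
    have h1 := congrFun (congrFun hCC2 k) k
    rw [Matrix.mul_apply, Matrix.one_apply_eq] at h1
    rw [← h1]
    exact sum_congr rfl fun i _ => by rw [Matrix.transpose_apply, sq]
  have hsum : ∑ i, C i k = 1 ∨ ∑ i, C i k = -1 := by
    obtain ⟨i, hi⟩ : ∃ i, C i k ≠ 0 := by
      by_contra hcon
      push Not at hcon
      simp_rw [hcon] at hcol
      norm_num at hcol
    have h1 : C i k ^ 2 = 1 := by
      rcases hent2 i k with h2 | h2 | h2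
      · exact absurd h2 hi
      · rw [h2]; norm_num
      · rw [h2]; norm_num
    rw [← add_sum_erase univ (fun i => C i k ^ 2) (mem_univ i), h1] at hcol
    have h2 : ∑ l ∈ univ.erase i, C l k ^ 2 = 0 := by linarith
    have h3 : ∀ l ∈ univ.erase i, C l k = 0 := fun l hl =>
      pow_eq_zero_iff two_ne_zero |>.1
        ((sum_eq_zero_iff_of_nonneg fun l _ => sq_nonneg (C l k)).1 h2 l hl)
    rw [← add_sum_erase univ (fun i => C i k) (mem_univ i), sum_eq_zero h3, add_zero]
    rcases hent2 i k with h2 | h2 | h2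
    · exact absurd h2 hi
    · exact Or.inl h2
    · exact Or.inr h2
  have hsf : ∑ i, C i k = -2 * sf g' (cv x k) := by
    have := sum_eq_sf (n := 4) (by norm_num) g' (cv x k)
    have h1 : ∑ i, C i k = ∑ i, g' i (cv x k) := rfl
    rw [h1, this]
    push_cast
    ring
  rw [hsf] at hsum
  rcases hsum with h1 | h1
  · right; linarith
  · left; linarith

/-- counting functionals by their signs -/
lemma card_signs (T : Finset (X →L[ℝ] ℝ)) (v : Fin 4 → X) {c : ℝ}
    (hv : ∀ ψ ψ' : X →L[ℝ] ℝ, (∀ k, ψ (v k) = ψ' (v k)) → ψ = ψ')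
    (hT : ∀ ψ ∈ T, ∀ k, ψ (v k) = c ∨ ψ (v k) = -c) : T.card ≤ 16 := by
  classical
  have h1 : T.card ≤ (univ : Finset (Fin 4 → Bool)).card := by
    refine card_le_card_of_injOn (fun ψ k => decide (ψ (v k) = c)) (fun _ _ => by simp) ?_
    intro ψ hψ ψ' hψ' h
    refine hv _ _ fun k => ?_
    have h2 : decide (ψ (v k) = c) = decide (ψ' (v k) = c) := congrFun h k
    have h3 : ψ (v k) = c ↔ ψ' (v k) = c := by simpa using h2
    by_cases h4 : ψ (v k) = c
    · rw [h4, h3.1 h4]
    · have h5 : ψ' (v k) ≠ c := fun h6 => h4 (h3.2 h6)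
      rw [(hT ψ hψ k).resolve_left h4, (hT ψ' hψ' k).resolve_left h5]
  simpa using h1

theorem card_Φ_four (hX : finrank ℝ X = 4) (T : Finset (X →L[ℝ] ℝ))
    (hT : ∀ ψ ∈ T, ψ ∈ Φ 4 X) : T.card ≤ 16 := by
  classical
  rcases T.eq_empty_or_nonempty with rfl | ⟨ψ0, hψ0⟩
  · simp
  obtain ⟨x, g, h, rfl⟩ := hT ψ0 hψ0
  by_cases hcase : ∀ ψ ∈ T, ∀ k, ψ (x k) = 1 ∨ ψ (x k) = -1
  · refine card_signs T x (fun ψ ψ' hh => ?_) hcase
    ext v
    rw [← h.expand (by norm_num) hX v, map_sum, map_sum]
    refine sum_congr rfl fun k _ => ?_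
    rw [map_smul, map_smul, hh k]
  · push Not at hcase
    obtain ⟨ψ, hψ, k0, hk0⟩ := hcase
    obtain ⟨x', g', h', rfl⟩ := hT ψ hψ
    have hball := vertices h h' hX hk0
    refine card_signs T (cv x') (c := 1 / 2) (fun ψ ψ' hh => ?_) ?_
    · have hcv : ∀ i k, g' i (cv x' k) = if i = k then 1 else 0 := fun i k => by
        rw [cv, h'.vec_apply]
      have hexp : ∀ v, v = ∑ k, g' k v • cv x' k := by
        intro v
        refine h'.ext4 hX fun i => ?_
        rw [map_sum]
        simp_rw [map_smul, hcv, smul_eq_mul]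
        simp
      ext v
      rw [hexp v, map_sum, map_sum]
      refine sum_congr rfl fun k _ => ?_
      rw [map_smul, map_smul, hh k]
    · intro ψ hψ k
      obtain ⟨x'', g'', h'', rfl⟩ := hT ψ hψ
      exact case_two h' h'' hX hball k

end Pool.Agent.X204.NQ
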