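import Pool.Agent.X204.NQL

/-!
# Dimension four: the number of the hyperplanes
-/

set_option autoImplicit false

open Finset Module

namespace Pool.Agent.X204.NQ

variable {X : Type*} [NormedAddCommGroup X] [NormedSpace ℝ X] {n : ℕ}

theorem hyperplanes_of_functionals (hn : 3 ≤ n) (hX : finrank ℝ X = n) {M : ℕ}
    (hM : ∀ T : Finset (X →L[ℝ] ℝ), (∀ φ ∈ T, φ ∈ Φ n X) → T.card ≤ M)
    (s : Finset (Submodule ℝ X)) (hs : ∀ Y ∈ s, Y ∈ maxHyperplanes n X) :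
    2 * s.card ≤ M := by
  classical
  have hex : ∀ Y : Submodule ℝ X, ∃ φ : X →L[ℝ] ℝ, Y ∈ s → φ ∈ Φ n X ∧
      Y = LinearMap.ker (φ : X →ₗ[ℝ] ℝ) := by
    intro Y
    by_cases hY : Y ∈ s
    · obtain ⟨x, g, h1, h2⟩ := exists_sys hn hX (hs Y hY)
      exact ⟨sf g, fun _ => ⟨⟨x, g, h1, rfl⟩, h2⟩⟩
    · exact ⟨0, fun h => absurd h hY⟩
  choose φ hφ using hex
  have hneg : ∀ ψ ∈ Φ n X, -ψ ∈ Φ n X := by
    rintro ψ ⟨x, g, h1, rfl⟩
    exact ⟨_, _, h1.neg, (sf_neg g).symm⟩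
  have hne : ∀ ψ ∈ Φ n X, ψ ≠ 0 := by
    rintro ψ ⟨x, g, h1, rfl⟩ h0
    have := h1.sf_x hn ⟨0, by omega⟩
    rw [h0] at this
    simp at this
  have hker : ∀ ψ : X →L[ℝ] ℝ, LinearMap.ker ((-ψ : X →L[ℝ] ℝ) : X →ₗ[ℝ] ℝ) =
      LinearMap.ker (ψ : X →ₗ[ℝ] ℝ) := by
    intro ψ
    ext y
    rw [LinearMap.mem_ker, LinearMap.mem_ker]
    show -(ψ y) = 0 ↔ ψ y = 0
    exact neg_eq_zero
  set A : Finset (X →L[ℝ] ℝ) := s.image φ with hA
  set B : Finset (X →L[ℝ] ℝ) := s.image fun Y => -φ Y with hB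
  have hAc : A.card = s.card := by
    refine card_image_of_injOn fun Y hY Z hZ h => ?_
    have h1 := (hφ Y hY).2
    have h2 := (hφ Z hZ).2
    rw [h1, h2]
    exact congrArg (fun ψ : X →L[ℝ] ℝ => LinearMap.ker (ψ : X →ₗ[ℝ] ℝ)) h
  have hBc : B.card = s.card := by
    refine card_image_of_injOn fun Y hY Z hZ h => ?_
    have h1 := (hφ Y hY).2
    have h2 := (hφ Z hZ).2
    rw [h1, h2]
    exact congrArg (fun ψ : X →L[ℝ] ℝ => LinearMap.ker (ψ : X →ₗ[ℝ] ℝ)) (neg_injective h)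
  have hAB : Disjoint A B := by
    rw [Finset.disjoint_left]
    intro ψ h1 h2
    obtain ⟨Y, hY, rfl⟩ := mem_image.1 h1
    obtain ⟨Z, hZ, h3⟩ := mem_image.1 h2
    have h4 : Z = Y := by
      have e1 := (hφ Y hY).2
      have e2 := (hφ Z hZ).2
      rw [← hker, h3] at e2
      exact e2.trans e1.symm
    subst h4
    have h5 : (2 : ℝ) • φ Z = 0 := by
      rw [two_smul]
      nth_rewrite 1 [← h3]
      exact neg_add_cancel _
    exact hne _ (hφ Z hZ).1 ((smul_eq_zero.1 h5).resolve_left two_ne_zero)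
  have h6 := hM (A ∪ B) (by
    intro ψ hψ
    rcases mem_union.1 hψ with h | h
    · obtain ⟨Y, hY, rfl⟩ := mem_image.1 h
      exact (hφ Y hY).1
    · obtain ⟨Y, hY, rfl⟩ := mem_image.1 h
      exact hneg _ (hφ Y hY).1)
  rw [card_union_of_disjoint hAB, hAc, hBc] at h6
  omega

theorem ncard_of_functionals (hn : 3 ≤ n) (hX : finrank ℝ X = n) {M : ℕ}
    (hM : ∀ T : Finset (X →L[ℝ] ℝ), (∀ φ ∈ T, φ ∈ Φ n X) → T.card ≤ M) :
    (maxHyperplanes n X).Finite ∧ 2 * (maxHyperplanes n X).ncard ≤ M := by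
  classical
  have hfin := (upper hn hX).1
  refine ⟨hfin, ?_⟩
  rw [Set.ncard_eq_toFinset_card _ hfin]
  exact hyperplanes_of_functionals hn hX hM _ fun Y hY => (Set.Finite.mem_toFinset _).1 hY

theorem four_upper (hX : finrank ℝ X = 4) : (maxHyperplanes 4 X).Finite ∧
    (maxHyperplanes 4 X).ncard ≤ 8 := by
  obtain ⟨h1, h2⟩ := ncard_of_functionals (n := 4) (by norm_num) hX (card_Φ_four hX)
  exact ⟨h1, by omega⟩

theorem four_cube : (maxHyperplanes 4 (Fin 4 → ℝ)).ncard = 8 :=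
  le_antisymm (four_upper (by rw [finrank_pi, Fintype.card_fin])).2
    (lower (n := 4) (by norm_num))

end Pool.Agent.X204.NQ
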