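import Mathlib

/-!
# Sign conditions without solution
-/

set_option autoImplicit false

open Finset Module

namespace Pool.Agent.X204.NR

/-- The signs. -/
def D : Fin 4 → Fin 4 → ℝ := ![![1, 1, 1, 1], ![1, 1, -1, -1], ![1, -1, 1, -1], ![1, -1, -1, 1]]

/-- The weights of the points. -/
noncomputable def E : Fin 4 → Fin 4 → ℝ :=
  ![![12 / 31, 14 / 31, 12 / 31, 14 / 31], ![14 / 31, 12 / 31, 14 / 31, 12 / 31],
    ![12 / 31, 14 / 31, 14 / 31, 12 / 31], ![14 / 31, 12 / 31, 12 / 31, 14 / 31]]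

/-- The coefficients of the functionals. -/
noncomputable def C : Fin 4 → Fin 4 → ℝ :=
  ![![-(3 / 4), -(1 / 2), -(3 / 4), -(1 / 2)], ![-(1 / 2), -(3 / 4), -(1 / 2), -(3 / 4)],
    ![-(3 / 4), -(1 / 2), -(1 / 2), -(3 / 4)], ![-(1 / 2), -(3 / 4), -(3 / 4), -(1 / 2)]]

/-- The functionals. -/
noncomputable def Psi (k j : Fin 4) (y : Fin 4 → ℝ) : ℝ :=
  ∑ l, D k l * y l + (C k j - 1) * (D k j * y j)

lemma zero_of {u v w : ℝ} (h1 : 0 ≤ u * w) (h2 : 0 ≤ v * w) (huv : u * v < 0) : w = 0 := by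
  by_contra hw
  have h3 : 0 < w ^ 2 := by positivity
  have h4 : 0 ≤ (u * w) * (v * w) := mul_nonneg h1 h2
  have h5 : (u * w) * (v * w) = (u * v) * w ^ 2 := by ring
  rw [h5] at h4
  nlinarith

lemma P00 (z : Fin 4 → ℝ) : Psi 0 0 z = -(3 / 4) * z 0 + z 1 + z 2 + z 3 := by
  simp [Psi, D, C, Fin.sum_univ_four]
  ring

lemma P01 (z : Fin 4 → ℝ) : Psi 0 1 z = z 0 - (1 / 2) * z 1 + z 2 + z 3 := by
  simp [Psi, D, C, Fin.sum_univ_four]
  ring

lemma P02 (z : Fin 4 → ℝ) : Psi 0 2 z = z 0 + z 1 - (3 / 4) * z 2 + z 3 := by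
  simp [Psi, D, C, Fin.sum_univ_four]
  ring

lemma P03 (z : Fin 4 → ℝ) : Psi 0 3 z = z 0 + z 1 + z 2 - (1 / 2) * z 3 := by
  simp [Psi, D, C, Fin.sum_univ_four]
  ring

lemma P10 (z : Fin 4 → ℝ) : Psi 1 0 z = -(1 / 2) * z 0 + z 1 - z 2 - z 3 := by
  simp [Psi, D, C, Fin.sum_univ_four]
  ring

lemma P11 (z : Fin 4 → ℝ) : Psi 1 1 z = z 0 - (3 / 4) * z 1 - z 2 - z 3 := by
  simp [Psi, D, C, Fin.sum_univ_four]
  ring

lemma P12 (z : Fin 4 → ℝ) : Psi 1 2 z = z 0 + z 1 + (1 / 2) * z 2 - z 3 := by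
  simp [Psi, D, C, Fin.sum_univ_four]
  ring

lemma P13 (z : Fin 4 → ℝ) : Psi 1 3 z = z 0 + z 1 - z 2 + (3 / 4) * z 3 := by
  simp [Psi, D, C, Fin.sum_univ_four]
  ring

lemma P20 (z : Fin 4 → ℝ) : Psi 2 0 z = -(3 / 4) * z 0 - z 1 + z 2 - z 3 := by
  simp [Psi, D, C, Fin.sum_univ_four]
  ring

lemma P21 (z : Fin 4 → ℝ) : Psi 2 1 z = z 0 + (1 / 2) * z 1 + z 2 - z 3 := by
  simp [Psi, D, C, Fin.sum_univ_four]
  ring

lemma P22 (z : Fin 4 → ℝ) : Psi 2 2 z = z 0 - z 1 - (1 / 2) * z 2 - z 3 := by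
  simp [Psi, D, C, Fin.sum_univ_four]
  ring

lemma P23 (z : Fin 4 → ℝ) : Psi 2 3 z = z 0 - z 1 + z 2 + (3 / 4) * z 3 := by
  simp [Psi, D, C, Fin.sum_univ_four]
  ring

lemma P30 (z : Fin 4 → ℝ) : Psi 3 0 z = -(1 / 2) * z 0 - z 1 - z 2 + z 3 := by
  simp [Psi, D, C, Fin.sum_univ_four]
  ring

lemma P31 (z : Fin 4 → ℝ) : Psi 3 1 z = z 0 + (3 / 4) * z 1 - z 2 + z 3 := by
  simp [Psi, D, C, Fin.sum_univ_four]
  ring

lemma P32 (z : Fin 4 → ℝ) : Psi 3 2 z = z 0 - z 1 + (3 / 4) * z 2 + z 3 := by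
  simp [Psi, D, C, Fin.sum_univ_four]
  ring

lemma P33 (z : Fin 4 → ℝ) : Psi 3 3 z = z 0 - z 1 - z 2 - (1 / 2) * z 3 := by
  simp [Psi, D, C, Fin.sum_univ_four]
  ring

lemma q01 (a z : Fin 4 → ℝ)
    (h : ∀ k j l, l ≠ j → 0 ≤ (D k l * a l) * Psi k j z) (hl : a 0 ≠ 0) (hm : a 1 ≠ 0) :
    (z 2 = 0 ∧ z 3 = 0) ∧ (z 0 = z 1 ∨ z 0 = -z 1) := by
  rcases lt_or_gt_of_ne (mul_ne_zero hl hm) with hneg | hpos
  · have key : ∀ k j, 0 ≠ j → 1 ≠ j → D k 0 * D k 1 = 1 → Psi k j z = 0 :=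
      fun k j h1 h2 h3 => zero_of (h k j 0 h1) (h k j 1 h2) (by
        have : D k 0 * a 0 * (D k 1 * a 1) = (D k 0 * D k 1) * (a 0 * a 1) := by ring
        rw [this, h3]
        linarith)
    have e1 := key 0 2 (by decide) (by decide) (by simp [D])
    rw [P02] at e1
    have e2 := key 0 3 (by decide) (by decide) (by simp [D])
    rw [P03] at e2
    have e3 := key 1 2 (by decide) (by decide) (by simp [D])
    rw [P12] at e3
    have e4 := key 1 3 (by decide) (by decide) (by simp [D])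
    rw [P13] at e4
    exact ⟨⟨by linarith, by linarith⟩, Or.inr (by linarith)⟩
  · have key : ∀ k j, 0 ≠ j → 1 ≠ j → D k 0 * D k 1 = -1 → Psi k j z = 0 :=
      fun k j h1 h2 h3 => zero_of (h k j 0 h1) (h k j 1 h2) (by
        have : D k 0 * a 0 * (D k 1 * a 1) = (D k 0 * D k 1) * (a 0 * a 1) := by ring
        rw [this, h3]
        linarith)
    have e1 := key 2 2 (by decide) (by decide) (by simp [D])
    rw [P22] at e1
    have e2 := key 2 3 (by decide) (by decide) (by simp [D])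
    rw [P23] at e2
    have e3 := key 3 2 (by decide) (by decide) (by simp [D])
    rw [P32] at e3
    have e4 := key 3 3 (by decide) (by decide) (by simp [D])
    rw [P33] at e4
    exact ⟨⟨by linarith, by linarith⟩, Or.inl (by linarith)⟩

lemma q02 (a z : Fin 4 → ℝ)
    (h : ∀ k j l, l ≠ j → 0 ≤ (D k l * a l) * Psi k j z) (hl : a 0 ≠ 0) (hm : a 2 ≠ 0) :
    (z 1 = 0 ∧ z 3 = 0) ∧ (z 0 = z 2 ∨ z 0 = -z 2) := by
  rcases lt_or_gt_of_ne (mul_ne_zero hl hm) with hneg | hpos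
  · have key : ∀ k j, 0 ≠ j → 2 ≠ j → D k 0 * D k 2 = 1 → Psi k j z = 0 :=
      fun k j h1 h2 h3 => zero_of (h k j 0 h1) (h k j 2 h2) (by
        have : D k 0 * a 0 * (D k 2 * a 2) = (D k 0 * D k 2) * (a 0 * a 2) := by ring
        rw [this, h3]
        linarith)
    have e1 := key 0 1 (by decide) (by decide) (by simp [D])
    rw [P01] at e1
    have e2 := key 0 3 (by decide) (by decide) (by simp [D])
    rw [P03] at e2
    have e3 := key 2 1 (by decide) (by decide) (by simp [D])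
    rw [P21] at e3
    have e4 := key 2 3 (by decide) (by decide) (by simp [D])
    rw [P23] at e4
    exact ⟨⟨by linarith, by linarith⟩, Or.inr (by linarith)⟩
  · have key : ∀ k j, 0 ≠ j → 2 ≠ j → D k 0 * D k 2 = -1 → Psi k j z = 0 :=
      fun k j h1 h2 h3 => zero_of (h k j 0 h1) (h k j 2 h2) (by
        have : D k 0 * a 0 * (D k 2 * a 2) = (D k 0 * D k 2) * (a 0 * a 2) := by ring
        rw [this, h3]
        linarith)
    have e1 := key 1 1 (by decide) (by decide) (by simp [D])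
    rw [P11] at e1
    have e2 := key 1 3 (by decide) (by decide) (by simp [D])
    rw [P13] at e2
    have e3 := key 3 1 (by decide) (by decide) (by simp [D])
    rw [P31] at e3
    have e4 := key 3 3 (by decide) (by decide) (by simp [D])
    rw [P33] at e4
    exact ⟨⟨by linarith, by linarith⟩, Or.inl (by linarith)⟩

lemma q03 (a z : Fin 4 → ℝ)
    (h : ∀ k j l, l ≠ j → 0 ≤ (D k l * a l) * Psi k j z) (hl : a 0 ≠ 0) (hm : a 3 ≠ 0) :
    (z 1 = 0 ∧ z 2 = 0) ∧ (z 0 = z 3 ∨ z 0 = -z 3) := by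
  rcases lt_or_gt_of_ne (mul_ne_zero hl hm) with hneg | hpos
  · have key : ∀ k j, 0 ≠ j → 3 ≠ j → D k 0 * D k 3 = 1 → Psi k j z = 0 :=
      fun k j h1 h2 h3 => zero_of (h k j 0 h1) (h k j 3 h2) (by
        have : D k 0 * a 0 * (D k 3 * a 3) = (D k 0 * D k 3) * (a 0 * a 3) := by ring
        rw [this, h3]
        linarith)
    have e1 := key 0 1 (by decide) (by decide) (by simp [D])
    rw [P01] at e1
    have e2 := key 0 2 (by decide) (by decide) (by simp [D])
    rw [P02] at e2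
    have e3 := key 3 1 (by decide) (by decide) (by simp [D])
    rw [P31] at e3
    have e4 := key 3 2 (by decide) (by decide) (by simp [D])
    rw [P32] at e4
    exact ⟨⟨by linarith, by linarith⟩, Or.inr (by linarith)⟩
  · have key : ∀ k j, 0 ≠ j → 3 ≠ j → D k 0 * D k 3 = -1 → Psi k j z = 0 :=
      fun k j h1 h2 h3 => zero_of (h k j 0 h1) (h k j 3 h2) (by
        have : D k 0 * a 0 * (D k 3 * a 3) = (D k 0 * D k 3) * (a 0 * a 3) := by ring
        rw [this, h3]
        linarith)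
    have e1 := key 1 1 (by decide) (by decide) (by simp [D])
    rw [P11] at e1
    have e2 := key 1 2 (by decide) (by decide) (by simp [D])
    rw [P12] at e2
    have e3 := key 2 1 (by decide) (by decide) (by simp [D])
    rw [P21] at e3
    have e4 := key 2 2 (by decide) (by decide) (by simp [D])
    rw [P22] at e4
    exact ⟨⟨by linarith, by linarith⟩, Or.inl (by linarith)⟩

lemma q12 (a z : Fin 4 → ℝ)
    (h : ∀ k j l, l ≠ j → 0 ≤ (D k l * a l) * Psi k j z) (hl : a 1 ≠ 0) (hm : a 2 ≠ 0) :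
    (z 0 = 0 ∧ z 3 = 0) ∧ (z 1 = z 2 ∨ z 1 = -z 2) := by
  rcases lt_or_gt_of_ne (mul_ne_zero hl hm) with hneg | hpos
  · have key : ∀ k j, 1 ≠ j → 2 ≠ j → D k 1 * D k 2 = 1 → Psi k j z = 0 :=
      fun k j h1 h2 h3 => zero_of (h k j 1 h1) (h k j 2 h2) (by
        have : D k 1 * a 1 * (D k 2 * a 2) = (D k 1 * D k 2) * (a 1 * a 2) := by ring
        rw [this, h3]
        linarith)
    have e1 := key 0 0 (by decide) (by decide) (by simp [D])
    rw [P00] at e1
    have e2 := key 0 3 (by decide) (by decide) (by simp [D])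
    rw [P03] at e2
    have e3 := key 3 0 (by decide) (by decide) (by simp [D])
    rw [P30] at e3
    have e4 := key 3 3 (by decide) (by decide) (by simp [D])
    rw [P33] at e4
    exact ⟨⟨by linarith, by linarith⟩, Or.inr (by linarith)⟩
  · have key : ∀ k j, 1 ≠ j → 2 ≠ j → D k 1 * D k 2 = -1 → Psi k j z = 0 :=
      fun k j h1 h2 h3 => zero_of (h k j 1 h1) (h k j 2 h2) (by
        have : D k 1 * a 1 * (D k 2 * a 2) = (D k 1 * D k 2) * (a 1 * a 2) := by ring
        rw [this, h3]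
        linarith)
    have e1 := key 1 0 (by decide) (by decide) (by simp [D])
    rw [P10] at e1
    have e2 := key 1 3 (by decide) (by decide) (by simp [D])
    rw [P13] at e2
    have e3 := key 2 0 (by decide) (by decide) (by simp [D])
    rw [P20] at e3
    have e4 := key 2 3 (by decide) (by decide) (by simp [D])
    rw [P23] at e4
    exact ⟨⟨by linarith, by linarith⟩, Or.inl (by linarith)⟩

lemma q13 (a z : Fin 4 → ℝ)
    (h : ∀ k j l, l ≠ j → 0 ≤ (D k l * a l) * Psi k j z) (hl : a 1 ≠ 0) (hm : a 3 ≠ 0) :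
    (z 0 = 0 ∧ z 2 = 0) ∧ (z 1 = z 3 ∨ z 1 = -z 3) := by
  rcases lt_or_gt_of_ne (mul_ne_zero hl hm) with hneg | hpos
  · have key : ∀ k j, 1 ≠ j → 3 ≠ j → D k 1 * D k 3 = 1 → Psi k j z = 0 :=
      fun k j h1 h2 h3 => zero_of (h k j 1 h1) (h k j 3 h2) (by
        have : D k 1 * a 1 * (D k 3 * a 3) = (D k 1 * D k 3) * (a 1 * a 3) := by ring
        rw [this, h3]
        linarith)
    have e1 := key 0 0 (by decide) (by decide) (by simp [D])
    rw [P00] at e1
    have e2 := key 0 2 (by decide) (by decide) (by simp [D])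
    rw [P02] at e2
    have e3 := key 2 0 (by decide) (by decide) (by simp [D])
    rw [P20] at e3
    have e4 := key 2 2 (by decide) (by decide) (by simp [D])
    rw [P22] at e4
    exact ⟨⟨by linarith, by linarith⟩, Or.inr (by linarith)⟩
  · have key : ∀ k j, 1 ≠ j → 3 ≠ j → D k 1 * D k 3 = -1 → Psi k j z = 0 :=
      fun k j h1 h2 h3 => zero_of (h k j 1 h1) (h k j 3 h2) (by
        have : D k 1 * a 1 * (D k 3 * a 3) = (D k 1 * D k 3) * (a 1 * a 3) := by ring
        rw [this, h3]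
        linarith)
    have e1 := key 1 0 (by decide) (by decide) (by simp [D])
    rw [P10] at e1
    have e2 := key 1 2 (by decide) (by decide) (by simp [D])
    rw [P12] at e2
    have e3 := key 3 0 (by decide) (by decide) (by simp [D])
    rw [P30] at e3
    have e4 := key 3 2 (by decide) (by decide) (by simp [D])
    rw [P32] at e4
    exact ⟨⟨by linarith, by linarith⟩, Or.inl (by linarith)⟩

lemma q23 (a z : Fin 4 → ℝ)
    (h : ∀ k j l, l ≠ j → 0 ≤ (D k l * a l) * Psi k j z) (hl : a 2 ≠ 0) (hm : a 3 ≠ 0) :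
    (z 0 = 0 ∧ z 1 = 0) ∧ (z 2 = z 3 ∨ z 2 = -z 3) := by
  rcases lt_or_gt_of_ne (mul_ne_zero hl hm) with hneg | hpos
  · have key : ∀ k j, 2 ≠ j → 3 ≠ j → D k 2 * D k 3 = 1 → Psi k j z = 0 :=
      fun k j h1 h2 h3 => zero_of (h k j 2 h1) (h k j 3 h2) (by
        have : D k 2 * a 2 * (D k 3 * a 3) = (D k 2 * D k 3) * (a 2 * a 3) := by ring
        rw [this, h3]
        linarith)
    have e1 := key 0 0 (by decide) (by decide) (by simp [D])
    rw [P00] at e1
    have e2 := key 0 1 (by decide) (by decide) (by simp [D])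
    rw [P01] at e2
    have e3 := key 1 0 (by decide) (by decide) (by simp [D])
    rw [P10] at e3
    have e4 := key 1 1 (by decide) (by decide) (by simp [D])
    rw [P11] at e4
    exact ⟨⟨by linarith, by linarith⟩, Or.inr (by linarith)⟩
  · have key : ∀ k j, 2 ≠ j → 3 ≠ j → D k 2 * D k 3 = -1 → Psi k j z = 0 :=
      fun k j h1 h2 h3 => zero_of (h k j 2 h1) (h k j 3 h2) (by
        have : D k 2 * a 2 * (D k 3 * a 3) = (D k 2 * D k 3) * (a 2 * a 3) := by ring
        rw [this, h3]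
        linarith)
    have e1 := key 2 0 (by decide) (by decide) (by simp [D])
    rw [P20] at e1
    have e2 := key 2 1 (by decide) (by decide) (by simp [D])
    rw [P21] at e2
    have e3 := key 3 0 (by decide) (by decide) (by simp [D])
    rw [P30] at e3
    have e4 := key 3 1 (by decide) (by decide) (by simp [D])
    rw [P31] at e4
    exact ⟨⟨by linarith, by linarith⟩, Or.inl (by linarith)⟩

lemma H0 (a : Fin 4 → ℝ) : ∑ l, D 0 l * E 0 l * a l = 12 / 31 * a 0 + 14 / 31 * a 1 + 12 / 31 * a 2 + 14 / 31 * a 3 := by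
  simp [D, E, Fin.sum_univ_four]
  try ring

lemma H1 (a : Fin 4 → ℝ) : ∑ l, D 1 l * E 1 l * a l = 14 / 31 * a 0 + 12 / 31 * a 1 - 14 / 31 * a 2 - 12 / 31 * a 3 := by
  simp [D, E, Fin.sum_univ_four]
  try ring

lemma H2 (a : Fin 4 → ℝ) : ∑ l, D 2 l * E 2 l * a l = 12 / 31 * a 0 - 14 / 31 * a 1 + 14 / 31 * a 2 - 12 / 31 * a 3 := by
  simp [D, E, Fin.sum_univ_four]
  try ring

lemma H3 (a : Fin 4 → ℝ) : ∑ l, D 3 l * E 3 l * a l = 14 / 31 * a 0 - 12 / 31 * a 1 - 12 / 31 * a 2 + 14 / 31 * a 3 := by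
  simp [D, E, Fin.sum_univ_four]
  try ring

theorem core (a z : Fin 4 → ℝ) (h : ∀ k j l, l ≠ j → 0 ≤ (D k l * a l) * Psi k j z)
    (hJ : ∀ k j, 0 ≤ (∑ l, D k l * E k l * a l) * Psi k j z) (h1 : ∑ l, a l * z l = 1) : False := by
  rw [Fin.sum_univ_four] at h1
  have J00 : 0 ≤ (12 / 31 * a 0 + 14 / 31 * a 1 + 12 / 31 * a 2 + 14 / 31 * a 3) * (-(3 / 4) * z 0 + z 1 + z 2 + z 3) := by
    have e := hJ 0 0
    rw [P00, H0] at e
    exact e
  have J01 : 0 ≤ (12 / 31 * a 0 + 14 / 31 * a 1 + 12 / 31 * a 2 + 14 / 31 * a 3) * (z 0 - (1 / 2) * z 1 + z 2 + z 3) := by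
    have e := hJ 0 1
    rw [P01, H0] at e
    exact e
  have J02 : 0 ≤ (12 / 31 * a 0 + 14 / 31 * a 1 + 12 / 31 * a 2 + 14 / 31 * a 3) * (z 0 + z 1 - (3 / 4) * z 2 + z 3) := by
    have e := hJ 0 2
    rw [P02, H0] at e
    exact e
  have J03 : 0 ≤ (12 / 31 * a 0 + 14 / 31 * a 1 + 12 / 31 * a 2 + 14 / 31 * a 3) * (z 0 + z 1 + z 2 - (1 / 2) * z 3) := by
    have e := hJ 0 3
    rw [P03, H0] at e
    exact e
  have J10 : 0 ≤ (14 / 31 * a 0 + 12 / 31 * a 1 - 14 / 31 * a 2 - 12 / 31 * a 3) * (-(1 / 2) * z 0 + z 1 - z 2 - z 3) := by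
    have e := hJ 1 0
    rw [P10, H1] at e
    exact e
  have J11 : 0 ≤ (14 / 31 * a 0 + 12 / 31 * a 1 - 14 / 31 * a 2 - 12 / 31 * a 3) * (z 0 - (3 / 4) * z 1 - z 2 - z 3) := by
    have e := hJ 1 1
    rw [P11, H1] at e
    exact e
  have J12 : 0 ≤ (14 / 31 * a 0 + 12 / 31 * a 1 - 14 / 31 * a 2 - 12 / 31 * a 3) * (z 0 + z 1 + (1 / 2) * z 2 - z 3) := by
    have e := hJ 1 2
    rw [P12, H1] at e
    exact e
  have J13 : 0 ≤ (14 / 31 * a 0 + 12 / 31 * a 1 - 14 / 31 * a 2 - 12 / 31 * a 3) * (z 0 + z 1 - z 2 + (3 / 4) * z 3) := by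
    have e := hJ 1 3
    rw [P13, H1] at e
    exact e
  have J20 : 0 ≤ (12 / 31 * a 0 - 14 / 31 * a 1 + 14 / 31 * a 2 - 12 / 31 * a 3) * (-(3 / 4) * z 0 - z 1 + z 2 - z 3) := by
    have e := hJ 2 0
    rw [P20, H2] at e
    exact e
  have J21 : 0 ≤ (12 / 31 * a 0 - 14 / 31 * a 1 + 14 / 31 * a 2 - 12 / 31 * a 3) * (z 0 + (1 / 2) * z 1 + z 2 - z 3) := by
    have e := hJ 2 1
    rw [P21, H2] at e
    exact e
  have J22 : 0 ≤ (12 / 31 * a 0 - 14 / 31 * a 1 + 14 / 31 * a 2 - 12 / 31 * a 3) * (z 0 - z 1 - (1 / 2) * z 2 - z 3) := by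
    have e := hJ 2 2
    rw [P22, H2] at e
    exact e
  have J23 : 0 ≤ (12 / 31 * a 0 - 14 / 31 * a 1 + 14 / 31 * a 2 - 12 / 31 * a 3) * (z 0 - z 1 + z 2 + (3 / 4) * z 3) := by
    have e := hJ 2 3
    rw [P23, H2] at e
    exact e
  have J30 : 0 ≤ (14 / 31 * a 0 - 12 / 31 * a 1 - 12 / 31 * a 2 + 14 / 31 * a 3) * (-(1 / 2) * z 0 - z 1 - z 2 + z 3) := by
    have e := hJ 3 0
    rw [P30, H3] at e
    exact e
  have J31 : 0 ≤ (14 / 31 * a 0 - 12 / 31 * a 1 - 12 / 31 * a 2 + 14 / 31 * a 3) * (z 0 + (3 / 4) * z 1 - z 2 + z 3) := by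
    have e := hJ 3 1
    rw [P31, H3] at e
    exact e
  have J32 : 0 ≤ (14 / 31 * a 0 - 12 / 31 * a 1 - 12 / 31 * a 2 + 14 / 31 * a 3) * (z 0 - z 1 + (3 / 4) * z 2 + z 3) := by
    have e := hJ 3 2
    rw [P32, H3] at e
    exact e
  have J33 : 0 ≤ (14 / 31 * a 0 - 12 / 31 * a 1 - 12 / 31 * a 2 + 14 / 31 * a 3) * (z 0 - z 1 - z 2 - (1 / 2) * z 3) := by
    have e := hJ 3 3
    rw [P33, H3] at e
    exact e
  by_cases c0 : a 0 = 0
  · by_cases c1 : a 1 = 0
    · by_cases c2 : a 2 = 0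
      · by_cases c3 : a 3 = 0
        · rw [c0, c1, c2, c3] at h1; norm_num at h1
        · rw [c0, c1, c2] at J03 J13 J23 J33 h1; linarith [J03, J13, J23, J33]
      · by_cases c3 : a 3 = 0
        · rw [c0, c1, c3] at J02 J12 J22 J32 h1; linarith [J02, J12, J22, J32]
        · obtain ⟨⟨y1, y2⟩, y3 | y3⟩ := q23 a z h c2 c3
          · rw [c0, c1, y1, y2, y3] at J22 J23 J32 J33; rw [c0, c1, y3] at h1; linarith [J22, J23, J32, J33]
          · rw [c0, c1, y1, y2, y3] at J02 J03 J12 J13; rw [c0, c1, y3] at h1; linarith [J02, J03, J12, J13]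
    · by_cases c2 : a 2 = 0
      · by_cases c3 : a 3 = 0
        · rw [c0, c2, c3] at J01 J11 J21 J31 h1; linarith [J01, J11, J21, J31]
        · obtain ⟨⟨y1, y2⟩, y3 | y3⟩ := q13 a z h c1 c3
          · rw [c0, c2, y1, y2, y3] at J11 J13 J31 J33; rw [c0, c2, y3] at h1; linarith [J11, J13, J31, J33]
          · rw [c0, c2, y1, y2, y3] at J01 J03 J21 J23; rw [c0, c2, y3] at h1; linarith [J01, J03, J21, J23]
      · by_cases c3 : a 3 = 0
        · obtain ⟨⟨y1, y2⟩, y3 | y3⟩ := q12 a z h c1 c2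
          · rw [c0, c3, y1, y2, y3] at J11 J12 J21 J22; rw [c0, c3, y3] at h1; linarith [J11, J12, J21, J22]
          · rw [c0, c3, y1, y2, y3] at J01 J02 J31 J32; rw [c0, c3, y3] at h1; linarith [J01, J02, J31, J32]
        · have y1 := (q12 a z h c1 c2).1
          have y2 := (q13 a z h c1 c3).1
          have y3 := (q23 a z h c2 c3).1
          have w0 : z 0 = 0 := by first | exact y1.1 | exact y1.2 | exact y2.1 | exact y2.2 | exact y3.1 | exact y3.2
          have w1 : z 1 = 0 := by first | exact y1.1 | exact y1.2 | exact y2.1 | exact y2.2 | exact y3.1 | exact y3.2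
          have w2 : z 2 = 0 := by first | exact y1.1 | exact y1.2 | exact y2.1 | exact y2.2 | exact y3.1 | exact y3.2
          have w3 : z 3 = 0 := by first | exact y1.1 | exact y1.2 | exact y2.1 | exact y2.2 | exact y3.1 | exact y3.2
          rw [w0, w1, w2, w3] at h1; norm_num at h1
  · by_cases c1 : a 1 = 0
    · by_cases c2 : a 2 = 0
      · by_cases c3 : a 3 = 0
        · rw [c1, c2, c3] at J00 J10 J20 J30 h1; linarith [J00, J10, J20, J30]
        · obtain ⟨⟨y1, y2⟩, y3 | y3⟩ := q03 a z h c0 c3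
          · rw [c1, c2, y1, y2, y3] at J10 J13 J20 J23; rw [c1, c2, y3] at h1; linarith [J10, J13, J20, J23]
          · rw [c1, c2, y1, y2, y3] at J00 J03 J30 J33; rw [c1, c2, y3] at h1; linarith [J00, J03, J30, J33]
      · by_cases c3 : a 3 = 0
        · obtain ⟨⟨y1, y2⟩, y3 | y3⟩ := q02 a z h c0 c2
          · rw [c1, c3, y1, y2, y3] at J10 J12 J30 J32; rw [c1, c3, y3] at h1; linarith [J10, J12, J30, J32]
          · rw [c1, c3, y1, y2, y3] at J00 J02 J20 J22; rw [c1, c3, y3] at h1; linarith [J00, J02, J20, J22]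
        · have y1 := (q02 a z h c0 c2).1
          have y2 := (q03 a z h c0 c3).1
          have y3 := (q23 a z h c2 c3).1
          have w0 : z 0 = 0 := by first | exact y1.1 | exact y1.2 | exact y2.1 | exact y2.2 | exact y3.1 | exact y3.2
          have w1 : z 1 = 0 := by first | exact y1.1 | exact y1.2 | exact y2.1 | exact y2.2 | exact y3.1 | exact y3.2
          have w2 : z 2 = 0 := by first | exact y1.1 | exact y1.2 | exact y2.1 | exact y2.2 | exact y3.1 | exact y3.2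
          have w3 : z 3 = 0 := by first | exact y1.1 | exact y1.2 | exact y2.1 | exact y2.2 | exact y3.1 | exact y3.2
          rw [w0, w1, w2, w3] at h1; norm_num at h1
    · by_cases c2 : a 2 = 0
      · by_cases c3 : a 3 = 0
        · obtain ⟨⟨y1, y2⟩, y3 | y3⟩ := q01 a z h c0 c1
          · rw [c2, c3, y1, y2, y3] at J20 J21 J30 J31; rw [c2, c3, y3] at h1; linarith [J20, J21, J30, J31]
          · rw [c2, c3, y1, y2, y3] at J00 J01 J10 J11; rw [c2, c3, y3] at h1; linarith [J00, J01, J10, J11]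
        · have y1 := (q01 a z h c0 c1).1
          have y2 := (q03 a z h c0 c3).1
          have y3 := (q13 a z h c1 c3).1
          have w0 : z 0 = 0 := by first | exact y1.1 | exact y1.2 | exact y2.1 | exact y2.2 | exact y3.1 | exact y3.2
          have w1 : z 1 = 0 := by first | exact y1.1 | exact y1.2 | exact y2.1 | exact y2.2 | exact y3.1 | exact y3.2
          have w2 : z 2 = 0 := by first | exact y1.1 | exact y1.2 | exact y2.1 | exact y2.2 | exact y3.1 | exact y3.2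
          have w3 : z 3 = 0 := by first | exact y1.1 | exact y1.2 | exact y2.1 | exact y2.2 | exact y3.1 | exact y3.2
          rw [w0, w1, w2, w3] at h1; norm_num at h1
      · by_cases c3 : a 3 = 0
        · have y1 := (q01 a z h c0 c1).1
          have y2 := (q02 a z h c0 c2).1
          have y3 := (q12 a z h c1 c2).1
          have w0 : z 0 = 0 := by first | exact y1.1 | exact y1.2 | exact y2.1 | exact y2.2 | exact y3.1 | exact y3.2
          have w1 : z 1 = 0 := by first | exact y1.1 | exact y1.2 | exact y2.1 | exact y2.2 | exact y3.1 | exact y3.2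
          have w2 : z 2 = 0 := by first | exact y1.1 | exact y1.2 | exact y2.1 | exact y2.2 | exact y3.1 | exact y3.2
          have w3 : z 3 = 0 := by first | exact y1.1 | exact y1.2 | exact y2.1 | exact y2.2 | exact y3.1 | exact y3.2
          rw [w0, w1, w2, w3] at h1; norm_num at h1
        · have y1 := (q01 a z h c0 c1).1
          have y2 := (q02 a z h c0 c2).1
          have y3 := (q12 a z h c1 c2).1
          have w0 : z 0 = 0 := by first | exact y1.1 | exact y1.2 | exact y2.1 | exact y2.2 | exact y3.1 | exact y3.2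
          have w1 : z 1 = 0 := by first | exact y1.1 | exact y1.2 | exact y2.1 | exact y2.2 | exact y3.1 | exact y3.2
          have w2 : z 2 = 0 := by first | exact y1.1 | exact y1.2 | exact y2.1 | exact y2.2 | exact y3.1 | exact y3.2
          have w3 : z 3 = 0 := by first | exact y1.1 | exact y1.2 | exact y2.1 | exact y2.2 | exact y3.1 | exact y3.2
          rw [w0, w1, w2, w3] at h1; norm_num at h1

end Pool.Agent.X204.NR
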