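import Pool.Agent.X204.NQG

/-!
# Systems give extremal hyperplanes
-/

set_option autoImplicit false

open Finset Module

namespace Pool.Agent.X204.NR

open Pool.Agent.X204.NQ

variable {X : Type*} [NormedAddCommGroup X] [NormedSpace ℝ X] {n : ℕ}

/-- Bohnenblust's bound for the minimal projection. -/
theorem min_le [FiniteDimensional ℝ X] (hn : 3 ≤ n) (hX : finrank ℝ X = n) (f : X →L[ℝ] ℝ) {z : X}
    (hz : f z = 1) (hmin : ∀ z', f z' = 1 → ‖Q f z‖ ≤ ‖Q f z'‖) : ‖Q f z‖ ≤ 2 - 2 / (n : ℝ) := by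
  by_contra hcon
  push Not at hcon
  obtain ⟨m, w, x, g, hm, hw0, hw1, hx, hg, hf, hv, hs⟩ := repr hX f hz hmin
  obtain ⟨rfl, h1, h2⟩ := equality_case hn f hz hcon.le hm w x g hw0 hw1 hx hg hf hv hs
  have hn3 : (3 : ℝ) ≤ m := by exact_mod_cast hn
  have hm0 : (0 : ℝ) < m := by linarith
  have hsys : Sys m x g := ⟨hx, hg, h1⟩
  -- f is a multiple of the sum
  set s : ℝ := ∑ i, g i z with hsd
  have hs0 : s ≠ 0 := by
    intro h0
    have := (h2 z).2 h0
    rw [hz] at this
    norm_num at this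
  have hfs : ∀ y, ∑ i, g i y = s * f y := by
    intro y
    have h3 : f (y - f y • z) = 0 := by
      rw [map_sub, map_smul, hz, smul_eq_mul, mul_one, sub_self]
    have h4 := (h2 _).1 h3
    simp_rw [map_sub, map_smul, smul_eq_mul] at h4
    rw [sum_sub_distrib, ← mul_sum] at h4
    linarith
  have hfx : ∀ j, s * f (x j) = 2 - m := by
    intro j
    rw [← hfs, sum_eq_sf hn, hsys.sf_x hn]
    ring
  have h5 : ∀ i, 1 - f (x i) * g i z = ‖Q f z‖ := by
    intro i
    rw [← hv i, h1 i i, if_pos rfl]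
  have h6 : ∑ i, s * (1 - f (x i) * g i z) = ∑ _i : Fin m, s * ‖Q f z‖ :=
    sum_congr rfl fun i _ => by rw [h5]
  have h7 : ∀ i, s * (1 - f (x i) * g i z) = s - (2 - m) * g i z := by
    intro i
    rw [← hfx i]
    ring
  simp_rw [h7] at h6
  rw [sum_sub_distrib, ← mul_sum, sum_const, sum_const, card_univ, Fintype.card_fin,
    nsmul_eq_mul, nsmul_eq_mul] at h6
  have h8 : s * (m * ‖Q f z‖) = s * (2 * m - 2) := by linarith
  have h9 : m * ‖Q f z‖ = 2 * m - 2 := mul_left_cancel₀ hs0 h8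
  have h10 : ‖Q f z‖ = 2 - 2 / (m : ℝ) := by
    have : (2 : ℝ) - 2 / m = (2 * m - 2) / m := by field_simp
    rw [this, eq_div_iff hm0.ne']
    linarith
  linarith

/-- The kernel of the functional of a system is extremal. -/
theorem extremal_of_sys (hn : 3 ≤ n) (hX : finrank ℝ X = n) {x : Fin n → X}
    {g : Fin n → X →L[ℝ] ℝ} (h : Sys n x g) :
    LinearMap.ker (sf g : X →ₗ[ℝ] ℝ) ∈ maxHyperplanes n X := by
  have : FiniteDimensional ℝ X := Module.finite_of_finrank_pos (by omega)
  have hn3 : (3 : ℝ) ≤ n := by exact_mod_cast hn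
  have hn0 : (0 : ℝ) < n := by linarith
  have hu : sf g (x ⟨0, by omega⟩) = 1 := h.sf_x hn _
  refine ⟨?_, ?_⟩
  · have h2 := LinearMap.finrank_range_add_finrank_ker (sf g : X →ₗ[ℝ] ℝ)
    have h3 : LinearMap.range (sf g : X →ₗ[ℝ] ℝ) = ⊤ := by
      rw [LinearMap.range_eq_top]
      intro r
      refine ⟨r • x ⟨0, by omega⟩, ?_⟩
      show sf g (r • x ⟨0, by omega⟩) = r
      rw [map_smul, hu, smul_eq_mul, mul_one]
    rw [h3, finrank_top, finrank_self, hX] at h2
    omega
  · obtain ⟨z, hz, hmin⟩ := exists_min (sf g) _ hu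
    have hmem : ∀ y, Q (sf g) z y ∈ LinearMap.ker (sf g : X →ₗ[ℝ] ℝ) := by
      intro y
      rw [LinearMap.mem_ker]
      show sf g (Q (sf g) z y) = 0
      rw [Q_apply, map_sub, map_smul, hz, smul_eq_mul, mul_one, sub_self]
    have hP : ∀ y : LinearMap.ker (sf g : X →ₗ[ℝ] ℝ),
        (Q (sf g) z).codRestrict _ hmem y = y := by
      intro y
      have hy : sf g (y : X) = 0 := LinearMap.mem_ker.1 y.2
      refine Subtype.ext ?_
      show Q (sf g) z (y : X) = y
      rw [Q_apply, hy, zero_smul, sub_zero]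
    refine le_antisymm ((projConst_le _ hP).trans ?_) ?_
    · refine le_trans ?_ (min_le hn hX (sf g) hz hmin)
      refine ContinuousLinearMap.opNorm_le_bound _ (norm_nonneg _) fun x => ?_
      exact (Q (sf g) z).le_opNorm x
    · refine le_csInf ⟨_, _, hP, rfl⟩ ?_
      rintro r ⟨P, hPr, rfl⟩
      set u : X := x ⟨0, by omega⟩ with hu'
      set v : X := u - P u with hv
      have hpe : ∀ y, (P y : X) = y - sf g y • v := by
        intro y
        have hmem' : y - sf g y • u ∈ LinearMap.ker (sf g : X →ₗ[ℝ] ℝ) := by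
          rw [LinearMap.mem_ker]
          show sf g (y - sf g y • u) = 0
          rw [map_sub, map_smul, hu, smul_eq_mul, mul_one, sub_self]
        have h1 : (P (y - sf g y • u) : X) = y - sf g y • u :=
          congrArg Subtype.val (hPr ⟨_, hmem'⟩)
        rw [map_sub, map_smul] at h1
        have h2 : (P y : X) - sf g y • (P u : X) = y - sf g y • u := h1
        rw [hv, smul_sub]
        rw [sub_eq_iff_eq_add] at h2
        rw [h2]
        abel
      have hvs : sf g v = 1 := by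
        rw [hv, map_sub, hu]
        have : sf g (P u : X) = 0 := LinearMap.mem_ker.1 (P u).2
        rw [this, sub_zero]
      have hbd : ∀ j, 1 - g j v ≤ ‖P‖ := by
        intro j
        have h1 : g j (P (x j) : X) = 1 - g j v := by
          rw [hpe, map_sub, map_smul, h.sf_x hn, h.hgx, if_pos rfl, one_smul]
        rw [← h1]
        have h2 : ‖(P (x j) : X)‖ ≤ ‖P‖ := by
          calc ‖(P (x j) : X)‖ ≤ ‖P‖ * ‖x j‖ := P.le_opNorm (x j)
            _ ≤ ‖P‖ * 1 := mul_le_mul_of_nonneg_left (h.hx j) (norm_nonneg P)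
            _ = ‖P‖ := mul_one _
        calc g j (P (x j) : X) ≤ ‖g j (P (x j) : X)‖ := le_abs_self _
          _ ≤ ‖g j‖ * ‖(P (x j) : X)‖ := (g j).le_opNorm _
          _ ≤ 1 * ‖(P (x j) : X)‖ := mul_le_mul_of_nonneg_right (h.hg j) (norm_nonneg _)
          _ ≤ ‖P‖ := by rw [one_mul]; exact h2
      have hsum : ∑ j, (1 - g j v) ≤ ∑ _j : Fin n, ‖P‖ := sum_le_sum fun j _ => hbd j
      rw [sum_sub_distrib, sum_eq_sf hn, hvs, sum_const, sum_const, card_univ, Fintype.card_fin,
        nsmul_eq_mul, nsmul_eq_mul] at hsum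
      have : (2 : ℝ) - 2 / n = (2 * n - 2) / n := by field_simp
      rw [this, div_le_iff₀ hn0]
      linarith

end Pool.Agent.X204.NR
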