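import Pool.Agent.X204.NRA
import Pool.Agent.X204.NRB

/-!
# A four-dimensional extremal space without 1-complemented hyperplane
-/

set_option autoImplicit false

open Finset Module

namespace Pool.Agent.X204.NR

open Pool.Agent.X204.NQ

/-- The index set of the functionals. -/
abbrev Idx := (Fin 4 × Fin 4) ⊕ Fin 4

/-- The embedding into the space of functions with the maximum norm. -/
noncomputable def T : (Fin 4 → ℝ) →ₗ[ℝ] (Idx → ℝ) where
  toFun y i := match i with
    | Sum.inl (k, j) => Psi k j y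
    | Sum.inr i => 2 * y i - ∑ l, y l
  map_add' y y' := by
    ext i
    rcases i with ⟨k, j⟩ | i
    · show Psi k j (y + y') = Psi k j y + Psi k j y'
      simp only [Psi, Pi.add_apply, Fin.sum_univ_four]
      ring
    · show 2 * (y + y') i - ∑ l, (y + y') l = (2 * y i - ∑ l, y l) + (2 * y' i - ∑ l, y' l)
      simp only [Pi.add_apply, Fin.sum_univ_four]
      ring
  map_smul' c y := by
    ext i
    rcases i with ⟨k, j⟩ | i
    · show Psi k j (c • y) = c * Psi k j y
      simp only [Psi, Pi.smul_apply, smul_eq_mul, Fin.sum_univ_four]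
      ring
    · show 2 * (c • y) i - ∑ l, (c • y) l = c * (2 * y i - ∑ l, y l)
      simp only [Pi.smul_apply, smul_eq_mul, Fin.sum_univ_four]
      ring

lemma pt_Psi_smul (k j : Fin 4) (c : ℝ) (y : Fin 4 → ℝ) : Psi k j (c • y) = c * Psi k j y := by
  simp only [Psi, Pi.smul_apply, smul_eq_mul, Fin.sum_univ_four]
  ring

lemma T_inl (y : Fin 4 → ℝ) (k j : Fin 4) : T y (Sum.inl (k, j)) = Psi k j y := rfl

lemma T_inr (y : Fin 4 → ℝ) (i : Fin 4) : T y (Sum.inr i) = 2 * y i - ∑ l, y l := rfl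

lemma T_inj : Function.Injective T := by
  rw [injective_iff_map_eq_zero]
  intro y hy
  have h : ∀ i, 2 * y i - ∑ l, y l = 0 := fun i => by
    rw [← T_inr, hy]
    rfl
  have h0 := h 0
  have h1 := h 1
  have h2 := h 2
  have h3 := h 3
  rw [Fin.sum_univ_four] at h0 h1 h2 h3
  ext i
  fin_cases i
  · show y 0 = 0
    linarith
  · show y 1 = 0
    linarith
  · show y 2 = 0
    linarith
  · show y 3 = 0
    linarith

/-- The space: the range of the embedding with the maximum norm. -/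
noncomputable abbrev Sp : Submodule ℝ (Idx → ℝ) := LinearMap.range T

lemma finrank_Sp : finrank ℝ Sp = 4 := by
  rw [LinearMap.finrank_range_of_inj T_inj, finrank_pi, Fintype.card_fin]

/-- The point of the space with given coordinates. -/
noncomputable def pt (y : Fin 4 → ℝ) : Sp := ⟨T y, LinearMap.mem_range_self T y⟩

lemma exists_pt (v : Sp) : ∃ y, v = pt y := by
  obtain ⟨y, hy⟩ := LinearMap.mem_range.1 v.2
  exact ⟨y, Subtype.ext hy.symm⟩

lemma pt_add (y y' : Fin 4 → ℝ) : pt (y + y') = pt y + pt y' := Subtype.ext (map_add T y y')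

lemma pt_smul (c : ℝ) (y : Fin 4 → ℝ) : pt (c • y) = c • pt y := Subtype.ext (map_smul T c y)

/-- The coordinate functionals of the maximum norm. -/
noncomputable def ev (i : Idx) : Sp →L[ℝ] ℝ :=
  (ContinuousLinearMap.proj (R := ℝ) (φ := fun _ : Idx => ℝ) i).comp Sp.subtypeL

lemma ev_pt (i : Idx) (y : Fin 4 → ℝ) : ev i (pt y) = T y i := rfl

lemma norm_ev (i : Idx) : ‖ev i‖ ≤ 1 := by
  refine ContinuousLinearMap.opNorm_le_bound _ zero_le_one fun v => ?_
  rw [one_mul]
  exact norm_le_pi_norm (v : Idx → ℝ) i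

lemma norm_pt_le {y : Fin 4 → ℝ} (h1 : ∀ k j, |Psi k j y| ≤ 1)
    (h2 : ∀ i, |2 * y i - ∑ l, y l| ≤ 1) : ‖pt y‖ ≤ 1 := by
  show ‖T y‖ ≤ 1
  rw [pi_norm_le_iff_of_nonneg zero_le_one]
  intro i
  rcases i with ⟨k, j⟩ | i
  · exact h1 k j
  · exact h2 i

/-- unit vectors -/
def e (j : Fin 4) : Fin 4 → ℝ := fun i => if i = j then 1 else 0

lemma Psi_e (k j l : Fin 4) : Psi k j (e l) = D k l * (if l = j then C k j else 1) := by
  have h1 : ∑ i, D k i * e l i = D k l := by
    simp [e]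
  rw [Psi, h1]
  simp only [e]
  by_cases h : l = j
  · subst h
    simp
    ring
  · have h' : ¬ j = l := fun h0 => h h0.symm
    simp [h, h']

lemma absD (k l : Fin 4) : |D k l| = 1 := by
  fin_cases k <;> fin_cases l <;> simp [D]

lemma absC (k l : Fin 4) : |C k l| ≤ 1 := by
  rw [abs_le]
  fin_cases k <;> fin_cases l <;> simp [C] <;> norm_num

lemma norm_e (l : Fin 4) : ‖pt (e l)‖ ≤ 1 := by
  refine norm_pt_le (fun k j => ?_) fun i => ?_
  · rw [Psi_e, abs_mul, absD, one_mul]
    split_ifs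
    · exact absC k j
    · simp
  · have : ∑ i, e l i = 1 := by simp [e]
    rw [this]
    simp only [e]
    split_ifs <;> norm_num

lemma norm_De (k l : Fin 4) : ‖pt (D k l • e l)‖ ≤ 1 := by
  rw [pt_smul, norm_smul, Real.norm_eq_abs, absD, one_mul]
  exact norm_e l

/-- the apexes -/
noncomputable def ap (k : Fin 4) : Fin 4 → ℝ := fun l => D k l * E k l

lemma Psi_ap (k j : Fin 4) : Psi k j (ap k) = 1 := by
  fin_cases k <;> fin_cases j <;>
    simp [Psi, ap, D, E, C, Fin.sum_univ_four] <;> norm_num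

lemma norm_ap (k : Fin 4) : ‖pt (ap k)‖ ≤ 1 := by
  refine norm_pt_le (fun k' j => ?_) fun i => ?_
  · rw [abs_le]
    fin_cases k <;> fin_cases k' <;> fin_cases j <;>
      simp [Psi, ap, D, E, C, Fin.sum_univ_four] <;> norm_num
  · rw [abs_le]
    fin_cases k <;> fin_cases i <;> simp [ap, D, E, Fin.sum_univ_four] <;> norm_num

/-- The extremal system. -/
theorem sys : Sys 4 (fun j => pt (e j)) (fun i => ev (Sum.inr i)) where
  hx := norm_e
  hg i := norm_ev _
  hgx i j := by
    rw [ev_pt, T_inr]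
    have : ∑ i, e j i = 1 := by simp [e]
    rw [this]
    simp only [e]
    split_ifs <;> norm_num

/-- No projection of norm one onto a hyperplane. -/
theorem no_proj {X : Type*} [NormedAddCommGroup X] [NormedSpace ℝ X] (hX : finrank ℝ X = 4)
    (q : (Fin 4 → ℝ) →ₗ[ℝ] X) (hq : Function.Surjective q) (ψ : Fin 4 → Fin 4 → X →L[ℝ] ℝ)
    (hψ : ∀ k j, ‖ψ k j‖ ≤ 1) (hψq : ∀ k j y, ψ k j (q y) = Psi k j y)
    (h1 : ∀ l, ‖q (e l)‖ ≤ 1) (h2 : ∀ k, ‖q (ap k)‖ ≤ 1)
    (Z : Submodule ℝ X) (hZ : finrank ℝ Z = 3) (P : X →L[ℝ] Z)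
    (hP : ∀ y : Z, P y = y) : 1 < ‖P‖ := by
  have : FiniteDimensional ℝ X := Module.finite_of_finrank_pos (by omega)
  by_contra hcon
  push Not at hcon
  obtain ⟨f, u, hu, rfl⟩ := exists_functional hX (Y := Z) (by omega)
  set v : X := u - P u with hv
  have hpe : ∀ y, (P y : X) = y - f y • v := by
    intro y
    have hmem' : y - f y • u ∈ LinearMap.ker (f : X →ₗ[ℝ] ℝ) := by
      rw [LinearMap.mem_ker]
      show f (y - f y • u) = 0
      rw [map_sub, map_smul, hu, smul_eq_mul, mul_one, sub_self]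
    have h1 : (P (y - f y • u) : X) = y - f y • u := congrArg Subtype.val (hP ⟨_, hmem'⟩)
    rw [map_sub, map_smul] at h1
    have h2 : (P y : X) - f y • (P u : X) = y - f y • u := h1
    rw [hv, smul_sub]
    rw [sub_eq_iff_eq_add] at h2
    rw [h2]
    abel
  have hfv : f v = 1 := by
    rw [hv, map_sub, hu]
    have : f (P u : X) = 0 := LinearMap.mem_ker.1 (P u).2
    rw [this, sub_zero]
  obtain ⟨z, hz⟩ := hq v
  have key : ∀ (w : X) (k j : Fin 4), ‖w‖ ≤ 1 → ψ k j w = 1 → 0 ≤ f w * ψ k j v := by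
    intro w k j hw h1
    have h3 : ‖(P w : X)‖ ≤ 1 := by
      calc ‖(P w : X)‖ ≤ ‖P‖ * ‖w‖ := P.le_opNorm w
        _ ≤ 1 * 1 := mul_le_mul hcon hw (norm_nonneg _) zero_le_one
        _ = 1 := one_mul 1
    have h2 : ψ k j (P w : X) ≤ 1 := (abs_le.1 (abs_le_one_of (hψ k j) h3)).2
    rw [hpe, map_sub, map_smul, h1, smul_eq_mul] at h2
    linarith
  set a : Fin 4 → ℝ := fun l => f (q (e l)) with ha
  have hlin : ∀ y : Fin 4 → ℝ, f (q y) = ∑ l, y l * a l := by
    intro y
    have h1 : q y = ∑ l, y l • q (e l) := by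
      have h2 : y = ∑ l, y l • e l := by
        ext i
        rw [Fin.sum_univ_four]
        fin_cases i <;> simp [e]
      conv_lhs => rw [h2, map_sum]
      exact sum_congr rfl fun l _ => map_smul q (y l) (e l)
    rw [h1, map_sum]
    refine sum_congr rfl fun l _ => ?_
    rw [map_smul, smul_eq_mul]
  refine core a z (fun k j l hlj => ?_) (fun k j => ?_) ?_
  · have h5 : ‖q (D k l • e l)‖ ≤ 1 := by
      rw [map_smul, norm_smul, Real.norm_eq_abs, absD, one_mul]
      exact h1 l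
    have h3 := key (q (D k l • e l)) k j h5 (by
      rw [hψq, pt_Psi_smul, Psi_e, if_neg hlj, mul_one]
      rw [← abs_mul_abs_self, absD, one_mul])
    rw [map_smul, map_smul, smul_eq_mul, ← hz, hψq] at h3
    exact h3
  · have h3 := key (q (ap k)) k j (h2 k) (by rw [hψq, Psi_ap])
    rw [hlin, ← hz, hψq] at h3
    exact h3
  · rw [← hz, hlin] at hfv
    rw [← hfv]
    exact sum_congr rfl fun l _ => mul_comm _ _

/-- The linear map onto the space. -/
noncomputable def ptL : (Fin 4 → ℝ) →ₗ[ℝ] Sp where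
  toFun := pt
  map_add' := pt_add
  map_smul' := pt_smul

theorem exists_space : ∃ (X : Type) (_ : NormedAddCommGroup X) (_ : NormedSpace ℝ X),
    finrank ℝ X = 4 ∧ (maxHyperplanes 4 X).Nonempty ∧
      ∀ Z : Submodule ℝ X, finrank ℝ Z = 3 → ∀ P : X →L[ℝ] Z, (∀ y : Z, P y = y) → 1 < ‖P‖ := by
  refine ⟨Sp, inferInstance, inferInstance, finrank_Sp, ⟨_, extremal_of_sys (n := 4) (by norm_num)
    finrank_Sp sys⟩, ?_⟩
  exact no_proj finrank_Sp ptL (fun v => (exists_pt v).imp fun y hy => hy.symm)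
    (fun k j => ev (Sum.inl (k, j))) (fun k j => norm_ev _) (fun k j y => rfl) norm_e norm_ap

end Pool.Agent.X204.NR
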