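import Pool.Agent.X204.NRC

/-!
# The relative projection constants of the hyperplanes exceed one
-/

set_option autoImplicit false

open Finset Module

namespace Pool.Agent.X204.NR

open Pool.Agent.X204.NQ

theorem one_lt_projConst {X : Type*} [NormedAddCommGroup X] [NormedSpace ℝ X] {n : ℕ}
    (hn : 3 ≤ n) (hX : finrank ℝ X = n) (Z : Submodule ℝ X) (hZ : finrank ℝ Z + 1 = n)
    (h : ∀ P : X →L[ℝ] Z, (∀ y : Z, P y = y) → 1 < ‖P‖) : 1 < projConst Z := by
  have : FiniteDimensional ℝ X := Module.finite_of_finrank_pos (by omega)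
  obtain ⟨f, u, hu, rfl⟩ := exists_functional hX hZ
  obtain ⟨z, hz, hmin⟩ := exists_min f u hu
  have hmem : ∀ y, Q f z y ∈ LinearMap.ker (f : X →ₗ[ℝ] ℝ) := by
    intro y
    rw [LinearMap.mem_ker]
    show f (Q f z y) = 0
    rw [Q_apply, map_sub, map_smul, hz, smul_eq_mul, mul_one, sub_self]
  have hP : ∀ y : LinearMap.ker (f : X →ₗ[ℝ] ℝ), (Q f z).codRestrict _ hmem y = y := by
    intro y
    have hy : f (y : X) = 0 := LinearMap.mem_ker.1 y.2
    refine Subtype.ext ?_
    show Q f z (y : X) = y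
    rw [Q_apply, hy, zero_smul, sub_zero]
  have h1 := h _ hP
  have h2 : ‖(Q f z).codRestrict _ hmem‖ ≤ ‖Q f z‖ := by
    refine ContinuousLinearMap.opNorm_le_bound _ (norm_nonneg _) fun x => ?_
    exact (Q f z).le_opNorm x
  have h3 : ‖Q f z‖ ≤ projConst (LinearMap.ker (f : X →ₗ[ℝ] ℝ)) := by
    refine le_csInf ⟨_, _, hP, rfl⟩ ?_
    rintro r ⟨P, hPr, rfl⟩
    set v : X := u - P u with hv
    have hfv : f v = 1 := by
      rw [hv, map_sub, hu]
      have : f (P u : X) = 0 := LinearMap.mem_ker.1 (P u).2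
      rw [this, sub_zero]
    have hpe : ∀ y, Q f v y = (P y : X) := by
      intro y
      have hmem' : y - f y • u ∈ LinearMap.ker (f : X →ₗ[ℝ] ℝ) := by
        rw [LinearMap.mem_ker]
        show f (y - f y • u) = 0
        rw [map_sub, map_smul, hu, smul_eq_mul, mul_one, sub_self]
      have h1 : (P (y - f y • u) : X) = y - f y • u := congrArg Subtype.val (hPr ⟨_, hmem'⟩)
      rw [map_sub, map_smul] at h1
      have h2 : (P y : X) - f y • (P u : X) = y - f y • u := h1
      rw [Q_apply, hv, smul_sub]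
      rw [sub_eq_iff_eq_add] at h2
      rw [h2]
      abel
    refine (hmin v hfv).trans ?_
    refine ContinuousLinearMap.opNorm_le_bound _ (norm_nonneg P) fun y => ?_
    rw [hpe]
    exact P.le_opNorm y
  linarith

theorem main : ∃ (X : Type) (_ : NormedAddCommGroup X) (_ : NormedSpace ℝ X),
    finrank ℝ X = 4 ∧ (∃ Y : Submodule ℝ X, finrank ℝ Y = 3 ∧ projConst Y = 2 - 2 / 4) ∧
      ∀ Z : Submodule ℝ X, finrank ℝ Z = 3 → 1 < projConst Z := by
  obtain ⟨X, i1, i2, hX, ⟨Y, hY1, hY2⟩, h⟩ := exists_space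
  refine ⟨X, i1, i2, hX, ⟨Y, by omega, ?_⟩, fun Z hZ => ?_⟩
  · rw [hY2]
    norm_num
  · exact one_lt_projConst (n := 4) (by norm_num) hX Z (by omega) (h Z hZ)

end Pool.Agent.X204.NR
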