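import Pool.Agent.W387.Q.Hyp
import Pool.Agent.W387.Q.Ex3
import Pool.Agent.X204.KF
import Pool.Agent.X204.DBL

/-!
# Kesten's inequality for the numbers of self-avoiding polygons on `ℤ²`
-/

set_option autoImplicit false

namespace Pool.Agent.X204.PG

open Filter Topology TH966.KS Pool.Agent.H739K

/-- the normalised numbers of polygons -/
noncomputable def y (k : ℕ) : ℝ := H981.PP k / H981.mu ^ (2 * k)

theorem PP_nonneg (k : ℕ) : 0 ≤ H981.PP k := by
  unfold H981.PP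
  positivity

theorem y_nonneg (k : ℕ) : 0 ≤ y k := by
  have := H981.mu_pos
  exact div_nonneg (PP_nonneg k) (by positivity)

theorem y_pos {k : ℕ} (hk : 2 ≤ k) : 0 < y k := by
  have := H981.mu_pos
  exact div_pos (PP_pos hk) (by positivity)

theorem rN_tend : Tendsto (fun n : ℕ => Pool.Agent.W387.Q.rN n) atTop (𝓝 0) := by
  have := Pool.Agent.W387.Q.pow_mul_rN (β := 0) (by norm_num)
  simpa using this

theorem ratio_tend : Tendsto (fun n : ℕ => H981.PP (n + 1) / H981.PP n) atTop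
    (𝓝 (H981.mu ^ 2)) := by
  obtain ⟨K, hK⟩ := Pool.Agent.W387.Q.f1
  have h1 := rN_tend.const_mul K
  rw [mul_zero] at h1
  rw [tendsto_iff_dist_tendsto_zero]
  refine squeeze_zero' (Eventually.of_forall fun _ => dist_nonneg) ?_ h1
  filter_upwards [eventually_ge_atTop 2] with n hn
  rw [Real.dist_eq]
  exact hK n hn

theorem kes : ∃ D : ℝ, 0 ≤ D ∧ ∃ k0 : ℕ, Kes y D (1 / 2) k0 := by
  have hmu := H981.mu_pos
  obtain ⟨D, hD, hr⟩ := RATIO_proof Pool.Agent.H739K.bnd 0 le_rfl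
  obtain ⟨N, hN⟩ := eventually_atTop.1
    (ratio_tend.eventually_const_lt (show H981.mu ^ 2 / 2 < H981.mu ^ 2 by
      have : 0 < H981.mu ^ 2 := by positivity
      linarith))
  set a := H981.mu ^ 2 / 2 with ha
  have ha0 : 0 < a := by positivity
  refine ⟨D / a ^ 2, by positivity, N + 2, fun k hk _ => ?_⟩
  have hk0 : (0 : ℝ) < k := by exact_mod_cast (show 0 < k by omega)
  have h1 := hr (2 * k - 1) (fun _ => 1) (by omega) (by omega) (F0_nice_one _)
  have e2 : ∀ n, mm (fun _ => 1) n = ((KP n).card : ℝ) := by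
    intro n
    unfold mm
    simp
  rw [e2, e2, e2, show 2 * k - 1 + 2 = 2 * (k + 1) - 1 by omega,
    show 2 * k - 1 + 4 = 2 * (k + 2) - 1 by omega, card_KP_eq CONV_proof (show 2 ≤ k by omega),
    card_KP_eq CONV_proof (show 2 ≤ k + 1 by omega),
    card_KP_eq CONV_proof (show 2 ≤ k + 2 by omega)] at h1
  have p0 := PP_pos (show 2 ≤ k by omega)
  have p1 := PP_pos (show 2 ≤ k + 1 by omega)
  have p2 := PP_pos (show 2 ≤ k + 2 by omega)
  have r1 := hN k (by omega)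
  have r2 := hN (k + 1) (by omega)
  rw [lt_div_iff₀ p0] at r1
  rw [lt_div_iff₀ p1, show k + 1 + 1 = k + 2 from rfl] at r2
  have r3 : a ^ 2 * H981.PP k ≤ H981.PP (k + 2) := by
    have := mul_le_mul_of_nonneg_left r1.le ha0.le
    nlinarith
  have hcast : (k : ℝ) ≤ ((2 * k - 1 : ℕ) : ℝ) := by exact_mod_cast (show k ≤ 2 * k - 1 by omega)
  set P0 := H981.PP k
  set P1 := H981.PP (k + 1)
  set P2 := H981.PP (k + 2)
  -- the inequality for the numbers
  have h2 : P1 ^ 2 ≤ P0 * P2 * (1 + D / a ^ 2 / k) := by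
    have h3 : D / ((2 * k - 1 : ℕ) : ℝ) * (4 * (k : ℝ) * P0) ^ 2 ≤
        (4 * (k : ℝ)) * (4 * ((k + 2 : ℕ) : ℝ)) * (P0 * P2 * (D / a ^ 2 / k)) := by
      have h4 : D / ((2 * k - 1 : ℕ) : ℝ) ≤ D / k := div_le_div_of_nonneg_left hD hk0 hcast
      have h5 : P0 ≤ P2 / a ^ 2 := by
        rw [le_div_iff₀ (by positivity)]
        linarith
      have h6 : (4 * (k : ℝ) * P0) ^ 2 ≤ (4 * (k : ℝ)) * (4 * ((k + 2 : ℕ) : ℝ)) *
          (P0 * (P2 / a ^ 2)) := by
        have h7 : P0 * P0 ≤ P0 * (P2 / a ^ 2) := mul_le_mul_of_nonneg_left h5 p0.le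
        have h8 : (4 * (k : ℝ)) * (4 * (k : ℝ)) ≤ (4 * (k : ℝ)) * (4 * ((k + 2 : ℕ) : ℝ)) := by
          push_cast
          nlinarith
        calc (4 * (k : ℝ) * P0) ^ 2 = (4 * (k : ℝ)) * (4 * (k : ℝ)) * (P0 * P0) := by ring
          _ ≤ (4 * (k : ℝ)) * (4 * ((k + 2 : ℕ) : ℝ)) * (P0 * (P2 / a ^ 2)) := by gcongr
      calc D / ((2 * k - 1 : ℕ) : ℝ) * (4 * (k : ℝ) * P0) ^ 2
          ≤ D / k * ((4 * (k : ℝ)) * (4 * ((k + 2 : ℕ) : ℝ)) * (P0 * (P2 / a ^ 2))) := by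
            gcongr
        _ = _ := by field_simp
    have h9 : (4 * (k : ℝ)) * (4 * ((k + 2 : ℕ) : ℝ)) ≤ (4 * ((k + 1 : ℕ) : ℝ)) ^ 2 := by
      push_cast
      nlinarith
    have h10 : (4 * ((k + 1 : ℕ) : ℝ)) ^ 2 * P1 ^ 2 ≤
        (4 * ((k + 1 : ℕ) : ℝ)) ^ 2 * (P0 * P2 * (1 + D / a ^ 2 / k)) := by
      calc (4 * ((k + 1 : ℕ) : ℝ)) ^ 2 * P1 ^ 2 = (4 * ((k + 1 : ℕ) : ℝ) * P1) ^ 2 := by ring
        _ ≤ 4 * (k : ℝ) * P0 * (4 * ((k + 2 : ℕ) : ℝ) * P2) +
            D / ((2 * k - 1 : ℕ) : ℝ) * (4 * (k : ℝ) * P0) ^ 2 := h1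
        _ ≤ 4 * (k : ℝ) * P0 * (4 * ((k + 2 : ℕ) : ℝ) * P2) +
            (4 * (k : ℝ)) * (4 * ((k + 2 : ℕ) : ℝ)) * (P0 * P2 * (D / a ^ 2 / k)) := by linarith
        _ = (4 * (k : ℝ)) * (4 * ((k + 2 : ℕ) : ℝ)) * (P0 * P2 * (1 + D / a ^ 2 / k)) := by ring
        _ ≤ _ := by gcongr
    exact le_of_mul_le_mul_left h10 (by positivity)
  unfold y
  have e3 : H981.mu ^ (2 * k) * H981.mu ^ (2 * (k + 2)) = (H981.mu ^ (2 * (k + 1))) ^ 2 := by
    rw [← pow_add, ← pow_mul]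
    congr 1
    ring
  rw [div_pow, div_mul_div_comm, e3, div_mul_eq_mul_div]
  exact div_le_div_of_nonneg_right h2 (by positivity)

theorem log_tend : Tendsto (fun n : ℕ => Real.log (y n) / n) atTop (𝓝 0) := by
  have hmu := H981.mu_pos
  -- successive ratios tend to one
  have h1 : Tendsto (fun n : ℕ => Real.log (y (n + 1)) - Real.log (y n)) atTop (𝓝 0) := by
    have h2 := (ratio_tend.div_const (H981.mu ^ 2))
    rw [div_self (by positivity)] at h2
    have h3 := h2.log one_ne_zero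
    rw [Real.log_one] at h3
    refine h3.congr' ?_
    filter_upwards [eventually_ge_atTop 2] with n hn
    have p0 := y_pos hn
    have p1 := y_pos (show 2 ≤ n + 1 by omega)
    rw [← Real.log_div p1.ne' p0.ne']
    congr 1
    unfold y
    rw [show 2 * (n + 1) = 2 * n + 2 by ring, pow_add]
    field_simp
  have h4 := h1.cesaro
  have h5 := h4.add (tendsto_const_div_atTop_nhds_zero_nat (Real.log (y 0)))
  rw [add_zero] at h5
  refine h5.congr' ?_
  filter_upwards [eventually_gt_atTop 0] with n hn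
  rw [Finset.sum_range_sub (fun i => Real.log (y i)) n]
  have : (n : ℝ) ≠ 0 := by exact_mod_cast hn.ne'
  field_simp
  ring

end Pool.Agent.X204.PG
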