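import Pool.Agent.TH966.KO.Rates
import Pool.Agent.H46R2.K3.EQ
import Pool.Agent.Y943.SL.Mk

/-!
# The assumptions `Wk` for self-avoiding walks on `ℤ³`
-/

set_option autoImplicit false

namespace Pool.Agent.X204.Z3

open Filter Topology

/-- the number of `n`-step self-avoiding nearest-neighbour walks on `ℤ³` from `0` -/
noncomputable def C (n : ℕ) : ℕ :=
  Nat.card {f : Fin (n + 1) → (Fin 3 → ℤ) //
    f 0 = 0 ∧ Function.Injective f ∧
    ∀ i : Fin n, ∑ j : Fin 3, |f i.succ j - f i.castSucc j| = 1}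

theorem C_eq (n : ℕ) : C n = Pool.Agent.H46R2.K3.c n := Pool.Agent.H46R2.K3.P.card_eq n

/-- the connective constant -/
noncomputable def mu : ℝ := Pool.Agent.H46R2.K3.mu

theorem mu_pos : 0 < mu := lt_of_lt_of_le one_pos Pool.Agent.H46R2.K3.P.one_le_mu

theorem tendsto_root : Tendsto (fun n : ℕ => (C n : ℝ) ^ (1 / (n : ℝ))) atTop (𝓝 mu) := by
  simp only [C_eq]
  exact Pool.Agent.H46R2.K3.P.tendsto_c

theorem wk3 : Pool.Agent.Y943.SL.Wk (fun n => (C n : ℝ)) mu := by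
  have hlow : ∀ n, mu ^ n ≤ (C n : ℝ) := fun n => by
    rw [C_eq]; exact Pool.Agent.H46R2.K3.P.mu_pow_le n
  have hpos : ∀ n, (0 : ℝ) < C n := fun n => lt_of_lt_of_le (pow_pos mu_pos n) (hlow n)
  refine Pool.Agent.Y943.SL.mk mu_pos hlow (fun m n => ?_) tendsto_root (mu ^ 2 / 2)
    (by have := mu_pos; positivity) ?_ ?_
  · have h := Pool.Agent.H46R2.K3.P.mu_c_add m n
    simp only [C_eq]
    exact_mod_cast h
  · obtain ⟨K, h⟩ := TH966.KO.rates (1 / 12) (by norm_num)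
    have hlim : Tendsto (fun k : ℕ => K * (k : ℝ) ^ (-(1 / 4 : ℝ))) atTop (𝓝 0) := by
      have := (tendsto_rpow_neg_atTop (show (0 : ℝ) < 1 / 4 by norm_num)).comp
        (tendsto_natCast_atTop_atTop (R := ℝ))
      simpa using this.const_mul K
    have hm2 : 0 < mu ^ 2 / 2 := by have := mu_pos; positivity
    filter_upwards [h, hlim.eventually_lt_const hm2] with n h1 h2
    have h3 := h1.1
    rw [show -(1 / 3 : ℝ) + 1 / 12 = -(1 / 4) by norm_num] at h3
    have h4 : mu ^ 2 / 2 ≤ (C (n + 2) : ℝ) / C n := by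
      rw [C_eq, C_eq]
      change -(K * (n : ℝ) ^ (-(1 / 4 : ℝ))) ≤
        (Pool.Agent.H46R2.K3.c (n + 2) : ℝ) / Pool.Agent.H46R2.K3.c n - mu ^ 2 at h3
      linarith
    rwa [le_div_iff₀ (hpos n)] at h4
  · obtain ⟨D, hD, h⟩ := TH966.KO.kesten
    refine ⟨D, hD, ?_⟩
    simp only [C_eq]
    exact h

end Pool.Agent.X204.Z3
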