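import Pool.Agent.X204.AVL
import Pool.Agent.X204.Z3
import Pool.Agent.W325.S3.Fin

/-!
# Geometric means for self-avoiding walks on `ℤ³`
-/

set_option autoImplicit false

namespace Pool.Agent.X204.Z3G

open Filter Topology Finset Pool.Agent.Y943.SL Pool.Agent.X204.AVG Pool.Agent.X204.AVF
  Pool.Agent.X204.Z3

theorem gr3 {ε : ℝ} (hε : 0 < ε) (hε1 : ε ≤ 1 / 3) :
    ∃ K' : ℝ, 1 ≤ K' ∧ Gr (fun n => (C n : ℝ)) mu (fun m => K' * ((m : ℝ) + 1) ^ (1 / 3 + ε)) 8 := by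
  obtain ⟨K, hK⟩ := Pool.Agent.W325.S3.c_third ε hε
  exact Pool.Agent.X204.AVL.gr_pow (K := K) wk3 (by linarith) (by linarith)
    (fun n => by rw [C_eq]; exact hK n)

theorem conv {K' ε : ℝ} (hK : 1 ≤ K') (hε : 0 < ε) (hε1 : ε ≤ 1 / 3) (M : ℕ) (hM : 1 ≤ M) :
    K' * ((M : ℝ) + 1) ^ (1 / 3 + ε) / M ≤ 2 * K' * (M : ℝ) ^ (-(2 / 3 : ℝ) + ε) := by
  have hM0 : (0 : ℝ) < M := by exact_mod_cast hM
  have hM1 : (1 : ℝ) ≤ M := by exact_mod_cast hM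
  have h1 : ((M : ℝ) + 1) ^ (1 / 3 + ε) ≤ 2 * (M : ℝ) ^ (1 / 3 + ε) := by
    calc ((M : ℝ) + 1) ^ (1 / 3 + ε) ≤ (2 * (M : ℝ)) ^ (1 / 3 + ε) :=
          Real.rpow_le_rpow (by linarith) (by linarith) (by linarith)
      _ = 2 ^ (1 / 3 + ε) * (M : ℝ) ^ (1 / 3 + ε) := Real.mul_rpow (by norm_num) hM0.le
      _ ≤ 2 ^ (1 : ℝ) * (M : ℝ) ^ (1 / 3 + ε) := by
          refine mul_le_mul_of_nonneg_right ?_ (by positivity)
          exact Real.rpow_le_rpow_of_exponent_le (by norm_num) (by linarith)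
      _ = _ := by rw [Real.rpow_one]
  have h2 : (M : ℝ) ^ (-(2 / 3 : ℝ) + ε) = (M : ℝ) ^ (1 / 3 + ε) / M := by
    rw [show -(2 / 3 : ℝ) + ε = (1 / 3 + ε) - 1 by ring, Real.rpow_sub_one hM0.ne']
  rw [h2, ← mul_div_assoc]
  refine div_le_div_of_nonneg_right ?_ hM0.le
  nlinarith

theorem expo_le {a b : ℝ} (h : a ≤ b) (M : ℕ) (hM : 1 ≤ M) : (M : ℝ) ^ a ≤ (M : ℝ) ^ b :=
  Real.rpow_le_rpow_of_exponent_le (by exact_mod_cast hM) h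

/-- geometric means -/
theorem mean3 (ε : ℝ) (hε : 0 < ε) : ∃ K : ℝ, 0 ≤ K ∧ ∀ M n : ℕ, 1 ≤ n → n ≤ M →
    |Real.log (G (fun n => (C n : ℝ)) M n) + Real.log ((C n : ℝ) / mu ^ n)| ≤
      K * (n * (M : ℝ) ^ (-(2 / 3 : ℝ) + ε)) := by
  have hm : 0 < min ε (1 / 3) := lt_min hε (by norm_num)
  obtain ⟨K', hK', H⟩ := gr3 hm (min_le_right _ _)
  refine ⟨16 * K', by linarith, fun M n hn hnM => ?_⟩
  have h1 := mean_bound wk3 H M n hn hnM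
  have h2 := conv hK' hm (min_le_right _ _) M (by omega)
  have h3 := expo_le (show -(2 / 3 : ℝ) + min ε (1 / 3) ≤ -(2 / 3 : ℝ) + ε by
    linarith [min_le_left ε (1 / 3)]) M (by omega)
  refine h1.trans ?_
  have hn0 : (0 : ℝ) ≤ n := Nat.cast_nonneg n
  calc 8 * ((n : ℝ) / M * (K' * ((M : ℝ) + 1) ^ (1 / 3 + min ε (1 / 3))))
      = 8 * n * (K' * ((M : ℝ) + 1) ^ (1 / 3 + min ε (1 / 3)) / M) := by ring
    _ ≤ 8 * n * (2 * K' * (M : ℝ) ^ (-(2 / 3 : ℝ) + min ε (1 / 3))) :=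
        mul_le_mul_of_nonneg_left h2 (by positivity)
    _ ≤ 8 * n * (2 * K' * (M : ℝ) ^ (-(2 / 3 : ℝ) + ε)) := by
        refine mul_le_mul_of_nonneg_left (mul_le_mul_of_nonneg_left h3 (by linarith))
          (by positivity)
    _ = _ := by ring

theorem sqrt_conv {K' ε : ℝ} (hK : 1 ≤ K') (hε : 0 < ε) (hε1 : ε ≤ 1 / 3) (M : ℕ) (hM : 1 ≤ M) :
    √(K' * ((M : ℝ) + 1) ^ (1 / 3 + ε) / M) ≤ 2 * K' * (M : ℝ) ^ (-(1 / 3 : ℝ) + ε / 2) := by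
  have hM0 : (0 : ℝ) < M := by exact_mod_cast hM
  have h1 := Real.sqrt_le_sqrt (conv hK hε hε1 M hM)
  refine h1.trans ?_
  have h2 : √(2 * K' * (M : ℝ) ^ (-(2 / 3 : ℝ) + ε)) =
      √(2 * K') * (M : ℝ) ^ (-(1 / 3 : ℝ) + ε / 2) := by
    rw [Real.sqrt_mul (by linarith), Real.sqrt_eq_rpow ((M : ℝ) ^ _), ← Real.rpow_mul hM0.le]
    congr 2
    ring
  rw [h2]
  refine mul_le_mul_of_nonneg_right ?_ (by positivity)
  rw [Real.sqrt_le_left (by linarith)]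
  nlinarith

/-- one probability, of walks with nearly the optimal length -/
theorem point3 (ε : ℝ) (hε : 0 < ε) : ∃ K : ℝ, 0 ≤ K ∧ ∀ᶠ M : ℕ in atTop, ∀ n : ℕ, 1 ≤ n →
    n ≤ M → n % 2 = 0 → ∃ N : ℕ, M ≤ N ∧ N < 2 * M ∧
      |Real.log (P (fun n => (C n : ℝ)) N n) + Real.log ((C n : ℝ) / mu ^ n)| ≤
        K * (n * (M : ℝ) ^ (-(2 / 3 : ℝ) + ε) + (M : ℝ) ^ (-(1 / 3 : ℝ) + ε)) := by
  have hm : 0 < min ε (1 / 3) := lt_min hε (by norm_num)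
  obtain ⟨K', hK', H⟩ := gr3 hm (min_le_right _ _)
  obtain ⟨R, hR, h⟩ := point_bound wk3 H
  refine ⟨R * (2 * K'), by positivity, ?_⟩
  filter_upwards [h, eventually_ge_atTop 1] with M hM hM1 n hn1 hn2 hn3
  obtain ⟨N, a1, a2, a3⟩ := hM n hn1 hn2 hn3
  refine ⟨N, a1, a2, a3.trans ?_⟩
  have h2 := conv hK' hm (min_le_right _ _) M (by omega)
  have h2' := sqrt_conv hK' hm (min_le_right _ _) M (by omega)
  have h3 := expo_le (show -(2 / 3 : ℝ) + min ε (1 / 3) ≤ -(2 / 3 : ℝ) + ε by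
    linarith [min_le_left ε (1 / 3)]) M (by omega)
  have h3' := expo_le (show -(1 / 3 : ℝ) + min ε (1 / 3) / 2 ≤ -(1 / 3 : ℝ) + ε by
    linarith [min_le_left ε (1 / 3)]) M (by omega)
  have hn0 : (0 : ℝ) ≤ n := Nat.cast_nonneg n
  calc R * ((n : ℝ) / M * (K' * ((M : ℝ) + 1) ^ (1 / 3 + min ε (1 / 3))) +
        √(K' * ((M : ℝ) + 1) ^ (1 / 3 + min ε (1 / 3)) / M))
      = R * (n * (K' * ((M : ℝ) + 1) ^ (1 / 3 + min ε (1 / 3)) / M) +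
        √(K' * ((M : ℝ) + 1) ^ (1 / 3 + min ε (1 / 3)) / M)) := by ring
    _ ≤ R * (n * (2 * K' * (M : ℝ) ^ (-(2 / 3 : ℝ) + min ε (1 / 3))) +
        2 * K' * (M : ℝ) ^ (-(1 / 3 : ℝ) + min ε (1 / 3) / 2)) := by gcongr
    _ ≤ R * (n * (2 * K' * (M : ℝ) ^ (-(2 / 3 : ℝ) + ε)) +
        2 * K' * (M : ℝ) ^ (-(1 / 3 : ℝ) + ε)) := by
        have : (0 : ℝ) ≤ 2 * K' := by linarith
        gcongr
    _ = _ := by ring

/-- all long walks -/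
theorem long3 (ε : ℝ) (hε : 0 < ε) : ∃ K : ℝ, 0 ≤ K ∧ ∀ᶠ N : ℕ in atTop, ∀ n : ℕ, n % 2 = 0 →
    |Real.log (P (fun n => (C n : ℝ)) N n) + Real.log ((C n : ℝ) / mu ^ n)| ≤
      K * (n * (N : ℝ) ^ (-(1 / 3 : ℝ) + ε)) := by
  have hm : 0 < min ε (1 / 3) := lt_min hε (by norm_num)
  obtain ⟨K', hK', H⟩ := gr3 hm (min_le_right _ _)
  obtain ⟨R, hR, h⟩ := steps wk3 H
  obtain ⟨N0, hN0⟩ := eventually_atTop.1 h
  refine ⟨R * (2 * K'), by positivity, ?_⟩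
  filter_upwards [eventually_ge_atTop (N0 + 1)] with N hN n hn
  have hN1 : (1 : ℝ) ≤ N := by exact_mod_cast (show 1 ≤ N by omega)
  obtain ⟨k, rfl⟩ : ∃ k, n = 2 * k := ⟨n / 2, by omega⟩
  set b : ℝ := R * (2 * K' * (N : ℝ) ^ (-(1 / 3 : ℝ) + min ε (1 / 3) / 2)) with hb
  have hb0 : 0 ≤ b := by positivity
  have hstep : ∀ m : ℕ, N ≤ m → |Real.log ((C (m + 2) : ℝ) / mu ^ (m + 2)) -
      Real.log ((C m : ℝ) / mu ^ m)| ≤ b := by
    intro m hm'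
    refine (hN0 m (by omega) m le_rfl (by omega)).trans ?_
    rw [hb]
    refine mul_le_mul_of_nonneg_left ?_ hR
    refine (sqrt_conv hK' hm (min_le_right _ _) m (by omega)).trans ?_
    refine mul_le_mul_of_nonneg_left ?_ (by linarith)
    refine Real.rpow_le_rpow_of_nonpos (by linarith) (by exact_mod_cast hm') ?_
    linarith [min_le_right ε (1 / 3)]
  have hsum : ∀ k : ℕ, |Real.log ((C (N + 2 * k) : ℝ) / mu ^ (N + 2 * k)) -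
      Real.log ((C N : ℝ) / mu ^ N)| ≤ k * b := by
    intro k
    induction k with
    | zero => simp
    | succ k ih =>
      have h1 := hstep (N + 2 * k) (by omega)
      rw [show N + 2 * (k + 1) = N + 2 * k + 2 by ring]
      push_cast
      rw [abs_le] at h1 ih ⊢
      constructor <;> linarith [h1.1, h1.2, ih.1, ih.2]
  rw [AVG.log_P wk3.hμ wk3.cpos]
  have e : ∀ x y z : ℝ, x - y - z + z = x - y := fun x y z => by ring
  rw [e]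
  refine (hsum k).trans ?_
  have h3 := expo_le (show -(1 / 3 : ℝ) + min ε (1 / 3) / 2 ≤ -(1 / 3 : ℝ) + ε by
    linarith [min_le_left ε (1 / 3)]) N (by omega)
  have hk0 : (0 : ℝ) ≤ k := Nat.cast_nonneg k
  have h4 : b ≤ R * (2 * K' * (N : ℝ) ^ (-(1 / 3 : ℝ) + ε)) := by
    rw [hb]
    have : (0 : ℝ) ≤ 2 * K' := by linarith
    gcongr
  have h5 : 0 ≤ R * (2 * K' * (N : ℝ) ^ (-(1 / 3 : ℝ) + ε)) := by positivity
  push_cast
  calc (k : ℝ) * b ≤ k * (R * (2 * K' * (N : ℝ) ^ (-(1 / 3 : ℝ) + ε))) :=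
        mul_le_mul_of_nonneg_left h4 hk0
    _ ≤ 2 * k * (R * (2 * K' * (N : ℝ) ^ (-(1 / 3 : ℝ) + ε))) :=
        mul_le_mul_of_nonneg_right (by linarith) h5
    _ = _ := by ring

end Pool.Agent.X204.Z3G
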